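import Pool.Agent.E8T.X3
import Pool.Agent.T5X.A3

/-!
# [E8T3-A] the weight two series of level `81` and the divisor sums modulo `3 ^ 7`

`Us = C(q³)`, `Vs = a(q⁹)`. For every series `g` with `g (Vs - 9 Us(q³)) = C² (Vs - 3 Us)` and every
`n = 2 mod 3`, `81 (3 [C² Us]_n + g_n)` is congruent to a combination of divisor sums modulo `3 ^ 7`.
-/

set_option autoImplicit false

open PowerSeries
open N19 (ex)
open NC11 (D)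
open E8T

namespace E8T3

noncomputable def Us : PowerSeries ℤ := ex 3 Cs

noncomputable def Vs : PowerSeries ℤ := ex 3 As

theorem z3 : (0 : ℕ) < 3 := by norm_num

theorem ex3_one : ex 3 (1 : PowerSeries ℤ) = 1 := by
  have h := E8X.ex_ofNat z3 (1 : ℤ)
  rwa [map_one] at h

theorem ex3_num (c : ℕ) [c.AtLeastTwo] :
    ex 3 (ofNat(c) : PowerSeries ℤ) = ofNat(c) := by
  have h := E8X.ex_ofNat z3 (OfNat.ofNat c : ℤ)
  have e : (C (OfNat.ofNat c : ℤ) : PowerSeries ℤ) = (OfNat.ofNat c : PowerSeries ℤ) := map_ofNat _ c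
  rwa [e] at h

theorem ex3_sub (f g : PowerSeries ℤ) : ex 3 (f - g) = ex 3 f - ex 3 g := x1_ex_sub f g

theorem a_eq : As = Vs + 6 * Us := by
  conv_lhs => rw [As_eq, aS_eq', E8X.ex_add, E8X.ex_mul z3, ex3_num]
  rfl

theorem c_cube : Cs ^ 3 = Us * (Vs ^ 2 + 3 * Vs * Us + 9 * Us ^ 2) := by
  rw [C_cubic]
  simp only [E8X.ex_mul z3, E8X.ex_add, E8X.ex_pow z3, ex3_num]
  rfl

theorem D_ex3 (f : PowerSeries ℤ) : D (ex 3 f) = 3 * ex 3 (D f) := by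
  rw [D_ex z3]
  rfl

theorem bracket3 : Vs * D Us - Us * D Vs = 3 * Us * (Vs ^ 3 - 27 * Us ^ 3) := by
  have h := congrArg (ex 3) bracket
  simp only [E8X.ex_mul z3, ex3_sub, E8X.ex_pow z3, ex3_num] at h
  rw [Us, Vs, D_ex3, D_ex3]
  linear_combination 3 * h

theorem D_num_mul (c : ℕ) [c.AtLeastTwo] (f : PowerSeries ℤ) :
    D ((ofNat(c) : PowerSeries ℤ) * f) = ofNat(c) * D f := by
  have e : (C (OfNat.ofNat c : ℤ) : PowerSeries ℤ) = (OfNat.ofNat c : PowerSeries ℤ) := map_ofNat _ c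
  rw [← e, D_mul, D_C, zero_mul, zero_add]

theorem D_num (c : ℕ) [c.AtLeastTwo] : D (ofNat(c) : PowerSeries ℤ) = 0 := by
  have e : (C (OfNat.ofNat c : ℤ) : PowerSeries ℤ) = (OfNat.ofNat c : PowerSeries ℤ) := map_ofNat _ c
  rw [← e, D_C]

theorem D_a : D As = D Vs + 6 * D Us := by
  conv_lhs => rw [a_eq]
  rw [D_add, D_num_mul]

theorem Cs_const : constantCoeff (R := ℤ) Cs = 0 := by
  rw [← coeff_zero_eq_constantCoeff_apply]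
  exact Cs_zero

theorem As_const : constantCoeff (R := ℤ) As = 1 := by
  rw [← coeff_zero_eq_constantCoeff_apply]
  exact As_zero

theorem ex3_const (f : PowerSeries ℤ) : constantCoeff (R := ℤ) (ex 3 f) = constantCoeff (R := ℤ) f := by
  rw [← coeff_zero_eq_constantCoeff_apply, ← coeff_zero_eq_constantCoeff_apply, ex, coeff_mk]
  simp

theorem Vs_const : constantCoeff (R := ℤ) Vs = 1 := by
  rw [Vs, ex3_const, As_const]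

theorem As_ne : As ≠ 0 := by
  intro h
  have := As_const
  rw [h, map_zero] at this
  norm_num at this

theorem Vs_ne : Vs ≠ 0 := by
  intro h
  have := Vs_const
  rw [h, map_zero] at this
  norm_num at this

/-- the logarithmic derivative of `C` -/
theorem D_c : Vs * D Cs = Cs * (D Vs + (Vs ^ 3 + 3 * Us * Vs ^ 2 + 9 * Us ^ 2 * Vs - 81 * Us ^ 3)) := by
  have h1 := bracket
  have h2 := bracket3
  have h3 := c_cube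
  rw [D_a] at h1
  have h4 : As * (Vs * D Cs - Cs * (D Vs + (Vs ^ 3 + 3 * Us * Vs ^ 2 + 9 * Us ^ 2 * Vs - 81 * Us ^ 3))) = 0 := by
    have ha := a_eq
    rw [ha] at h1 ⊢
    linear_combination Vs * h1 + 6 * Cs * h2 - 27 * Vs * Cs * h3
  rcases mul_eq_zero.1 h4 with h5 | h5
  · exact absurd h5 As_ne
  · exact sub_eq_zero.1 h5

theorem D_aS : D aS = 6 * D Cs + 3 * ex 3 (D aS) := by
  have h1 : D aS = D As + 6 * D Cs := by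
    conv_lhs => rw [aS_eq', D_add, D_num_mul]
  have h2 : D As = 3 * ex 3 (D aS) := by
    conv_lhs => rw [As_eq]
    rw [D_ex3]
  rw [h2] at h1
  linear_combination h1

theorem Us_cube : ∃ M : PowerSeries ℤ, ex 3 Us = Us ^ 3 + 3 * M := by
  obtain ⟨B, hB⟩ := As_mod
  have h := congrArg (ex 3) c_cube
  have hv : ex 3 Vs = 1 + 3 * ex 3 (ex 3 B) := by
    rw [Vs, hB, E8X.ex_add, E8X.ex_mul z3, ex3_one, ex3_num 3, E8X.ex_add, E8X.ex_mul z3, ex3_one,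
      ex3_num 3]
  simp only [E8X.ex_mul z3, E8X.ex_add, E8X.ex_pow z3, ex3_num, hv] at h
  set b := ex 3 (ex 3 B)
  set w := ex 3 Us
  have h2 : Us ^ 3 = w * ((1 + 3 * b) ^ 2 + 3 * (1 + 3 * b) * w + 9 * w ^ 2) := h
  refine ⟨-(w * (2 * b + 3 * b ^ 2 + (1 + 3 * b) * w + 3 * w ^ 2)), ?_⟩
  rw [h2]
  ring

/-- `D (D C) = D C` modulo `3` -/
theorem DD_c : ∃ M : PowerSeries ℤ, D (D Cs) = D Cs + 3 * M := by
  refine ⟨PowerSeries.mk fun n => ((n : ℤ) * ((n : ℤ) - 1) * coeff n Cs) / 3, ?_⟩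
  ext n
  have h3 : (3 : ℤ) ∣ (n : ℤ) * ((n : ℤ) - 1) * coeff n Cs := by
    by_cases hn : n % 3 = 1
    · have : (3 : ℤ) ∣ (n : ℤ) - 1 := by omega
      exact (this.mul_left _).mul_right _
    · rw [d1_Cs n (by omega), mul_zero]
      exact dvd_zero _
  rw [map_add, show (3 : PowerSeries ℤ) = C 3 from rfl, coeff_C_mul, coeff_mk, Int.mul_ediv_cancel' h3]
  simp only [D, coeff_mk]
  ring

theorem D_v : ∃ N1 N2 : PowerSeries ℤ, D Vs = 27 * (2 * Us ^ 3 + 3 * N1) ∧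
    D (D Vs) = 243 * (2 * Us ^ 3 + 3 * N2) := by
  obtain ⟨M, hM⟩ := ex3_DCs
  obtain ⟨M2, hM2⟩ := DD_c
  have e1 : Vs = ex 3 (ex 3 aS) := by rw [Vs, As_eq]
  have h9 : ex 3 (ex 3 (D Cs)) = Us ^ 3 + 3 * ex 3 M := by
    rw [hM, E8X.ex_add, E8X.ex_mul z3, ex3_num, E8X.ex_pow z3]
    rfl
  have h1 : D Vs = 27 * (2 * ex 3 (ex 3 (D Cs)) + ex 3 (ex 3 (ex 3 (D aS)))) := by
    rw [e1, D_ex3, D_ex3, E8X.ex_mul z3, ex3_num]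
    conv_lhs => rw [D_aS]
    simp only [E8X.ex_add, E8X.ex_mul z3, ex3_num]
    ring
  have h2 : ex 3 (ex 3 (ex 3 (D aS))) = 3 * ex 3 (ex 3 (ex 3 (2 * D Cs + ex 3 (D aS)))) := by
    conv_lhs => rw [D_aS]
    simp only [E8X.ex_add, E8X.ex_mul z3, ex3_num]
    ring
  have h3 : D (D Vs) = 243 * (2 * ex 3 (ex 3 (D (D Cs))) + 3 * ex 3 (ex 3 (ex 3 (D (D aS))))) := by
    rw [h1, D_num_mul, D_add, D_num_mul]
    simp only [D_ex3, E8X.ex_mul z3, ex3_num]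
    ring
  refine ⟨2 * ex 3 M + ex 3 (ex 3 (ex 3 (2 * D Cs + ex 3 (D aS)))),
    2 * ex 3 M + 2 * ex 3 (ex 3 M2) + ex 3 (ex 3 (ex 3 (D (D aS)))), ?_, ?_⟩
  · rw [h1, h2, h9]
    ring
  · rw [h3, hM2]
    simp only [E8X.ex_add, E8X.ex_mul z3, ex3_num]
    rw [h9]
    ring

/-- the combination of divisor sums, as a series -/
noncomputable def Es : PowerSeries ℤ :=
  33 * (As ^ 4 * Cs ^ 2) + 2268 * (As * Cs ^ 5) + 72 * D (As ^ 2 * Cs ^ 2) + 189 * (As ^ 2 * Cs ^ 2) +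
    138 * D (D (Cs ^ 2)) + 270 * D (Cs ^ 2) + 810 * Cs ^ 2

theorem unit_of {f : PowerSeries ℤ} (h : constantCoeff (R := ℤ) f = 1) : ∃ g : PowerSeries ℤ, f * g = 1 := by
  have : IsUnit f := by
    rw [PowerSeries.isUnit_iff_constantCoeff, h]
    exact isUnit_one
  obtain ⟨w, hw⟩ := this
  exact ⟨↑w⁻¹, by rw [← hw, Units.mul_inv]⟩

theorem Vs_mod : ∃ B : PowerSeries ℤ, Vs = 1 + 3 * B := by
  obtain ⟨B, hB⟩ := As_mod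
  refine ⟨ex 3 B, ?_⟩
  rw [Vs, hB, E8X.ex_add, E8X.ex_mul z3, ex3_one, ex3_num 3]

theorem Es_mod {B : PowerSeries ℤ} (hB : Vs = 1 + 3 * B) :
    ∃ Q : PowerSeries ℤ, Es = Cs ^ 2 * (81 + 729 * (Us * B + Us ^ 3)) + 2187 * Q := by
  obtain ⟨N1, N2, h1, h2⟩ := D_v
  have hc := c_cube
  have ha := a_eq
  have hDa := D_a
  have hDc := D_c
  have hDu := bracket3
  -- D (C^2)
  have g1 : D (Cs ^ 2) = 2 * Cs * D Cs := by
    rw [pow_two, D_mul]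
    ring
  have g2 : D (As ^ 2 * Cs ^ 2) = 2 * As * Cs ^ 2 * D As + As ^ 2 * (2 * Cs * D Cs) := by
    rw [D_mul, g1, pow_two, D_mul]
    ring
  -- v D(D(C^2)) + Dv D(C^2)
  have g3 : Vs * D (Cs ^ 2) = 2 * (Cs ^ 2 * (D Vs + (Vs ^ 3 + 3 * Us * Vs ^ 2 + 9 * Us ^ 2 * Vs - 81 * Us ^ 3))) := by
    rw [g1]
    linear_combination 2 * Cs * hDc
  have g4 : Vs * D (D (Cs ^ 2)) + D Vs * D (Cs ^ 2) = 2 * (D (Cs ^ 2) * (D Vs + (Vs ^ 3 + 3 * Us * Vs ^ 2 +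
      9 * Us ^ 2 * Vs - 81 * Us ^ 3)) + Cs ^ 2 * (D (D Vs) + (3 * Vs ^ 2 * D Vs + 3 * Vs ^ 2 * D Us +
      6 * Us * Vs * D Vs + 9 * Us ^ 2 * D Vs + 18 * Us * Vs * D Us - 243 * Us ^ 2 * D Us))) := by
    have h := congrArg D g3
    have hG : D (Vs ^ 3 + 3 * Us * Vs ^ 2 + 9 * Us ^ 2 * Vs - 81 * Us ^ 3) = 3 * Vs ^ 2 * D Vs + 3 * Vs ^ 2 * D Us +
      6 * Us * Vs * D Vs + 9 * Us ^ 2 * D Vs + 18 * Us * Vs * D Us - 243 * Us ^ 2 * D Us := by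
      have e0 : Vs ^ 3 + 3 * Us * Vs ^ 2 + 9 * Us ^ 2 * Vs - 81 * Us ^ 3 =
          Vs * (Vs * Vs) + 3 * (Us * (Vs * Vs)) + 9 * (Us * (Us * Vs)) + 81 * (Us * (Us * (- Us))) := by ring
      have e1 : D (-Us) = - D Us := by
        ext n
        simp [D]
      rw [e0]
      simp only [D_add, D_mul, D_num, e1]
      ring
    rw [D_mul, D_num_mul, D_mul, D_add, hG] at h
    linear_combination h
  obtain ⟨w, hw⟩ := unit_of Vs_const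
  have hA : Vs * D (As ^ 2 * Cs ^ 2) = 2 * Cs ^ 2 * (As ^ 2 * (D Vs + (Vs ^ 3 + 3 * Us * Vs ^ 2 +
      9 * Us ^ 2 * Vs - 81 * Us ^ 3)) + As * (As * D Vs + 18 * Us * (Vs ^ 3 - 27 * Us ^ 3))) := by
    have e1 : Vs * D As = As * D Vs + 18 * Us * (Vs ^ 3 - 27 * Us ^ 3) := by
      rw [hDa]
      linear_combination 6 * hDu - D Vs * ha
    rw [g2]
    linear_combination 2 * As * Cs ^ 2 * e1 + 2 * As ^ 2 * Cs * hDc
  have hBB : Vs ^ 2 * D (D (Cs ^ 2)) = 2 * Cs ^ 2 * ((D Vs + (Vs ^ 3 + 3 * Us * Vs ^ 2 +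
      9 * Us ^ 2 * Vs - 81 * Us ^ 3)) * (D Vs + 2 * (Vs ^ 3 + 3 * Us * Vs ^ 2 + 9 * Us ^ 2 * Vs - 81 * Us ^ 3)) +
      (Vs * D (D Vs) + 3 * Vs ^ 3 * D Vs + 6 * Us * Vs ^ 2 * D Vs + 9 * Us ^ 2 * Vs * D Vs +
      (3 * Vs ^ 2 + 18 * Us * Vs - 243 * Us ^ 2) * (Us * (D Vs + 3 * (Vs ^ 3 - 27 * Us ^ 3))))) := by
    linear_combination Vs * g4 + (2 * (D Vs + (Vs ^ 3 + 3 * Us * Vs ^ 2 + 9 * Us ^ 2 * Vs - 81 * Us ^ 3)) -
      D Vs) * g3 + 2 * Cs ^ 2 * (3 * Vs ^ 2 + 18 * Us * Vs - 243 * Us ^ 2) * hDu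
  have key0 : Vs ^ 2 * Es = Cs ^ 2 * (Vs ^ 2 * (33 * As ^ 4 + 2268 * As * (Us * (Vs ^ 2 + 3 * Vs * Us +
      9 * Us ^ 2)) + 189 * As ^ 2 + 810) + 144 * Vs * (As ^ 2 * (D Vs + (Vs ^ 3 + 3 * Us * Vs ^ 2 +
      9 * Us ^ 2 * Vs - 81 * Us ^ 3)) + As * (As * D Vs + 18 * Us * (Vs ^ 3 - 27 * Us ^ 3))) +
      276 * ((D Vs + (Vs ^ 3 + 3 * Us * Vs ^ 2 +
      9 * Us ^ 2 * Vs - 81 * Us ^ 3)) * (D Vs + 2 * (Vs ^ 3 + 3 * Us * Vs ^ 2 + 9 * Us ^ 2 * Vs - 81 * Us ^ 3)) +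
      (Vs * D (D Vs) + 3 * Vs ^ 3 * D Vs + 6 * Us * Vs ^ 2 * D Vs + 9 * Us ^ 2 * Vs * D Vs +
      (3 * Vs ^ 2 + 18 * Us * Vs - 243 * Us ^ 2) * (Us * (D Vs + 3 * (Vs ^ 3 - 27 * Us ^ 3))))) +
      540 * Vs * (D Vs + (Vs ^ 3 + 3 * Us * Vs ^ 2 + 9 * Us ^ 2 * Vs - 81 * Us ^ 3))) := by
    rw [Es]
    linear_combination 72 * Vs * hA + 138 * hBB + 270 * Vs * g3 + 2268 * Vs ^ 2 * As * Cs ^ 2 * hc
  have key : Vs ^ 2 * (Es - Cs ^ 2 * (81 + 729 * (Us * B + Us ^ 3))) = 2187 * (Cs ^ 2 * (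
      1 + 92 * N2 + 92 * N1 + 828 * N1 ^ 2 + 12 * B + 276 * B * N2 + 708 * B * N1 + 66 * B ^ 2 +
      1944 * B ^ 2 * N1 + 216 * B ^ 3 + 1944 * B ^ 3 * N1 + 432 * B ^ 4 + 486 * B ^ 5 + 243 * B ^
      6 + 8 * Us + 312 * Us * N1 + 109 * Us * B + 1872 * Us * B * N1 + 606 * Us * B ^ 2 + 2808 *
      Us * B ^ 2 * N1 + 1725 * Us * B ^ 3 + 2520 * Us * B ^ 4 + 1512 * Us * B ^ 5 + 44 * Us ^ 2 +
      936 * Us ^ 2 * N1 + 496 * Us ^ 2 * B + 2808 * Us ^ 2 * B * N1 + 2136 * Us ^ 2 * B ^ 2 + 4176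
      * Us ^ 2 * B ^ 3 + 3132 * Us ^ 2 * B ^ 4 + 33 * Us ^ 3 - 3864 * Us ^ 3 * N1 - 30 * Us ^ 3 *
      B - 579 * Us ^ 3 * B ^ 2 - 576 * Us ^ 3 * B ^ 3 + 76 * Us ^ 4 + 456 * Us ^ 4 * B + 684 * Us
      ^ 4 * B ^ 2 - 312 * Us ^ 5 - 936 * Us ^ 5 * B + 1196 * Us ^ 6)) := by
    rw [mul_sub, key0, h2, h1, ha, hB]
    ring
  refine ⟨w ^ 2 * (Cs ^ 2 * (
      1 + 92 * N2 + 92 * N1 + 828 * N1 ^ 2 + 12 * B + 276 * B * N2 + 708 * B * N1 + 66 * B ^ 2 +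
      1944 * B ^ 2 * N1 + 216 * B ^ 3 + 1944 * B ^ 3 * N1 + 432 * B ^ 4 + 486 * B ^ 5 + 243 * B ^
      6 + 8 * Us + 312 * Us * N1 + 109 * Us * B + 1872 * Us * B * N1 + 606 * Us * B ^ 2 + 2808 *
      Us * B ^ 2 * N1 + 1725 * Us * B ^ 3 + 2520 * Us * B ^ 4 + 1512 * Us * B ^ 5 + 44 * Us ^ 2 +
      936 * Us ^ 2 * N1 + 496 * Us ^ 2 * B + 2808 * Us ^ 2 * B * N1 + 2136 * Us ^ 2 * B ^ 2 + 4176
      * Us ^ 2 * B ^ 3 + 3132 * Us ^ 2 * B ^ 4 + 33 * Us ^ 3 - 3864 * Us ^ 3 * N1 - 30 * Us ^ 3 *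
      B - 579 * Us ^ 3 * B ^ 2 - 576 * Us ^ 3 * B ^ 3 + 76 * Us ^ 4 + 456 * Us ^ 4 * B + 684 * Us
      ^ 4 * B ^ 2 - 312 * Us ^ 5 - 936 * Us ^ 5 * B + 1196 * Us ^ 6)), ?_⟩
  have hw2 : Vs ^ 2 * w ^ 2 = 1 := by
    rw [← mul_pow, hw, one_pow]
  linear_combination w ^ 2 * key - (Es - Cs ^ 2 * (81 + 729 * (Us * B + Us ^ 3))) * hw2

end E8T3
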