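import Pool.Agent.E8T3.A

/-!
# [E8T3-B] the congruence modulo `3 ^ 7` between the weight two series and divisor sums
-/

set_option autoImplicit false

open PowerSeries
open N19 (ex)
open NC11 (D)
open E8T

namespace E8T3

theorem D_sub (f g : PowerSeries ℤ) : D (f - g) = D f - D g := by
  ext n
  simp only [D, coeff_mk, map_sub]
  ring

theorem coeff_D (f : PowerSeries ℤ) (n : ℕ) : coeff n (D f) = (n : ℤ) * coeff n f := by
  rw [D, coeff_mk]

theorem coeff_num (c : ℕ) [c.AtLeastTwo] (n : ℕ) (f : PowerSeries ℤ) :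
    coeff n ((ofNat(c) : PowerSeries ℤ) * f) = ofNat(c) * coeff n f := x3_num c n f

/-- `E₂` in terms of the theta series -/
theorem E2_AC : As * (1 - 24 * E8X.Sg 1) =
    12 * D As + As ^ 3 - 24 * As ^ 2 * Cs - 72 * As * Cs ^ 2 - 324 * Cs ^ 3 := by
  have h1 : D E8X.Dl = (1 - 24 * E8X.Sg 1) * E8X.Dl := T5X.D_Dl
  have h2 := Dl_AC
  have hD : D E8X.Dl = (D Cs * (As ^ 2 + 3 * As * Cs + 9 * Cs ^ 2) + Cs * (2 * As * D As +
      3 * (D As * Cs + As * D Cs) + 18 * Cs * D Cs)) * (As - 3 * Cs) ^ 9 +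
      Cs * (As ^ 2 + 3 * As * Cs + 9 * Cs ^ 2) * (9 * (As - 3 * Cs) ^ 8 * (D As - 3 * D Cs)) := by
    have e1 : D ((As - 3 * Cs) ^ 9) = 9 * (As - 3 * Cs) ^ 8 * (D As - 3 * D Cs) := by
      rw [show (9 : ℕ) = 8 + 1 from rfl, T5X.Dg_pow, D_sub, D_num_mul]
      push_cast
      ring
    have e2 : D (As ^ 2 + 3 * As * Cs + 9 * Cs ^ 2) = 2 * As * D As +
      3 * (D As * Cs + As * D Cs) + 18 * Cs * D Cs := by
      rw [show As ^ 2 + 3 * As * Cs + 9 * Cs ^ 2 = As * As + 3 * (As * Cs) + 9 * (Cs * Cs) by ring]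
      simp only [D_add, D_num_mul, D_mul]
      ring
    rw [h2, D_mul, D_mul, e1, e2]
  have h3 : (As * (1 - 24 * E8X.Sg 1) - (12 * D As + As ^ 3 - 24 * As ^ 2 * Cs - 72 * As * Cs ^ 2 -
      324 * Cs ^ 3)) * E8X.Dl = 0 := by
    have h4 := bracket
    have h5 : As * D E8X.Dl = (12 * D As + As ^ 3 - 24 * As ^ 2 * Cs - 72 * As * Cs ^ 2 -
      324 * Cs ^ 3) * E8X.Dl := by
      rw [hD, h2]
      linear_combination ((As ^ 2 + 3 * As * Cs + 9 * Cs ^ 2) * (As - 3 * Cs) ^ 9 +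
        Cs * (3 * As + 18 * Cs) * (As - 3 * Cs) ^ 9 -
        27 * Cs * (As ^ 2 + 3 * As * Cs + 9 * Cs ^ 2) * (As - 3 * Cs) ^ 8) * h4
    rw [h1] at h5
    linear_combination h5
  have hne : E8X.Dl ≠ 0 := by
    intro h
    have := E8X.coeff_one_Dl
    rw [h, map_zero] at this
    norm_num at this
  rcases mul_eq_zero.1 h3 with h | h
  · exact sub_eq_zero.1 h
  · exact absurd h hne

theorem sigma1_two_mod {n : ℕ} (hn : n % 3 = 2) :
    (ArithmeticFunction.sigma 1 n : ℤ) = 3 * coeff n (Cs ^ 2) := by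
  have h1 : As * (24 * (E8X.Sg 1 - 3 * Cs ^ 2)) =
      As - 12 * D As - As ^ 3 * Cs ^ 0 + 24 * (As ^ 2 * Cs ^ 1) + 324 * (As ^ 0 * Cs ^ 3) := by
    linear_combination -E2_AC
  have key : ∀ n : ℕ, n % 3 = 2 → coeff n (E8X.Sg 1 - 3 * Cs ^ 2) = 0 := by
    intro n
    induction n using Nat.strong_induction_on with
    | _ n ih =>
      intro hn
      have h2 := congrArg (coeff n) h1
      rw [coeff_mul, Finset.sum_eq_single (0, n)] at h2
      · simp only [map_sub, map_add, coeff_num] at h2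
        rw [coeff_AC (by omega : n % 3 ≠ 0 % 3), coeff_AC (by omega : n % 3 ≠ 1 % 3),
          coeff_AC (by omega : n % 3 ≠ 3 % 3), coeff_D, d1_As n (by omega), As_zero] at h2
        rw [map_sub, x3_num]
        linarith
      · intro p hp hne
        rw [Finset.HasAntidiagonal.mem_antidiagonal] at hp
        by_cases h3 : p.1 % 3 = 0
        · have h4 : p.2 < n := by
            rcases Nat.eq_zero_or_pos p.1 with h4 | h4
            · exfalso
              apply hne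
              rw [h4, zero_add] at hp
              exact Prod.ext h4 hp
            · omega
          rw [x3_num, ih p.2 h4 (by omega), mul_zero, mul_zero]
        · rw [d1_As p.1 (by omega), zero_mul]
      · intro h3
        exfalso
        apply h3
        simp
  have h2 := key n hn
  rw [map_sub, x3_num, E8X.Sg, coeff_mk] at h2
  linarith

theorem g_mod {g B : PowerSeries ℤ} (hB : Vs = 1 + 3 * B)
    (hg : g * (Vs - 9 * ex 3 Us) = Cs ^ 2 * (Vs - 3 * Us)) :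
    ∃ Q : PowerSeries ℤ, 3 * (Cs ^ 2 * Us) + g = Cs ^ 2 * (1 + 9 * (Us * B + Us ^ 3)) + 27 * Q := by
  obtain ⟨M, hM⟩ := Us_cube
  have hu : constantCoeff (R := ℤ) Us = 0 := by
    rw [Us, ex3_const, Cs_const]
  have hw1 : constantCoeff (R := ℤ) (Vs - 9 * ex 3 Us) = 1 := by
    rw [map_sub, map_mul, ex3_const, hu, mul_zero, sub_zero, Vs_const]
  obtain ⟨w, hw⟩ := unit_of hw1
  have key : (3 * (Cs ^ 2 * Us) + g - Cs ^ 2 * (1 + 9 * (Us * B + Us ^ 3))) * (Vs - 9 * ex 3 Us) =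
      27 * (Cs ^ 2 * (-Us ^ 4 - 3 * Us * M + M - Us * B ^ 2 + 3 * Us ^ 4 * B + 9 * Us * B * M -
        Us ^ 3 * B + 3 * Us ^ 6 + 9 * Us ^ 3 * M)) := by
    have h1 : (3 * (Cs ^ 2 * Us) + g - Cs ^ 2 * (1 + 9 * (Us * B + Us ^ 3))) * (Vs - 9 * ex 3 Us) =
      3 * (Cs ^ 2 * Us) * (Vs - 9 * ex 3 Us) + Cs ^ 2 * (Vs - 3 * Us) -
        Cs ^ 2 * (1 + 9 * (Us * B + Us ^ 3)) * (Vs - 9 * ex 3 Us) := by
      linear_combination hg
    rw [h1, hM, hB]
    ring
  refine ⟨Cs ^ 2 * (-Us ^ 4 - 3 * Us * M + M - Us * B ^ 2 + 3 * Us ^ 4 * B + 9 * Us * B * M -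
        Us ^ 3 * B + 3 * Us ^ 6 + 9 * Us ^ 3 * M) * w, ?_⟩
  linear_combination w * key - (3 * (Cs ^ 2 * Us) + g - Cs ^ 2 * (1 + 9 * (Us * B + Us ^ 3))) * hw

/-- **Row A of E8T3.** -/
theorem star {g : PowerSeries ℤ} (hg : g * (Vs - 9 * ex 3 Us) = Cs ^ 2 * (Vs - 3 * Us)) {n : ℕ}
    (hn : n % 3 = 2) : (2187 : ℤ) ∣ 81 * (3 * coeff n (Cs ^ 2 * Us) + coeff n g) -
      ((ArithmeticFunction.sigma 5 n : ℤ) + 8 * n * (ArithmeticFunction.sigma 3 n : ℤ) +
        21 * (ArithmeticFunction.sigma 3 n : ℤ) + 46 * n ^ 2 * (ArithmeticFunction.sigma 1 n : ℤ) +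
        90 * n * (ArithmeticFunction.sigma 1 n : ℤ) + 270 * (ArithmeticFunction.sigma 1 n : ℤ)) := by
  obtain ⟨B, hB⟩ := Vs_mod
  obtain ⟨Q1, hQ1⟩ := g_mod hB hg
  obtain ⟨Q2, hQ2⟩ := Es_mod hB
  have h1 : 81 * (3 * (Cs ^ 2 * Us) + g) - Es = 2187 * (Q1 - Q2) := by
    rw [hQ1, hQ2]
    ring
  have h2 := congrArg (coeff n) h1
  simp only [Es, map_sub, map_add, coeff_num, coeff_D] at h2
  rw [sigma1_two_mod hn, sigma3_two_mod hn, sigma5_two_mod hn]
  refine ⟨coeff n Q1 - coeff n Q2, ?_⟩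
  linear_combination h2

end E8T3
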