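import Mathlib

/-!
[E8T3] row C2: the conic `s s̄ = -27` over the field with `p` elements, a cubic character and the
identity `S₁² + S₂ = - 2 p` without divisors.
-/

set_option autoImplicit false
set_option linter.unusedSectionVars false

open Finset

namespace E8T3c

section
variable {p : ℕ} [hp : Fact p.Prime] {K : Type*} [Field K] [Fintype K] [DecidableEq K] [CharP K p]

/-- The Legendre symbol of an element of the prime field, inside `K`. -/
def lg (p : ℕ) {K : Type*} [Field K] [DecidableEq K] (c : K) : ℤ :=
  if c = 0 then 0 else if c ^ ((p - 1) / 2) = 1 then 1 else -1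

/-- The elements of the prime field. -/
def Fp (p : ℕ) (K : Type*) [Field K] [Fintype K] [DecidableEq K] : Finset K :=
  univ.filter fun c => c ^ p = c

theorem mem_Fp {c : K} : c ∈ Fp p K ↔ c ^ p = c := by simp [Fp]

theorem conj_conj (hK : Fintype.card K = p ^ 2) (x : K) : (x ^ p) ^ p = x := by
  rw [← pow_mul, ← sq, ← hK, FiniteField.pow_card]

theorem two_ne (h2 : p ≠ 2) : (2 : K) ≠ 0 := by
  intro h
  have : ((2 : ℕ) : K) = 0 := by exact_mod_cast h
  rw [CharP.cast_eq_zero_iff K p] at this
  exact h2 ((Nat.prime_dvd_prime_iff_eq hp.out Nat.prime_two).1 this)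

theorem cast_mem (a : ZMod p) : (ZMod.castHom (dvd_refl p) K a) ∈ Fp p K := by
  rw [mem_Fp, ← map_pow, ZMod.pow_card]

theorem Fp_eq_image : Fp p K = univ.image (ZMod.castHom (dvd_refl p) K) := by
  have hinj : Function.Injective (ZMod.castHom (dvd_refl p) K) := RingHom.injective _
  symm
  apply Finset.eq_of_subset_of_card_le
  · intro x hx
    obtain ⟨a, -, rfl⟩ := Finset.mem_image.1 hx
    exact cast_mem a
  · rw [Finset.card_image_of_injective _ hinj, Finset.card_univ, ZMod.card]
    have hne : (Polynomial.X ^ p - Polynomial.X : Polynomial K) ≠ 0 :=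
      FiniteField.X_pow_card_sub_X_ne_zero K hp.out.one_lt
    have : Fp p K ⊆ (Polynomial.X ^ p - Polynomial.X : Polynomial K).roots.toFinset := by
      intro x hx
      rw [Multiset.mem_toFinset, Polynomial.mem_roots hne]
      simp [Polynomial.IsRoot, (mem_Fp.1 hx)]
    calc (Fp p K).card ≤ _ := Finset.card_le_card this
      _ ≤ Multiset.card _ := Multiset.toFinset_card_le _
      _ ≤ _ := Polynomial.card_roots' _
      _ = p := FiniteField.X_pow_card_sub_X_natDegree_eq K hp.out.one_lt

theorem exists_cast {c : K} (hc : c ^ p = c) : ∃ a : ZMod p, ZMod.castHom (dvd_refl p) K a = c := by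
  have : c ∈ Fp p K := mem_Fp.2 hc
  rw [Fp_eq_image, Finset.mem_image] at this
  obtain ⟨a, -, h⟩ := this
  exact ⟨a, h⟩

theorem sum_Fp {R : Type*} [AddCommMonoid R] (g : K → R) :
    ∑ c ∈ Fp p K, g c = ∑ a : ZMod p, g (ZMod.castHom (dvd_refl p) K a) := by
  rw [Fp_eq_image, Finset.sum_image fun x _ y _ h => (RingHom.injective _) h]

theorem card_Fp : (Fp p K).card = p := by
  rw [Finset.card_eq_sum_ones, sum_Fp]
  simp [ZMod.card]

theorem lg_cast (h2 : p ≠ 2) (a : ZMod p) :
    lg p (ZMod.castHom (dvd_refl p) K a) = quadraticChar (ZMod p) a := by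
  unfold lg
  by_cases h : a = 0
  · simp [h]
  · have h1 : ZMod.castHom (dvd_refl p) K a ≠ 0 := by
      intro h0
      exact h ((map_eq_zero _).1 h0)
    rw [if_neg h1, ← map_pow]
    have hodd : ringChar (ZMod p) ≠ 2 := by rwa [ZMod.ringChar_zmod_n]
    have h3 := quadraticChar_eq_pow_of_char_ne_two hodd h
    have hc : Fintype.card (ZMod p) / 2 = (p - 1) / 2 := by
      rw [ZMod.card]
      have := hp.out.eq_two_or_odd
      omega
    rw [hc] at h3
    rw [h3]
    by_cases h4 : a ^ ((p - 1) / 2) = 1
    · rw [if_pos h4, if_pos (by rw [h4, map_one])]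
    · rw [if_neg h4, if_neg]
      intro h5
      exact h4 ((RingHom.injective (ZMod.castHom (dvd_refl p) K)) (by rw [h5, map_one]))

theorem lg_mul (h2 : p ≠ 2) {c d : K} (hc : c ^ p = c) (hd : d ^ p = d) :
    lg p (c * d) = lg p c * lg p d := by
  obtain ⟨a, rfl⟩ := exists_cast hc
  obtain ⟨b, rfl⟩ := exists_cast hd
  rw [← map_mul, lg_cast h2, lg_cast h2, lg_cast h2, map_mul]

theorem lg_norm (hK : Fintype.card K = p ^ 2) (h2 : p ≠ 2) (x : K) :
    lg p (x ^ (p + 1)) = quadraticChar K x := by
  have hodd : ringChar K ≠ 2 := by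
    rw [ringChar.eq K p]
    exact h2
  unfold lg
  by_cases h : x = 0
  · simp [h]
  · rw [if_neg (pow_ne_zero _ h), quadraticChar_eq_pow_of_char_ne_two hodd h, hK]
    have h3 : p ^ 2 / 2 = (p + 1) * ((p - 1) / 2) := by
      obtain ⟨k, hk⟩ : ∃ k, p = 2 * k + 1 := by
        rcases hp.out.eq_two_or_odd' with h | h
        · exact absurd h h2
        · exact h
      subst hk
      have : (2 * k + 1 - 1) / 2 = k := by omega
      rw [this]
      have : (2 * k + 1) ^ 2 = 2 * ((2 * k + 1 + 1) * k) + 1 := by ring
      omega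
    rw [h3, pow_mul]

/-- The sum of the Legendre symbols of the values of a quadratic polynomial. -/
theorem quad_sum {L : Type*} [Field L] [Fintype L] [DecidableEq L] (hL : ringChar L ≠ 2) (b c : L)
    (hD : b ^ 2 - 4 * c ≠ 0) : ∑ x : L, quadraticChar L (x ^ 2 + b * x + c) = -1 := by
  have h2 : (2 : L) ≠ 0 := Ring.two_ne_zero hL
  have h4 : (4 : L) ≠ 0 := by
    have : (4 : L) = 2 * 2 := by norm_num
    rw [this]
    exact mul_ne_zero h2 h2
  -- count the pairs (x, y) with y ^ 2 = x ^ 2 + b x + c
  have h1 : ∑ x : L, (quadraticChar L (x ^ 2 + b * x + c) + 1) =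
      ((univ : Finset (L × L)).filter fun v => v.2 ^ 2 = v.1 ^ 2 + b * v.1 + c).card := by
    rw [Finset.card_filter, Nat.cast_sum, ← Finset.univ_product_univ, Finset.sum_product]
    refine Finset.sum_congr rfl fun x _ => ?_
    rw [← quadraticChar_card_sqrts hL]
    push_cast
    rw [Finset.sum_boole, Set.toFinset_ofPred]
  have h3 : ((univ : Finset (L × L)).filter fun v => v.2 ^ 2 = v.1 ^ 2 + b * v.1 + c).card =
      Fintype.card L - 1 := by
    rw [← Finset.card_univ (α := L), ← Finset.card_erase_of_mem (Finset.mem_univ (0 : L))]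
    refine Finset.card_bij' (fun v _ => 2 * v.1 + b - 2 * v.2)
      (fun u _ => (((u + (b ^ 2 - 4 * c) / u) / 2 - b) / 2, ((b ^ 2 - 4 * c) / u - u) / 4)) ?_ ?_ ?_ ?_
    · intro v hv
      rw [Finset.mem_filter] at hv
      rw [Finset.mem_erase]
      refine ⟨?_, Finset.mem_univ _⟩
      intro h
      apply hD
      have e : (2 * v.1 + b - 2 * v.2) * (2 * v.1 + b + 2 * v.2) = b ^ 2 - 4 * c := by
        linear_combination (-4) * hv.2
      rw [← e, h, zero_mul]
    · intro u hu
      rw [Finset.mem_erase] at hu
      rw [Finset.mem_filter]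
      refine ⟨Finset.mem_univ _, ?_⟩
      have hu := hu.1
      field_simp
      ring
    · intro v hv
      rw [Finset.mem_filter] at hv
      have e : (2 * v.1 + b - 2 * v.2) * (2 * v.1 + b + 2 * v.2) = b ^ 2 - 4 * c := by
        linear_combination (-4) * hv.2
      have h0 : 2 * v.1 + b - 2 * v.2 ≠ 0 := by
        intro h
        apply hD
        rw [← e, h, zero_mul]
      have e2 : (b ^ 2 - 4 * c) / (2 * v.1 + b - 2 * v.2) = 2 * v.1 + b + 2 * v.2 := by
        rw [← e, mul_div_cancel_left₀ _ h0]
      refine Prod.ext ?_ ?_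
      · simp only [e2]
        field_simp
        ring
      · simp only [e2]
        field_simp
        ring
    · intro u hu
      rw [Finset.mem_erase] at hu
      have hu := hu.1
      field_simp
      ring
  rw [Finset.sum_add_distrib, h3] at h1
  have hc : 1 ≤ Fintype.card L := Fintype.card_pos
  simp only [Finset.sum_const, Finset.card_univ, nsmul_eq_mul, mul_one] at h1
  push_cast [hc] at h1
  linarith

theorem quad_sum0 {L : Type*} [Field L] [Fintype L] [DecidableEq L] (hL : ringChar L ≠ 2) (b c : L)
    (hD : b ^ 2 - 4 * c = 0) :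
    ∑ x : L, quadraticChar L (x ^ 2 + b * x + c) = (Fintype.card L : ℤ) - 1 := by
  have h2 : (2 : L) ≠ 0 := Ring.two_ne_zero hL
  have h1 : ∀ x : L, quadraticChar L (x ^ 2 + b * x + c) = if x = -b / 2 then 0 else 1 := by
    intro x
    have e : x ^ 2 + b * x + c = (x + b / 2) ^ 2 := by
      field_simp
      linear_combination (-1) * hD
    rw [e]
    by_cases h : x = -b / 2
    · rw [if_pos h, h, neg_div, neg_add_cancel]
      simp
    · rw [if_neg h]
      have : x + b / 2 ≠ 0 := by
        intro h0
        apply h
        rw [neg_div]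
        exact eq_neg_of_add_eq_zero_left h0
      rw [quadraticChar_sq_one' this]
  rw [Finset.sum_congr rfl fun x _ => h1 x, Finset.sum_ite]
  simp [Finset.filter_ne', Finset.card_erase_of_mem, Finset.card_univ]
  have hc : 1 ≤ Fintype.card L := Fintype.card_pos
  push_cast [hc]
  ring

/-- The same for the symbol `lg` of the prime field. -/
theorem lg_quad_sum (h2 : p ≠ 2) {b c : K} (hb : b ^ p = b) (hc : c ^ p = c) :
    ∑ x ∈ Fp p K, lg p (x ^ 2 + b * x + c) = if b ^ 2 - 4 * c = 0 then (p : ℤ) - 1 else -1 := by
  obtain ⟨b, rfl⟩ := exists_cast hb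
  obtain ⟨c, rfl⟩ := exists_cast hc
  have hodd : ringChar (ZMod p) ≠ 2 := by rwa [ZMod.ringChar_zmod_n]
  have e : ∀ x : ZMod p, lg p ((ZMod.castHom (dvd_refl p) K x) ^ 2 +
      (ZMod.castHom (dvd_refl p) K b) * (ZMod.castHom (dvd_refl p) K x) +
      (ZMod.castHom (dvd_refl p) K c)) = quadraticChar (ZMod p) (x ^ 2 + b * x + c) := by
    intro x
    rw [← lg_cast (K := K) h2]
    simp only [map_add, map_mul, map_pow]
  rw [sum_Fp, Finset.sum_congr rfl fun x _ => e x]
  have e2 : (ZMod.castHom (dvd_refl p) K b) ^ 2 - 4 * (ZMod.castHom (dvd_refl p) K c) =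
      ZMod.castHom (dvd_refl p) K (b ^ 2 - 4 * c) := by
    simp only [map_sub, map_mul, map_pow, map_ofNat]
  rw [e2]
  by_cases hD : b ^ 2 - 4 * c = 0
  · rw [if_pos (by rw [hD, map_zero]), quad_sum0 hodd b c hD, ZMod.card]
  · rw [if_neg (fun h => hD ((map_eq_zero _).1 h)), quad_sum hodd b c hD]

/-- Every quadratic polynomial `X² - c X + M` over the prime field has its two roots in `K`, in the
prime field or conjugate. -/
theorem two_sum (hK : Fintype.card K = p ^ 2) (h2 : p ≠ 2) {M : K} (hM : M ^ p = M) (hM0 : M ≠ 0)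
    {R : Type*} [CommRing R] (g : K → R) :
    (∑ r ∈ (Fp p K).erase 0, g (r + M / r)) +
      ∑ u ∈ univ.filter (fun u : K => u ^ (p + 1) = M), g (u + u ^ p) = 2 * ∑ c ∈ Fp p K, g c := by
  classical
  have h20 : (2 : K) ≠ 0 := two_ne h2
  have hfA : ∀ r ∈ (Fp p K).erase 0, r + M / r ∈ Fp p K := by
    intro r hr
    rw [Finset.mem_erase, mem_Fp] at hr
    rw [mem_Fp, add_pow_char, div_pow, hr.2, hM]
  have hfB : ∀ u ∈ univ.filter (fun u : K => u ^ (p + 1) = M), u + u ^ p ∈ Fp p K := by
    intro u _
    rw [mem_Fp, add_pow_char, conj_conj hK, add_comm]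
  rw [← Finset.sum_fiberwise_of_maps_to hfA, ← Finset.sum_fiberwise_of_maps_to hfB,
    ← Finset.sum_add_distrib, Finset.mul_sum]
  refine Finset.sum_congr rfl fun c hc => ?_
  rw [mem_Fp] at hc
  rw [Finset.sum_congr rfl (g := fun _ => g c) (fun r hr => by rw [(Finset.mem_filter.1 hr).2]),
    Finset.sum_congr (s₁ := filter _ (filter _ _)) rfl (g := fun _ => g c)
      (fun r hr => by rw [(Finset.mem_filter.1 hr).2]), Finset.sum_const, Finset.sum_const,
    ← add_smul, nsmul_eq_mul]
  congr 1
  -- the discriminant is a square in K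
  have hdisc : (c ^ 2 - 4 * M) ^ p = c ^ 2 - 4 * M := by
    have h4 : (4 : K) ^ p = 4 := by
      have : (4 : K) = ZMod.castHom (dvd_refl p) K 4 := (map_ofNat _ 4).symm
      rw [this]
      exact mem_Fp.1 (cast_mem 4)
    rw [sub_pow_char, ← pow_mul, mul_comm 2 p, pow_mul, hc, mul_pow, hM, h4]
  obtain ⟨e, he⟩ : ∃ e : K, e ^ 2 = c ^ 2 - 4 * M := by
    by_cases h0 : c ^ 2 - 4 * M = 0
    · exact ⟨0, by rw [h0]; ring⟩
    · have h1 : quadraticChar K (c ^ 2 - 4 * M) = 1 := by
        have hodd : ringChar K ≠ 2 := by
          rw [ringChar.eq K p]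
          exact h2
        rw [quadraticChar_one_iff_isSquare h0, FiniteField.isSquare_iff hodd h0, hK]
        have h3 : p ^ 2 / 2 = (p - 1) * ((p + 1) / 2) := by
          obtain ⟨k, hk⟩ : ∃ k, p = 2 * k + 1 := by
            rcases hp.out.eq_two_or_odd' with h | h
            · exact absurd h h2
            · exact h
          subst hk
          have : (2 * k + 1 + 1) / 2 = k + 1 := by omega
          rw [this]
          have : (2 * k + 1 - 1) = 2 * k := by omega
          rw [this]
          have : (2 * k + 1) ^ 2 = 2 * (2 * k * (k + 1)) + 1 := by ring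
          omega
        rw [h3, pow_mul]
        have h5 : (c ^ 2 - 4 * M) ^ (p - 1) = 1 := by
          have : (c ^ 2 - 4 * M) ^ (p - 1) * (c ^ 2 - 4 * M) = 1 * (c ^ 2 - 4 * M) := by
            rw [← pow_succ, Nat.sub_add_cancel hp.out.one_le, hdisc, one_mul]
          exact mul_right_cancel₀ h0 this
        rw [h5, one_pow]
      obtain ⟨e, he⟩ := (quadraticChar_one_iff_isSquare h0).1 h1
      exact ⟨e, by rw [he]; ring⟩
  have hep : e ^ p = e ∨ e ^ p = -e := by
    have : (e ^ p) ^ 2 = e ^ 2 := by
      rw [← pow_mul, mul_comm, pow_mul, he, hdisc]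
    exact sq_eq_sq_iff_eq_or_eq_neg.1 this
  have h2p : (2 : K) ^ p = 2 := by
    have : (2 : K) = ZMod.castHom (dvd_refl p) K 2 := (map_ofNat _ 2).symm
    rw [this]
    exact mem_Fp.1 (cast_mem 2)
  -- membership
  have hA : ∀ r : K, r ∈ filter (fun r => r + M / r = c) ((Fp p K).erase 0) ↔
      (r ^ p = r ∧ (r - (c + e) / 2) * (r - (c - e) / 2) = 0) := by
    intro r
    rw [Finset.mem_filter, Finset.mem_erase, mem_Fp]
    constructor
    · rintro ⟨⟨h0, h1⟩, h3⟩
      refine ⟨h1, ?_⟩
      field_simp at h3 ⊢
      linear_combination (4 : K) * h3 - he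
    · rintro ⟨h1, h3⟩
      have h3' : r ^ 2 - c * r + M = 0 := by
        field_simp at h3
        have h4 : (4 : K) * (r ^ 2 - c * r + M) = 0 := by linear_combination h3 + he
        have h40 : (4 : K) ≠ 0 := by
          have : (4 : K) = 2 * 2 := by norm_num
          rw [this]
          exact mul_ne_zero h20 h20
        exact (mul_eq_zero.1 h4).resolve_left h40
      have h0 : r ≠ 0 := by
        rintro rfl
        apply hM0
        simpa using h3'
      refine ⟨⟨h0, h1⟩, ?_⟩
      field_simp
      linear_combination h3'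
  have hB : ∀ u : K, u ∈ filter (fun u => u + u ^ p = c) (filter (fun u : K => u ^ (p + 1) = M) univ) ↔
      (u ^ p = c - u ∧ (u - (c + e) / 2) * (u - (c - e) / 2) = 0) := by
    intro u
    rw [Finset.mem_filter, Finset.mem_filter]
    constructor
    · rintro ⟨⟨-, h1⟩, h3⟩
      have h4 : u ^ p = c - u := by rw [← h3]; ring
      refine ⟨h4, ?_⟩
      rw [pow_succ, h4] at h1
      field_simp
      linear_combination (-4 : K) * h1 - he
    · rintro ⟨h1, h3⟩
      have h3' : u ^ 2 - c * u + M = 0 := by
        field_simp at h3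
        have h4 : (4 : K) * (u ^ 2 - c * u + M) = 0 := by linear_combination h3 + he
        have h40 : (4 : K) ≠ 0 := by
          have : (4 : K) = 2 * 2 := by norm_num
          rw [this]
          exact mul_ne_zero h20 h20
        exact (mul_eq_zero.1 h4).resolve_left h40
      refine ⟨⟨Finset.mem_univ _, ?_⟩, ?_⟩
      · rw [pow_succ, h1]
        linear_combination (-1 : K) * h3'
      · rw [h1]
        ring
  have key : ∀ x : K, (x - (c + e) / 2) * (x - (c - e) / 2) = 0 ↔
      x = (c + e) / 2 ∨ x = (c - e) / 2 := by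
    intro x
    rw [mul_eq_zero, sub_eq_zero, sub_eq_zero]
  by_cases he0 : e = 0
  · -- double root
    have e1 : filter (fun r => r + M / r = c) ((Fp p K).erase 0) = {c / 2} := by
      ext r
      rw [hA, key, he0, Finset.mem_singleton]
      simp only [add_zero, sub_zero, or_self]
      constructor
      · exact fun h => h.2
      · intro h
        exact ⟨by rw [h, div_pow, hc, h2p], h⟩
    have e2 : filter (fun u => u + u ^ p = c) (filter (fun u : K => u ^ (p + 1) = M) univ) = {c / 2} := by
      ext r
      rw [hB, key, he0, Finset.mem_singleton]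
      simp only [add_zero, sub_zero, or_self]
      constructor
      · exact fun h => h.2
      · intro h
        refine ⟨?_, h⟩
        rw [h, div_pow, hc, h2p]
        field_simp
        ring
    rw [e1, e2]
    simp
  · have hne : (c + e) / 2 ≠ (c - e) / 2 := by
      intro h
      apply he0
      have h3 : (2 : K) * e = 0 := by
        field_simp at h
        linear_combination h
      exact (mul_eq_zero.1 h3).resolve_left h20
    rcases hep with hep | hep
    · have e1 : filter (fun r => r + M / r = c) ((Fp p K).erase 0) = {(c + e) / 2, (c - e) / 2} := by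
        ext r
        rw [hA, key, Finset.mem_insert, Finset.mem_singleton]
        constructor
        · exact fun h => h.2
        · intro h
          refine ⟨?_, h⟩
          rcases h with rfl | rfl
          · rw [div_pow, add_pow_char, hc, hep, h2p]
          · rw [div_pow, sub_pow_char, hc, hep, h2p]
      have e2 : filter (fun u => u + u ^ p = c) (filter (fun u : K => u ^ (p + 1) = M) univ) = ∅ := by
        ext r
        rw [hB, key]
        simp only [Finset.notMem_empty, iff_false, not_and]
        intro h1 h
        apply he0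
        rcases h with rfl | rfl
        · rw [div_pow, add_pow_char, hc, hep, h2p] at h1
          field_simp at h1
          have : (2 : K) * e = 0 := by linear_combination h1
          exact (mul_eq_zero.1 this).resolve_left h20
        · rw [div_pow, sub_pow_char, hc, hep, h2p] at h1
          field_simp at h1
          have : (2 : K) * e = 0 := by linear_combination (-1 : K) * h1
          exact (mul_eq_zero.1 this).resolve_left h20
      rw [e1, e2, Finset.card_pair hne]
      simp
    · have e1 : filter (fun r => r + M / r = c) ((Fp p K).erase 0) = ∅ := by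
        ext r
        rw [hA, key]
        simp only [Finset.notMem_empty, iff_false, not_and]
        intro h1 h
        apply he0
        rcases h with rfl | rfl
        · rw [div_pow, add_pow_char, hc, hep, h2p] at h1
          field_simp at h1
          have : (2 : K) * e = 0 := by linear_combination (-1 : K) * h1
          exact (mul_eq_zero.1 this).resolve_left h20
        · rw [div_pow, sub_pow_char, hc, hep, h2p] at h1
          field_simp at h1
          have : (2 : K) * e = 0 := by linear_combination h1
          exact (mul_eq_zero.1 this).resolve_left h20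
      have e2 : filter (fun u => u + u ^ p = c) (filter (fun u : K => u ^ (p + 1) = M) univ) =
          {(c + e) / 2, (c - e) / 2} := by
        ext r
        rw [hB, key, Finset.mem_insert, Finset.mem_singleton]
        constructor
        · exact fun h => h.2
        · intro h
          refine ⟨?_, h⟩
          rcases h with rfl | rfl
          · rw [div_pow, add_pow_char, hc, hep, h2p]
            field_simp
            ring
          · rw [div_pow, sub_pow_char, hc, hep, h2p]
            field_simp
            ring
      rw [e1, e2, Finset.card_pair hne]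
      simp

end

end E8T3c
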