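import Pool.Agent.E8T3.C2

set_option autoImplicit false
set_option linter.unusedSectionVars false

open Finset

namespace E8T3c

section
variable {p : ℕ} [hp : Fact p.Prime] {K : Type*} [Field K] [Fintype K] [DecidableEq K] [CharP K p]

/-- the torus `s s̄ = -27` -/
def tor (p : ℕ) (K : Type*) [Field K] [Fintype K] [DecidableEq K] : Finset K :=
  univ.filter fun s => s ^ (p + 1) = -27

/-- the sign with `s ^ ((p + 1) / 2) = sg s * k` for `s` in the torus, `k ^ 2 = -27` -/
def sg (p : ℕ) {K : Type*} [Field K] [DecidableEq K] (k s : K) : ℤ :=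
  if s ^ ((p + 1) / 2) = k then 1 else -1

variable {R : Type*} [CommRing R] [IsDomain R] [CharZero R]

/-- the summand -/
def Kf (p : ℕ) {K : Type*} [Field K] [DecidableEq K] {R : Type*} [CommRing R] (χ : MulChar K R)
    (k s : K) : R :=
  χ s * ((sg p k s * lg p (s + s ^ p - 18) : ℤ) : R)

/-- the quadratic form -/
def Wq {K : Type*} [Field K] (d d' c : K) : K :=
  c ^ 2 + 18 * (d + d') * c + (-27 * (d ^ 2 + d' ^ 2) + 378 * (d * d'))

theorem half (h2 : p ≠ 2) : (p + 1) / 2 * 2 = p + 1 := by
  rcases hp.out.eq_two_or_odd with h | h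
  · exact absurd h h2
  · omega

theorem half' (h2 : p ≠ 2) : (p - 1) / 2 * 2 = p - 1 := by
  rcases hp.out.eq_two_or_odd with h | h
  · exact absurd h h2
  · have := hp.out.two_le
    omega

theorem num_pow (n : ℕ) [n.AtLeastTwo] : (OfNat.ofNat n : K) ^ p = OfNat.ofNat n := by
  have : (OfNat.ofNat n : K) = ZMod.castHom (dvd_refl p) K (OfNat.ofNat n) := (map_ofNat _ n).symm
  rw [this]
  exact mem_Fp.1 (cast_mem _)

theorem neg_pow_p (x : K) : (-x) ^ p = -(x ^ p) := by
  have := sub_pow_char (p := p) (0 : K) x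
  rw [zero_sub, zero_pow hp.out.ne_zero, zero_sub] at this
  exact this

theorem sg_spec (h2 : p ≠ 2) {k : K} (hk : k ^ 2 = -27) {s : K} (hs : s ^ (p + 1) = -27) :
    ((sg p k s : ℤ) : K) * k = s ^ ((p + 1) / 2) := by
  unfold sg
  by_cases h : s ^ ((p + 1) / 2) = k
  · rw [if_pos h, h]
    simp
  · rw [if_neg h]
    have : (s ^ ((p + 1) / 2)) ^ 2 = k ^ 2 := by rw [← pow_mul, half h2, hs, hk]
    rcases sq_eq_sq_iff_eq_or_eq_neg.1 this with h1 | h1
    · exact absurd h1 h
    · rw [h1]
      simp

theorem lg_spec {c : K} (h2 : p ≠ 2) (hc : c ^ p = c) : ((lg p c : ℤ) : K) = c ^ ((p - 1) / 2) := by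
  unfold lg
  by_cases h0 : c = 0
  · rw [if_pos h0, h0, zero_pow]
    · simp
    · have := hp.out.two_le
      have := half' (p := p) h2
      omega
  · rw [if_neg h0]
    by_cases h : c ^ ((p - 1) / 2) = 1
    · rw [if_pos h, h]
      simp
    · rw [if_neg h]
      have h3 : c ^ (p - 1) = 1 := by
        have : c ^ (p - 1) * c = 1 * c := by
          rw [← pow_succ, Nat.sub_add_cancel hp.out.one_le, hc, one_mul]
        exact mul_right_cancel₀ h0 this
      have : (c ^ ((p - 1) / 2)) ^ 2 = 1 ^ 2 := by rw [← pow_mul, half' h2, h3, one_pow]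
      rcases sq_eq_sq_iff_eq_or_eq_neg.1 this with h1 | h1
      · exact absurd h1 h
      · rw [h1]
        simp

/-- two signs (or zeros) which agree in `K` are equal -/
theorem sign_eq (h2 : p ≠ 2) {a b : ℤ} (ha : a = 0 ∨ a = 1 ∨ a = -1) (hb : b = 0 ∨ b = 1 ∨ b = -1)
    (h : (a : K) = (b : K)) : a = b := by
  have h20 : (2 : K) ≠ 0 := two_ne h2
  rcases ha with rfl | rfl | rfl <;> rcases hb with rfl | rfl | rfl <;> simp at h ⊢
  · exact h20 (by linear_combination h)
  · exact h20 (by linear_combination -h)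

theorem lg_vals (c : K) : lg p c = 0 ∨ lg p c = 1 ∨ lg p c = -1 := by
  unfold lg
  split_ifs <;> simp

theorem sg_vals (k s : K) : sg p k s = 1 ∨ sg p k s = -1 := by
  unfold sg
  split_ifs <;> simp

/-- the summation over `δ ^ (p - 1)` -/
theorem sum_pow_sub_one (hK : Fintype.card K = p ^ 2) {A : Type*} [CommRing A] (h : K → A) :
    ∑ d ∈ univ.erase (0 : K), h (d ^ (p - 1)) =
      ((p - 1 : ℕ) : A) * ∑ v ∈ univ.filter (fun v : K => v ^ (p + 1) = 1), h v := by
  classical
  have h1 : ∀ d ∈ univ.erase (0 : K), d ^ (p - 1) ∈ univ.filter (fun v : K => v ^ (p + 1) = 1) := by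
    intro d hd
    rw [Finset.mem_erase] at hd
    rw [Finset.mem_filter]
    refine ⟨Finset.mem_univ _, ?_⟩
    have e : (p - 1) * (p + 1) = Fintype.card K - 1 := by
      rw [hK]
      obtain ⟨q, hq⟩ : ∃ q, p = q + 1 := ⟨p - 1, (Nat.sub_add_cancel hp.out.one_le).symm⟩
      rw [hq]
      have : (q + 1) ^ 2 = (q + 1 - 1) * (q + 1 + 1) + 1 := by
        simp only [Nat.add_sub_cancel]
        ring
      omega
    rw [← pow_mul, e, FiniteField.pow_card_sub_one_eq_one d hd.1]
  have hp1 : 0 < p - 1 := by
    have := hp.out.two_le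
    omega
  have hfib : ∀ v : K, (filter (fun d => d ^ (p - 1) = v) (univ.erase (0 : K))).card ≤ p - 1 := by
    intro v
    have hne : (Polynomial.X ^ (p - 1) - Polynomial.C v : Polynomial K) ≠ 0 :=
      Polynomial.X_pow_sub_C_ne_zero hp1 v
    have hsub : filter (fun d => d ^ (p - 1) = v) (univ.erase (0 : K)) ⊆
        (Polynomial.X ^ (p - 1) - Polynomial.C v : Polynomial K).roots.toFinset := by
      intro x hx
      rw [Finset.mem_filter] at hx
      rw [Multiset.mem_toFinset, Polynomial.mem_roots hne]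
      simp [Polynomial.IsRoot, hx.2]
    calc _ ≤ _ := Finset.card_le_card hsub
      _ ≤ Multiset.card _ := Multiset.toFinset_card_le _
      _ ≤ _ := Polynomial.card_roots' _
      _ = p - 1 := Polynomial.natDegree_X_pow_sub_C
  have hV : (univ.filter (fun v : K => v ^ (p + 1) = 1)).card ≤ p + 1 := by
    have hne : (Polynomial.X ^ (p + 1) - Polynomial.C 1 : Polynomial K) ≠ 0 :=
      Polynomial.X_pow_sub_C_ne_zero (Nat.succ_pos p) 1
    have hsub : univ.filter (fun v : K => v ^ (p + 1) = 1) ⊆
        (Polynomial.X ^ (p + 1) - Polynomial.C 1 : Polynomial K).roots.toFinset := by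
      intro x hx
      rw [Finset.mem_filter] at hx
      rw [Multiset.mem_toFinset, Polynomial.mem_roots hne]
      simp [Polynomial.IsRoot, hx.2]
    calc _ ≤ _ := Finset.card_le_card hsub
      _ ≤ Multiset.card _ := Multiset.toFinset_card_le _
      _ ≤ _ := Polynomial.card_roots' _
      _ = p + 1 := Polynomial.natDegree_X_pow_sub_C
  have htot : ∑ v ∈ univ.filter (fun v : K => v ^ (p + 1) = 1),
      (filter (fun d => d ^ (p - 1) = v) (univ.erase (0 : K))).card = (p - 1) * (p + 1) := by
    rw [← Finset.card_eq_sum_card_fiberwise h1, Finset.card_erase_of_mem (Finset.mem_univ _),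
      Finset.card_univ, hK]
    obtain ⟨q, hq⟩ : ∃ q, p = q + 1 := ⟨p - 1, (Nat.sub_add_cancel hp.out.one_le).symm⟩
    rw [hq]
    have : (q + 1) ^ 2 = (q + 1 - 1) * (q + 1 + 1) + 1 := by
      simp only [Nat.add_sub_cancel]
      ring
    omega
  have heq : ∀ v ∈ univ.filter (fun v : K => v ^ (p + 1) = 1),
      (filter (fun d => d ^ (p - 1) = v) (univ.erase (0 : K))).card = p - 1 := by
    intro v hv
    by_contra hc
    have hlt : (filter (fun d => d ^ (p - 1) = v) (univ.erase (0 : K))).card < p - 1 :=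
      lt_of_le_of_ne (hfib v) hc
    have := Finset.sum_lt_sum (fun w (_ : w ∈ univ.filter (fun v : K => v ^ (p + 1) = 1)) => hfib w)
      ⟨v, hv, hlt⟩
    rw [htot, Finset.sum_const, smul_eq_mul, mul_comm] at this
    exact absurd (Nat.lt_of_mul_lt_mul_right this) (not_lt.2 hV)
  rw [← Finset.sum_fiberwise_of_maps_to h1, Finset.mul_sum]
  refine Finset.sum_congr rfl fun v hv => ?_
  rw [Finset.sum_congr rfl (g := fun _ => h v) (fun d hd => by rw [(Finset.mem_filter.1 hd).2]),
    Finset.sum_const, heq v hv, nsmul_eq_mul]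

theorem conj_cast (hK : Fintype.card K = p ^ 2) (d : K) : (d * d ^ p) ^ p = d * d ^ p := by
  rw [mul_pow, conj_conj hK, mul_comm]

theorem n27 : (-27 : K) ^ p = -27 := by
  rw [neg_pow_p, num_pow]

theorem Wq_mem (hK : Fintype.card K = p ^ 2) {d c : K} (hc : c ^ p = c) :
    (Wq d (d ^ p) c) ^ p = Wq d (d ^ p) c := by
  have e1 : (18 : K) ^ p = 18 := num_pow 18
  have e2 : (27 : K) ^ p = 27 := num_pow 27
  have e3 : (378 : K) ^ p = 378 := num_pow 378
  unfold Wq
  simp only [add_pow_char, mul_pow, neg_pow_p, e1, e2, e3, hc, conj_conj hK, ← pow_mul, mul_comm _ p]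
  simp only [pow_mul, hc, conj_conj hK]
  ring

variable (χ : MulChar K R)

theorem chi_conj (h3 : p % 3 = 2) (hχ : χ ^ 3 = 1) {x : K} (hx : x ≠ 0) : χ (x ^ (p - 1)) = χ x := by
  obtain ⟨m, hm⟩ : ∃ m, p - 1 = 3 * m + 1 := ⟨(p - 2) / 3, by omega⟩
  have h1 : (χ x) ^ 3 = 1 := by
    have : (χ ^ 3) x = 1 := by
      rw [hχ, MulChar.one_apply (Ne.isUnit hx)]
    rwa [MulChar.pow_apply' χ (by norm_num)] at this
  rw [map_pow, hm, pow_succ, pow_mul, h1, one_pow, one_mul]

theorem chi_Fp (h3 : p % 3 = 2) (hχ : χ ^ 3 = 1) {x : K} (hx : x ^ p = x) (hx0 : x ≠ 0) : χ x = 1 := by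
  have h1 : x ^ (p - 1) = 1 := by
    have : x ^ (p - 1) * x = 1 * x := by
      rw [← pow_succ, Nat.sub_add_cancel hp.out.one_le, hx, one_mul]
    exact mul_right_cancel₀ hx0 this
  rw [← chi_conj χ h3 hχ hx0, h1, map_one]

/-- the product of two summands -/
theorem Kf_mul (hK : Fintype.card K = p ^ 2) (h2 : p ≠ 2) (h3 : p % 3 = 2) (hχ : χ ^ 3 = 1) {k : K}
    (hk : k ^ 2 = -27) (hk27 : (27 : K) ≠ 0) {t d : K} (ht : t ^ (p + 1) = -27) (hd : d ≠ 0) :
    Kf p χ k t * Kf p χ k (t ^ p * d ^ (p - 1)) =
      -(χ d * ((lg p (Wq d (d ^ p) (-(d * t + (d * t) ^ p))) : ℤ) : R)) := by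
  have ht0 : t ≠ 0 := by
    rintro rfl
    rw [zero_pow (Nat.succ_ne_zero p)] at ht
    exact hk27 (by linear_combination ht)
  obtain ⟨s, hs⟩ : ∃ s, s = t ^ p * d ^ (p - 1) := ⟨_, rfl⟩
  have hdd : d ^ (p - 1) = d ^ p / d := by
    rw [eq_div_iff hd, ← pow_succ, Nat.sub_add_cancel hp.out.one_le]
  have htp : t * t ^ p = -27 := by
    rw [← ht, pow_succ, mul_comm]
  have hs1 : s ^ (p + 1) = -27 := by
    rw [hs, mul_pow, ← pow_mul d]
    have e1 : (p - 1) * (p + 1) = Fintype.card K - 1 := by
      rw [hK]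
      obtain ⟨q, hq⟩ : ∃ q, p = q + 1 := ⟨p - 1, (Nat.sub_add_cancel hp.out.one_le).symm⟩
      rw [hq]
      have : (q + 1) ^ 2 = (q + 1 - 1) * (q + 1 + 1) + 1 := by
        simp only [Nat.add_sub_cancel]
        ring
      omega
    rw [e1, FiniteField.pow_card_sub_one_eq_one d hd, mul_one, pow_succ, conj_conj hK, htp]
  have hsp : s ^ p = t * d / d ^ p := by
    rw [hs, mul_pow, conj_conj hK, hdd, div_pow, conj_conj hK, mul_div_assoc]
  have hs' : s = t ^ p * d ^ p / d := by
    rw [hs, hdd, mul_div_assoc]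
  have hdp : d ^ p ≠ 0 := pow_ne_zero _ hd
  -- the character
  have hchi : χ t * χ s = χ d := by
    rw [← map_mul, hs, ← mul_assoc, htp, map_mul, chi_conj χ h3 hχ hd,
      chi_Fp χ h3 hχ n27 (neg_ne_zero.2 hk27), one_mul]
  -- the signs
  have hsg : sg p k t * sg p k s = -(quadraticChar K d) := by
    apply sign_eq (K := K) (p := p) h2
    · rcases sg_vals (p := p) k t with h | h <;> rcases sg_vals (p := p) k s with h' | h' <;>
        rw [h, h'] <;> simp
    · rcases quadraticChar_dichotomy hd with h | h <;> rw [h] <;> simp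
    · have e1 := sg_spec h2 hk ht
      have e2 := sg_spec h2 hk hs1
      have hodd : ringChar K ≠ 2 := by
        rw [ringChar.eq K p]
        exact h2
      have e3 : ((quadraticChar K d : ℤ) : K) = d ^ (Fintype.card K / 2) :=
        quadraticChar_eq_pow_of_char_ne_two' hodd d
      have e4 : (t * s) ^ ((p + 1) / 2) = (-27) ^ ((p + 1) / 2) * d ^ (Fintype.card K / 2) := by
        rw [hs, ← mul_assoc, htp, mul_pow, ← pow_mul]
        congr 2
        rw [hK]
        obtain ⟨q, hq⟩ : ∃ q, p = 2 * q + 1 := by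
          rcases hp.out.eq_two_or_odd' with h | h
          · exact absurd h h2
          · exact h
        rw [hq]
        have : (2 * q + 1 + 1) / 2 = q + 1 := by omega
        rw [this]
        have : (2 * q + 1) - 1 = 2 * q := by omega
        rw [this]
        have : (2 * q + 1) ^ 2 = 2 * (2 * q * (q + 1)) + 1 := by ring
        omega
      have e5 : (-27 : K) ^ ((p - 1) / 2) = -1 := by
        -- k is not in the prime field
        have hkp : k ^ p = -k := by
          by_contra hne
          have h6 : (k ^ p) ^ 2 = k ^ 2 := by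
            rw [← pow_mul, mul_comm, pow_mul, hk, n27]
          rcases sq_eq_sq_iff_eq_or_eq_neg.1 h6 with h7 | h7
          · -- then the cube roots of unity lie in the prime field
            have h20 : (2 : K) ≠ 0 := two_ne h2
            have h60 : (6 : K) ≠ 0 := by
              intro h0
              have h12 : (2 : K) ^ 3 * 27 = 0 := by linear_combination (36 : K) * h0
              rcases mul_eq_zero.1 h12 with h | h
              · exact h20 (pow_eq_zero_iff (by norm_num) |>.1 h)
              · exact hk27 h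
            have hw : ((-3 + k) / 6) ^ p = (-3 + k) / 6 := by
              rw [div_pow, add_pow_char, neg_pow_p, num_pow, num_pow, h7]
            have hw3 : ((-3 + k) / 6) ^ 3 = 1 := by
              field_simp
              linear_combination (k - 9) * hk
            have hw2 : ((-3 + k) / 6) ^ 2 = (-3 + k) / 6 := by
              obtain ⟨m, hm⟩ : ∃ m, p = 3 * m + 2 := ⟨p / 3, by omega⟩
              have : ((-3 + k) / 6) ^ p = ((-3 + k) / 6) ^ 2 := by
                rw [hm, pow_add, pow_mul, hw3, one_pow, one_mul]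
              rw [← this, hw]
            have hk9 : k = 9 := by
              have h8 : (-3 + k) / 6 ≠ 0 := by
                intro h0
                rw [h0] at hw3
                norm_num at hw3
              have h9 : (-3 + k) / 6 = 1 := by
                have : (-3 + k) / 6 * ((-3 + k) / 6) = 1 * ((-3 + k) / 6) := by
                  rw [← sq, hw2, one_mul]
                exact mul_right_cancel₀ h8 this
              rw [div_eq_one_iff_eq h60] at h9
              linear_combination h9
            rw [hk9] at hk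
            have : (2 : K) ^ 2 * 27 = 0 := by linear_combination hk
            rcases mul_eq_zero.1 this with h | h
            · exact h20 (pow_eq_zero_iff (by norm_num) |>.1 h)
            · exact hk27 h
          · exact hne h7
        have hk0 : k ≠ 0 := by
          rintro rfl
          apply hk27
          linear_combination hk
        have : k ^ (p - 1) = -1 := by
          have : k ^ (p - 1) * k = -1 * k := by
            rw [← pow_succ, Nat.sub_add_cancel hp.out.one_le, hkp]
            ring
          exact mul_right_cancel₀ hk0 this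
        rw [← hk, ← pow_mul, mul_comm 2, half' h2, this]
      push_cast
      rw [e3]
      have e6 : ((sg p k t : ℤ) : K) * ((sg p k s : ℤ) : K) * (-27) =
          (-27) * (-(d ^ (Fintype.card K / 2))) := by
        have e7 : ((sg p k t : ℤ) : K) * ((sg p k s : ℤ) : K) * k ^ 2 =
            (((sg p k t : ℤ) : K) * k) * (((sg p k s : ℤ) : K) * k) := by ring
        have e8 : (-27 : K) ^ ((p + 1) / 2) = (-27) ^ ((p - 1) / 2) * (-27) := by
          rw [← pow_succ]
          congr 1
          have := half (p := p) h2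
          have := half' (p := p) h2
          have := hp.out.two_le
          omega
        rw [← hk, e7, e1, e2, ← mul_pow, e4, e8, e5, hk]
        ring
      have h27 : (-27 : K) ≠ 0 := neg_ne_zero.2 hk27
      exact mul_right_cancel₀ h27 (by rw [e6]; ring)
  -- the Legendre symbols
  have hlt : ((t + t ^ p - 18) : K) ^ p = t + t ^ p - 18 := by
    rw [sub_pow_char, add_pow_char, conj_conj hK, num_pow]
    ring
  have hls : ((s + s ^ p - 18) : K) ^ p = s + s ^ p - 18 := by
    rw [sub_pow_char, add_pow_char, conj_conj hK, num_pow]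
    ring
  have hW : Wq d (d ^ p) (-(d * t + (d * t) ^ p)) =
      ((t + t ^ p - 18) * (s + s ^ p - 18)) * (d * d ^ p) := by
    rw [hsp, hs', mul_pow]
    unfold Wq
    field_simp
    linear_combination (2 * d * d ^ p - d ^ 2 - (d ^ p) ^ 2) * htp
  have hlg : lg p (t + t ^ p - 18) * lg p (s + s ^ p - 18) =
      lg p (Wq d (d ^ p) (-(d * t + (d * t) ^ p))) * quadraticChar K d := by
    rw [hW, lg_mul h2 (by rw [mul_pow, hlt, hls]) (conj_cast hK d), lg_mul h2 hlt hls]
    have : lg p (d * d ^ p) = quadraticChar K d := by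
      rw [← lg_norm hK h2, pow_succ, mul_comm]
    rw [this, mul_assoc, ← sq, quadraticChar_sq_one hd, mul_one]
  unfold Kf
  rw [← hs]
  calc χ t * ((sg p k t * lg p (t + t ^ p - 18) : ℤ) : R) *
        (χ s * ((sg p k s * lg p (s + s ^ p - 18) : ℤ) : R)) =
        (χ t * χ s) * (((sg p k t * sg p k s) * (lg p (t + t ^ p - 18) * lg p (s + s ^ p - 18)) : ℤ) : R) := by
        push_cast
        ring
    _ = _ := by
        rw [hchi, hsg, hlg]
        have : -(quadraticChar K d) * (lg p (Wq d (d ^ p) (-(d * t + (d * t) ^ p))) * quadraticChar K d) =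
            -(lg p (Wq d (d ^ p) (-(d * t + (d * t) ^ p)))) * (quadraticChar K d) ^ 2 := by ring
        rw [this, quadraticChar_sq_one hd]
        push_cast
        ring

end

end E8T3c
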