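import Pool.Agent.E8T3.C2b

set_option autoImplicit false
set_option linter.unusedSectionVars false

open Finset

namespace E8T3c

section
variable {p : ℕ} [hp : Fact p.Prime] {K : Type*} [Field K] [Fintype K] [DecidableEq K] [CharP K p]
variable {R : Type*} [CommRing R] [IsDomain R] [CharZero R] (χ : MulChar K R)

theorem chi_sum (hne : χ ≠ 1) : ∑ d ∈ univ.erase (0 : K), χ d = 0 := by
  have h := MulChar.sum_eq_zero_of_ne_one hne
  rw [← Finset.add_sum_erase _ _ (Finset.mem_univ (0 : K)), MulChar.map_zero, zero_add] at h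
  exact h

/-- the double sum, first evaluation -/
theorem dsum_one (hK : Fintype.card K = p ^ 2) (h2 : p ≠ 2) (h3 : p % 3 = 2) (hχ : χ ^ 3 = 1)
    (hne : χ ≠ 1) (hk27 : (27 : K) ≠ 0) :
    ∑ d ∈ univ.erase (0 : K), χ d * ((∑ c ∈ Fp p K, lg p (Wq d (d ^ p) c) : ℤ) : R) =
      (p : R) * ((p : R) - 1) := by
  have h1 : ∀ d ∈ univ.erase (0 : K), χ d * ((∑ c ∈ Fp p K, lg p (Wq d (d ^ p) c) : ℤ) : R) =
      (if d ^ p = d then (p : R) else 0) - χ d := by
    intro d hd
    have hd0 : d ≠ 0 := (Finset.mem_erase.1 hd).1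
    have e18 : (18 : K) ^ p = 18 := num_pow 18
    have e27 : (27 : K) ^ p = 27 := num_pow 27
    have e378 : (378 : K) ^ p = 378 := num_pow 378
    have hb : (18 * (d + d ^ p)) ^ p = 18 * (d + d ^ p) := by
      rw [mul_pow, add_pow_char, conj_conj hK, e18, add_comm (d ^ p)]
    have hc : (-27 * (d ^ 2 + (d ^ p) ^ 2) + 378 * (d * d ^ p)) ^ p =
        -27 * (d ^ 2 + (d ^ p) ^ 2) + 378 * (d * d ^ p) := by
      have e1 : (d ^ 2) ^ p = (d ^ p) ^ 2 := by rw [← pow_mul, ← pow_mul, mul_comm]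
      have e2 : ((d ^ p) ^ 2) ^ p = d ^ 2 := by
        rw [← pow_mul, mul_comm, pow_mul, conj_conj hK]
      rw [add_pow_char, mul_pow, n27, add_pow_char, e1, e2, mul_pow, e378, conj_cast hK]
      ring
    have := lg_quad_sum h2 hb hc
    unfold Wq
    rw [this]
    have hD : (18 * (d + d ^ p)) ^ 2 - 4 * (-27 * (d ^ 2 + (d ^ p) ^ 2) + 378 * (d * d ^ p)) =
        2 ^ 4 * 27 * (d - d ^ p) ^ 2 := by ring
    have h20 : (2 : K) ≠ 0 := two_ne h2
    rw [hD]
    by_cases h : d ^ p = d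
    · rw [if_pos h, h, if_pos (by ring), chi_Fp χ h3 hχ h hd0]
      push_cast
      ring
    · rw [if_neg h, if_neg]
      · push_cast
        ring
      · intro h0
        rcases mul_eq_zero.1 h0 with h4 | h4
        · rcases mul_eq_zero.1 h4 with h5 | h5
          · exact h20 (pow_eq_zero_iff (by norm_num) |>.1 h5)
          · exact hk27 h5
        · exact h (sub_eq_zero.1 (pow_eq_zero_iff (by norm_num) |>.1 h4)).symm
  rw [Finset.sum_congr rfl h1, Finset.sum_sub_distrib, chi_sum χ hne, sub_zero, ← Finset.sum_filter,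
    Finset.sum_const]
  have h4 : (filter (fun d => d ^ p = d) (univ.erase (0 : K))).card = p - 1 := by
    have : filter (fun d => d ^ p = d) (univ.erase (0 : K)) = (Fp p K).erase 0 := by
      ext x
      simp [Fp, and_comm]
    rw [this, Finset.card_erase_of_mem, card_Fp]
    rw [mem_Fp, zero_pow hp.out.ne_zero]
  rw [h4, nsmul_eq_mul, Nat.cast_sub hp.out.one_le]
  push_cast
  ring

theorem sum_neg_Fp (g : K → ℤ) : ∑ c ∈ Fp p K, g (-c) = ∑ c ∈ Fp p K, g c := by
  refine Finset.sum_nbij' (fun c => -c) (fun c => -c) ?_ ?_ ?_ ?_ ?_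
  · intro c hc
    rw [mem_Fp] at hc ⊢
    rw [neg_pow_p, hc]
  · intro c hc
    rw [mem_Fp] at hc ⊢
    rw [neg_pow_p, hc]
  · intro c _
    exact neg_neg c
  · intro c _
    exact neg_neg c
  · intro c _
    rfl

/-- the part of the double sum over the prime field -/
theorem part_A (hK : Fintype.card K = p ^ 2) (h2 : p ≠ 2) (h3 : p % 3 = 2) (hχ : χ ^ 3 = 1) :
    ∑ d ∈ univ.erase (0 : K), χ d * ((∑ r ∈ (Fp p K).erase 0,
      lg p (Wq d (d ^ p) (-(r + -27 * (d * d ^ p) / r))) : ℤ) : R) =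
      ((p - 1 : ℕ) : R) * ∑ t ∈ univ.erase (0 : K),
        χ t⁻¹ * ((quadraticChar K (t ^ 2 - 18 * t - 27) : ℤ) : R) := by
  have h1 : ∀ r ∈ (Fp p K).erase 0, ∑ d ∈ univ.erase (0 : K), χ d *
      ((lg p (Wq d (d ^ p) (-(r + -27 * (d * d ^ p) / r))) : ℤ) : R) =
      ∑ t ∈ univ.erase (0 : K), χ t⁻¹ * ((quadraticChar K (t ^ 2 - 18 * t - 27) : ℤ) : R) := by
    intro r hr
    rw [Finset.mem_erase, mem_Fp] at hr
    obtain ⟨hr0, hr⟩ := hr
    refine Finset.sum_nbij' (fun d => r / d) (fun t => r / t) ?_ ?_ ?_ ?_ ?_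
    · intro d hd
      rw [Finset.mem_erase] at hd ⊢
      exact ⟨div_ne_zero hr0 hd.1, Finset.mem_univ _⟩
    · intro d hd
      rw [Finset.mem_erase] at hd ⊢
      exact ⟨div_ne_zero hr0 hd.1, Finset.mem_univ _⟩
    · intro d hd
      exact div_div_cancel₀ hr0
    · intro d hd
      exact div_div_cancel₀ hr0
    · intro d hd
      have hd0 : d ≠ 0 := (Finset.mem_erase.1 hd).1
      obtain ⟨t, ht⟩ : ∃ t, t = r / d := ⟨_, rfl⟩
      have ht0 : t ≠ 0 := by rw [ht]; exact div_ne_zero hr0 hd0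
      have hdt : d = r / t := by rw [ht]; exact (div_div_cancel₀ hr0).symm
      rw [← ht]
      have e1 : χ d = χ t⁻¹ := by
        rw [hdt, div_eq_mul_inv, map_mul, chi_Fp χ h3 hχ hr hr0, one_mul]
      have hdp : d ^ p = r / t ^ p := by rw [hdt, div_pow, hr]
      have htp0 : t ^ p ≠ 0 := pow_ne_zero _ ht0
      have e2 : Wq d (d ^ p) (-(r + -27 * (d * d ^ p) / r)) =
          (r / (t * t ^ p)) ^ 2 * ((t ^ 2 - 18 * t - 27) * (t ^ 2 - 18 * t - 27) ^ p) := by
        have e3 : (t ^ 2 - 18 * t - 27) ^ p = (t ^ p) ^ 2 - 18 * t ^ p - 27 := by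
          rw [sub_pow_char, sub_pow_char, mul_pow, num_pow, num_pow, ← pow_mul, mul_comm 2 p, pow_mul]
        rw [e3, hdp, hdt]
        unfold Wq
        field_simp
        ring
      have e4 : (r / (t * t ^ p)) ^ p = r / (t * t ^ p) := by
        rw [div_pow, hr, conj_cast hK]
      have e5 : ((r / (t * t ^ p)) ^ 2) ^ p = (r / (t * t ^ p)) ^ 2 := by
        rw [← pow_mul, mul_comm 2 p, pow_mul, e4]
      have e6 : lg p ((r / (t * t ^ p)) ^ 2) = 1 := by
        rw [sq, lg_mul h2 e4 e4]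
        have h0 : r / (t * t ^ p) ≠ 0 := div_ne_zero hr0 (mul_ne_zero ht0 htp0)
        unfold lg
        rw [if_neg h0]
        split_ifs <;> norm_num
      rw [e1, e2, lg_mul h2 e5 (conj_cast hK _), e6, one_mul, mul_comm (t ^ 2 - 18 * t - 27),
        ← pow_succ, lg_norm hK h2]
  have h0 : ∀ d ∈ univ.erase (0 : K), χ d * ((∑ r ∈ (Fp p K).erase 0,
      lg p (Wq d (d ^ p) (-(r + -27 * (d * d ^ p) / r))) : ℤ) : R) = ∑ r ∈ (Fp p K).erase 0,
      χ d * ((lg p (Wq d (d ^ p) (-(r + -27 * (d * d ^ p) / r))) : ℤ) : R) := by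
    intro d _
    rw [Int.cast_sum, Finset.mul_sum]
  rw [Finset.sum_congr rfl h0, Finset.sum_comm, Finset.sum_congr rfl h1, Finset.sum_const,
    Finset.card_erase_of_mem (by rw [mem_Fp, zero_pow hp.out.ne_zero]), card_Fp, nsmul_eq_mul]

/-- the part of the double sum over the conjugate roots -/
theorem part_B (hK : Fintype.card K = p ^ 2) (h2 : p ≠ 2) (h3 : p % 3 = 2) (hχ : χ ^ 3 = 1) {k : K}
    (hk : k ^ 2 = -27) (hk27 : (27 : K) ≠ 0) :
    ∑ d ∈ univ.erase (0 : K), χ d * ((∑ u ∈ univ.filter (fun u : K => u ^ (p + 1) = -27 * (d * d ^ p)),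
      lg p (Wq d (d ^ p) (-(u + u ^ p))) : ℤ) : R) =
      -((p - 1 : ℕ) : R) * (∑ s ∈ tor p K, Kf p χ k s) ^ 2 := by
  have h1 : ∀ d ∈ univ.erase (0 : K), χ d *
      ((∑ u ∈ univ.filter (fun u : K => u ^ (p + 1) = -27 * (d * d ^ p)),
      lg p (Wq d (d ^ p) (-(u + u ^ p))) : ℤ) : R) = ∑ t ∈ tor p K,
        -(Kf p χ k t * Kf p χ k (t ^ p * d ^ (p - 1))) := by
    intro d hd
    have hd0 : d ≠ 0 := (Finset.mem_erase.1 hd).1
    rw [Int.cast_sum, Finset.mul_sum]
    symm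
    refine Finset.sum_nbij' (fun t => d * t) (fun u => u / d) ?_ ?_ ?_ ?_ ?_
    · intro t ht
      rw [tor, Finset.mem_filter] at ht
      rw [Finset.mem_filter]
      refine ⟨Finset.mem_univ _, ?_⟩
      rw [mul_pow, ht.2, pow_succ]
      ring
    · intro u hu
      rw [Finset.mem_filter] at hu
      rw [tor, Finset.mem_filter]
      refine ⟨Finset.mem_univ _, ?_⟩
      rw [div_pow, hu.2, pow_succ]
      have : d ^ p ≠ 0 := pow_ne_zero _ hd0
      field_simp
    · intro t _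
      exact mul_div_cancel_left₀ t hd0
    · intro u _
      exact mul_div_cancel₀ u hd0
    · intro t ht
      rw [tor, Finset.mem_filter] at ht
      rw [Kf_mul χ hK h2 h3 hχ hk hk27 ht.2 hd0, neg_neg]
  rw [Finset.sum_congr rfl h1, Finset.sum_comm]
  have h4 : ∀ t ∈ tor p K, ∑ d ∈ univ.erase (0 : K), -(Kf p χ k t * Kf p χ k (t ^ p * d ^ (p - 1))) =
      -((p - 1 : ℕ) : R) * (Kf p χ k t * ∑ s ∈ tor p K, Kf p χ k s) := by
    intro t ht
    rw [tor, Finset.mem_filter] at ht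
    have ht0 : t ≠ 0 := by
      rintro rfl
      have := ht.2
      rw [zero_pow (Nat.succ_ne_zero p)] at this
      exact hk27 (by linear_combination this)
    rw [Finset.sum_neg_distrib, ← Finset.mul_sum,
      sum_pow_sub_one hK (fun v => Kf p χ k (t ^ p * v))]
    have h5 : ∑ v ∈ univ.filter (fun v : K => v ^ (p + 1) = 1), Kf p χ k (t ^ p * v) =
        ∑ s ∈ tor p K, Kf p χ k s := by
      have htp : (t ^ p) ^ (p + 1) = -27 := by
        rw [pow_succ, conj_conj hK, ← pow_succ', ht.2]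
      have htp0 : t ^ p ≠ 0 := pow_ne_zero _ ht0
      refine Finset.sum_nbij' (fun v => t ^ p * v) (fun s => s / t ^ p) ?_ ?_ ?_ ?_ ?_
      · intro v hv
        rw [Finset.mem_filter] at hv
        rw [tor, Finset.mem_filter]
        exact ⟨Finset.mem_univ _, by rw [mul_pow, htp, hv.2, mul_one]⟩
      · intro s hs
        rw [tor, Finset.mem_filter] at hs
        rw [Finset.mem_filter]
        refine ⟨Finset.mem_univ _, ?_⟩
        rw [div_pow, hs.2, htp, div_self (neg_ne_zero.2 hk27)]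
      · intro v _
        exact mul_div_cancel_left₀ v htp0
      · intro s _
        exact mul_div_cancel₀ s htp0
      · intro v _
        rfl
    rw [h5]
    ring
  rw [Finset.sum_congr rfl h4, ← Finset.mul_sum, ← Finset.sum_mul, sq]

/-- **Row C2.** -/
theorem c2 (hK : Fintype.card K = p ^ 2) (h2 : p ≠ 2) (h3 : p % 3 = 2) (hχ : χ ^ 3 = 1)
    (hne : χ ≠ 1) {k : K} (hk : k ^ 2 = -27) :
    ∑ t ∈ univ.erase (0 : K), χ t⁻¹ * ((quadraticChar K (t ^ 2 - 18 * t - 27) : ℤ) : R) =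
      2 * (p : R) + (∑ s ∈ tor p K, Kf p χ k s) ^ 2 := by
  have hk27 : (27 : K) ≠ 0 := by
    intro h
    have : ((3 : ℕ) : K) = 0 := by
      have h1 : (3 : K) ^ 3 = 0 := by linear_combination h
      have := pow_eq_zero_iff (by norm_num) |>.1 h1
      exact_mod_cast this
    rw [CharP.cast_eq_zero_iff K p] at this
    have := (Nat.prime_dvd_prime_iff_eq hp.out Nat.prime_three).1 this
    omega
  have hA := part_A χ hK h2 h3 hχ
  have hB := part_B χ hK h2 h3 hχ hk hk27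
  have h1 := dsum_one χ hK h2 h3 hχ hne hk27
  have h4 : ∀ d ∈ univ.erase (0 : K), χ d * ((∑ r ∈ (Fp p K).erase 0,
      lg p (Wq d (d ^ p) (-(r + -27 * (d * d ^ p) / r))) : ℤ) : R) + χ d *
      ((∑ u ∈ univ.filter (fun u : K => u ^ (p + 1) = -27 * (d * d ^ p)),
      lg p (Wq d (d ^ p) (-(u + u ^ p))) : ℤ) : R) =
      2 * (χ d * ((∑ c ∈ Fp p K, lg p (Wq d (d ^ p) c) : ℤ) : R)) := by
    intro d hd
    have hd0 : d ≠ 0 := (Finset.mem_erase.1 hd).1
    have hM : (-27 * (d * d ^ p)) ^ p = -27 * (d * d ^ p) := by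
      rw [mul_pow, n27, conj_cast hK]
    have hM0 : -27 * (d * d ^ p) ≠ 0 :=
      mul_ne_zero (neg_ne_zero.2 hk27) (mul_ne_zero hd0 (pow_ne_zero _ hd0))
    have := two_sum hK h2 hM hM0 (fun c => lg p (Wq d (d ^ p) (-c)))
    rw [sum_neg_Fp (fun c => lg p (Wq d (d ^ p) c))] at this
    rw [← mul_add, ← Int.cast_add, this]
    push_cast
    ring
  have h5 := Finset.sum_congr rfl h4
  rw [Finset.sum_add_distrib, hA, hB, ← Finset.mul_sum, h1] at h5
  have hp1 : ((p - 1 : ℕ) : R) = (p : R) - 1 := by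
    rw [Nat.cast_sub hp.out.one_le, Nat.cast_one]
  have hp0 : (p : R) - 1 ≠ 0 := by
    rw [← hp1]
    have := hp.out.two_le
    exact_mod_cast (show p - 1 ≠ 0 by omega)
  rw [hp1] at h5
  apply mul_left_cancel₀ hp0
  linear_combination h5

end

end E8T3c
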