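import Mathlib

/-!
[E8T3] CARD: the number of points of `y² + 3xy + by = x³`, `b = (1 + k) / 2`, `k² = -3`.
-/

set_option autoImplicit false

open Finset

namespace E8T3

theorem card_b {K : Type*} [Field K] (h2 : (2 : K) ≠ 0) {k b : K} (hk : k ^ 2 = -3)
    (hb : b = (1 + k) / 2) : b ^ 2 = b - 1 ∧ b ≠ 0 ∧ 1 - b ≠ 0 ∧ k = 2 * b - 1 := by
  have hk' : k = 2 * b - 1 := by
    rw [hb]
    field_simp
    ring
  have h4 : (4 : K) ≠ 0 := by
    have : (4 : K) = 2 * 2 := by norm_num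
    rw [this]
    exact mul_ne_zero h2 h2
  have hb2 : b ^ 2 = b - 1 := by
    have h5 : (4 : K) * (b ^ 2 - b + 1) = 0 := by
      rw [hk'] at hk
      linear_combination hk
    have h6 := (mul_eq_zero.1 h5).resolve_left h4
    linear_combination h6
  refine ⟨hb2, ?_, ?_, hk'⟩
  · rintro rfl
    apply one_ne_zero (α := K)
    linear_combination hb2
  · intro h
    have h7 : b = 1 := by linear_combination -h
    rw [h7] at hb2
    apply one_ne_zero (α := K)
    linear_combination hb2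

theorem card_delta {K : Type*} [Field K] (h2 : (2 : K) ≠ 0) (h3 : (3 : K) ≠ 0) {k b : K}
    (hk : k ^ 2 = -3) (hb : b = (1 + k) / 2) : (⟨3, 0, b, 0, 0⟩ : WeierstrassCurve K).Δ ≠ 0 := by
  obtain ⟨-, hb0, hb1, -⟩ := card_b h2 hk hb
  have e1 : (⟨3, 0, b, 0, 0⟩ : WeierstrassCurve K).Δ = 3 ^ 3 * b ^ 3 * (1 - b) := by
    simp only [WeierstrassCurve.Δ, WeierstrassCurve.b₂, WeierstrassCurve.b₄, WeierstrassCurve.b₆,
      WeierstrassCurve.b₈]
    ring
  rw [e1]
  exact mul_ne_zero (mul_ne_zero (pow_ne_zero _ h3) (pow_ne_zero _ hb0)) hb1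

theorem card_key {K : Type*} [Field K] (h2 : (2 : K) ≠ 0) {k b : K} (hk : k ^ 2 = -3)
    (hb : b = (1 + k) / 2) (X Y : K) :
    ((b * Y - 3 * (-(k * b) * X) - b) / 2) ^ 2 +
      3 * (-(k * b) * X) * ((b * Y - 3 * (-(k * b) * X) - b) / 2) +
      b * ((b * Y - 3 * (-(k * b) * X) - b) / 2) - (-(k * b) * X) ^ 3 =
    b ^ 2 / 4 * (Y ^ 2 - ((1 - 3 * k * X) ^ 2 + 6 * (k - 3) * X ^ 3)) := by
  have h4 : (4 : K) ≠ 0 := by
    have : (4 : K) = 2 * 2 := by norm_num
    rw [this]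
    exact mul_ne_zero h2 h2
  have h2b : 2 * b = 1 + k := by
    rw [hb]
    field_simp
  have h6 : 4 * (((b * Y - 3 * (-(k * b) * X) - b) / 2) ^ 2 +
      3 * (-(k * b) * X) * ((b * Y - 3 * (-(k * b) * X) - b) / 2) +
      b * ((b * Y - 3 * (-(k * b) * X) - b) / 2) - (-(k * b) * X) ^ 3) =
      b ^ 2 * (Y ^ 2 - ((1 - 3 * k * X) ^ 2 + 6 * (k - 3) * X ^ 3)) := by
    have h7 : ∀ w : K, 4 * ((w / 2) ^ 2 + 3 * (-(k * b) * X) * (w / 2) + b * (w / 2) -
        (-(k * b) * X) ^ 3) = w ^ 2 + 2 * (3 * (-(k * b) * X) + b) * w +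
          4 * (k * b * X) ^ 3 := by
      intro w
      field_simp
      ring
    rw [h7]
    linear_combination (b ^ 2 * X ^ 3) * ((4 * k * b - 6) * hk - 6 * k * h2b)
  have h8 : b ^ 2 / 4 * (Y ^ 2 - ((1 - 3 * k * X) ^ 2 + 6 * (k - 3) * X ^ 3)) =
      (b ^ 2 * (Y ^ 2 - ((1 - 3 * k * X) ^ 2 + 6 * (k - 3) * X ^ 3))) / 4 := by ring
  rw [h8, ← h6]
  field_simp

/-- The number of points. -/
theorem card_W {K : Type*} [Field K] [Fintype K] [DecidableEq K] (h2 : (2 : K) ≠ 0)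
    (h3 : (3 : K) ≠ 0) {k b : K} (hk : k ^ 2 = -3) (hb : b = (1 + k) / 2) :
    Nat.card (⟨3, 0, b, 0, 0⟩ : WeierstrassCurve K).toAffine.Point =
      ((univ : Finset (K × K)).filter
        fun q => q.2 ^ 2 = (1 - 3 * k * q.1) ^ 2 + 6 * (k - 3) * q.1 ^ 3).card + 1 := by
  obtain ⟨hb2, hb0, hb1, hkb⟩ := card_b h2 hk hb
  have hk0 : k ≠ 0 := by
    rintro rfl
    apply h3
    linear_combination hk
  have h4 : (4 : K) ≠ 0 := by
    have : (4 : K) = 2 * 2 := by norm_num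
    rw [this]
    exact mul_ne_zero h2 h2
  have hb4 : b ^ 2 / 4 ≠ 0 := div_ne_zero (pow_ne_zero _ hb0) h4
  have hΔ := card_delta h2 h3 hk hb
  set W : WeierstrassCurve K := ⟨3, 0, b, 0, 0⟩ with hW
  have e1 : ∀ x y : K, W.toAffine.Nonsingular x y ↔ y ^ 2 + 3 * x * y + b * y = x ^ 3 := by
    intro x y
    rw [← WeierstrassCurve.Affine.equation_iff_nonsingular_of_Δ_ne_zero hΔ,
      WeierstrassCurve.Affine.equation_iff]
    simp only [hW]
    constructor
    · intro h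
      linear_combination h
    · intro h
      linear_combination h
  have e2 : Nat.card W.toAffine.Point =
      Nat.card {xy : K × K // W.toAffine.Nonsingular xy.1 xy.2} + 1 := by
    rw [Nat.card_congr (WeierstrassCurve.Affine.nonsingularPointEquiv W.toAffine)]
    exact Finite.card_option
  rw [e2]
  congr 1
  have e3 : Nat.card {xy : K × K // W.toAffine.Nonsingular xy.1 xy.2} =
      ((univ : Finset (K × K)).filter
        fun q => q.2 ^ 2 + 3 * q.1 * q.2 + b * q.2 = q.1 ^ 3).card := by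
    rw [← Fintype.card_subtype, ← Nat.card_eq_fintype_card]
    exact Nat.card_congr (Equiv.subtypeEquivRight fun q => e1 q.1 q.2)
  rw [e3]
  refine Finset.card_nbij' (fun q => (-q.1 / (k * b), (2 * q.2 + 3 * q.1 + b) / b))
    (fun q => (-(k * b) * q.1, (b * q.2 - 3 * (-(k * b) * q.1) - b) / 2)) ?_ ?_ ?_ ?_
  · rintro ⟨x, y⟩ hq
    simp only [coe_filter, mem_univ, true_and, Set.mem_ofPred_eq] at hq ⊢
    obtain ⟨X, rfl⟩ : ∃ X, x = -(k * b) * X := ⟨-x / (k * b), by field_simp⟩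
    obtain ⟨Y, rfl⟩ : ∃ Y, y = (b * Y - 3 * (-(k * b) * X) - b) / 2 :=
      ⟨(2 * y + 3 * (-(k * b) * X) + b) / b, by field_simp; ring⟩
    have h5 := card_key h2 hk hb X Y
    have e4 : -(-(k * b) * X) / (k * b) = X := by field_simp
    have e5 : (2 * ((b * Y - 3 * (-(k * b) * X) - b) / 2) + 3 * (-(k * b) * X) + b) / b = Y := by
      field_simp
      ring
    rw [e4, e5]
    have h6 : b ^ 2 / 4 * (Y ^ 2 - ((1 - 3 * k * X) ^ 2 + 6 * (k - 3) * X ^ 3)) = 0 := by
      rw [← h5, hq, sub_self]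
    have h7 := (mul_eq_zero.1 h6).resolve_left hb4
    exact sub_eq_zero.1 h7
  · rintro ⟨X, Y⟩ hq
    simp only [coe_filter, mem_univ, true_and, Set.mem_ofPred_eq] at hq ⊢
    have h5 := card_key h2 hk hb X Y
    rw [hq, sub_self, mul_zero] at h5
    exact sub_eq_zero.1 h5
  · rintro ⟨x, y⟩ -
    refine Prod.ext ?_ ?_
    · simp only
      field_simp
    · simp only
      field_simp
      ring
  · rintro ⟨X, Y⟩ -
    refine Prod.ext ?_ ?_
    · simp only
      field_simp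
    · simp only
      field_simp
      ring

end E8T3
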