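import Pool.Agent.E8T3.CD

/-! E8T3, block (c), row R0: basics of the field with `p ^ 2` elements. -/

open Finset

namespace E8T3

variable {p : ℕ} {K : Type*} [Field K] [Fintype K] [DecidableEq K]

omit [DecidableEq K] in
theorem charP_of (hp : p.Prime) (hK : Fintype.card K = p ^ 2) : CharP K p := by
  have := Fact.mk hp
  obtain ⟨q, hq⟩ := CharP.exists K
  have := hq
  obtain ⟨n, hqp, hn⟩ := FiniteField.card K q
  have h : p = q := by
    have : p ∣ q ^ (n : ℕ) := by rw [← hn, hK]; exact dvd_pow_self p two_ne_zero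
    exact (Nat.prime_dvd_prime_iff_eq hp hqp).1 (hp.dvd_of_dvd_pow this)
  subst h
  exact hq

omit [DecidableEq K] in
theorem fr_add (hp : p.Prime) (hK : Fintype.card K = p ^ 2) (x y : K) : (x + y) ^ p = x ^ p + y ^ p := by
  have := Fact.mk hp
  have := charP_of hp hK
  exact add_pow_char x y p

omit [DecidableEq K] in
theorem fr_sub (hp : p.Prime) (hK : Fintype.card K = p ^ 2) (x y : K) : (x - y) ^ p = x ^ p - y ^ p := by
  have := Fact.mk hp
  have := charP_of hp hK
  exact sub_pow_char x y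

omit [DecidableEq K] in
theorem fr_neg (hp : p.Prime) (hK : Fintype.card K = p ^ 2) (x : K) : (-x) ^ p = -(x ^ p) := by
  have h := fr_sub hp hK 0 x
  rw [zero_pow hp.ne_zero, zero_sub, zero_sub] at h
  exact h

omit [DecidableEq K] in
theorem fr_nat (hp : p.Prime) (hK : Fintype.card K = p ^ 2) (n : ℕ) : (n : K) ^ p = n := by
  have := Fact.mk hp
  have := charP_of hp hK
  have := map_natCast (frobenius K p) n
  rwa [frobenius_def] at this

omit [DecidableEq K] in
theorem fr_fr (hK : Fintype.card K = p ^ 2) (x : K) : (x ^ p) ^ p = x := by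
  rw [← pow_mul, ← sq, ← hK, FiniteField.pow_card]

omit [DecidableEq K] in
theorem nat_ne (hp : p.Prime) (hK : Fintype.card K = p ^ 2) {n : ℕ} (h : ¬ p ∣ n) : (n : K) ≠ 0 := by
  have := charP_of hp hK
  intro h0
  exact h ((CharP.cast_eq_zero_iff K p n).1 h0)

omit [DecidableEq K] in
theorem two_ne (hp : p.Prime) (h2 : p ≠ 2) (hK : Fintype.card K = p ^ 2) : (2 : K) ≠ 0 := by
  have := nat_ne hp hK (n := 2) (fun h => h2 ((Nat.prime_dvd_prime_iff_eq hp Nat.prime_two).1 h))
  exact_mod_cast this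

omit [DecidableEq K] in
theorem three_ne (hp : p.Prime) (h3 : p % 3 = 2) (hK : Fintype.card K = p ^ 2) : (3 : K) ≠ 0 := by
  have := nat_ne hp hK (n := 3) (fun h => by
    have := (Nat.prime_dvd_prime_iff_eq hp Nat.prime_three).1 h
    omega)
  exact_mod_cast this

omit [Fintype K] [DecidableEq K] in
/-- a field of characteristic `p = 2 mod 3` has at most one cube root of unity of order dividing `p - 1` -/
theorem k_aux {x : K} (h : x ^ 3 = 1) (n m : ℕ) (hn : x ^ n = 1) (hnm : n = 3 * m + 1) : x = 1 := by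
  rw [hnm, pow_succ, pow_mul, h, one_pow, one_mul] at hn
  exact hn

omit [DecidableEq K] in
theorem k_fr (hp : p.Prime) (h3 : p % 3 = 2) (h2 : p ≠ 2) (hK : Fintype.card K = p ^ 2) {k : K} (hk : k ^ 2 = -3) :
    k ^ p = -k := by
  have h20 := two_ne hp h2 hK
  have h30 := three_ne hp h3 hK
  have hk0 : k ≠ 0 := by
    rintro rfl
    apply h30
    have : (3 : K) = -(0 ^ 2) := by rw [hk]; ring
    rw [this]; ring
  have hsq : (k ^ p) ^ 2 = k ^ 2 := by
    rw [← pow_mul, mul_comm, pow_mul, hk]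
    have := fr_neg hp hK (3 : K)
    rw [this]
    have := fr_nat hp hK 3
    norm_num at this
    rw [this]
  rcases sq_eq_sq_iff_eq_or_eq_neg.1 hsq with h | h
  · exfalso
    -- `om = (-1 + k)/2` is then in the prime field and has order 3, contradiction
    set om : K := (-1 + k) / 2 with hom
    have hom3 : om ^ 3 = 1 := by
      rw [hom, div_pow, div_eq_one_iff_eq (pow_ne_zero _ h20)]
      linear_combination (k - 3) * hk
    have homp : om ^ p = om := by
      have e2 : (2 : K) ^ p = 2 := by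
        have := fr_nat hp hK 2
        exact_mod_cast this
      rw [hom, div_pow, fr_add hp hK, fr_neg hp hK, one_pow, h, e2]
    have hom0 : om ≠ 0 := by
      intro h0
      rw [h0] at hom3
      norm_num at hom3
    have h1 : om ^ (p - 1) = 1 := by
      have e : om ^ (p - 1) * om = om := by
        rw [← pow_succ, Nat.sub_add_cancel hp.one_lt.le, homp]
      exact mul_right_cancel₀ hom0 (by rw [e, one_mul])
    have h2' := k_aux hom3 (p - 1) ((p - 2) / 3) h1 (by have := hp.two_le; omega)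
    rw [hom, div_eq_one_iff_eq h20] at h2'
    have hk3 : k = 3 := by linear_combination h2'
    rw [hk3] at hk
    have : (12 : K) = 0 := by linear_combination hk
    have h12 : (12 : K) = 2 ^ 2 * 3 := by norm_num
    rw [h12] at this
    exact mul_ne_zero (pow_ne_zero _ h20) h30 this
  · exact h

theorem mem_Fp {x : K} : x ∈ Fp K p ↔ x ^ p = x := by simp [Fp]

theorem mem_Sp {x : K} : x ∈ Sp K p ↔ x ^ (p + 1) = -27 := by simp [Sp]

theorem card_Fp (hp : p.Prime) (hK : Fintype.card K = p ^ 2) : (Fp K p).card = p := by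
  have := Fact.mk hp
  have := charP_of hp hK
  letI : Algebra (ZMod p) K := ZMod.algebra K p
  have h : Fp K p = univ.image (algebraMap (ZMod p) K) := by
    symm
    apply Finset.eq_of_subset_of_card_le
    · intro x hx
      obtain ⟨y, -, rfl⟩ := Finset.mem_image.1 hx
      rw [mem_Fp, ← map_pow, ZMod.pow_card]
    · rw [Finset.card_image_of_injective _ (algebraMap (ZMod p) K).injective, card_univ, ZMod.card]
      have hne : (Polynomial.X ^ p - Polynomial.X : Polynomial K) ≠ 0 :=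
        FiniteField.X_pow_card_sub_X_ne_zero K hp.one_lt
      have hs : Fp K p ⊆ (Polynomial.X ^ p - Polynomial.X : Polynomial K).roots.toFinset := by
        intro x hx
        rw [Multiset.mem_toFinset, Polynomial.mem_roots hne]
        simp [Polynomial.IsRoot, mem_Fp.1 hx]
      calc (Fp K p).card ≤ _ := Finset.card_le_card hs
        _ ≤ Multiset.card (Polynomial.X ^ p - Polynomial.X : Polynomial K).roots := Multiset.toFinset_card_le _
        _ ≤ (Polynomial.X ^ p - Polynomial.X : Polynomial K).natDegree := Polynomial.card_roots' _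
        _ = p := FiniteField.X_pow_card_sub_X_natDegree_eq K hp.one_lt
  rw [h, Finset.card_image_of_injective _ (algebraMap (ZMod p) K).injective, card_univ, ZMod.card]

theorem Fp_pow_sub_one (hp : p.Prime) {x : K} (hx : x ∈ Fp K p) (h0 : x ≠ 0) : x ^ (p - 1) = 1 := by
  have e : x ^ (p - 1) * x = x := by
    rw [← pow_succ, Nat.sub_add_cancel hp.one_lt.le, mem_Fp.1 hx]
  exact mul_right_cancel₀ h0 (by rw [e, one_mul])

theorem half (hp : p.Prime) (h2 : p ≠ 2) : (p - 1) / 2 * 2 = p - 1 := by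
  have := hp.eq_two_or_odd.resolve_left h2
  have := hp.two_le
  omega

theorem Fp_half (hp : p.Prime) (h2 : p ≠ 2) {x : K} (hx : x ∈ Fp K p) (h0 : x ≠ 0) :
    x ^ ((p - 1) / 2) = 1 ∨ x ^ ((p - 1) / 2) = -1 := by
  have h : (x ^ ((p - 1) / 2)) ^ 2 = 1 := by
    rw [← pow_mul, half hp h2, Fp_pow_sub_one hp hx h0]
  have h' : (x ^ ((p - 1) / 2)) ^ 2 = 1 ^ 2 := by rw [h, one_pow]
  exact sq_eq_sq_iff_eq_or_eq_neg.1 h'

theorem lam_zero : lam p (0 : K) = 0 := by simp [lam]

/-- `lam x` is the half power, read in `K` -/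
theorem lam_cast (hp : p.Prime) (h2 : p ≠ 2) {x : K} (hx : x ∈ Fp K p) :
    ((lam p x : ℤ) : K) = x ^ ((p - 1) / 2) := by
  have hpos : (p - 1) / 2 ≠ 0 := by
    have := half hp h2
    have := hp.two_le
    omega
  unfold lam
  by_cases h0 : x = 0
  · simp [h0, hpos]
  · rw [if_neg h0]
    rcases Fp_half hp h2 hx h0 with h | h
    · rw [if_pos h, h]; simp
    · by_cases h1 : x ^ ((p - 1) / 2) = 1
      · rw [if_pos h1, h1]; simp
      · rw [if_neg h1, h]; simp

theorem lam_eq_one_or (x : K) (h0 : x ≠ 0) : lam p x = 1 ∨ lam p x = -1 := by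
  unfold lam
  rw [if_neg h0]
  split_ifs <;> simp

theorem lam_sq (x : K) (h0 : x ≠ 0) : lam p x ^ 2 = 1 := by
  rcases lam_eq_one_or (p := p) x h0 with h | h <;> rw [h] <;> norm_num

theorem one_ne_neg_one (hp : p.Prime) (h2 : p ≠ 2) (hK : Fintype.card K = p ^ 2) : (1 : K) ≠ -1 := by
  intro h
  apply two_ne hp h2 hK
  linear_combination h

/-- two signs (or zeros) which agree in `K` agree -/
theorem sign_inj (hp : p.Prime) (h2 : p ≠ 2) (hK : Fintype.card K = p ^ 2) {a b : ℤ}
    (ha : a = 0 ∨ a = 1 ∨ a = -1) (hb : b = 0 ∨ b = 1 ∨ b = -1) (h : (a : K) = b) : a = b := by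
  have hne := one_ne_neg_one hp h2 hK
  rcases ha with rfl | rfl | rfl <;> rcases hb with rfl | rfl | rfl <;> simp_all

theorem lam_cases (x : K) : lam p x = 0 ∨ lam p x = 1 ∨ lam p x = -1 := by
  unfold lam
  split_ifs <;> simp

theorem Fp_mul {x y : K} (hx : x ∈ Fp K p) (hy : y ∈ Fp K p) : x * y ∈ Fp K p := by
  rw [mem_Fp, mul_pow, mem_Fp.1 hx, mem_Fp.1 hy]

theorem Fp_add (hp : p.Prime) (hK : Fintype.card K = p ^ 2) {x y : K} (hx : x ∈ Fp K p) (hy : y ∈ Fp K p) :
    x + y ∈ Fp K p := by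
  rw [mem_Fp, fr_add hp hK, mem_Fp.1 hx, mem_Fp.1 hy]

theorem Fp_sub (hp : p.Prime) (hK : Fintype.card K = p ^ 2) {x y : K} (hx : x ∈ Fp K p) (hy : y ∈ Fp K p) :
    x - y ∈ Fp K p := by
  rw [mem_Fp, fr_sub hp hK, mem_Fp.1 hx, mem_Fp.1 hy]

theorem Fp_neg (hp : p.Prime) (hK : Fintype.card K = p ^ 2) {x : K} (hx : x ∈ Fp K p) : -x ∈ Fp K p := by
  rw [mem_Fp, fr_neg hp hK, mem_Fp.1 hx]

theorem Fp_nat (hp : p.Prime) (hK : Fintype.card K = p ^ 2) (n : ℕ) : (n : K) ∈ Fp K p := by
  rw [mem_Fp, fr_nat hp hK]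

theorem Fp_int (hp : p.Prime) (hK : Fintype.card K = p ^ 2) (n : ℤ) : (n : K) ∈ Fp K p := by
  rcases n.eq_nat_or_neg with ⟨m, rfl | rfl⟩
  · simpa using Fp_nat hp hK m
  · have := Fp_neg hp hK (Fp_nat (K := K) hp hK m)
    simpa using this

theorem Fp_ofNat (hp : p.Prime) (hK : Fintype.card K = p ^ 2) (n : ℕ) [n.AtLeastTwo] :
    (OfNat.ofNat n : K) ∈ Fp K p := by
  exact Fp_nat (K := K) hp hK n

theorem Fp_zero (hp : p.Prime) : (0 : K) ∈ Fp K p := by
  rw [mem_Fp, zero_pow hp.ne_zero]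

theorem Fp_one : (1 : K) ∈ Fp K p := by
  rw [mem_Fp, one_pow]

theorem Fp_pow {x : K} (hx : x ∈ Fp K p) (n : ℕ) : x ^ n ∈ Fp K p := by
  rw [mem_Fp, ← pow_mul, mul_comm, pow_mul, mem_Fp.1 hx]

theorem Fp_div {x y : K} (hx : x ∈ Fp K p) (hy : y ∈ Fp K p) : x / y ∈ Fp K p := by
  rw [mem_Fp, div_pow, mem_Fp.1 hx, mem_Fp.1 hy]

theorem Fp_norm (hK : Fintype.card K = p ^ 2) (x : K) : x ^ (p + 1) ∈ Fp K p := by
  rw [mem_Fp, ← pow_mul, mul_comm, pow_mul, pow_succ, ← pow_mul, ← sq, ← hK, FiniteField.pow_card, pow_succ, mul_comm]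

theorem Fp_norm' (hK : Fintype.card K = p ^ 2) (x : K) : x * x ^ p ∈ Fp K p := by
  have := Fp_norm (p := p) hK x
  rwa [pow_succ, mul_comm] at this

theorem Fp_trace (hp : p.Prime) (hK : Fintype.card K = p ^ 2) (x : K) : x + x ^ p ∈ Fp K p := by
  rw [mem_Fp, fr_add hp hK, fr_fr hK, add_comm]

theorem lam_mul (hp : p.Prime) (h2 : p ≠ 2) (hK : Fintype.card K = p ^ 2) {x y : K} (hx : x ∈ Fp K p)
    (hy : y ∈ Fp K p) : lam p (x * y) = lam p x * lam p y := by
  apply sign_inj hp h2 hK (lam_cases _)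
  · rcases lam_cases (p := p) x with h | h | h <;> rcases lam_cases (p := p) y with h' | h' | h' <;>
      rw [h, h'] <;> norm_num
  · rw [lam_cast hp h2 (Fp_mul hx hy)]
    push_cast
    rw [lam_cast hp h2 hx, lam_cast hp h2 hy, mul_pow]

omit [DecidableEq K] in
theorem card_half (hp : p.Prime) (h2 : p ≠ 2) (hK : Fintype.card K = p ^ 2) :
    Fintype.card K / 2 = (p + 1) * ((p - 1) / 2) := by
  have h := half hp h2
  have h1 := hp.two_le
  obtain ⟨m, hm⟩ : ∃ m, p = 2 * m + 1 := ⟨(p - 1) / 2, by omega⟩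
  have e : (p - 1) / 2 = m := by omega
  rw [hK, e, hm]
  have : (2 * m + 1) ^ 2 = 2 * ((2 * m + 1 + 1) * m) + 1 := by ring
  rw [this]
  omega

omit [DecidableEq K] in
theorem ringChar_ne (hp : p.Prime) (h2 : p ≠ 2) (hK : Fintype.card K = p ^ 2) : ringChar K ≠ 2 := by
  have := charP_of hp hK
  rw [ringChar.eq K p]
  exact h2

/-- `quadraticChar K x` read in `K` -/
theorem qc_cast (hp : p.Prime) (h2 : p ≠ 2) (hK : Fintype.card K = p ^ 2) (x : K) :
    ((quadraticChar K x : ℤ) : K) = x ^ ((p + 1) * ((p - 1) / 2)) := by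
  have := quadraticChar_eq_pow_of_char_ne_two' (ringChar_ne hp h2 hK) x
  rw [this, card_half hp h2 hK]

theorem qc_cases (x : K) : quadraticChar K x = 0 ∨ quadraticChar K x = 1 ∨ quadraticChar K x = -1 := by
  by_cases h : x = 0
  · left; rw [h]; simp
  · right
    exact quadraticChar_dichotomy h

/-- `lam (N x) = quadraticChar K x` -/
theorem lam_norm (hp : p.Prime) (h2 : p ≠ 2) (hK : Fintype.card K = p ^ 2) (x : K) :
    lam p (x ^ (p + 1)) = quadraticChar K x := by
  apply sign_inj hp h2 hK (lam_cases _) (qc_cases x)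
  rw [lam_cast hp h2 (Fp_norm hK x), qc_cast hp h2 hK, ← pow_mul]

theorem lam_norm' (hp : p.Prime) (h2 : p ≠ 2) (hK : Fintype.card K = p ^ 2) (x : K) :
    lam p (x * x ^ p) = quadraticChar K x := by
  rw [← lam_norm hp h2 hK, pow_succ, mul_comm]

/-- the elements of the prime field are squares in `K` -/
theorem qc_Fp (hp : p.Prime) (h2 : p ≠ 2) (hK : Fintype.card K = p ^ 2) {x : K} (hx : x ∈ Fp K p) (h0 : x ≠ 0) :
    quadraticChar K x = 1 := by
  rw [← lam_norm' hp h2 hK, mem_Fp.1 hx, lam_mul hp h2 hK hx hx]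
  have := lam_sq (p := p) x h0
  rwa [sq] at this

theorem qc_conj (hp : p.Prime) (h2 : p ≠ 2) (hK : Fintype.card K = p ^ 2) (x : K) :
    quadraticChar K (x ^ p) = quadraticChar K x := by
  rw [← lam_norm' hp h2 hK, ← lam_norm' hp h2 hK, fr_fr hK, mul_comm]

omit [Fintype K] [DecidableEq K] in
theorem chi_cube [Fintype K] {χ : MulChar K ℂ} (hχ : χ ^ 3 = 1) {x : K} (h0 : x ≠ 0) : χ x ^ 3 = 1 := by
  have h : (χ ^ 3) x = (1 : MulChar K ℂ) x := by rw [hχ]
  rw [MulChar.pow_apply' _ (by norm_num)] at h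
  rw [h]
  exact MulChar.one_apply (isUnit_iff_ne_zero.2 h0)

omit [DecidableEq K] in
theorem chi_ne {χ : MulChar K ℂ} {x : K} (h0 : x ≠ 0) : χ x ≠ 0 := by
  intro h
  have : IsUnit (χ x) := (isUnit_iff_ne_zero.2 h0).map χ
  rw [h] at this
  simp at this

/-- a cubic character is trivial on the prime field -/
theorem chi_Fp (hp : p.Prime) (h3 : p % 3 = 2) (hK : Fintype.card K = p ^ 2) {χ : MulChar K ℂ} (hχ : χ ^ 3 = 1)
    {x : K} (hx : x ∈ Fp K p) (h0 : x ≠ 0) : χ x = 1 := by
  have h1 : χ x ^ (p - 1) = 1 := by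
    rw [← map_pow, Fp_pow_sub_one hp hx h0, map_one]
  exact k_aux (chi_cube hχ h0) (p - 1) ((p - 2) / 3) h1 (by have := hp.two_le; omega)

omit [DecidableEq K] in
/-- `χ (xb) = χ x ^ 2` -/
theorem chi_conj (hp : p.Prime) (h3 : p % 3 = 2) {χ : MulChar K ℂ} (hχ : χ ^ 3 = 1)
    {x : K} (h0 : x ≠ 0) : χ (x ^ p) = χ x ^ 2 := by
  rw [map_pow]
  have hpm : p = 3 * ((p - 2) / 3) + 2 := by have := hp.two_le; omega
  conv_lhs => rw [hpm]
  rw [pow_add, pow_mul, chi_cube hχ h0, one_pow, one_mul]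

/-- number of solutions of `x ^ n = y` in `K*` -/
theorem card_pow {n m : ℕ} (hnm : n * m = Fintype.card K - 1) (hn : 0 < n) {y : K} (hy : y ^ m = 1) :
    (univ.filter fun x : K => x ^ n = y).card = n := by
  have hq : 1 < Fintype.card K := Fintype.one_lt_card
  have hm : 0 < m := by
    rcases Nat.eq_zero_or_pos m with h | h
    · rw [h, mul_zero] at hnm; omega
    · exact h
  have hle : ∀ (r : ℕ), 0 < r → ∀ z : K, (univ.filter fun x : K => x ^ r = z).card ≤ r := by
    intro r hr z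
    have h := Polynomial.card_nthRoots r z
    refine le_trans ?_ h
    refine le_trans (Finset.card_le_card (t := (Polynomial.nthRoots r z).toFinset) ?_) (Multiset.toFinset_card_le _)
    intro x hx
    rw [Multiset.mem_toFinset, Polynomial.mem_nthRoots hr]
    exact (Finset.mem_filter.1 hx).2
  set Y : Finset K := univ.filter fun z : K => z ^ m = 1 with hY
  have hsum : ((univ.erase (0 : K))).card = ∑ z ∈ Y, ((univ.erase (0 : K)).filter fun x => x ^ n = z).card := by
    apply Finset.card_eq_sum_card_fiberwise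
    intro x hx
    have hx0 : x ≠ 0 := by simpa using hx
    rw [hY, Finset.coe_filter]
    refine ⟨Finset.mem_univ _, ?_⟩
    rw [← pow_mul, hnm]
    exact FiniteField.pow_card_sub_one_eq_one x hx0
  have hfib : ∀ z ∈ Y, ((univ.erase (0 : K)).filter fun x => x ^ n = z) = univ.filter fun x : K => x ^ n = z := by
    intro z hz
    ext x
    simp only [mem_filter, mem_erase, mem_univ, and_true, true_and]
    constructor
    · exact fun h => h.2
    · intro h
      refine ⟨?_, h⟩
      rintro rfl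
      rw [zero_pow hn.ne'] at h
      have := (Finset.mem_filter.1 hz).2
      rw [← h, zero_pow hm.ne'] at this
      exact zero_ne_one this
  rw [Finset.card_erase_of_mem (Finset.mem_univ _), card_univ] at hsum
  rw [Finset.sum_congr rfl (fun z hz => by rw [hfib z hz])] at hsum
  have hYc : Y.card ≤ m := hle m hm 1
  have hyY : y ∈ Y := by rw [hY]; simp [hy]
  by_contra hne
  have hlt : ∑ z ∈ Y, (univ.filter fun x : K => x ^ n = z).card < ∑ z ∈ Y, n :=
    Finset.sum_lt_sum (fun z _ => hle n hn z) ⟨y, hyY, lt_of_le_of_ne (hle n hn y) hne⟩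
  rw [Finset.sum_const, smul_eq_mul, ← hsum, ← hnm] at hlt
  have := Nat.mul_le_mul_right n hYc
  rw [mul_comm n m] at hlt
  omega

omit [DecidableEq K] in
theorem card_fac (hp : p.Prime) (hK : Fintype.card K = p ^ 2) : (p + 1) * (p - 1) = Fintype.card K - 1 := by
  rw [hK]
  obtain ⟨m, hm⟩ : ∃ m, p = m + 1 := ⟨p - 1, by have := hp.one_lt; omega⟩
  rw [hm]
  have : (m + 1) ^ 2 = (m + 1 + 1) * m + 1 := by ring
  rw [this, Nat.add_sub_cancel, Nat.add_sub_cancel]

theorem card_Sp (hp : p.Prime) (h3 : p % 3 = 2) (hK : Fintype.card K = p ^ 2) :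
    (Sp K p).card = p + 1 := by
  have h30 := three_ne hp h3 hK
  have h27 : (-27 : K) ∈ Fp K p := Fp_neg hp hK (Fp_ofNat hp hK 27)
  have h0 : (-27 : K) ≠ 0 := by
    have : (-27 : K) = -(3 ^ 3) := by norm_num
    rw [this]
    exact neg_ne_zero.2 (pow_ne_zero _ h30)
  exact card_pow (card_fac hp hK) (Nat.succ_pos p) (Fp_pow_sub_one hp h27 h0)

/-- Hilbert 90 count: if `N u = 1` there are exactly `p - 1` elements `d ≠ 0` with `d^p = u d` -/
theorem card_H90 (hp : p.Prime) (hK : Fintype.card K = p ^ 2) {u : K} (hu : u ^ (p + 1) = 1) :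
    (univ.filter fun d : K => d ≠ 0 ∧ d ^ p = u * d).card = p - 1 := by
  have h1 : 0 < p - 1 := by have := hp.one_lt; omega
  have hu0 : u ≠ 0 := by
    rintro rfl
    rw [zero_pow (Nat.succ_ne_zero p)] at hu
    exact zero_ne_one hu
  have := card_pow (K := K) (n := p - 1) (m := p + 1) (by rw [mul_comm]; exact card_fac hp hK) h1 hu
  rw [← this]
  congr 1
  ext d
  simp only [mem_filter, mem_univ, true_and]
  constructor
  · rintro ⟨hd, h⟩
    have e : d ^ (p - 1) * d = u * d := by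
      rw [← pow_succ, Nat.sub_add_cancel hp.one_lt.le, h]
    exact mul_right_cancel₀ hd e
  · intro h
    refine ⟨?_, ?_⟩
    · rintro rfl
      rw [zero_pow h1.ne'] at h
      exact hu0 h.symm
    · rw [← h, ← pow_succ, Nat.sub_add_cancel hp.one_lt.le]

omit [Fintype K] [DecidableEq K] in
theorem ff_mul_conj (p : ℕ) {t : K} (ht : t ^ (p + 1) = -27) : t * (t + t ^ p - 18) = ff t := by
  have : t * t ^ p = -27 := by rw [← ht, pow_succ, mul_comm]
  unfold ff
  linear_combination this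

omit [Fintype K] [DecidableEq K] in
theorem conj_of {t : K} (ht : t ^ (p + 1) = -27) : t * t ^ p = -27 := by
  rw [← ht, pow_succ, mul_comm]

theorem Sp_ne (hp : p.Prime) (h3 : p % 3 = 2) (hK : Fintype.card K = p ^ 2) {t : K} (ht : t ∈ Sp K p) : t ≠ 0 := by
  rintro rfl
  have h := mem_Sp.1 ht
  rw [zero_pow (Nat.succ_ne_zero p)] at h
  have h30 := three_ne hp h3 hK
  have : (3 : K) ^ 3 = 0 := by linear_combination h
  exact pow_ne_zero 3 h30 this

theorem Sp_conj (hp : p.Prime) (hK : Fintype.card K = p ^ 2) {t : K} (ht : t ∈ Sp K p) : t ^ p ∈ Sp K p := by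
  rw [mem_Sp, ← pow_mul, mul_comm, pow_mul, mem_Sp.1 ht]
  exact mem_Fp.1 (Fp_neg hp hK (Fp_ofNat hp hK 27))

end E8T3
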