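import Mathlib

/-! E8T3, block (c): definitions. `K` is a field with `p ^ 2` elements, `x ^ p` is the conjugate of `x`. -/

open Finset

namespace E8T3

/-- the elements of the prime field inside `K` -/
def Fp (K : Type*) [Field K] [Fintype K] [DecidableEq K] (p : ℕ) : Finset K := univ.filter fun c : K => c ^ p = c

/-- the elements of norm `-27` -/
def Sp (K : Type*) [Field K] [Fintype K] [DecidableEq K] (p : ℕ) : Finset K := univ.filter fun s : K => s ^ (p + 1) = -27

/-- the quadratic character of the prime field, used on `Fp K p` only -/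
def lam {K : Type*} [Field K] [DecidableEq K] (p : ℕ) (x : K) : ℤ :=
  if x = 0 then 0 else if x ^ ((p - 1) / 2) = 1 then 1 else -1

/-- the quadratic form of the double count -/
def Qf {K : Type*} [Field K] (p : ℕ) (d c : K) : K :=
  c ^ 2 + 18 * (d + d ^ p) * c - 27 * (d ^ 2 + (d ^ p) ^ 2) + 378 * (d * d ^ p)

def ff {K : Type*} [Field K] (t : K) : K := t ^ 2 - 18 * t - 27

/-- the `c` for which `t` is a root of `d t^2 + c t - 27 d^p` -/
def cc {K : Type*} [Field K] (p : ℕ) (d t : K) : K := (27 * d ^ p - d * t ^ 2) / t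

def e3 {K : Type*} [Field K] [DecidableEq K] (p : ℕ) (k s : K) : ℤ :=
  (if s ^ ((p + 1) / 2) = 3 * k then 1 else -1) * lam p (s + s ^ p - 18)

/-- the class sum (`om = (-1 + k) / 2`) -/
def M1 {K : Type*} [Field K] [Fintype K] [DecidableEq K] (p : ℕ) (k : K) : ℤ :=
  ∑ s ∈ (Sp K p).filter (fun s => s ^ ((p + 1) / 3) = -3 * ((-1 + k) / 2)), e3 p k s

/-- the twisted sum -/
noncomputable def S1 {K : Type*} [Field K] [Fintype K] [DecidableEq K] (p : ℕ) (k : K) (χ : MulChar K ℂ) : ℂ :=
  ∑ s ∈ Sp K p, χ s * (e3 p k s : ℂ)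

end E8T3
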