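import Pool.Agent.E8T3.CD
import Pool.Agent.E8T3.C2c

set_option autoImplicit false

open Finset

namespace E8T3

variable {p : ℕ} {K : Type*} [Field K] [Fintype K] [DecidableEq K]

theorem twisted (hp : p.Prime) (h3 : p % 3 = 2) (h2 : p ≠ 2) (hK : Fintype.card K = p ^ 2) {k : K} (hk : k ^ 2 = -3)
    {χ : MulChar K ℂ} (hχ : χ ^ 3 = 1) (h1 : χ ≠ 1) :
    ∑ t ∈ univ.erase (0 : K), χ t ^ 2 * (quadraticChar K (ff t) : ℂ) = 2 * p + S1 p k χ ^ 2 := by
  haveI : Fact p.Prime := ⟨hp⟩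
  haveI : CharP K p := by
    obtain ⟨q, hq⟩ := CharP.exists K
    haveI := hq
    obtain ⟨n, hqp, hn⟩ := FiniteField.card K q
    rw [hK] at hn
    have : p ∣ q ^ (n : ℕ) := by
      rw [← hn]
      exact dvd_pow_self p two_ne_zero
    have := (Nat.prime_dvd_prime_iff_eq hp hqp).1 (hp.dvd_of_dvd_pow this)
    rwa [this]
  have hk' : (3 * k) ^ 2 = -27 := by
    rw [mul_pow, hk]
    norm_num
  have h := E8T3c.c2 χ hK h2 h3 hχ h1 hk'
  have e1 : ∑ s ∈ E8T3c.tor p K, E8T3c.Kf p χ (3 * k) s = S1 p k χ := rfl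
  rw [e1] at h
  rw [← h]
  refine Finset.sum_congr rfl fun t ht => ?_
  have ht0 : t ≠ 0 := (Finset.mem_erase.1 ht).1
  have e2 : χ t ^ 2 = χ t⁻¹ := by
    have h5 : (χ t) ^ 3 = 1 := by
      have : (χ ^ 3) t = 1 := by
        rw [hχ, MulChar.one_apply (Ne.isUnit ht0)]
      rwa [MulChar.pow_apply' χ (by norm_num)] at this
    have h6 : χ t * χ t⁻¹ = 1 := by rw [← map_mul, mul_inv_cancel₀ ht0, map_one]
    have h7 : χ t ≠ 0 := by
      intro h0
      rw [h0, zero_mul] at h6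
      exact zero_ne_one h6
    apply mul_left_cancel₀ h7
    rw [h6, ← pow_succ', h5]
  rw [e2]
  rfl

end E8T3
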