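import Pool.Agent.E8T3.CB

/-! E8T3 block (c), rows R7 and the bound of R8: the twisted sum and the class sum. -/

open Finset

namespace E8T3

section roots

variable {F : Type*} [Field F]

theorem r7_om (h2 : (2 : F) ≠ 0) {k : F} (hk : k ^ 2 = -3) :
    ((-1 + k) / 2) ^ 2 + (-1 + k) / 2 + 1 = 0 := by
  field_simp
  linear_combination hk

theorem r7_om3 {o : F} (ho : o ^ 2 + o + 1 = 0) : o ^ 3 = 1 := by
  linear_combination (o - 1) * ho

theorem r7_ne1 (h3 : (3 : F) ≠ 0) {o : F} (ho : o ^ 2 + o + 1 = 0) : o ≠ 1 := by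
  rintro rfl
  apply h3
  linear_combination ho

theorem r7_sq_ne1 (h3 : (3 : F) ≠ 0) {o : F} (ho : o ^ 2 + o + 1 = 0) : o ^ 2 ≠ 1 := by
  intro h
  refine r7_ne1 h3 ho ?_
  have := r7_om3 ho
  linear_combination this - o * h

theorem r7_sq_ne (h3 : (3 : F) ≠ 0) {o : F} (ho : o ^ 2 + o + 1 = 0) : o ^ 2 ≠ o := by
  intro h
  refine r7_ne1 h3 ho ?_
  have := r7_om3 ho
  linear_combination this - (o + 1) * h

/-- The cube roots of one. -/
theorem r7_roots {o : F} (ho : o ^ 2 + o + 1 = 0) {x : F} (hx : x ^ 3 = 1) :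
    x = 1 ∨ x = o ∨ x = o ^ 2 := by
  have h1 : (x - 1) * ((x - o) * (x - o ^ 2)) = 0 := by
    linear_combination hx + (x - x ^ 2 + (o - 1) * (x - 1)) * ho
  rcases mul_eq_zero.1 h1 with h | h
  · exact Or.inl (sub_eq_zero.1 h)
  · rcases mul_eq_zero.1 h with h | h
    · exact Or.inr (Or.inl (sub_eq_zero.1 h))
    · exact Or.inr (Or.inr (sub_eq_zero.1 h))

theorem r7_of_cube {z : F} (h1 : z ^ 3 = 1) (h2 : z ≠ 1) : z ^ 2 + z + 1 = 0 := by
  have h3 : (z - 1) * (z ^ 2 + z + 1) = 0 := by linear_combination h1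
  rcases mul_eq_zero.1 h3 with h | h
  · exact absurd (sub_eq_zero.1 h) h2
  · exact h

end roots

variable {p : ℕ} {K : Type*} [Field K] [Fintype K] [DecidableEq K]

/-- The values of a cubic character through the cubic residue symbol. -/
theorem r7_chi (hp : p.Prime) (h3 : p % 3 = 2) (hK : Fintype.card K = p ^ 2)
    {χ : MulChar K ℂ} (hχ : χ ^ 3 = 1) (h1 : χ ≠ 1) {o : K} (ho : o ^ 2 + o + 1 = 0) :
    ∃ z : ℂ, z ^ 2 + z + 1 = 0 ∧ ∀ y : K, y ≠ 0 →
      (y ^ ((p ^ 2 - 1) / 3) = 1 → χ y = 1) ∧ (y ^ ((p ^ 2 - 1) / 3) = o → χ y = z) ∧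
      (y ^ ((p ^ 2 - 1) / 3) = o ^ 2 → χ y = z ^ 2) := by
  classical
  have h30 : (3 : K) ≠ 0 := three_ne hp h3 hK
  obtain ⟨g, hg⟩ := IsCyclic.exists_generator (α := Kˣ)
  obtain ⟨n, hn⟩ : ∃ n, p ^ 2 - 1 = 3 * n := by
    obtain ⟨a, ha⟩ : ∃ a, p = 3 * a + 2 := ⟨p / 3, by omega⟩
    refine ⟨3 * a ^ 2 + 4 * a + 1, ?_⟩
    rw [ha]
    have : (3 * a + 2) ^ 2 = 3 * (3 * a ^ 2 + 4 * a + 1) + 1 := by ring
    omega
  have hn' : (p ^ 2 - 1) / 3 = n := by rw [hn]; omega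
  have hp2 : 2 ≤ p := hp.two_le
  have hcard : orderOf g = p ^ 2 - 1 := by
    rw [orderOf_eq_card_of_forall_mem_zpowers hg, Nat.card_eq_fintype_card, Fintype.card_units, hK]
  have hn0 : 0 < n := by
    have : 4 ≤ p ^ 2 := by nlinarith
    omega
  rw [hn']
  set w : K := (g : K) ^ n with hw
  have hw3 : w ^ 3 = 1 := by
    rw [hw, ← pow_mul, mul_comm n 3, ← hn, ← hcard, ← Units.val_pow_eq_pow_val, pow_orderOf_eq_one,
      Units.val_one]
  have hw1 : w ≠ 1 := by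
    intro h
    have h4 : g ^ n = 1 := by
      ext
      rw [Units.val_pow_eq_pow_val, Units.val_one]
      exact h
    have h5 := Nat.le_of_dvd hn0 (orderOf_dvd_of_pow_eq_one h4)
    omega
  set z0 : ℂ := χ (g : K) with hz0
  have hz3 : z0 ^ 3 = 1 := by
    have h4 := congrArg (fun ψ : MulChar K ℂ => ψ (g : K)) hχ
    simp only [MulChar.pow_apply_coe, MulChar.one_apply_coe] at h4
    exact h4
  have hgen : ∀ y : K, y ≠ 0 → ∃ m : ℕ, y = (g : K) ^ m := by
    intro y hy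
    obtain ⟨m, hm⟩ := mem_powers_iff_mem_zpowers.2 (hg (Units.mk0 y hy))
    refine ⟨m, ?_⟩
    have h4 := congrArg (Units.val) hm
    simpa using h4.symm
  have hz1 : z0 ≠ 1 := by
    intro h
    apply h1
    refine MulChar.ext fun a => ?_
    obtain ⟨m, hm⟩ := hgen a a.ne_zero
    rw [hm, map_pow, ← hz0, h, one_pow, ← hm, MulChar.one_apply_coe]
  have hz : z0 ^ 2 + z0 + 1 = 0 := r7_of_cube hz3 hz1
  have e1 : ∀ m : ℕ, ((g : K) ^ m) ^ n = w ^ (m % 3) := by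
    intro m
    rw [← pow_mul, mul_comm m n, pow_mul, ← hw]
    conv_lhs => rw [← Nat.div_add_mod m 3, pow_add, pow_mul, hw3, one_pow, one_mul]
  have e2 : ∀ m : ℕ, χ ((g : K) ^ m) = z0 ^ (m % 3) := by
    intro m
    rw [map_pow, ← hz0]
    conv_lhs => rw [← Nat.div_add_mod m 3, pow_add, pow_mul, hz3, one_pow, one_mul]
  have ho1 := r7_ne1 h30 ho
  have ho2 := r7_sq_ne1 h30 ho
  have ho3 := r7_sq_ne h30 ho
  have hoc := r7_om3 ho
  rcases r7_roots ho hw3 with h | h | h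
  · exact absurd h hw1
  · refine ⟨z0, hz, fun y hy => ?_⟩
    obtain ⟨m, rfl⟩ := hgen y hy
    rw [e1, e2, h]
    have hm : m % 3 < 3 := Nat.mod_lt _ (by norm_num)
    interval_cases m % 3 <;> simp [ho1, ho2, ho3, ho1.symm, ho2.symm, ho3.symm]
  · refine ⟨z0 ^ 2, by linear_combination (z0 ^ 2 - z0 + 1) * hz, fun y hy => ?_⟩
    obtain ⟨m, rfl⟩ := hgen y hy
    rw [e1, e2, h]
    have hm : m % 3 < 3 := Nat.mod_lt _ (by norm_num)
    have h4 : (o ^ 2) ^ 2 = o := by linear_combination o * hoc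
    have h5 : (z0 ^ 2) ^ 2 = z0 := by linear_combination z0 * hz3
    rw [h5]
    interval_cases m % 3 <;> simp [h4, ho1, ho2, ho3, ho1.symm, ho2.symm, ho3.symm]

/-- The sum over one class. -/
def r7M (p : ℕ) (k a : K) : ℤ := ∑ s ∈ (Sp K p).filter (fun s => s ^ ((p + 1) / 3) = a), e3 p k s

theorem r7_ne (hp : p.Prime) (h3 : p % 3 = 2) (hK : Fintype.card K = p ^ 2) {s : K}
    (hs : s ∈ Sp K p) : s ≠ 0 := by
  rintro rfl
  have h1 : (0 : K) ^ (p + 1) = -27 := (mem_filter.1 hs).2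
  rw [zero_pow (by omega)] at h1
  have h2 := three_ne hp h3 hK
  apply pow_ne_zero 3 h2
  linear_combination h1

/-- The half power. -/
theorem r7_half (hp : p.Prime) (h2 : p ≠ 2) {k : K} (hk : k ^ 2 = -3) {s : K} (hs : s ∈ Sp K p) :
    s ^ ((p + 1) / 2) = 3 * k ∨ s ^ ((p + 1) / 2) = -(3 * k) := by
  have h1 : s ^ (p + 1) = -27 := (mem_filter.1 hs).2
  have hodd : p % 2 = 1 := (hp.eq_two_or_odd).resolve_left h2
  have h4 : (s ^ ((p + 1) / 2)) ^ 2 = (3 * k) ^ 2 := by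
    rw [← pow_mul, show (p + 1) / 2 * 2 = p + 1 by omega, h1]
    linear_combination (-9) * hk
  exact sq_eq_sq_iff_eq_or_eq_neg.1 h4

theorem r7_conj_mem (hp : p.Prime) (hK : Fintype.card K = p ^ 2) {s : K}
    (hs : s ∈ Sp K p) : s ^ p ∈ Sp K p := by
  have h1 : s ^ (p + 1) = -27 := (mem_filter.1 hs).2
  refine mem_filter.2 ⟨mem_univ _, ?_⟩
  rw [← pow_mul, mul_comm, pow_mul, h1, fr_neg hp hK]
  have := fr_nat hp hK 27
  push_cast at this
  rw [this]

theorem r7_e3 (hp : p.Prime) (h3 : p % 3 = 2) (h2 : p ≠ 2) (hK : Fintype.card K = p ^ 2) {k : K}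
    (hk : k ^ 2 = -3) {s : K} (hs : s ∈ Sp K p) : e3 p k (s ^ p) = -e3 p k s := by
  have h20 := two_ne (K := K) hp h2 hK
  have h30 := three_ne (K := K) hp h3 hK
  have hk0 : k ≠ 0 := by
    rintro rfl
    apply h30
    linear_combination hk
  have hkk : -(3 * k) ≠ 3 * k := by
    intro h
    have h4 : 2 * (3 * k) = 0 := by linear_combination -h
    exact (mul_ne_zero h20 (mul_ne_zero h30 hk0)) h4
  have h3k : (3 * k) ^ p = -(3 * k) := by
    have := fr_nat (K := K) hp hK 3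
    push_cast at this
    rw [mul_pow, this, k_fr hp h3 h2 hK hk]
    ring
  have e1 : (s ^ p) ^ ((p + 1) / 2) = (s ^ ((p + 1) / 2)) ^ p := by
    rw [← pow_mul, ← pow_mul, mul_comm]
  unfold e3
  rw [fr_fr hK, e1, add_comm (s ^ p) s]
  rcases r7_half hp h2 hk hs with h | h
  · rw [h, h3k, if_neg hkk, if_pos rfl]
    ring
  · rw [h, fr_neg hp hK, h3k, neg_neg, if_pos rfl, if_neg hkk]
    ring

theorem r7_M_conj (hp : p.Prime) (h3 : p % 3 = 2) (h2 : p ≠ 2) (hK : Fintype.card K = p ^ 2) {k : K}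
    (hk : k ^ 2 = -3) (a : K) : r7M p k (a ^ p) = -r7M p k a := by
  unfold r7M
  rw [← sum_neg_distrib]
  refine sum_nbij' (fun s => s ^ p) (fun s => s ^ p) ?_ ?_ ?_ ?_ ?_
  · intro s hs
    obtain ⟨h4, h5⟩ := mem_filter.1 hs
    refine mem_filter.2 ⟨r7_conj_mem hp hK h4, ?_⟩
    rw [← pow_mul, mul_comm, pow_mul, h5, fr_fr hK]
  · intro s hs
    obtain ⟨h4, h5⟩ := mem_filter.1 hs
    refine mem_filter.2 ⟨r7_conj_mem hp hK h4, ?_⟩
    rw [← pow_mul, mul_comm, pow_mul, h5]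
  · intro s _
    exact fr_fr hK s
  · intro s _
    exact fr_fr hK s
  · intro s hs
    rw [r7_e3 hp h3 h2 hK hk (mem_filter.1 hs).1, neg_neg]

theorem S1_sq (hp : p.Prime) (h3 : p % 3 = 2) (h2 : p ≠ 2) (hK : Fintype.card K = p ^ 2) {k : K} (hk : k ^ 2 = -3)
    {χ : MulChar K ℂ} (hχ : χ ^ 3 = 1) (h1 : χ ≠ 1) : S1 p k χ ^ 2 = -3 * (M1 p k : ℂ) ^ 2 := by
  have h20 := two_ne (K := K) hp h2 hK
  have h30 := three_ne (K := K) hp h3 hK
  set o : K := (-1 + k) / 2 with ho'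
  have ho : o ^ 2 + o + 1 = 0 := r7_om h20 hk
  obtain ⟨z, hz, hχz⟩ := r7_chi hp h3 hK hχ h1 ho
  have ho1 := r7_ne1 h30 ho
  have ho2 := r7_sq_ne1 h30 ho
  have ho3 := r7_sq_ne h30 ho
  have hoc := r7_om3 ho
  have h3fr : (-3 : K) ^ p = -3 := by
    have := fr_nat (K := K) hp hK 3
    push_cast at this
    rw [fr_neg hp hK, this]
  have hop : o ^ p = o ^ 2 := by
    conv_lhs => rw [← Nat.div_add_mod p 3, pow_add, pow_mul, hoc, one_pow, one_mul, h3]
  have hop2 : (o ^ 2) ^ p = o := by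
    rw [← pow_mul, mul_comm, pow_mul, hop]
    linear_combination o * hoc
  -- the classes
  have hcls : ∀ s ∈ Sp K p, s ^ ((p + 1) / 3) ∈ ({-3, -3 * o, -3 * o ^ 2} : Finset K) := by
    intro s hs
    have h4 : s ^ (p + 1) = -27 := (mem_filter.1 hs).2
    have h5 : (s ^ ((p + 1) / 3) / (-3)) ^ 3 = 1 := by
      rw [div_pow, ← pow_mul, show (p + 1) / 3 * 3 = p + 1 by omega, h4]
      have h6 : ((-3 : K)) ^ 3 = -27 := by norm_num
      rw [h6, div_self]
      rw [← h6]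
      exact pow_ne_zero _ (neg_ne_zero.2 h30)
    have hn : (-3 : K) ≠ 0 := neg_ne_zero.2 h30
    simp only [mem_insert, mem_singleton]
    rcases r7_roots ho h5 with h | h | h
    · left
      rwa [div_eq_one_iff_eq hn] at h
    · right; left
      rw [div_eq_iff hn] at h
      rw [h]; ring
    · right; right
      rw [div_eq_iff hn] at h
      rw [h]; ring
  have hN : ∀ (s a : K), s ≠ 0 → s ^ ((p + 1) / 3) = a → s ^ ((p ^ 2 - 1) / 3) = a ^ (p - 1) := by
    intro s a _ h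
    rw [← h, ← pow_mul]
    congr 1
    have hp1 := hp.one_lt
    obtain ⟨m, hm⟩ : ∃ m, p + 1 = 3 * m := ⟨(p + 1) / 3, by omega⟩
    have e1 : p ^ 2 - 1 = 3 * (m * (p - 1)) := by
      have h4 : p ^ 2 - 1 = (p + 1) * (p - 1) := by
        have := Nat.sq_sub_sq p 1
        simpa using this
      rw [h4, hm]
      ring
    rw [e1, hm]
    rw [Nat.mul_div_cancel_left _ (by norm_num), Nat.mul_div_cancel_left _ (by norm_num)]
  have hp1 : p - 1 + 1 = p := Nat.sub_add_cancel hp.one_lt.le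
  have h3q : (-3 : K) ^ (p - 1) = 1 := by
    have hn : (-3 : K) ≠ 0 := neg_ne_zero.2 h30
    refine mul_right_cancel₀ hn ?_
    rw [← pow_succ, hp1, h3fr, one_mul]
  have hoq : o ^ (p - 1) = o := by
    have ho0 : o ≠ 0 := by
      intro h
      rw [h] at hoc
      norm_num at hoc
    refine mul_right_cancel₀ ho0 ?_
    rw [← pow_succ, hp1, hop, sq]
  have hv : ∀ s ∈ Sp K p, (s ^ ((p + 1) / 3) = -3 → χ s = 1) ∧
      (s ^ ((p + 1) / 3) = -3 * o → χ s = z) ∧ (s ^ ((p + 1) / 3) = -3 * o ^ 2 → χ s = z ^ 2) := by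
    intro s hs
    have hs0 := r7_ne hp h3 hK hs
    obtain ⟨c0, c1, c2⟩ := hχz s hs0
    refine ⟨fun h => c0 ?_, fun h => c1 ?_, fun h => c2 ?_⟩
    · rw [hN s _ hs0 h, h3q]
    · rw [hN s _ hs0 h, mul_pow, h3q, hoq, one_mul]
    · rw [hN s _ hs0 h, mul_pow, h3q, ← pow_mul, mul_comm 2, pow_mul, hoq, one_mul]
  have d1 : (-3 : K) ≠ -3 * o := by
    intro h
    apply ho1
    have hn : (-3 : K) ≠ 0 := neg_ne_zero.2 h30
    refine mul_left_cancel₀ hn ?_
    rw [← h, mul_one]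
  have d2 : (-3 : K) ≠ -3 * o ^ 2 := by
    intro h
    apply ho2
    have hn : (-3 : K) ≠ 0 := neg_ne_zero.2 h30
    refine mul_left_cancel₀ hn ?_
    rw [← h, mul_one]
  have d3 : (-3 * o : K) ≠ -3 * o ^ 2 := by
    intro h
    apply ho3
    have hn : (-3 : K) ≠ 0 := neg_ne_zero.2 h30
    exact (mul_left_cancel₀ hn h).symm
  have hS : S1 p k χ = (r7M p k (-3) : ℂ) + z * (r7M p k (-3 * o) : ℂ) +
      z ^ 2 * (r7M p k (-3 * o ^ 2) : ℂ) := by
    unfold S1 r7M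
    rw [← sum_fiberwise_of_maps_to hcls fun s => χ s * (e3 p k s : ℂ)]
    rw [sum_insert (by rw [mem_insert, mem_singleton, not_or]; exact ⟨d1, d2⟩),
      sum_insert (by rw [mem_singleton]; exact d3), sum_singleton]
    push_cast
    rw [mul_sum, mul_sum, add_assoc]
    congr 1
    · refine sum_congr rfl fun s hs => ?_
      obtain ⟨h4, h5⟩ := mem_filter.1 hs
      rw [(hv s h4).1 h5, one_mul]
    · congr 1
      · refine sum_congr rfl fun s hs => ?_
        obtain ⟨h4, h5⟩ := mem_filter.1 hs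
        rw [(hv s h4).2.1 h5]
      · refine sum_congr rfl fun s hs => ?_
        obtain ⟨h4, h5⟩ := mem_filter.1 hs
        rw [(hv s h4).2.2 h5]
  have hM0 : r7M p k (-3) = 0 := by
    have h4 := r7_M_conj hp h3 h2 hK hk (-3)
    rw [h3fr] at h4
    omega
  have hM2 : r7M p k (-3 * o ^ 2) = -r7M p k (-3 * o) := by
    have h4 := r7_M_conj hp h3 h2 hK hk (-3 * o)
    rwa [mul_pow, h3fr, hop] at h4
  have hM1 : M1 p k = r7M p k (-3 * o) := rfl
  rw [hS, hM0, hM2, hM1]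
  push_cast
  linear_combination ((r7M p k (-3 * o) : ℂ)) ^ 2 * (z ^ 2 - 3 * z + 3) * hz

/-- class 1 has at most `(p+1)/3` elements. -/
theorem M1_abs (hp : p.Prime) (h3 : p % 3 = 2) (_h2 : p ≠ 2) (_hK : Fintype.card K = p ^ 2) {k : K} (_hk : k ^ 2 = -3) :
    |3 * M1 p k| ≤ p + 1 := by
  have he : ∀ s : K, |e3 p k s| ≤ 1 := by
    intro s
    unfold e3 lam
    split_ifs <;> simp
  have h1 : |M1 p k| ≤ (((Sp K p).filter
      (fun s => s ^ ((p + 1) / 3) = -3 * ((-1 + k) / 2))).card : ℤ) := by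
    unfold M1
    refine (abs_sum_le_sum_abs _ _).trans ?_
    refine (sum_le_card_nsmul _ _ 1 fun s _ => he s).trans ?_
    simp
  have h4 : ((Sp K p).filter (fun s => s ^ ((p + 1) / 3) = -3 * ((-1 + k) / 2))).card ≤
      (p + 1) / 3 := by
    have h5 : (Sp K p).filter (fun s => s ^ ((p + 1) / 3) = -3 * ((-1 + k) / 2)) ⊆
        Polynomial.nthRootsFinset ((p + 1) / 3) (-3 * ((-1 + k) / 2)) := by
      intro s hs
      rw [Polynomial.mem_nthRootsFinset (by have := hp.two_le; omega)]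
      exact (mem_filter.1 hs).2
    refine (card_le_card h5).trans ?_
    rw [Polynomial.nthRootsFinset_def]
    exact (Multiset.toFinset_card_le _).trans (Polynomial.card_nthRoots _ _)
  have h6 : (p + 1) / 3 * 3 = p + 1 := by omega
  rw [abs_mul]
  have h7 : |(3 : ℤ)| = 3 := rfl
  rw [h7]
  omega

end E8T3
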