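import Pool.Agent.E8G.B

/-!
# [E8T3] row (b): the Cartier argument on `w² = 1 - 18 u³ - 27 u⁶`
-/

set_option autoImplicit false

open PowerSeries
open N19 (ex psi phs)

namespace E8T3

open E8G (D B_D_eq B_coeff_D B_other B_same B_frob)

/-- The coefficient of `r^((p-2)/3)` in `(1 - 18 r - 27 r²)^((p-1)/2)`. -/
noncomputable def c3 (p : ℕ) : ℤ :=
  ((1 - 18 * Polynomial.X - 27 * Polynomial.X ^ 2 : Polynomial ℤ) ^ ((p - 1) / 2)).coeff ((p - 2) / 3)

theorem cart_coeff_pow {u : PowerSeries ℤ} (hu0 : coeff 0 u = 0) (hu1 : coeff 1 u = 1) (n : ℕ) :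
    coeff n (u ^ n) = 1 := by
  obtain ⟨v, rfl⟩ : ∃ v : PowerSeries ℤ, u = X * v := by
    refine ⟨mk fun n => coeff (n + 1) u, ?_⟩
    ext n
    cases n with
    | zero => simpa using hu0
    | succ n => rw [coeff_succ_X_mul, coeff_mk]
  have hv : constantCoeff v = 1 := by
    have e : coeff 1 (X * v) = coeff 0 v := coeff_succ_X_mul 0 v
    rw [e] at hu1
    simpa using hu1
  rw [mul_pow, coeff_X_pow_mul', if_pos (le_refl n), Nat.sub_self]
  simp [hv]

theorem cart {p : ℕ} (hp : p.Prime) (h3 : p % 3 = 2) (h2 : p ≠ 2) {u w g : PowerSeries ℤ}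
    (hu0 : coeff 0 u = 0) (hu1 : coeff 1 u = 1) (hw0 : coeff 0 w = 1)
    (hw : w ^ 2 = 1 - 18 * u ^ 3 - 27 * u ^ 6) (hd : u * D u = g * w) :
    (p : ℤ) ∣ coeff p g - c3 p := by
  have hodd : p % 2 = 1 := hp.eq_two_or_odd.resolve_left h2
  have hp5 : 5 ≤ p := by
    have := hp.two_le
    omega
  set m : ℕ := (p - 1) / 2 with hm
  have hm2 : 2 * m = p - 1 := by omega
  set k0 : ℕ := (p - 2) / 3 with hk0
  have hk03 : 3 * k0 + 2 = p := by omega
  set G : Polynomial ℤ := (1 - 18 * Polynomial.X - 27 * Polynomial.X ^ 2 : Polynomial ℤ) ^ m with hG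
  have hGu : Polynomial.aeval (u ^ 3) G = w ^ (p - 1) := by
    have e18 : Polynomial.aeval (u ^ 3) (18 : Polynomial ℤ) = 18 := map_ofNat _ 18
    have e27 : Polynomial.aeval (u ^ 3) (27 : Polynomial ℤ) = 27 := map_ofNat _ 27
    rw [hG, ← hm2, pow_mul, hw, map_pow]
    congr 1
    rw [map_sub, map_sub, map_mul, map_mul, map_pow, Polynomial.aeval_X, map_one, e18, e27]
    ring
  have hdeg : G.natDegree ≤ 2 * m := by
    have e : (1 - 18 * Polynomial.X - 27 * Polynomial.X ^ 2 : Polynomial ℤ).natDegree ≤ 2 := by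
      compute_degree
    calc G.natDegree ≤ m * (1 - 18 * Polynomial.X - 27 * Polynomial.X ^ 2 : Polynomial ℤ).natDegree :=
          Polynomial.natDegree_pow_le
      _ ≤ m * 2 := Nat.mul_le_mul_left _ e
      _ = 2 * m := by ring
  have hsum : w ^ (p - 1) * (u * D u) =
      ∑ k ∈ Finset.range (2 * m + 1), C (G.coeff k) * (u ^ (3 * k + 1) * D u) := by
    rw [← hGu, Polynomial.aeval_eq_sum_range' (Nat.lt_succ_of_le hdeg), Finset.sum_mul]
    apply Finset.sum_congr rfl
    intro k _
    rw [smul_eq_C_mul, ← pow_mul]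
    ring
  have hL : w ^ (p - 1) * (u * D u) = g * w ^ p := by
    have e4 : w ^ p = w ^ (p - 1) * w := by
      rw [← pow_succ, Nat.sub_add_cancel hp.pos]
    rw [hd, e4]
    ring
  have hright : (p : ℤ) ∣ coeff (p * 1) (w ^ (p - 1) * (u * D u)) - c3 p := by
    rw [hsum, map_sum]
    have hmem : k0 ∈ Finset.range (2 * m + 1) := by
      rw [Finset.mem_range]
      omega
    rw [← Finset.add_sum_erase _ _ hmem]
    have e5 : coeff (p * 1) (C (G.coeff k0) * (u ^ (3 * k0 + 1) * D u)) =
        c3 p * coeff (p * 1) (u ^ (p - 1) * D u) := by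
      rw [coeff_C_mul, c3]
      have e : 3 * k0 + 1 = p - 1 := by omega
      rw [e]
    rw [e5]
    have e6 : (p : ℤ) ∣ ∑ k ∈ (Finset.range (2 * m + 1)).erase k0,
        coeff (p * 1) (C (G.coeff k) * (u ^ (3 * k + 1) * D u)) := by
      apply Finset.dvd_sum
      intro k hk
      rw [Finset.mem_erase, Finset.mem_range] at hk
      rw [coeff_C_mul]
      apply Dvd.dvd.mul_left
      apply B_other hp
      rintro ⟨c, hc⟩
      have hc1 : c < 3 := by
        by_contra h
        have : p * 3 ≤ p * c := Nat.mul_le_mul_left _ (by omega)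
        omega
      interval_cases c
      · omega
      · apply hk.1
        omega
      · omega
    have e7 := B_same hp u 1
    have e9 : coeff 1 (D u) = 1 := by
      rw [B_coeff_D, hu1]
      norm_num
    rw [e9] at e7
    have e8 : c3 p * coeff (p * 1) (u ^ (p - 1) * D u) +
        ∑ k ∈ (Finset.range (2 * m + 1)).erase k0, coeff (p * 1) (C (G.coeff k) * (u ^ (3 * k + 1) * D u)) -
        c3 p = c3 p * (coeff (p * 1) (u ^ (p - 1) * D u) - 1) +
        ∑ k ∈ (Finset.range (2 * m + 1)).erase k0, coeff (p * 1) (C (G.coeff k) * (u ^ (3 * k + 1) * D u)) := by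
      ring
    rw [e8]
    exact dvd_add (Dvd.dvd.mul_left e7 _) e6
  rw [hL, mul_one] at hright
  have hg0 : coeff 0 g = 0 := by
    have e := congrArg (coeff 0) hd
    have hu0' : constantCoeff u = 0 := by simpa using hu0
    have hw0' : constantCoeff w = 1 := by simpa using hw0
    simp [hu0', hw0'] at e
    simpa using e.symm
  have hleft : (p : ℤ) ∣ coeff p (g * w ^ p) - coeff p g := by
    have e9 : coeff p (g * ex p w) = coeff p g := by
      rw [coeff_mul]
      rw [Finset.sum_eq_single (p, 0)]
      · have : coeff 0 (ex p w) = 1 := by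
          rw [ex, coeff_mk, if_pos (dvd_zero p), Nat.zero_div, hw0]
        rw [this, mul_one]
      · rintro ⟨i, j⟩ hij hne
        have hij' : i + j = p := by simpa using hij
        clear hij
        show coeff i g * coeff j (ex p w) = 0
        by_cases hpj : p ∣ j
        · obtain ⟨c, hc⟩ := hpj
          have hc1 : c < 2 := by
            by_contra h
            have : p * 2 ≤ p * c := Nat.mul_le_mul_left _ (by omega)
            omega
          interval_cases c
          · exfalso
            apply hne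
            have hj : j = 0 := by omega
            have hi : i = p := by omega
            rw [hi, hj]
          · have : i = 0 := by omega
            rw [this, hg0, zero_mul]
        · have : coeff j (ex p w) = 0 := by
            rw [ex, coeff_mk, if_neg hpj]
          rw [this, mul_zero]
      · intro h
        exfalso
        apply h
        simp
    rw [← e9, ← map_sub, ← mul_sub, coeff_mul]
    apply Finset.dvd_sum
    intro ij _
    apply Dvd.dvd.mul_left
    rw [map_sub]
    exact B_frob hp w _
  have e : coeff p g - c3 p = (coeff p (g * w ^ p) - c3 p) - (coeff p (g * w ^ p) - coeff p g) := by ring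
  rw [e]
  exact dvd_sub hright hleft

end E8T3
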