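import Pool.Agent.E8T3.CB
import Pool.Agent.E8T3.Cart
import Pool.Agent.E8T3.C2b

/-!
[E8T3] row R8: the class sum modulo `p`.
-/

set_option autoImplicit false

open Finset

namespace E8T3

variable {p : ℕ} {K : Type*} [Field K] [Fintype K] [DecidableEq K]

/-- power sums over the torus -/
theorem Sp_pow_sum (hp : p.Prime) (hK : Fintype.card K = p ^ 2) {n : ℕ} (hn : ¬ (p + 1) ∣ n) :
    ∑ s ∈ Sp K p, s ^ n = 0 := by
  obtain ⟨g, hg⟩ := IsCyclic.exists_generator (α := Kˣ)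
  have hord : orderOf g = (p + 1) * (p - 1) := by
    rw [orderOf_eq_card_of_forall_mem_zpowers hg, Nat.card_eq_fintype_card, Fintype.card_units,
      card_fac hp hK]
  obtain ⟨v, hv⟩ : ∃ v : K, v = ((g ^ (p - 1) : Kˣ) : K) := ⟨_, rfl⟩
  have hv1 : v ^ (p + 1) = 1 := by
    rw [hv, ← Units.val_pow_eq_pow_val, ← pow_mul, mul_comm, ← hord, pow_orderOf_eq_one, Units.val_one]
  have hvn : v ^ n ≠ 1 := by
    intro h
    rw [hv, ← Units.val_pow_eq_pow_val, ← pow_mul, Units.val_eq_one] at h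
    have := orderOf_dvd_of_pow_eq_one h
    rw [hord, mul_comm] at this
    have hp1 : 0 < p - 1 := by
      have := hp.two_le
      omega
    exact hn (Nat.dvd_of_mul_dvd_mul_left hp1 this)
  have hv0 : v ≠ 0 := by
    rw [hv]
    exact Units.ne_zero _
  have h1 : ∑ s ∈ Sp K p, s ^ n = v ^ n * ∑ s ∈ Sp K p, s ^ n := by
    rw [Finset.mul_sum]
    refine Finset.sum_nbij' (fun s => s / v) (fun s => v * s) ?_ ?_ ?_ ?_ ?_
    · intro s hs
      rw [mem_Sp] at hs ⊢
      rw [div_pow, hs, hv1, div_one]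
    · intro s hs
      rw [mem_Sp] at hs ⊢
      rw [mul_pow, hs, hv1, one_mul]
    · intro s _
      exact mul_div_cancel₀ s hv0
    · intro s _
      exact mul_div_cancel_left₀ s hv0
    · intro s _
      rw [div_pow, mul_div_cancel₀ _ (pow_ne_zero _ hv0)]
  have h2 : (1 - v ^ n) * ∑ s ∈ Sp K p, s ^ n = 0 := by linear_combination h1
  exact (mul_eq_zero.1 h2).resolve_left (sub_ne_zero.2 (Ne.symm hvn))

theorem neg3_pow (hp : p.Prime) (h3 : p % 3 = 2) (hK : Fintype.card K = p ^ 2) :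
    (-3 : K) ^ (p - 1) = 1 := by
  have h0 : (-3 : K) ≠ 0 := neg_ne_zero.2 (three_ne hp h3 hK)
  have h1 : (-3 : K) ∈ Fp K p := Fp_neg hp hK (Fp_ofNat hp hK 3)
  exact Fp_pow_sub_one hp h1 h0

/-- the values of `s ^ ((p + 1) / 3)` -/
theorem Sp_class (hp : p.Prime) (h3 : p % 3 = 2) (h2 : p ≠ 2) (hK : Fintype.card K = p ^ 2) {k : K}
    (hk : k ^ 2 = -3) {s : K} (hs : s ∈ Sp K p) :
    s ^ ((p + 1) / 3) = -3 ∨ s ^ ((p + 1) / 3) = -3 * ((-1 + k) / 2) ∨
      s ^ ((p + 1) / 3) = -3 * ((-1 - k) / 2) := by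
  have h20 : (2 : K) ≠ 0 := two_ne hp h2 hK
  obtain ⟨t, ht⟩ : ∃ t, t = s ^ ((p + 1) / 3) := ⟨_, rfl⟩
  have ht3 : t ^ 3 = -27 := by
    rw [ht, ← pow_mul, Nat.div_mul_cancel (by omega)]
    exact mem_Sp.1 hs
  rw [← ht]
  have h1 : (t + 3) * ((t - -3 * ((-1 + k) / 2)) * (t - -3 * ((-1 - k) / 2))) = 0 := by
    field_simp
    linear_combination (4 : K) * ht3 + (-9 : K) * (t + 3) * hk
  rcases mul_eq_zero.1 h1 with h | h
  · left
    linear_combination h
  · rcases mul_eq_zero.1 h with h | h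
    · right; left
      exact sub_eq_zero.1 h
    · right; right
      exact sub_eq_zero.1 h

/-- conjugation changes the sign -/
theorem e3_conj (hp : p.Prime) (h3 : p % 3 = 2) (h2 : p ≠ 2) (hK : Fintype.card K = p ^ 2) {k : K}
    (hk : k ^ 2 = -3) {s : K} (hs : s ∈ Sp K p) : e3 p k (s ^ p) = -(e3 p k s) := by
  haveI : Fact p.Prime := ⟨hp⟩
  haveI := charP_of hp hK
  have hk27 : (3 * k) ^ 2 = -27 := by
    rw [mul_pow, hk]
    norm_num
  have hkp : (3 * k) ^ p = -(3 * k) := by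
    rw [mul_pow, k_fr hp h3 h2 hK hk, mem_Fp.1 (Fp_ofNat hp hK 3)]
    ring
  have h30 : (3 : K) ≠ 0 := three_ne hp h3 hK
  have hk0 : k ≠ 0 := by
    rintro rfl
    apply h30
    linear_combination hk
  have h20 : (2 : K) ≠ 0 := two_ne hp h2 hK
  have e1 : s ^ p + (s ^ p) ^ p - 18 = s + s ^ p - 18 := by
    rw [fr_fr hK]
    ring
  have e2 : (s ^ p) ^ ((p + 1) / 2) = (s ^ ((p + 1) / 2)) ^ p := by
    rw [← pow_mul, ← pow_mul, mul_comm]
  unfold e3
  rw [e1, e2]
  have hsq : (s ^ ((p + 1) / 2)) ^ 2 = (3 * k) ^ 2 := by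
    rw [← pow_mul, hk27, E8T3c.half h2]
    exact mem_Sp.1 hs
  have hne : -(3 * k) ≠ 3 * k := by
    intro h
    have : (2 : K) * (3 * k) = 0 := by linear_combination -h
    rcases mul_eq_zero.1 this with h' | h'
    · exact h20 h'
    · rcases mul_eq_zero.1 h' with h'' | h''
      · exact h30 h''
      · exact hk0 h''
  rcases sq_eq_sq_iff_eq_or_eq_neg.1 hsq with h | h
  · rw [h, hkp, if_neg hne, if_pos rfl]
    ring
  · rw [h, if_neg hne]
    have : (-(3 * k)) ^ p = 3 * k := by rw [fr_neg hp hK, hkp, neg_neg]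
    rw [this, if_pos rfl]
    ring

/-- the value of `e3` in `K` -/
theorem e3_cast (hp : p.Prime) (h3 : p % 3 = 2) (h2 : p ≠ 2) (hK : Fintype.card K = p ^ 2) {k : K}
    (hk : k ^ 2 = -3) {s : K} (hs : s ∈ Sp K p) :
    ((e3 p k s : ℤ) : K) * (3 * k) =
      s ^ p * ((1 - 18 * s⁻¹ - 27 * s⁻¹ ^ 2) ^ ((p - 1) / 2)) := by
  haveI : Fact p.Prime := ⟨hp⟩
  haveI := charP_of hp hK
  have hk27 : (3 * k) ^ 2 = -27 := by
    rw [mul_pow, hk]
    norm_num
  have hs0 : s ≠ 0 := Sp_ne hp h3 hK hs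
  have e1 := E8T3c.sg_spec (p := p) h2 hk27 (mem_Sp.1 hs)
  have e4 : s + s ^ p - 18 ∈ Fp K p :=
    Fp_sub hp hK (Fp_trace hp hK s) (Fp_ofNat hp hK 18)
  have e5 := lam_cast hp h2 e4
  have e6 : ((e3 p k s : ℤ) : K) = ((E8T3c.sg p (3 * k) s : ℤ) : K) * ((lam p (s + s ^ p - 18) : ℤ) : K) := by
    unfold e3 E8T3c.sg
    push_cast
    split_ifs <;> simp
  have e7 : s + s ^ p - 18 = s * (1 - 18 * s⁻¹ - 27 * s⁻¹ ^ 2) := by
    have := conj_of (mem_Sp.1 hs)
    have e8 : s ^ p = -27 * s⁻¹ := by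
      field_simp
      linear_combination this
    rw [e8]
    field_simp
    ring
  have e9 : s ^ p = s ^ ((p + 1) / 2) * s ^ ((p - 1) / 2) := by
    rw [← pow_add]
    congr 1
    have := E8T3c.half (p := p) h2
    have := E8T3c.half' (p := p) h2
    have := hp.two_le
    omega
  rw [e6, e5, e7, mul_pow, e9]
  calc ((E8T3c.sg p (3 * k) s : ℤ) : K) * (s ^ ((p - 1) / 2) * (1 - 18 * s⁻¹ - 27 * s⁻¹ ^ 2) ^ ((p - 1) / 2)) *
        (3 * k) = (((E8T3c.sg p (3 * k) s : ℤ) : K) * (3 * k)) *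
        (s ^ ((p - 1) / 2) * (1 - 18 * s⁻¹ - 27 * s⁻¹ ^ 2) ^ ((p - 1) / 2)) := by ring
    _ = _ := by
        rw [e1]
        ring

/-- the sum over the torus in `K`, from the coefficients -/
theorem G_right (hp : p.Prime) (h3 : p % 3 = 2) (h2 : p ≠ 2) (hK : Fintype.card K = p ^ 2) {k : K}
    (hk : k ^ 2 = -3) :
    (∑ s ∈ Sp K p, s ^ ((p ^ 2 - 1) / 3) * ((e3 p k s : ℤ) : K)) * (3 * k) = 9 * ((c3 p : ℤ) : K) := by
  obtain ⟨m, hm⟩ : ∃ m, p = 3 * m + 2 := ⟨p / 3, by omega⟩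
  have hE : (p ^ 2 - 1) / 3 = m * (p + 1) + (m + 1) := by
    have e1 : p ^ 2 = 3 * (m * (p + 1) + (m + 1)) + 1 := by
      rw [hm]
      ring
    omega
  obtain ⟨P, hP⟩ : ∃ P : Polynomial ℤ, P =
      (1 - 18 * Polynomial.X - 27 * Polynomial.X ^ 2 : Polynomial ℤ) ^ ((p - 1) / 2) := ⟨_, rfl⟩
  have hdeg : P.natDegree ≤ p - 1 := by
    have e : (1 - 18 * Polynomial.X - 27 * Polynomial.X ^ 2 : Polynomial ℤ).natDegree ≤ 2 := by
      compute_degree
    rw [hP]
    calc _ ≤ (p - 1) / 2 * (1 - 18 * Polynomial.X - 27 * Polynomial.X ^ 2 : Polynomial ℤ).natDegree :=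
          Polynomial.natDegree_pow_le
      _ ≤ (p - 1) / 2 * 2 := Nat.mul_le_mul_left _ e
      _ = p - 1 := half hp h2
  have hc3 : c3 p = P.coeff m := by
    rw [hP, c3]
    congr 1
    omega
  have hval : ∀ r : K, (1 - 18 * r - 27 * r ^ 2) ^ ((p - 1) / 2) =
      ∑ j ∈ Finset.range p, ((P.coeff j : ℤ) : K) * r ^ j := by
    intro r
    have e1 : Polynomial.aeval r P = (1 - 18 * r - 27 * r ^ 2) ^ ((p - 1) / 2) := by
      have e18 : Polynomial.aeval r (18 : Polynomial ℤ) = 18 := map_ofNat _ 18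
      have e27 : Polynomial.aeval r (27 : Polynomial ℤ) = 27 := map_ofNat _ 27
      rw [hP, map_pow, map_sub, map_sub, map_mul, map_mul, map_pow, Polynomial.aeval_X, map_one, e18, e27]
    rw [← e1, Polynomial.aeval_eq_sum_range' (n := p) (by have := hp.two_le; omega)]
    refine Finset.sum_congr rfl fun j _ => ?_
    rw [zsmul_eq_mul]
  rw [Finset.sum_mul]
  have h1 : ∀ s ∈ Sp K p, s ^ ((p ^ 2 - 1) / 3) * ((e3 p k s : ℤ) : K) * (3 * k) =
      ∑ j ∈ Finset.range p, ((P.coeff j : ℤ) : K) * s ^ (m * (p + 1) + (m + 1) + (p - j)) := by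
    intro s hs
    have hs0 : s ≠ 0 := Sp_ne hp h3 hK hs
    rw [mul_assoc, e3_cast hp h3 h2 hK hk hs, hval, hE, Finset.mul_sum, Finset.mul_sum]
    refine Finset.sum_congr rfl fun j hj => ?_
    rw [Finset.mem_range] at hj
    have e2 : s ^ p * s⁻¹ ^ j = s ^ (p - j) := by
      rw [inv_pow, ← div_eq_mul_inv, div_eq_iff (pow_ne_zero _ hs0), ← pow_add,
        Nat.sub_add_cancel hj.le]
    rw [pow_add _ _ (p - j), ← e2]
    ring
  rw [Finset.sum_congr rfl h1, Finset.sum_comm]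
  have h4 : ∀ j ∈ Finset.range p, ∑ s ∈ Sp K p, ((P.coeff j : ℤ) : K) *
      s ^ (m * (p + 1) + (m + 1) + (p - j)) = if j = m then 9 * ((c3 p : ℤ) : K) else 0 := by
    intro j hj
    rw [Finset.mem_range] at hj
    rw [← Finset.mul_sum]
    by_cases hjm : j = m
    · rw [if_pos hjm, hjm, hc3]
      have e3 : m * (p + 1) + (m + 1) + (p - m) = (p + 1) * (m + 1) := by
        have : m ≤ p := by omega
        have : (p + 1) * (m + 1) = m * (p + 1) + (p + 1) := by ring
        omega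
      have e4 : ∀ s ∈ Sp K p, s ^ (m * (p + 1) + (m + 1) + (p - m)) = 9 := by
        intro s hs
        rw [e3, pow_mul, mem_Sp.1 hs]
        have : (-27 : K) = (-3) ^ 3 := by norm_num
        rw [this, ← pow_mul]
        have : 3 * (m + 1) = (p - 1) + 2 := by
          have := hp.two_le
          omega
        rw [this, pow_add, neg3_pow hp h3 hK]
        norm_num
      rw [Finset.sum_congr rfl e4, Finset.sum_const, card_Sp hp h3 hK, nsmul_eq_mul]
      have e5 : ((p + 1 : ℕ) : K) = 1 := by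
        haveI := charP_of hp hK
        push_cast
        rw [CharP.cast_eq_zero K p, zero_add]
      rw [e5]
      ring
    · rw [if_neg hjm, Sp_pow_sum hp hK, mul_zero]
      intro hd
      apply hjm
      have e6 : (p + 1) ∣ (m + 1) + (p - j) := by
        have e7 : m * (p + 1) + (m + 1) + (p - j) = (p + 1) * m + ((m + 1) + (p - j)) := by ring
        rw [e7] at hd
        exact (Nat.dvd_add_right (Dvd.intro _ rfl)).1 hd
      obtain ⟨q, hq⟩ := e6
      have hq1 : q = 1 := by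
        have h8 : 0 < q := by
          rcases Nat.eq_zero_or_pos q with h | h
          · rw [h, mul_zero] at hq
            omega
          · exact h
        have h9 : q < 2 := by
          by_contra hc
          have : (p + 1) * 2 ≤ (p + 1) * q := Nat.mul_le_mul_left _ (not_lt.1 hc)
          omega
        omega
      rw [hq1, mul_one] at hq
      omega
  rw [Finset.sum_congr rfl h4, Finset.sum_ite_eq' (Finset.range p) m, if_pos (Finset.mem_range.2 (by omega))]

/-- **Row R8.** -/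
theorem M1_mod (hp : p.Prime) (h3 : p % 3 = 2) (h2 : p ≠ 2) (hK : Fintype.card K = p ^ 2) {k : K} (hk : k ^ 2 = -3) :
    (p : ℤ) ∣ M1 p k + c3 p := by
  haveI := charP_of hp hK
  have h20 : (2 : K) ≠ 0 := two_ne hp h2 hK
  have h30 : (3 : K) ≠ 0 := three_ne hp h3 hK
  have hk0 : k ≠ 0 := by
    rintro rfl
    apply h30
    linear_combination hk
  have hkp : k ^ p = -k := k_fr hp h3 h2 hK hk
  obtain ⟨m, hm⟩ : ∃ m, p = 3 * m + 2 := ⟨p / 3, by omega⟩
  obtain ⟨om, hom⟩ : ∃ om : K, om = (-1 + k) / 2 := ⟨_, rfl⟩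
  obtain ⟨om', hom'⟩ : ∃ om : K, om = (-1 - k) / 2 := ⟨_, rfl⟩
  have hoo : om * om' = 1 := by
    rw [hom, hom']
    field_simp
    linear_combination (-1 : K) * hk
  have hsum : om + om' = -1 := by
    rw [hom, hom']
    field_simp
    ring
  have homsq : om ^ 2 = om' := by linear_combination om * hsum - hoo - hsum
  have homsq' : om' ^ 2 = om := by linear_combination om' * hsum - hoo - hsum
  have hom3 : om ^ 3 = 1 := by
    rw [pow_succ, homsq, mul_comm, hoo]
  have hom3' : om' ^ 3 = 1 := by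
    rw [pow_succ, homsq', hoo]
  have hom1 : om ≠ 1 := by
    intro h
    rw [h] at homsq hsum
    rw [← homsq] at hsum
    apply h30
    linear_combination hsum
  have hom1' : om' ≠ 1 := by
    intro h
    apply hom1
    rw [← homsq', h, one_pow]
  have homne : om ≠ om' := by
    intro h
    apply hom1
    have h5 : om ^ 2 = om := by rw [homsq, ← h]
    have h6 : om ≠ 0 := by
      intro h0
      rw [h0] at hom3
      norm_num at hom3
    have : om * om = 1 * om := by rw [← sq, h5, one_mul]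
    exact mul_right_cancel₀ h6 this
  -- the power of `s`
  have hpow : ∀ s : K, s ^ ((p ^ 2 - 1) / 3) = (s ^ ((p + 1) / 3)) ^ (p - 1) := by
    intro s
    rw [← pow_mul]
    congr 1
    have e1 : p ^ 2 = 3 * ((m + 1) * (p - 1)) + 1 := by
      have : p - 1 = 3 * m + 1 := by omega
      rw [this, hm]
      ring
    have e2 : (p + 1) / 3 = m + 1 := by omega
    rw [e2]
    omega
  have hp1 : p - 1 = 3 * m + 1 := by omega
  have hcl0 : ∀ s : K, s ^ ((p + 1) / 3) = -3 → s ^ ((p ^ 2 - 1) / 3) = 1 := by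
    intro s h
    rw [hpow, h, neg3_pow hp h3 hK]
  have hcl1 : ∀ s : K, s ^ ((p + 1) / 3) = -3 * om → s ^ ((p ^ 2 - 1) / 3) = om := by
    intro s h
    rw [hpow, h, mul_pow, neg3_pow hp h3 hK, one_mul, hp1, pow_succ, pow_mul, hom3, one_pow, one_mul]
  have hcl2 : ∀ s : K, s ^ ((p + 1) / 3) = -3 * om' → s ^ ((p ^ 2 - 1) / 3) = om' := by
    intro s h
    rw [hpow, h, mul_pow, neg3_pow hp h3 hK, one_mul, hp1, pow_succ, pow_mul, hom3', one_pow, one_mul]
  have hconj : ∀ s : K, (s ^ p) ^ ((p + 1) / 3) = (s ^ ((p + 1) / 3)) ^ p := by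
    intro s
    rw [← pow_mul, ← pow_mul, mul_comm]
  have h3p : (-3 : K) ^ p = -3 := mem_Fp.1 (Fp_neg hp hK (Fp_ofNat hp hK 3))
  have homp : om ^ p = om' := by
    rw [hm, pow_add, pow_mul, hom3, one_pow, one_mul, homsq]
  have homp' : om' ^ p = om := by
    rw [hm, pow_add, pow_mul, hom3', one_pow, one_mul, homsq']
  -- the class sums
  obtain ⟨M0, hM0⟩ : ∃ M : ℤ, M = ∑ s ∈ (Sp K p).filter (fun s => s ^ ((p + 1) / 3) = -3), e3 p k s := ⟨_, rfl⟩
  obtain ⟨M2, hM2⟩ : ∃ M : ℤ, M = ∑ s ∈ (Sp K p).filter (fun s => s ^ ((p + 1) / 3) = -3 * om'), e3 p k s :=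
    ⟨_, rfl⟩
  have hM1 : M1 p k = ∑ s ∈ (Sp K p).filter (fun s => s ^ ((p + 1) / 3) = -3 * om), e3 p k s := by
    rw [hom]
    rfl
  have hswap : ∀ a b : K, a ^ p = b → b ^ p = a →
      ∑ s ∈ (Sp K p).filter (fun s => s ^ ((p + 1) / 3) = a), e3 p k s =
        -∑ s ∈ (Sp K p).filter (fun s => s ^ ((p + 1) / 3) = b), e3 p k s := by
    intro a b hab hba
    rw [← Finset.sum_neg_distrib]
    refine Finset.sum_nbij' (fun s => s ^ p) (fun s => s ^ p) ?_ ?_ ?_ ?_ ?_
    · intro s hs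
      rw [Finset.mem_filter] at hs ⊢
      exact ⟨Sp_conj hp hK hs.1, by rw [hconj, hs.2, hab]⟩
    · intro s hs
      rw [Finset.mem_filter] at hs ⊢
      exact ⟨Sp_conj hp hK hs.1, by rw [hconj, hs.2, hba]⟩
    · intro s _
      exact fr_fr hK s
    · intro s _
      exact fr_fr hK s
    · intro s hs
      rw [Finset.mem_filter] at hs
      rw [e3_conj hp h3 h2 hK hk hs.1, neg_neg]
  have hM00 : M0 = 0 := by
    have := hswap (-3) (-3) h3p h3p
    rw [← hM0] at this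
    omega
  have hM21 : M2 = -(M1 p k) := by
    rw [hM2, hM1]
    exact hswap (-3 * om') (-3 * om) (by rw [mul_pow, h3p, homp']) (by rw [mul_pow, h3p, homp])
  -- the sum
  have hG : ∑ s ∈ Sp K p, s ^ ((p ^ 2 - 1) / 3) * ((e3 p k s : ℤ) : K) =
      (M0 : K) + om * ((M1 p k : ℤ) : K) + om' * (M2 : K) := by
    have e1 : ∀ s ∈ Sp K p, s ^ ((p ^ 2 - 1) / 3) * ((e3 p k s : ℤ) : K) =
        (if s ^ ((p + 1) / 3) = -3 then ((e3 p k s : ℤ) : K) else 0) +
        (if s ^ ((p + 1) / 3) = -3 * om then om * ((e3 p k s : ℤ) : K) else 0) +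
        (if s ^ ((p + 1) / 3) = -3 * om' then om' * ((e3 p k s : ℤ) : K) else 0) := by
      intro s hs
      have n0 : (-3 : K) ≠ 0 := neg_ne_zero.2 h30
      have n1 : (-3 : K) ≠ -3 * om := fun h => hom1 (mul_left_cancel₀ n0 (by rw [← h, mul_one]))
      have n2 : (-3 : K) ≠ -3 * om' := fun h => hom1' (mul_left_cancel₀ n0 (by rw [← h, mul_one]))
      have n3 : (-3 : K) * om ≠ -3 * om' := fun h => homne (mul_left_cancel₀ n0 h)
      rcases Sp_class hp h3 h2 hK hk hs with h | h | h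
      · rw [hcl0 s h, h, if_pos rfl, if_neg n1, if_neg n2]
        ring
      · rw [← hom] at h
        rw [hcl1 s h, h, if_neg n1.symm, if_pos rfl, if_neg n3]
        ring
      · rw [← hom'] at h
        rw [hcl2 s h, h, if_neg n2.symm, if_neg n3.symm, if_pos rfl]
        ring
    rw [Finset.sum_congr rfl e1, Finset.sum_add_distrib, Finset.sum_add_distrib, ← Finset.sum_filter,
      ← Finset.sum_filter, ← Finset.sum_filter, ← Finset.mul_sum, ← Finset.mul_sum, hM0, hM1, hM2]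
    push_cast
    rfl
  have hR := G_right hp h3 h2 hK hk
  rw [hG, hM00, hM21] at hR
  have hdiff : om - om' = k := by
    rw [hom, hom']
    field_simp
    ring
  have h5 : (9 : K) * (((M1 p k : ℤ) : K) + ((c3 p : ℤ) : K)) = 0 := by
    push_cast at hR
    linear_combination (-1 : K) * hR + 3 * k * ((M1 p k : ℤ) : K) * hdiff + 3 * ((M1 p k : ℤ) : K) * hk
  have h90 : (9 : K) ≠ 0 := by
    have : (9 : K) = 3 * 3 := by norm_num
    rw [this]
    exact mul_ne_zero h30 h30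
  have h6 := (mul_eq_zero.1 h5).resolve_left h90
  rw [← Int.cast_add, CharP.intCast_eq_zero_iff K p] at h6
  exact h6

end E8T3
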