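import Pool.Agent.E8T3.CB

/-! E8T3 block (c), row X_sum. -/

open Finset

namespace E8T3

variable {p : ℕ} {K : Type*} [Field K] [Fintype K] [DecidableEq K]

theorem qc_sq_mul {a : K} (ha : a ≠ 0) (b : K) : quadraticChar K (a ^ 2 * b) = quadraticChar K b := by
  rw [map_mul, map_pow, quadraticChar_sq_one ha, one_mul]

theorem X_sum (hp : p.Prime) (h3 : p % 3 = 2) (hK : Fintype.card K = p ^ 2) {k : K} (hk : k ^ 2 = -3) :
    ∑ X : K, quadraticChar K ((1 - 3 * k * X) ^ 2 + 6 * (k - 3) * X ^ 3) =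
      1 + ∑ x : K, quadraticChar K ((x ^ 3 + 9 * x - 18) * (x + 2 * k)) := by
  rw [← Finset.add_sum_erase univ _ (Finset.mem_univ (0 : K)),
    ← Finset.add_sum_erase univ (fun x : K => quadraticChar K ((x ^ 3 + 9 * x - 18) * (x + 2 * k)))
      (Finset.mem_univ (-(2 * k)))]
  have e1 : quadraticChar K ((1 - 3 * k * 0) ^ 2 + 6 * (k - 3) * 0 ^ 3) = 1 := by
    have : (1 - 3 * k * 0) ^ 2 + 6 * (k - 3) * 0 ^ 3 = (1 : K) := by ring
    rw [this, map_one]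
  have e2 : quadraticChar K (((-(2 * k)) ^ 3 + 9 * (-(2 * k)) - 18) * (-(2 * k) + 2 * k)) = 0 := by
    have : ((-(2 * k)) ^ 3 + 9 * (-(2 * k)) - 18) * (-(2 * k) + 2 * k) = 0 := by ring
    rw [this, MulChar.map_zero]
  rw [e1, e2, zero_add]
  congr 1
  refine Finset.sum_nbij' (fun X => X⁻¹ - 2 * k) (fun x => (x + 2 * k)⁻¹) ?_ ?_ ?_ ?_ ?_
  · intro X hX
    have hX0 : X ≠ 0 := (Finset.mem_erase.1 hX).1
    refine Finset.mem_erase.2 ⟨?_, Finset.mem_univ _⟩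
    intro h
    apply inv_ne_zero hX0
    linear_combination h
  · intro x hx
    have hx0 : x ≠ -(2 * k) := (Finset.mem_erase.1 hx).1
    refine Finset.mem_erase.2 ⟨?_, Finset.mem_univ _⟩
    apply inv_ne_zero
    intro h
    apply hx0
    linear_combination h
  · intro X _
    simp
  · intro x _
    simp
  · intro X hX
    have hX0 : X ≠ 0 := (Finset.mem_erase.1 hX).1
    obtain ⟨Y, hY⟩ : ∃ Y, Y = X⁻¹ := ⟨_, rfl⟩
    have hXY : X * Y = 1 := by rw [hY, mul_inv_cancel₀ hX0]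
    rw [← hY, ← qc_sq_mul (pow_ne_zero 2 hX0) (((Y - 2 * k) ^ 3 + 9 * (Y - 2 * k) - 18) * (Y - 2 * k + 2 * k))]
    congr 1
    have e : (X ^ 2) ^ 2 * (((Y - 2 * k) ^ 3 + 9 * (Y - 2 * k) - 18) * (Y - 2 * k + 2 * k)) =
        (X * Y) * ((X * Y - 2 * k * X) ^ 3 + 9 * X ^ 2 * (X * Y - 2 * k * X) - 18 * X ^ 3) := by ring
    rw [e, hXY]
    linear_combination (8 * X ^ 3 * k - 3 * X ^ 2) * hk

end E8T3
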