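import Pool.Agent.E8T3.CB
import Pool.Agent.E8T3.CR6
import Pool.Agent.E8T3.CR7

/-! E8T3 block (c), row v_sum. -/

open Finset

namespace E8T3

variable {p : ℕ} {K : Type*} [Field K] [Fintype K] [DecidableEq K]

/-- number of cube roots -/
theorem v_roots (hp : p.Prime) (h3 : p % 3 = 2) (hK : Fintype.card K = p ^ 2) {χ : MulChar K ℂ} (hχ : χ ^ 3 = 1)
    (h1 : χ ≠ 1) {o : K} (ho : o ^ 2 + o + 1 = 0) {t : K} (ht : t ≠ 0) :
    (((univ.erase (0 : K)).filter fun v => v ^ 3 = t).card : ℂ) = 1 + χ t + χ t ^ 2 := by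
  have h30 := three_ne (K := K) hp h3 hK
  obtain ⟨z, hz, hchi⟩ := r7_chi hp h3 hK hχ h1 ho
  obtain ⟨m, hm⟩ : ∃ m, p ^ 2 - 1 = 3 * m := by
    obtain ⟨t, ht⟩ : ∃ t, p = 3 * t + 2 := ⟨p / 3, by omega⟩
    refine ⟨(t + 1) * (3 * t + 1), ?_⟩
    rw [ht]
    have : (3 * t + 2) ^ 2 = 3 * ((t + 1) * (3 * t + 1)) + 1 := by ring
    rw [this, Nat.add_sub_cancel]
  have hm' : (p ^ 2 - 1) / 3 = m := by omega
  have hq : ∀ x : K, x ≠ 0 → x ^ (3 * m) = 1 := by
    intro x hx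
    rw [← hm, ← hK]
    exact FiniteField.pow_card_sub_one_eq_one x hx
  have ho1 : o ≠ 1 := by
    rintro rfl
    apply h30
    linear_combination ho
  have ho3 : o ^ 3 = 1 := by linear_combination (o - 1) * ho
  have h9 : (univ.erase (0 : K)).filter (fun v => v ^ 3 = t) = univ.filter fun v : K => v ^ 3 = t := by
    ext v
    simp only [mem_filter, mem_erase, mem_univ, and_true, true_and]
    refine ⟨fun h => h.2, fun h => ⟨?_, h⟩⟩
    rintro rfl
    apply ht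
    rw [← h]
    ring
  rw [h9]
  have hno : t ^ m ≠ 1 → ((univ.filter fun v : K => v ^ 3 = t).card : ℂ) = 0 := by
    intro h
    rw [Nat.cast_eq_zero, Finset.card_eq_zero, Finset.filter_eq_empty_iff]
    intro v _ hv
    apply h
    rw [← hv, ← pow_mul]
    apply hq
    rintro rfl
    apply ht
    rw [← hv]
    ring
  have hc3 : (t ^ m) ^ 3 = 1 := by rw [← pow_mul, mul_comm, hq t ht]
  have hcases : t ^ m = 1 ∨ t ^ m = o ∨ t ^ m = o ^ 2 := by
    have : (t ^ m - 1) * ((t ^ m - o) * (t ^ m - o ^ 2)) = 0 := by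
      linear_combination hc3 - (t ^ m) * (t ^ m - 1) * ho + (t ^ m - 1) * ho3
    rcases mul_eq_zero.1 this with h | h
    · exact Or.inl (sub_eq_zero.1 h)
    · rcases mul_eq_zero.1 h with h | h
      · exact Or.inr (Or.inl (sub_eq_zero.1 h))
      · exact Or.inr (Or.inr (sub_eq_zero.1 h))
  obtain ⟨e1, e2, e3⟩ := hchi t ht
  rw [hm'] at e1 e2 e3
  rcases hcases with h | h | h
  · rw [e1 h, card_pow (m := m) (by rw [hK]; exact hm.symm) (by norm_num) h]
    norm_num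
  · rw [e2 h, hno (by rw [h]; exact ho1)]
    linear_combination -hz
  · rw [e3 h, hno (by
      rw [h]
      intro h'
      apply ho1
      have : o ^ 3 = o := by rw [pow_succ, h', one_mul]
      rw [← this, ho3])]
    linear_combination -(z ^ 2 - z + 1) * hz

theorem v_plain (hp : p.Prime) (h3 : p % 3 = 2) (h2 : p ≠ 2) (hK : Fintype.card K = p ^ 2) :
    ∑ t ∈ univ.erase (0 : K), quadraticChar K (ff t) = -2 := by
  have h20 := two_ne (K := K) hp h2 hK
  have h30 := three_ne (K := K) hp h3 hK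
  have h := E8T3c.quad_sum (ringChar_ne (K := K) hp h2 hK) (-18 : K) (-27) (by
    have : (-18 : K) ^ 2 - 4 * (-27) = 2 ^ 4 * 3 ^ 3 := by norm_num
    rw [this]
    exact mul_ne_zero (pow_ne_zero _ h20) (pow_ne_zero _ h30))
  rw [← Finset.add_sum_erase univ _ (Finset.mem_univ (0 : K))] at h
  have h27 : (-27 : K) ∈ Fp K p := Fp_neg hp hK (Fp_ofNat hp hK 27)
  have h270 : (-27 : K) ≠ 0 := by
    have : (-27 : K) = -(3 ^ 3) := by norm_num
    rw [this]
    exact neg_ne_zero.2 (pow_ne_zero _ h30)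
  have e : ((0 : K) ^ 2 + -18 * 0 + -27) = -27 := by ring
  rw [e, qc_Fp hp h2 hK h27 h270] at h
  have e2 : ∑ t ∈ univ.erase (0 : K), quadraticChar K (ff t) =
      ∑ t ∈ univ.erase (0 : K), quadraticChar K (t ^ 2 + -18 * t + -27) := by
    refine Finset.sum_congr rfl fun t _ => ?_
    congr 1
    unfold ff
    ring
  rw [e2]
  linarith

theorem v_conj (hp : p.Prime) (h3 : p % 3 = 2) (h2 : p ≠ 2) (hK : Fintype.card K = p ^ 2) {χ : MulChar K ℂ}
    (hχ : χ ^ 3 = 1) :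
    ∑ t ∈ univ.erase (0 : K), χ t * (quadraticChar K (ff t) : ℂ) =
      ∑ t ∈ univ.erase (0 : K), χ t ^ 2 * (quadraticChar K (ff t) : ℂ) := by
  refine Finset.sum_nbij' (fun x : K => x ^ p) (fun x : K => x ^ p) ?_ ?_ (fun x _ => fr_fr hK x)
    (fun x _ => fr_fr hK x) ?_
  · intro x hx
    exact Finset.mem_erase.2 ⟨pow_ne_zero _ (Finset.mem_erase.1 hx).1, Finset.mem_univ _⟩
  · intro x hx
    exact Finset.mem_erase.2 ⟨pow_ne_zero _ (Finset.mem_erase.1 hx).1, Finset.mem_univ _⟩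
  · intro x hx
    have hx0 : x ≠ 0 := (Finset.mem_erase.1 hx).1
    have e18 : (18 : K) ^ p = 18 := mem_Fp.1 (Fp_ofNat hp hK 18)
    have e27 : (27 : K) ^ p = 27 := mem_Fp.1 (Fp_ofNat hp hK 27)
    have e : ff (x ^ p) = (ff x) ^ p := by
      unfold ff
      rw [fr_sub hp hK, fr_sub hp hK, mul_pow, e18, e27, ← pow_mul, ← pow_mul, mul_comm 2 p]
    show χ x * (quadraticChar K (ff x) : ℂ) = χ (x ^ p) ^ 2 * (quadraticChar K (ff (x ^ p)) : ℂ)
    rw [e, qc_conj hp h2 hK, chi_conj hp h3 hχ hx0]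
    linear_combination -(χ x) * (quadraticChar K (ff x) : ℂ) * chi_cube hχ hx0

theorem v_sum (hp : p.Prime) (h3 : p % 3 = 2) (h2 : p ≠ 2) (hK : Fintype.card K = p ^ 2) {k : K} (hk : k ^ 2 = -3) :
    ∑ v ∈ univ.erase (0 : K), quadraticChar K (v ^ 6 - 18 * v ^ 3 - 27) = 4 * (p : ℤ) - 2 - 6 * (M1 p k) ^ 2 := by
  have h20 := two_ne (K := K) hp h2 hK
  have h30 := three_ne (K := K) hp h3 hK
  obtain ⟨m, hm⟩ : ∃ m, Fintype.card K - 1 = 3 * m := by
    obtain ⟨t, ht⟩ : ∃ t, p = 3 * t + 2 := ⟨p / 3, by omega⟩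
    refine ⟨(t + 1) * (3 * t + 1), ?_⟩
    rw [hK, ht]
    have : (3 * t + 2) ^ 2 = 3 * ((t + 1) * (3 * t + 1)) + 1 := by ring
    rw [this, Nat.add_sub_cancel]
  obtain ⟨χ, hχo⟩ := MulChar.exists_mulChar_orderOf K (n := 3) ⟨m, hm⟩
    (Complex.isPrimitiveRoot_exp 3 (by norm_num))
  have hχ : χ ^ 3 = 1 := by rw [← hχo]; exact pow_orderOf_eq_one χ
  have h1 : χ ≠ 1 := by
    intro h
    rw [h, orderOf_one] at hχo
    omega
  have ho : ((-1 + k) / 2) ^ 2 + (-1 + k) / 2 + 1 = 0 := by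
    field_simp
    linear_combination hk
  have hfib : ∑ v ∈ univ.erase (0 : K), (quadraticChar K (v ^ 6 - 18 * v ^ 3 - 27) : ℂ) =
      ∑ t ∈ univ.erase (0 : K), (1 + χ t + χ t ^ 2) * (quadraticChar K (ff t) : ℂ) := by
    rw [← Finset.sum_fiberwise_of_maps_to (s := univ.erase (0 : K)) (t := univ.erase (0 : K)) (g := fun v => v ^ 3)
      (fun v hv => Finset.mem_erase.2 ⟨pow_ne_zero _ (Finset.mem_erase.1 hv).1, Finset.mem_univ _⟩)]
    refine Finset.sum_congr rfl fun t ht => ?_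
    have ht0 : t ≠ 0 := (Finset.mem_erase.1 ht).1
    rw [← v_roots hp h3 hK hχ h1 ho ht0, ← nsmul_eq_mul, ← Finset.sum_const]
    refine Finset.sum_congr rfl fun v hv => ?_
    have hv3 := (Finset.mem_filter.1 hv).2
    have : v ^ 6 - 18 * v ^ 3 - 27 = ff t := by
      unfold ff
      rw [← hv3]
      ring
    rw [this]
  have hsplit : ∑ t ∈ univ.erase (0 : K), (1 + χ t + χ t ^ 2) * (quadraticChar K (ff t) : ℂ) =
      ∑ t ∈ univ.erase (0 : K), (quadraticChar K (ff t) : ℂ) +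
      ∑ t ∈ univ.erase (0 : K), χ t * (quadraticChar K (ff t) : ℂ) +
      ∑ t ∈ univ.erase (0 : K), χ t ^ 2 * (quadraticChar K (ff t) : ℂ) := by
    rw [← Finset.sum_add_distrib, ← Finset.sum_add_distrib]
    refine Finset.sum_congr rfl fun t _ => ?_
    ring
  have hpl : ∑ t ∈ univ.erase (0 : K), (quadraticChar K (ff t) : ℂ) = -2 := by
    have := v_plain (K := K) hp h3 h2 hK
    exact_mod_cast this
  rw [hsplit, hpl, v_conj hp h3 h2 hK hχ, twisted hp h3 h2 hK hk hχ h1, S1_sq hp h3 h2 hK hk hχ h1] at hfib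
  have hfin : ((∑ v ∈ univ.erase (0 : K), quadraticChar K (v ^ 6 - 18 * v ^ 3 - 27) : ℤ) : ℂ) =
      ((4 * (p : ℤ) - 2 - 6 * (M1 p k) ^ 2 : ℤ) : ℂ) := by
    push_cast
    rw [hfib]
    ring
  exact_mod_cast hfin

end E8T3
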