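import Pool.Agent.E8T3.CB

/-! E8T3 block (c), row R9, piece (ii) (helper85): `v -> x = v - 3/v`. -/

open Finset

namespace E8T3

variable {p : ℕ} {K : Type*} [Field K] [Fintype K] [DecidableEq K]

theorem xs_sq {v : K} (h : v ≠ 0) (w : K) : quadraticChar K (w ^ 2 / v) = if w = 0 then 0 else quadraticChar K v := by
  by_cases hw : w = 0
  · simp [hw]
  · rw [if_neg hw]
    have : w ^ 2 / v = (w / v) ^ 2 * v := by field_simp
    rw [this, map_mul, quadraticChar_sq_one' (div_ne_zero hw h), one_mul]

/-- the fibre sum -/
theorem xs_fibre (h2 : (2 : K) ≠ 0) (h3 : (3 : K) ≠ 0) {k : K} (hk : k ^ 2 = -3) (x : K) :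
    ∑ v ∈ (univ.erase (0 : K)).filter (fun v => v - 3 / v = x), quadraticChar K v =
      quadraticChar K (x + 2 * k) + quadraticChar K (x - 2 * k) := by
  have hk0 : k ≠ 0 := by
    intro h
    rw [h] at hk
    apply h3
    linear_combination hk
  by_cases hs : ∃ s : K, s ^ 2 = x ^ 2 + 12
  · obtain ⟨s, hs⟩ := hs
    obtain ⟨v, hv⟩ : ∃ v, v = (x + s) / 2 := ⟨_, rfl⟩
    have h1 : s = 2 * v - x := by rw [hv]; field_simp; ring
    have hvq : v ^ 2 - x * v - 3 = 0 := by
      have : 4 * (v ^ 2 - x * v - 3) = 0 := by
        rw [h1] at hs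
        linear_combination hs
      have h4 : (4 : K) ≠ 0 := by
        have : (4 : K) = 2 * 2 := by norm_num
        rw [this]
        exact mul_ne_zero h2 h2
      exact (mul_eq_zero.1 this).resolve_left h4
    have hv0 : v ≠ 0 := by
      intro h
      rw [h] at hvq
      apply h3
      linear_combination -hvq
    have hx : x = v - 3 / v := by
      field_simp
      linear_combination -hvq
    have hset : (univ.erase (0 : K)).filter (fun w => w - 3 / w = x) = {v, -3 / v} := by
      ext w
      simp only [mem_filter, mem_erase, mem_univ, and_true, mem_insert, mem_singleton]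
      constructor
      · rintro ⟨hw0, hw⟩
        rw [hx] at hw
        have : (w - v) * (w * v + 3) = 0 := by
          field_simp at hw
          linear_combination hw
        rcases mul_eq_zero.1 this with h | h
        · left
          linear_combination h
        · right
          rw [eq_div_iff hv0]
          linear_combination h
      · rintro (h | h)
        · rw [h]
          exact ⟨hv0, hx.symm⟩
        · rw [h]
          refine ⟨div_ne_zero (neg_ne_zero.2 h3) hv0, ?_⟩
          rw [hx]
          field_simp
          ring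
    have e1 : x + 2 * k = (v + k) ^ 2 / v := by
      rw [hx]
      field_simp
      linear_combination -hk
    have e2 : x - 2 * k = (v - k) ^ 2 / v := by
      rw [hx]
      field_simp
      linear_combination -hk
    rw [hset, e1, e2, xs_sq hv0, xs_sq hv0]
    by_cases hvv : v = -3 / v
    · rw [← hvv, pair_eq_singleton, sum_singleton]
      have : (v - k) * (v + k) = 0 := by
        rw [eq_div_iff hv0] at hvv
        linear_combination hvv - hk
      rcases mul_eq_zero.1 this with h | h
      · have hv' : v = k := by linear_combination h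
        have : v + k ≠ 0 := by
          rw [hv', ← two_mul]
          exact mul_ne_zero h2 hk0
        rw [if_neg this, if_pos h, add_zero]
      · have hv' : v = -k := by linear_combination h
        have : v - k ≠ 0 := by
          rw [hv', ← neg_add', ← two_mul]
          exact neg_ne_zero.2 (mul_ne_zero h2 hk0)
        rw [if_pos h, if_neg this, zero_add]
    · rw [sum_pair hvv]
      have h5 : v + k ≠ 0 := by
        intro h
        have hv' : v = -k := by linear_combination h
        apply hvv
        rw [eq_div_iff hv0, hv']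
        linear_combination hk
      have h6 : v - k ≠ 0 := by
        intro h
        have hv' : v = k := by linear_combination h
        apply hvv
        rw [eq_div_iff hv0, hv']
        linear_combination hk
      rw [if_neg h5, if_neg h6]
      have : -3 / v = k ^ 2 / v := by rw [hk]
      rw [this, xs_sq hv0, if_neg hk0]
  · have hset : (univ.erase (0 : K)).filter (fun w => w - 3 / w = x) = ∅ := by
      rw [filter_eq_empty_iff]
      intro w hw h
      have hw0 : w ≠ 0 := (mem_erase.1 hw).1
      apply hs
      refine ⟨2 * w - x, ?_⟩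
      rw [← h]
      field_simp
      ring
    rw [hset, sum_empty]
    have e : (x + 2 * k) * (x - 2 * k) = x ^ 2 + 12 := by linear_combination -4 * hk
    have h0 : (x + 2 * k) * (x - 2 * k) ≠ 0 := by
      intro h
      apply hs
      refine ⟨0, ?_⟩
      rw [← e, h]
      ring
    have h7 : quadraticChar K ((x + 2 * k) * (x - 2 * k)) = -1 := by
      rw [quadraticChar_neg_one_iff_not_isSquare]
      rintro ⟨s, h⟩
      apply hs
      exact ⟨s, by rw [← e, h]; ring⟩
    rw [map_mul] at h7
    rcases quadraticChar_dichotomy (left_ne_zero_of_mul h0) with h | h <;> rw [h] at h7 ⊢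
    · rw [one_mul] at h7
      rw [h7]
      rfl
    · have : quadraticChar K (x - 2 * k) = 1 := by linarith
      rw [this]
      rfl

theorem x_sum (hp : p.Prime) (h3 : p % 3 = 2) (h2 : p ≠ 2) (hK : Fintype.card K = p ^ 2) {k : K} (hk : k ^ 2 = -3) :
    ∑ v ∈ univ.erase (0 : K), quadraticChar K (v ^ 6 - 18 * v ^ 3 - 27) =
      2 * ∑ x : K, quadraticChar K ((x ^ 3 + 9 * x - 18) * (x + 2 * k)) := by
  have e2 := two_ne (K := K) hp h2 hK
  have e3 := three_ne (K := K) hp h3 hK
  have hkp := k_fr hp h3 h2 hK hk
  have step1 : ∑ v ∈ univ.erase (0 : K), quadraticChar K (v ^ 6 - 18 * v ^ 3 - 27) =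
      ∑ v ∈ univ.erase (0 : K), quadraticChar K ((v - 3 / v) ^ 3 + 9 * (v - 3 / v) - 18) * quadraticChar K v := by
    refine sum_congr rfl fun v hv => ?_
    have hv0 : v ≠ 0 := (mem_erase.1 hv).1
    have : v ^ 6 - 18 * v ^ 3 - 27 = v ^ 2 * (((v - 3 / v) ^ 3 + 9 * (v - 3 / v) - 18) * v) := by
      field_simp
      ring
    rw [this, map_mul, map_mul, quadraticChar_sq_one' hv0, one_mul]
  have step2 : ∑ v ∈ univ.erase (0 : K), quadraticChar K ((v - 3 / v) ^ 3 + 9 * (v - 3 / v) - 18) * quadraticChar K v =
      ∑ x : K, ∑ v ∈ (univ.erase (0 : K)).filter (fun v => v - 3 / v = x),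
        quadraticChar K ((v - 3 / v) ^ 3 + 9 * (v - 3 / v) - 18) * quadraticChar K v := by
    rw [sum_fiberwise]
  have step3 : ∀ x : K, ∑ v ∈ (univ.erase (0 : K)).filter (fun v => v - 3 / v = x),
        quadraticChar K ((v - 3 / v) ^ 3 + 9 * (v - 3 / v) - 18) * quadraticChar K v =
      quadraticChar K ((x ^ 3 + 9 * x - 18) * (x + 2 * k)) + quadraticChar K ((x ^ 3 + 9 * x - 18) * (x - 2 * k)) := by
    intro x
    rw [map_mul, map_mul, ← mul_add, ← xs_fibre e2 e3 hk x, mul_sum]
    refine sum_congr rfl fun v hv => ?_
    rw [(mem_filter.1 hv).2]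
  have step4 : ∑ x : K, quadraticChar K ((x ^ 3 + 9 * x - 18) * (x - 2 * k)) =
      ∑ x : K, quadraticChar K ((x ^ 3 + 9 * x - 18) * (x + 2 * k)) := by
    refine sum_nbij' (fun x => x ^ p) (fun x => x ^ p) (fun _ _ => mem_univ _) (fun _ _ => mem_univ _)
      (fun x _ => fr_fr hK x) (fun x _ => fr_fr hK x) fun x _ => ?_
    have : ((x ^ p) ^ 3 + 9 * x ^ p - 18) * (x ^ p + 2 * k) = ((x ^ 3 + 9 * x - 18) * (x - 2 * k)) ^ p := by
      rw [mul_pow, fr_sub hp hK, fr_sub hp hK, fr_add hp hK, mul_pow, mul_pow, hkp]
      have q1 : (9 : K) ^ p = 9 := by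
        have := fr_nat (K := K) hp hK 9
        exact_mod_cast this
      have q2 : (18 : K) ^ p = 18 := by
        have := fr_nat (K := K) hp hK 18
        exact_mod_cast this
      have q3 : (2 : K) ^ p = 2 := by
        have := fr_nat (K := K) hp hK 2
        exact_mod_cast this
      rw [q1, q2, q3, ← pow_mul, ← pow_mul, mul_comm p 3]
      ring
    rw [this, qc_conj hp h2 hK]
  rw [step1, step2, sum_congr rfl fun x _ => step3 x, sum_add_distrib, step4]
  ring

end E8T3
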