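import Pool.Agent.E8T3.CB
import Pool.Agent.E8T3.Cart
import Pool.Agent.E8T3.CR7
import Pool.Agent.E8T3.CR8
import Pool.Agent.E8T3.CR9v
import Pool.Agent.E8T3.CR9x
import Pool.Agent.E8T3.CR9XX

/-! E8T3 block (c), row R10: the number of points of the governing curve over the field with `p ^ 2` elements. -/

open Finset

namespace E8T3

variable {p : ℕ} {K : Type*} [Field K] [Fintype K] [DecidableEq K]

/-- uniqueness of the small residue -/
theorem small_unique (hp : p.Prime) (h3 : p % 3 = 2) (h2 : p ≠ 2) {b m c : ℤ} (hb : |3 * b| ≤ p + 1)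
    (hm : |3 * m| ≤ p + 1) (hc : (p : ℤ) ∣ b - c) (hmc : (p : ℤ) ∣ m + c) : b = -m := by
  have hp5 : 5 ≤ p := by
    have := hp.two_le
    have := hp.eq_two_or_odd.resolve_left h2
    omega
  have h : (p : ℤ) ∣ b + m := by
    have := dvd_add hc hmc
    have e : b - c + (m + c) = b + m := by ring
    rwa [e] at this
  obtain ⟨t, ht⟩ := h
  have hb' := abs_le.1 hb
  have hm' := abs_le.1 hm
  have hp5' : (5 : ℤ) ≤ p := by exact_mod_cast hp5
  have ht0 : t = 0 := by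
    by_contra h0
    rcases lt_or_gt_of_ne h0 with h | h
    · have : (p : ℤ) * t ≤ -p := by nlinarith
      linarith [hb'.1, hm'.1]
    · have : (p : ℤ) ≤ p * t := by nlinarith
      linarith [hb'.2, hm'.2]
  rw [ht0, mul_zero] at ht
  linarith

/-- the number of points on `y^2 = f x` -/
theorem card_sq (hp : p.Prime) (h2 : p ≠ 2) (hK : Fintype.card K = p ^ 2) (f : K → K) :
    (((univ : Finset (K × K)).filter fun q => q.2 ^ 2 = f q.1).card : ℤ) = (p : ℤ) ^ 2 + ∑ x, quadraticChar K (f x) := by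
  have h1 : ∀ a : K, (((univ : Finset K).filter fun y => y ^ 2 = a).card : ℤ) = quadraticChar K a + 1 := by
    intro a
    have := quadraticChar_card_sqrts (ringChar_ne hp h2 hK) a
    rw [← this]
    congr 1
    apply congrArg
    ext y
    simp
  have h3 : ((univ : Finset (K × K)).filter fun q => q.2 ^ 2 = f q.1).card =
      ∑ x : K, ((univ : Finset K).filter fun y => y ^ 2 = f x).card := by
    rw [Finset.card_filter, Fintype.sum_prod_type]
    refine Finset.sum_congr rfl fun x _ => ?_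
    rw [Finset.card_filter]
  rw [h3]
  push_cast
  rw [Finset.sum_congr rfl fun x _ => h1 (f x), Finset.sum_add_distrib, Finset.sum_const, card_univ, hK]
  simp
  ring

theorem count (hp : p.Prime) (h3 : p % 3 = 2) (h2 : p ≠ 2) (hK : Fintype.card K = p ^ 2) {k : K} (hk : k ^ 2 = -3)
    {b : ℤ} (hb : |3 * b| ≤ p + 1) (hc : (p : ℤ) ∣ b - c3 p) :
    (((univ : Finset (K × K)).filter fun q => q.2 ^ 2 = (1 - 3 * k * q.1) ^ 2 + 6 * (k - 3) * q.1 ^ 3).card : ℤ) =
      (p + 1) ^ 2 - 3 * b ^ 2 - 1 := by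
  have hbm : b = -M1 p k := small_unique hp h3 h2 hb (M1_abs hp h3 h2 hK hk) hc (M1_mod hp h3 h2 hK hk)
  rw [card_sq hp h2 hK (fun x => (1 - 3 * k * x) ^ 2 + 6 * (k - 3) * x ^ 3), X_sum hp h3 hK hk]
  have h1 := v_sum hp h3 h2 hK hk
  rw [x_sum hp h3 h2 hK hk] at h1
  rw [hbm]
  linarith

/-- the same curve as `y^2 + 3xy + by = x^3`, `b = -o`, `o^2 + o + 1 = 0` -/
theorem count_W (hp : p.Prime) (h3 : p % 3 = 2) (h2 : p ≠ 2) (hK : Fintype.card K = p ^ 2) {o : K}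
    (ho : o ^ 2 + o + 1 = 0) {b : ℤ} (hb : |3 * b| ≤ p + 1) (hc : (p : ℤ) ∣ b - c3 p) :
    (((univ : Finset (K × K)).filter fun q => q.2 ^ 2 + 3 * q.1 * q.2 + (-o) * q.2 = q.1 ^ 3).card : ℤ) =
      (p + 1) ^ 2 - 3 * b ^ 2 - 1 := by
  -- `k = -(2 o + 1)`, `-o = (1 + k) / 2`
  set k : K := -(2 * o + 1) with hkd
  have hk : k ^ 2 = -3 := by rw [hkd]; linear_combination 4 * ho
  have h20 := two_ne hp h2 hK
  have h30 := three_ne hp h3 hK
  have ho0 : o ≠ 0 := by
    rintro rfl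
    norm_num at ho
  have hk0 : k ≠ 0 := by
    intro h
    rw [h] at hk
    apply h30
    linear_combination hk
  have hko : k * o ≠ 0 := mul_ne_zero hk0 ho0
  have hkd' : 2 * o + 1 + k = 0 := by rw [hkd]; ring
  rw [← count hp h3 h2 hK hk hb hc]
  norm_cast
  -- bijection `(x, y) ↦ (x / (k o), (2 y + 3 x - o) / (-o))`
  refine Finset.card_nbij' (fun q => (q.1 / (k * o), (2 * q.2 + 3 * q.1 - o) / (-o)))
    (fun q => (q.1 * (k * o), (q.2 * (-o) - 3 * (q.1 * (k * o)) + o) / 2)) ?_ ?_ ?_ ?_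
  · intro q hq
    have hq := (Finset.mem_filter.1 hq).2
    refine Finset.mem_coe.2 (Finset.mem_filter.2 ⟨Finset.mem_univ _, ?_⟩)
    show ((2 * q.2 + 3 * q.1 - o) / (-o)) ^ 2 = (1 - 3 * k * (q.1 / (k * o))) ^ 2 + 6 * (k - 3) * (q.1 / (k * o)) ^ 3
    obtain ⟨X, hX⟩ : ∃ X, q.1 = X * (k * o) := ⟨q.1 / (k * o), (div_mul_cancel₀ _ hko).symm⟩
    rw [hX] at hq ⊢
    rw [mul_div_cancel_right₀ _ hko, div_pow, div_eq_iff (pow_ne_zero _ (neg_ne_zero.2 ho0))]
    linear_combination 4 * hq + X ^ 3 * o ^ 2 * ((4 * k * o + 6) * hk - 6 * k * hkd')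
  · intro q hq
    have hq := (Finset.mem_filter.1 hq).2
    refine Finset.mem_coe.2 (Finset.mem_filter.2 ⟨Finset.mem_univ _, ?_⟩)
    show ((q.2 * (-o) - 3 * (q.1 * (k * o)) + o) / 2) ^ 2 +
      3 * (q.1 * (k * o)) * ((q.2 * (-o) - 3 * (q.1 * (k * o)) + o) / 2) +
      (-o) * ((q.2 * (-o) - 3 * (q.1 * (k * o)) + o) / 2) = (q.1 * (k * o)) ^ 3
    obtain ⟨y, hy⟩ : ∃ y, y = (q.2 * (-o) - 3 * (q.1 * (k * o)) + o) / 2 := ⟨_, rfl⟩
    rw [← hy]
    have hy2 : 2 * y = q.2 * (-o) - 3 * (q.1 * (k * o)) + o := by rw [hy, mul_div_cancel₀ _ h20]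
    apply mul_left_cancel₀ (pow_ne_zero 2 h20)
    linear_combination (2 * y + q.2 * (-o) - 3 * (q.1 * (k * o)) + o + 2 * (3 * (q.1 * (k * o)) - o)) * hy2 +
      o ^ 2 * hq - q.1 ^ 3 * o ^ 2 * ((4 * k * o + 6) * hk - 6 * k * hkd')
  · intro q _
    simp only
    ext
    · simp only; field_simp
    · simp only; field_simp; ring
  · intro q _
    simp only
    ext
    · simp only; field_simp
    · simp only; field_simp; ring

end E8T3
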