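import Pool.Agent.E8T3.G
import Pool.Agent.E8T.D1

/-!
# [E8T3-K] the parts of `C` with exponents `1`, `4`, `7` modulo `9` and the newform of level 81

`x, y, z` = the parts of `C` with exponents `1, 4, 7` modulo `9`: then
`g = x² + y² + z² - x y - y z - z x` exactly.
-/

set_option autoImplicit false

open PowerSeries
open N19 (ex)
open T5X (E)
open E8T (As Cs aS c3 gf Adm Nc)
open E8X (F3Cl)

namespace E8T3

theorem k_ex3 : ex 3 (3 : PowerSeries ℤ) = 3 := by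
  have e : (C (3 : ℤ) : PowerSeries ℤ) = 3 := rfl
  rw [← e, E8X.ex_ofNat (by norm_num)]

theorem k_ex9 : ex 3 (9 : PowerSeries ℤ) = 9 := by
  have e : (C (9 : ℤ) : PowerSeries ℤ) = 9 := rfl
  rw [← e, E8X.ex_ofNat (by norm_num)]

theorem k_ex27 : ex 3 (27 : PowerSeries ℤ) = 27 := by
  have e : (C (27 : ℤ) : PowerSeries ℤ) = 27 := rfl
  rw [← e, E8X.ex_ofNat (by norm_num)]

/-- the part of `f` with exponents `r` modulo `9` -/
noncomputable def cpt (r : ℕ) (f : PowerSeries ℤ) : PowerSeries ℤ :=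
  mk fun n => if n % 9 = r then coeff n f else 0

theorem pt_cl {r : ℕ} (hr : r < 9) (f : PowerSeries ℤ) : F3Cl 9 r (cpt r f) := by
  intro n hn
  rw [cpt, coeff_mk, if_neg]
  intro h
  exact hn (by rw [h, Nat.mod_eq_of_lt hr])

theorem k_Cs : Cs = cpt 1 Cs + cpt 4 Cs + cpt 7 Cs := by
  ext n
  rw [map_add, map_add, cpt, cpt, cpt, coeff_mk, coeff_mk, coeff_mk]
  by_cases h : n % 3 = 1
  · have h9 : n % 9 = 1 ∨ n % 9 = 4 ∨ n % 9 = 7 := by omega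
    rcases h9 with h9 | h9 | h9
    · rw [if_pos h9, if_neg (by omega), if_neg (by omega)]; ring
    · rw [if_neg (by omega), if_pos h9, if_neg (by omega)]; ring
    · rw [if_neg (by omega), if_neg (by omega), if_pos h9]; ring
  · have h0 : coeff n Cs = 0 := E8T.d1_Cs n (by simpa using h)
    rw [h0]
    simp

/-- three classes modulo `9` -/
theorem k_sep {a b c : PowerSeries ℤ} (ha : F3Cl 9 3 a) (hb : F3Cl 9 6 b) (hc : F3Cl 9 0 c)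
    (h : a + b + c = 0) : a = 0 ∧ b = 0 ∧ c = 0 := by
  have h1 : ∀ n, coeff n a + coeff n b + coeff n c = 0 := by
    intro n
    have := congrArg (coeff n) h
    simpa [map_add] using this
  refine ⟨?_, ?_, ?_⟩
  · ext n
    rw [map_zero]
    by_cases hn : n % 9 = 3
    · have := h1 n
      rw [hb n (by omega), hc n (by omega)] at this
      linarith
    · exact ha n (by omega)
  · ext n
    rw [map_zero]
    by_cases hn : n % 9 = 6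
    · have := h1 n
      rw [ha n (by omega), hc n (by omega)] at this
      linarith
    · exact hb n (by omega)
  · ext n
    rw [map_zero]
    by_cases hn : n % 9 = 0
    · have := h1 n
      rw [ha n (by omega), hb n (by omega)] at this
      linarith
    · exact hc n (by omega)

theorem k_neg {r : ℕ} {f : PowerSeries ℤ} (hf : F3Cl 9 r f) : F3Cl 9 r (-f) := by
  intro n hn
  rw [map_neg, hf n hn, neg_zero]

theorem k_nat {r : ℕ} (c : ℕ) [c.AtLeastTwo] {f : PowerSeries ℤ} (hf : F3Cl 9 r f) :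
    F3Cl 9 r ((OfNat.ofNat c : PowerSeries ℤ) * f) := by
  have h := (F3Cl.ofNat 9 c).mul hf
  rwa [Nat.zero_add] at h

/-- the cubes -/
theorem k_three :
    cpt 1 Cs ^ 3 + cpt 4 Cs ^ 3 + cpt 7 Cs ^ 3 + 6 * (cpt 1 Cs * cpt 4 Cs * cpt 7 Cs) =
      ex 3 Cs * ex 3 As ^ 2 ∧
    cpt 1 Cs ^ 2 * cpt 4 Cs + cpt 4 Cs ^ 2 * cpt 7 Cs + cpt 7 Cs ^ 2 * cpt 1 Cs = ex 3 Cs ^ 2 * ex 3 As ∧
    cpt 1 Cs ^ 2 * cpt 7 Cs + cpt 4 Cs ^ 2 * cpt 1 Cs + cpt 7 Cs ^ 2 * cpt 4 Cs = 3 * ex 3 Cs ^ 3 := by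
  have hx : F3Cl 9 1 (cpt 1 Cs) := pt_cl (by norm_num) _
  have hy : F3Cl 9 4 (cpt 4 Cs) := pt_cl (by norm_num) _
  have hz : F3Cl 9 7 (cpt 7 Cs) := pt_cl (by norm_num) _
  have hu : F3Cl 9 3 (ex 3 Cs) := by
    intro n hn
    rw [ex, coeff_mk]
    split_ifs with h
    · obtain ⟨m, rfl⟩ := h
      rw [Nat.mul_div_cancel_left _ (by norm_num)]
      exact E8T.d1_Cs m (by omega)
    · rfl
  have hv : F3Cl 9 0 (ex 3 As) := by
    rw [E8T.As_eq, E8X.ex_ex (by norm_num) (by norm_num)]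
    exact E8X.f3_ex (M := 9) (k := 3 * 3) (by norm_num) aS
  have hC := E8T.C_cubic
  have e9 : ex 3 (9 * Cs ^ 2) = 9 * ex 3 Cs ^ 2 := by
    rw [E8X.ex_mul (by norm_num), k_ex9, E8X.ex_pow (by norm_num)]
  have e3 : ex 3 (3 * As * Cs) = 3 * ex 3 As * ex 3 Cs := by
    rw [E8X.ex_mul (by norm_num), E8X.ex_mul (by norm_num), k_ex3]
  have hC' : Cs ^ 3 = ex 3 Cs * (ex 3 As ^ 2 + 3 * ex 3 As * ex 3 Cs + 9 * ex 3 Cs ^ 2) := by
    rw [hC, E8X.ex_mul (by norm_num), E8X.ex_add, E8X.ex_add, E8X.ex_pow (by norm_num), e3, e9]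
  set x := cpt 1 Cs with hxd
  set y := cpt 4 Cs with hyd
  set z := cpt 7 Cs with hzd
  set u := ex 3 Cs with hud
  set v := ex 3 As with hvd
  have hs : Cs = x + y + z := k_Cs
  rw [hs] at hC'
  have h := k_sep
    (a := x ^ 3 + y ^ 3 + z ^ 3 + 6 * (x * y * z) + -(u * v ^ 2))
    (b := 3 * (x ^ 2 * y + y ^ 2 * z + z ^ 2 * x + -(u ^ 2 * v)))
    (c := 3 * (x ^ 2 * z + y ^ 2 * x + z ^ 2 * y + -(3 * u ^ 3)))
    ((((((hx.pow 3).congr (by norm_num)).add ((hy.pow 3).congr (by norm_num))).add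
      ((hz.pow 3).congr (by norm_num))).add
        (k_nat 6 (((hx.mul hy).mul hz).congr (by norm_num)))).add
          (k_neg ((hu.mul (hv.pow 2)).congr (by norm_num))))
    (k_nat 3 ((((((hx.pow 2).mul hy).congr (by norm_num)).add
      (((hy.pow 2).mul hz).congr (by norm_num))).add (((hz.pow 2).mul hx).congr (by norm_num))).add
        (k_neg (((hu.pow 2).mul hv).congr (by norm_num)))))
    (k_nat 3 ((((((hx.pow 2).mul hz).congr (by norm_num)).add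
      (((hy.pow 2).mul hx).congr (by norm_num))).add (((hz.pow 2).mul hy).congr (by norm_num))).add
        (k_neg (k_nat 3 ((hu.pow 3).congr (by norm_num))))))
    (by linear_combination hC')
  obtain ⟨h1, h2, h3⟩ := h
  have n3 : (3 : PowerSeries ℤ) ≠ 0 := by
    intro h
    have := congrArg (constantCoeff (R := ℤ)) h
    rw [E8T.c4_k3, map_zero] at this
    norm_num at this
  have h2' := (mul_eq_zero.1 h2).resolve_left n3
  have h3' := (mul_eq_zero.1 h3).resolve_left n3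
  exact ⟨by linear_combination h1, by linear_combination h2', by linear_combination h3'⟩

/-- `w³ = v³ - 27 u³` -/
theorem k_w : ex 9 (As - 3 * Cs) ^ 3 = ex 3 As ^ 3 - 27 * ex 3 Cs ^ 3 := by
  have h := congrArg (ex 3) ex3_Bs_cube
  have e27 : ex 3 (27 * Cs ^ 3) = 27 * ex 3 Cs ^ 3 := by
    rw [E8X.ex_mul (by norm_num), k_ex27, E8X.ex_pow (by norm_num)]
  rw [E8X.ex_pow (by norm_num), E8X.ex_ex (by norm_num) (by norm_num), E8T.x1_ex_sub,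
    E8X.ex_pow (by norm_num), e27] at h
  exact h

theorem k_C' : Cs ^ 3 = ex 3 Cs * (ex 3 As ^ 2 + 3 * ex 3 As * ex 3 Cs + 9 * ex 3 Cs ^ 2) := by
  have e9 : ex 3 (9 * Cs ^ 2) = 9 * ex 3 Cs ^ 2 := by
    rw [E8X.ex_mul (by norm_num), k_ex9, E8X.ex_pow (by norm_num)]
  have e3 : ex 3 (3 * As * Cs) = 3 * ex 3 As * ex 3 Cs := by
    rw [E8X.ex_mul (by norm_num), E8X.ex_mul (by norm_num), k_ex3]
  rw [E8T.C_cubic, E8X.ex_mul (by norm_num), E8X.ex_add, E8X.ex_add, E8X.ex_pow (by norm_num), e3, e9]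

theorem k_w_cc : constantCoeff (ex 9 (As - 3 * Cs)) = 1 := by
  rw [g_cc_ex]
  exact Bs_cc

theorem k_Cs_ne : Cs ≠ 0 := by
  intro h
  have h1 := E8T.Cs_one
  rw [h, map_zero] at h1
  norm_num at h1

/-- `(C g)³` -/
theorem k_G3 : (Cs * Gs) ^ 3 = ex 3 Cs ^ 3 * (ex 3 As ^ 3 - 27 * ex 3 Cs ^ 3) ^ 2 := by
  have h1 := Gs_eq
  have e1 : ex 3 (As - 3 * Cs) = ex 3 As - 3 * ex 3 Cs := by
    rw [E8T.x1_ex_sub, E8X.ex_mul (by norm_num), k_ex3]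
  rw [e1] at h1
  have hw := k_w
  have hC := k_C'
  have hw0 : ex 9 (As - 3 * Cs) ≠ 0 := g_ne k_w_cc
  refine mul_right_cancel₀ (pow_ne_zero 3 hw0) ?_
  set w := ex 9 (As - 3 * Cs) with hwd
  set u := ex 3 Cs with hud
  set v := ex 3 As with hvd
  have e2 : (Cs * Gs) ^ 3 * w ^ 3 = (Cs ^ 3) ^ 3 * (v - 3 * u) ^ 3 := by
    have : (Cs * Gs) ^ 3 * w ^ 3 = Cs ^ 3 * (Gs * w) ^ 3 := by ring
    rw [this, h1]
    ring
  rw [e2, hC, hw]
  ring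

/-- `g = x² + y² + z² - x y - y z - z x` -/
theorem Gs_xyz : Gs = cpt 1 Cs ^ 2 + cpt 4 Cs ^ 2 + cpt 7 Cs ^ 2 - cpt 1 Cs * cpt 4 Cs -
    cpt 4 Cs * cpt 7 Cs - cpt 7 Cs * cpt 1 Cs := by
  obtain ⟨h1, h2, h3⟩ := k_three
  have hG := k_G3
  have hs : Cs = cpt 1 Cs + cpt 4 Cs + cpt 7 Cs := k_Cs
  have hz : ∀ r, 2 ≤ r → ∃ S : PowerSeries ℤ, cpt r Cs = X ^ 2 * S := by
    intro r hr
    have : X ^ 2 ∣ cpt r Cs := by
      rw [X_pow_dvd_iff]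
      intro m hm
      rw [cpt, coeff_mk, if_neg (by omega)]
    exact this
  obtain ⟨Y, hY⟩ := hz 4 (by norm_num)
  obtain ⟨Z, hZ⟩ := hz 7 (by norm_num)
  obtain ⟨S, hS⟩ : ∃ S : PowerSeries ℤ, cpt 1 Cs = X * S := by
    have : X ∣ cpt 1 Cs := by
      rw [X_dvd_iff, ← coeff_zero_eq_constantCoeff_apply, cpt, coeff_mk, if_neg (by norm_num)]
    exact this
  have hS1 : constantCoeff S = 1 := by
    have h4 : coeff 1 (cpt 1 Cs) = 1 := by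
      rw [cpt, coeff_mk, if_pos (by norm_num)]
      exact E8T.Cs_one
    rw [hS, E8T.c4_one_X] at h4
    exact h4
  have hC0 : Cs ≠ 0 := k_Cs_ne
  set x := cpt 1 Cs with hxd
  set y := cpt 4 Cs with hyd
  set z := cpt 7 Cs with hzd
  set u := ex 3 Cs with hud
  set v := ex 3 As with hvd
  have e1 : (Cs * (x ^ 2 + y ^ 2 + z ^ 2 - x * y - y * z - z * x)) ^ 3 =
      u ^ 3 * (v ^ 3 - 27 * u ^ 3) ^ 2 := by
    have e2 : Cs * (x ^ 2 + y ^ 2 + z ^ 2 - x * y - y * z - z * x) =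
        x ^ 3 + y ^ 3 + z ^ 3 - 3 * (x * y * z) := by
      rw [hs]
      ring
    have e3 : (x ^ 3 + y ^ 3 + z ^ 3 - 3 * (x * y * z)) ^ 3 =
        (x ^ 3 + y ^ 3 + z ^ 3 + 6 * (x * y * z)) ^ 3 +
        27 * (x ^ 2 * y + y ^ 2 * z + z ^ 2 * x) ^ 3 + 27 * (x ^ 2 * z + y ^ 2 * x + z ^ 2 * y) ^ 3 -
        27 * (x ^ 3 + y ^ 3 + z ^ 3 + 6 * (x * y * z)) * (x ^ 2 * y + y ^ 2 * z + z ^ 2 * x) *
          (x ^ 2 * z + y ^ 2 * x + z ^ 2 * y) := by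
      ring
    rw [e2, e3, h1, h2, h3]
    ring
  rw [← e1, mul_pow, mul_pow] at hG
  have hQ := mul_left_cancel₀ (pow_ne_zero 3 hC0) hG
  have hX0 : (X : PowerSeries ℤ) ≠ 0 := X_ne_zero
  have eQ : x ^ 2 + y ^ 2 + z ^ 2 - x * y - y * z - z * x =
      X ^ 2 * (S ^ 2 + X * (X * Y ^ 2 + X * Z ^ 2 - S * Y - X * Y * Z - S * Z)) := by
    rw [hS, hY, hZ]
    ring
  rw [eQ] at hQ ⊢
  rw [Gs] at hQ ⊢
  congr 1
  rw [mul_pow (X ^ 2), mul_pow (X ^ 2)] at hQ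
  have hQ' := mul_left_cancel₀ (pow_ne_zero 3 (pow_ne_zero 2 hX0)) hQ
  refine pow3 ?_ ?_ hQ'
  · rw [map_mul, map_mul, map_pow, g_cc_ex, g_cc_ex, g_cc_ex, E_cc]
    norm_num
  · rw [map_add, map_mul, map_pow, hS1, constantCoeff_X]
    norm_num

/-- `n = 8` modulo `9` -/
theorem k_eight {n : ℕ} (hn : n % 9 = 8) :
    coeff n Gs = coeff n (cpt 4 Cs ^ 2) - coeff n (cpt 1 Cs * cpt 7 Cs) ∧
    coeff n (Cs ^ 2) = coeff n (cpt 4 Cs ^ 2) + 2 * coeff n (cpt 1 Cs * cpt 7 Cs) := by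
  have hx : F3Cl 9 1 (cpt 1 Cs) := pt_cl (by norm_num) _
  have hy : F3Cl 9 4 (cpt 4 Cs) := pt_cl (by norm_num) _
  have hz : F3Cl 9 7 (cpt 7 Cs) := pt_cl (by norm_num) _
  have a1 : coeff n (cpt 1 Cs ^ 2) = 0 := hx.pow 2 n (by omega)
  have a2 : coeff n (cpt 7 Cs ^ 2) = 0 := hz.pow 2 n (by omega)
  have a3 : coeff n (cpt 1 Cs * cpt 4 Cs) = 0 := hx.mul hy n (by omega)
  have a4 : coeff n (cpt 4 Cs * cpt 7 Cs) = 0 := hy.mul hz n (by omega)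
  have e : Cs ^ 2 = cpt 1 Cs ^ 2 + cpt 4 Cs ^ 2 + cpt 7 Cs ^ 2 + (cpt 1 Cs * cpt 4 Cs + cpt 1 Cs * cpt 4 Cs) +
      (cpt 4 Cs * cpt 7 Cs + cpt 4 Cs * cpt 7 Cs) + (cpt 1 Cs * cpt 7 Cs + cpt 1 Cs * cpt 7 Cs) := by
    calc Cs ^ 2 = (cpt 1 Cs + cpt 4 Cs + cpt 7 Cs) ^ 2 := by rw [← k_Cs]
      _ = _ := by ring
  constructor
  · rw [Gs_xyz, mul_comm (cpt 7 Cs) (cpt 1 Cs)]
    simp only [map_add, map_sub, a1, a2, a3, a4]
    ring
  · rw [e]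
    simp only [map_add, a1, a2, a3, a4]
    ring

/-- `n = 2` modulo `9` -/
theorem k_two {n : ℕ} (hn : n % 9 = 2) :
    coeff n Gs = coeff n (cpt 1 Cs ^ 2) - coeff n (cpt 4 Cs * cpt 7 Cs) ∧
    coeff n (Cs ^ 2) = coeff n (cpt 1 Cs ^ 2) + 2 * coeff n (cpt 4 Cs * cpt 7 Cs) := by
  have hx : F3Cl 9 1 (cpt 1 Cs) := pt_cl (by norm_num) _
  have hy : F3Cl 9 4 (cpt 4 Cs) := pt_cl (by norm_num) _
  have hz : F3Cl 9 7 (cpt 7 Cs) := pt_cl (by norm_num) _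
  have a1 : coeff n (cpt 4 Cs ^ 2) = 0 := hy.pow 2 n (by omega)
  have a2 : coeff n (cpt 7 Cs ^ 2) = 0 := hz.pow 2 n (by omega)
  have a3 : coeff n (cpt 1 Cs * cpt 4 Cs) = 0 := hx.mul hy n (by omega)
  have a4 : coeff n (cpt 7 Cs * cpt 1 Cs) = 0 := hz.mul hx n (by omega)
  have e : Cs ^ 2 = cpt 1 Cs ^ 2 + cpt 4 Cs ^ 2 + cpt 7 Cs ^ 2 + (cpt 1 Cs * cpt 4 Cs + cpt 1 Cs * cpt 4 Cs) +
      (cpt 4 Cs * cpt 7 Cs + cpt 4 Cs * cpt 7 Cs) + (cpt 7 Cs * cpt 1 Cs + cpt 7 Cs * cpt 1 Cs) := by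
    calc Cs ^ 2 = (cpt 1 Cs + cpt 4 Cs + cpt 7 Cs) ^ 2 := by rw [← k_Cs]
      _ = _ := by ring
  constructor
  · rw [Gs_xyz]
    simp only [map_add, map_sub, a1, a2, a3, a4]
    ring
  · rw [e]
    simp only [map_add, a1, a2, a3, a4]
    ring

/-- `n = 5` modulo `9` -/
theorem k_five {n : ℕ} (hn : n % 9 = 5) :
    coeff n Gs = coeff n (cpt 7 Cs ^ 2) - coeff n (cpt 1 Cs * cpt 4 Cs) ∧
    coeff n (Cs ^ 2) = coeff n (cpt 7 Cs ^ 2) + 2 * coeff n (cpt 1 Cs * cpt 4 Cs) := by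
  have hx : F3Cl 9 1 (cpt 1 Cs) := pt_cl (by norm_num) _
  have hy : F3Cl 9 4 (cpt 4 Cs) := pt_cl (by norm_num) _
  have hz : F3Cl 9 7 (cpt 7 Cs) := pt_cl (by norm_num) _
  have a1 : coeff n (cpt 1 Cs ^ 2) = 0 := hx.pow 2 n (by omega)
  have a2 : coeff n (cpt 4 Cs ^ 2) = 0 := hy.pow 2 n (by omega)
  have a3 : coeff n (cpt 4 Cs * cpt 7 Cs) = 0 := hy.mul hz n (by omega)
  have a4 : coeff n (cpt 7 Cs * cpt 1 Cs) = 0 := hz.mul hx n (by omega)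
  have e : Cs ^ 2 = cpt 1 Cs ^ 2 + cpt 4 Cs ^ 2 + cpt 7 Cs ^ 2 + (cpt 1 Cs * cpt 4 Cs + cpt 1 Cs * cpt 4 Cs) +
      (cpt 4 Cs * cpt 7 Cs + cpt 4 Cs * cpt 7 Cs) + (cpt 7 Cs * cpt 1 Cs + cpt 7 Cs * cpt 1 Cs) := by
    calc Cs ^ 2 = (cpt 1 Cs + cpt 4 Cs + cpt 7 Cs) ^ 2 := by rw [← k_Cs]
      _ = _ := by ring
  constructor
  · rw [Gs_xyz]
    simp only [map_add, map_sub, a1, a2, a3, a4]
    ring
  · rw [e]
    simp only [map_add, a1, a2, a3, a4]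
    ring

/-- the parts as generating functions -/
theorem pt_gf (r : ℕ) :
    cpt r Cs = gf (fun v : {v : ℤ × ℤ // Nc v % 9 = (r : ℤ)} => Nc v.1) := by
  ext n
  rw [cpt, coeff_mk, gf, coeff_mk]
  split_ifs with h
  · rw [Cs, gf, coeff_mk]
    congr 1
    refine Nat.card_congr ?_
    exact
      { toFun := fun v => ⟨⟨v.1, by rw [v.2]; omega⟩, v.2⟩
        invFun := fun v => ⟨v.1.1, v.2⟩
        left_inv := fun v => rfl
        right_inv := fun v => rfl }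
  · have : IsEmpty {v : {v : ℤ × ℤ // Nc v % 9 = (r : ℤ)} // Nc v.1 = (n : ℤ)} := by
      refine ⟨fun v => h ?_⟩
      have h1 := v.1.2
      rw [v.2] at h1
      omega
    rw [Nat.card_of_isEmpty]
    rfl

/-- `[x_r x_s]_n` is a number of pairs -/
theorem pt_mul_card (r s n : ℕ) :
    coeff n (cpt r Cs * cpt s Cs) = (Nat.card {v : (ℤ × ℤ) × (ℤ × ℤ) //
      Nc v.1 % 9 = (r : ℤ) ∧ Nc v.2 % 9 = (s : ℤ) ∧ Nc v.1 + Nc v.2 = (n : ℤ)} : ℤ) := by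
  have hA : ∀ t : ℕ, Adm (fun v : {v : ℤ × ℤ // Nc v % 9 = (t : ℤ)} => Nc v.1) := fun t =>
    E8T.adm_Nc.comp (f := fun v : {v : ℤ × ℤ // Nc v % 9 = (t : ℤ)} => v.1) Subtype.val_injective
  rw [pt_gf r, pt_gf s, ← E8T.gf_prod (hA r) (hA s), gf, coeff_mk]
  congr 1
  refine Nat.card_congr ?_
  exact
    { toFun := fun v => ⟨(v.1.1.1, v.1.2.1), v.1.1.2, v.1.2.2, v.2⟩
      invFun := fun v => ⟨(⟨v.1.1, v.2.1⟩, ⟨v.1.2, v.2.2.1⟩), v.2.2.2⟩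
      left_inv := fun v => rfl
      right_inv := fun v => rfl }

/-- the number of pairs `α, β = 1 mod 3` with `N(α) = r`, `N(β) = s` modulo `9` and `N(α) + N(β) = n` -/
noncomputable def Rk (r s : ℕ) (n : ℕ) : ℕ :=
  Nat.card {v : (ℤ × ℤ) × (ℤ × ℤ) //
    Nc v.1 % 9 = (r : ℤ) ∧ Nc v.2 % 9 = (s : ℤ) ∧ Nc v.1 + Nc v.2 = (n : ℤ)}

/-- the two counts for `n = 8` modulo `9` -/
theorem k_card {n : ℕ} (hn : n % 9 = 8) :
    3 * (Rk 1 7 n : ℤ) = coeff n (Cs ^ 2) - coeff n Gs ∧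
    3 * (Rk 4 4 n : ℤ) = coeff n (Cs ^ 2) + 2 * coeff n Gs := by
  obtain ⟨h1, h2⟩ := k_eight hn
  have h3 : coeff n (cpt 1 Cs * cpt 7 Cs) = (Rk 1 7 n : ℤ) := pt_mul_card _ _ n
  have h4 : coeff n (cpt 4 Cs ^ 2) = (Rk 4 4 n : ℤ) := by
    rw [pow_two]
    exact pt_mul_card _ _ n
  rw [h3, h4] at h1 h2
  exact ⟨by linarith, by linarith⟩

/-- the coefficients of a product of two parts are nonnegative -/
theorem k_nonneg (r s n : ℕ) : 0 ≤ coeff n (cpt r Cs * cpt s Cs) := by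
  rw [pt_mul_card]
  positivity

/-- the size of the coefficients of the newform, `n = 2` modulo `3` -/
theorem k_bound {n : ℕ} (hn : n % 3 = 2) :
    coeff n Gs ≤ coeff n (Cs ^ 2) ∧ -coeff n (Cs ^ 2) ≤ 2 * coeff n Gs := by
  have h9 : n % 9 = 2 ∨ n % 9 = 5 ∨ n % 9 = 8 := by omega
  rcases h9 with h9 | h9 | h9
  · obtain ⟨h1, h2⟩ := k_two h9
    have h3 := k_nonneg 1 1 n
    have h4 := k_nonneg 4 7 n
    rw [← pow_two] at h3
    constructor <;> linarith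
  · obtain ⟨h1, h2⟩ := k_five h9
    have h3 := k_nonneg 7 7 n
    have h4 := k_nonneg 1 4 n
    rw [← pow_two] at h3
    constructor <;> linarith
  · obtain ⟨h1, h2⟩ := k_eight h9
    have h3 := k_nonneg 4 4 n
    have h4 := k_nonneg 1 7 n
    rw [← pow_two] at h3
    constructor <;> linarith

/-- with `3 [C²]_n = s` (`s = σ(n)`, `= p + 1` for a prime `p = 2 mod 3`): `3 |b_n| ≤ s` -/
theorem k_abs {n : ℕ} (hn : n % 3 = 2) {s : ℤ} (hs : 3 * coeff n (Cs ^ 2) = s) :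
    |3 * coeff n Gs| ≤ s := by
  obtain ⟨h1, h2⟩ := k_bound hn
  have h3 : 0 ≤ coeff n (Cs ^ 2) := by linarith
  rw [abs_le]
  constructor <;> linarith

/-- the two counts in terms of `s = 3 [C²]_n` -/
theorem k_counts {n : ℕ} (hn : n % 9 = 8) {s : ℤ} (hs : 3 * coeff n (Cs ^ 2) = s) :
    9 * (Rk 1 7 n : ℤ) = s - 3 * coeff n Gs ∧ 9 * (Rk 4 4 n : ℤ) = s + 6 * coeff n Gs := by
  obtain ⟨h1, h2⟩ := k_card hn
  constructor <;> linarith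

end E8T3
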