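import Pool.Agent.E8T3.G
import Pool.Agent.E8T3.Cart
import Pool.Agent.E8T.X1

/-!
# [E8T3] row (b), second half: the parametrisation `U DU = g W`, `W² = 1 - 18 U³ - 27 U⁶`

`v = A(q³)`, `c = C(q³)`; `U = X E(X³)² E(X²⁷)² / E(X⁹)⁴`, `U³ (v² + 3 v c + 9 c²) = c (v - 3 c)`,
`g U = c (v - 3 c)`, `W (v² + 3 v c + 9 c²) = v² - 6 v c - 18 c²`.
-/

set_option autoImplicit false

open PowerSeries
open N19 (ex)
open T5X (E)
open E8T (As Cs)

namespace E8T3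

theorem par_D (f : PowerSeries ℤ) : E8G.D f = NC11.D f := rfl

theorem par_inv {f : PowerSeries ℤ} (hf : constantCoeff f = 1) : ∃ i : PowerSeries ℤ, f * i = 1 ∧ constantCoeff i = 1 := by
  obtain ⟨i, hi⟩ : IsUnit f := by
    rw [PowerSeries.isUnit_iff_constantCoeff, hf]
    exact isUnit_one
  refine ⟨(i⁻¹ : (PowerSeries ℤ)ˣ), ?_, ?_⟩
  · rw [← hi]
    exact i.mul_inv
  · have h := congrArg (constantCoeff (R := ℤ)) i.mul_inv
    rw [map_mul, hi, hf, one_mul, map_one] at h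
    exact h

/-- the bracket at level `q³` -/
theorem par_bracket : ex 3 As * NC11.D (ex 3 Cs) - ex 3 Cs * NC11.D (ex 3 As) =
    3 * (ex 3 Cs * (ex 3 As ^ 3 - 27 * ex 3 Cs ^ 3)) := by
  have e3 : (C (3 : ℤ) : PowerSeries ℤ) = 3 := rfl
  have e27 : (C (27 : ℤ) : PowerSeries ℤ) = 27 := rfl
  have h := congrArg (ex 3) E8T.bracket
  rw [E8T.x1_ex_sub, E8X.ex_mul (by norm_num), E8X.ex_mul (by norm_num), E8X.ex_mul (by norm_num),
    E8T.x1_ex_sub, ← e27, E8X.ex_mul (by norm_num) (C 27), E8X.ex_ofNat (by norm_num), E8X.ex_pow (by norm_num),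
    E8X.ex_pow (by norm_num), e27] at h
  rw [E8T.D_ex (by norm_num), E8T.D_ex (by norm_num)]
  push_cast
  rw [e3]
  linear_combination 3 * h

theorem par_D_sq (f : PowerSeries ℤ) : NC11.D (f ^ 2) = 2 * f * NC11.D f := by
  rw [sq, E8T.D_mul]
  ring

theorem par_D_cube (f : PowerSeries ℤ) : NC11.D (f ^ 3) = 3 * f ^ 2 * NC11.D f := by
  rw [show f ^ 3 = f * (f * f) by ring, E8T.D_mul, E8T.D_mul]
  ring

theorem par_D_smul (a : ℤ) (f : PowerSeries ℤ) : NC11.D (C a * f) = C a * NC11.D f := by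
  rw [E8T.D_mul, E8T.D_C]
  ring

theorem par : ∃ u w : PowerSeries ℤ, coeff 0 u = 0 ∧ coeff 1 u = 1 ∧ coeff 0 w = 1 ∧
    w ^ 2 = 1 - 18 * u ^ 3 - 27 * u ^ 6 ∧ u * E8G.D u = Gs * w := by
  have e3' : (C (3 : ℤ) : PowerSeries ℤ) = 3 := rfl
  have e9' : (C (9 : ℤ) : PowerSeries ℤ) = 9 := rfl
  have e27 : (C (27 : ℤ) : PowerSeries ℤ) = 27 := rfl
  set e3 : PowerSeries ℤ := ex 3 E with he3
  set e9 : PowerSeries ℤ := ex 9 E with he9
  set e27' : PowerSeries ℤ := ex 27 E with he27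
  set v : PowerSeries ℤ := ex 3 As with hv
  set c : PowerSeries ℤ := ex 3 Cs with hc
  have c3 : constantCoeff e3 = 1 := by rw [he3, g_cc_ex, E_cc]
  have c9 : constantCoeff e9 = 1 := by rw [he9, g_cc_ex, E_cc]
  have c27 : constantCoeff e27' = 1 := by rw [he27, g_cc_ex, E_cc]
  have cv : constantCoeff v = 1 := by rw [hv, g_cc_ex, E8T.c4_A0]
  have cc : constantCoeff c = 0 := by rw [hc, g_cc_ex, E8T.c4_C0]
  have hB : ex 3 Bs = v - 3 * c := by
    rw [Bs, E8T.x1_ex_sub, ← e3', E8X.ex_mul (by norm_num), E8X.ex_ofNat (by norm_num)]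
  -- the eta quotients
  have h1 : (v - 3 * c) * e9 = e3 ^ 3 := by
    have h := congrArg (ex 3) Bs_E
    rw [E8X.ex_mul (by norm_num), E8X.ex_ex (by norm_num) (by norm_num), E8X.ex_pow (by norm_num), hB] at h
    exact h
  have h2 : c * e9 = X ^ 3 * e27' ^ 3 := by
    have h := congrArg (ex 3) Cs_E
    rw [E8X.ex_mul (by norm_num), E8X.ex_ex (by norm_num) (by norm_num), E8X.ex_mul (by norm_num),
      E8X.ex_X (by norm_num), E8X.ex_pow (by norm_num), E8X.ex_ex (by norm_num) (by norm_num)] at h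
    exact h
  have h3 : c * (v ^ 3 - 27 * c ^ 3) = X ^ 3 * e9 ^ 8 := by
    have hq : Cs * (As ^ 3 - 27 * Cs ^ 3) = X * ex 3 E ^ 8 := by
      have h9 : ex 3 Bs * ex 9 E = ex 3 E ^ 3 := by
        rw [hB]
        exact h1
      have k1 : ex 3 E ≠ 0 := g_ne (by rw [g_cc_ex, E_cc])
      have k2 : ex 9 E ≠ 0 := g_ne (by rw [g_cc_ex, E_cc])
      rw [← ex3_Bs_cube]
      refine mul_left_cancel₀ (mul_ne_zero k1 (pow_ne_zero 3 k2)) ?_
      have h5 : ex 3 Bs ^ 3 * ex 9 E ^ 3 = (ex 3 E ^ 3) ^ 3 := by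
        rw [← h9]; ring
      linear_combination (ex 3 Bs ^ 3 * ex 9 E ^ 3) * Cs_E + X * ex 9 E ^ 3 * h5
    have h := congrArg (ex 3) hq
    rw [E8X.ex_mul (by norm_num), E8X.ex_mul (by norm_num), E8T.x1_ex_sub, ← e27, E8X.ex_mul (by norm_num) (C 27),
      E8X.ex_ofNat (by norm_num), E8X.ex_pow (by norm_num), E8X.ex_pow (by norm_num), E8X.ex_X (by norm_num),
      E8X.ex_pow (by norm_num), E8X.ex_ex (by norm_num) (by norm_num), e27] at h
    exact h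
  obtain ⟨i9, hi9, ci9⟩ := par_inv c9
  set Q : PowerSeries ℤ := v ^ 2 + 3 * v * c + 9 * c ^ 2 with hQ
  have cQ : constantCoeff Q = 1 := by
    rw [hQ, map_add, map_add, map_mul, map_mul, map_mul, map_pow, map_pow, cv, cc]
    ring
  obtain ⟨iQ, hiQ, ciQ⟩ := par_inv cQ
  have hX : (X : PowerSeries ℤ) ≠ 0 := X_ne_zero
  have n3 : e3 ≠ 0 := g_ne c3
  have n9 : e9 ≠ 0 := g_ne c9
  have n27 : e27' ≠ 0 := g_ne c27
  have nQ : Q ≠ 0 := g_ne cQ
  have nc : c ≠ 0 := by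
    intro h
    rw [h, zero_mul] at h2
    exact mul_ne_zero (pow_ne_zero 3 hX) (pow_ne_zero 3 n27) h2.symm
  have nB : v - 3 * c ≠ 0 := by
    intro h
    rw [h, zero_mul] at h1
    exact pow_ne_zero 3 n3 h1.symm
  set u : PowerSeries ℤ := X * (e3 ^ 2 * e27' ^ 2 * i9 ^ 4) with hu
  set w : PowerSeries ℤ := (v ^ 2 - 6 * v * c - 18 * c ^ 2) * iQ with hw
  have hu9 : u * e9 ^ 4 = X * (e3 ^ 2 * e27' ^ 2) := by
    have : u * e9 ^ 4 = X * (e3 ^ 2 * e27' ^ 2) * (e9 * i9) ^ 4 := by rw [hu]; ring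
    rw [this, hi9]
    ring
  have hwQ : w * Q = v ^ 2 - 6 * v * c - 18 * c ^ 2 := by
    have : w * Q = (v ^ 2 - 6 * v * c - 18 * c ^ 2) * (Q * iQ) := by rw [hw]; ring
    rw [this, hiQ]
    ring
  have hvQ : (v - 3 * c) * Q = v ^ 3 - 27 * c ^ 3 := by rw [hQ]; ring
  have nu : u ≠ 0 := by
    intro h
    rw [h, zero_mul] at hu9
    exact mul_ne_zero hX (mul_ne_zero (pow_ne_zero 2 n3) (pow_ne_zero 2 n27)) hu9.symm
  -- `u³ Q = c (v - 3 c)`
  have hu3 : u ^ 3 * Q = c * (v - 3 * c) := by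
    have k : u ^ 3 * X ^ 3 * e9 ^ 12 = c ^ 2 * (v - 3 * c) ^ 2 * e9 ^ 4 := by
      calc u ^ 3 * X ^ 3 * e9 ^ 12 = (u * e9 ^ 4) ^ 3 * X ^ 3 := by ring
        _ = (X ^ 3 * e27' ^ 3) ^ 2 * (e3 ^ 3) ^ 2 := by rw [hu9]; ring
        _ = c ^ 2 * (v - 3 * c) ^ 2 * e9 ^ 4 := by rw [← h1, ← h2]; ring
    have k2 : u ^ 3 * (c * ((v - 3 * c) * Q)) * e9 ^ 4 = c ^ 2 * (v - 3 * c) ^ 2 * e9 ^ 4 := by
      rw [hvQ, h3, ← k]
      ring
    refine mul_left_cancel₀ (mul_ne_zero (mul_ne_zero nc nB) (pow_ne_zero 4 n9)) ?_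
    linear_combination k2
  -- `g u = c (v - 3 c)`
  have hgu : Gs * u = c * (v - 3 * c) := by
    have hG : Gs = X ^ 2 * (e3 * e9 ^ 2 * e27') := rfl
    refine mul_left_cancel₀ (pow_ne_zero 4 n9) ?_
    calc e9 ^ 4 * (Gs * u) = Gs * (u * e9 ^ 4) := by ring
      _ = e9 ^ 2 * ((X ^ 3 * e27' ^ 3) * e3 ^ 3) := by rw [hu9, hG]; ring
      _ = e9 ^ 4 * (c * (v - 3 * c)) := by rw [← h1, ← h2]; ring
  have hbr := par_bracket
  rw [← hv, ← hc] at hbr
  -- the differential equation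
  have hd : u * NC11.D u = Gs * w := by
    have hDQ : NC11.D Q = 2 * v * NC11.D v + 3 * (NC11.D v * c + v * NC11.D c) + 18 * c * NC11.D c := by
      rw [hQ, E8T.D_add, E8T.D_add, par_D_sq, show 3 * v * c = C 3 * (v * c) by rw [e3']; ring, par_D_smul,
        E8T.D_mul, ← e9', par_D_smul, par_D_sq, e3', e9']
      ring
    have hDP : NC11.D (c * (v - 3 * c)) = NC11.D c * v + c * NC11.D v - 6 * c * NC11.D c := by
      have : c * (v - 3 * c) = c * v + C (-3) * c ^ 2 := by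
        have : (C (-3 : ℤ) : PowerSeries ℤ) = -3 := by
          rw [map_neg, e3']
        rw [this]
        ring
      rw [this, E8T.D_add, par_D_smul, par_D_sq, E8T.D_mul, map_neg, e3']
      ring
    have hD3 : 3 * u ^ 2 * NC11.D u * Q + u ^ 3 * NC11.D Q = NC11.D (c * (v - 3 * c)) := by
      rw [← par_D_cube, ← E8T.D_mul, hu3]
    have k1 : 3 * (u ^ 2 * NC11.D u * Q ^ 2) = 3 * (w * Q ^ 2 * (c * (v - 3 * c))) := by
      have k2 : 3 * (u ^ 2 * NC11.D u * Q ^ 2) = Q * NC11.D (c * (v - 3 * c)) - (u ^ 3 * Q) * NC11.D Q := by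
        linear_combination Q * hD3
      have k3 : 3 * (w * Q ^ 2 * (c * (v - 3 * c))) =
          3 * ((w * Q) * (c * ((v - 3 * c) * Q))) := by ring
      rw [k2, k3, hu3, hwQ, hvQ, hDP, hDQ]
      have k4 : 3 * ((v ^ 2 - 6 * v * c - 18 * c ^ 2) * (c * (v ^ 3 - 27 * c ^ 3))) =
          (v ^ 2 - 6 * v * c - 18 * c ^ 2) * (v * NC11.D c - c * NC11.D v) := by
        rw [hbr]; ring
      rw [k4, hQ]
      ring
    have k5 : (3 : PowerSeries ℤ) ≠ 0 := by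
      intro h
      have := congrArg (constantCoeff (R := ℤ)) h
      rw [map_zero] at this
      have h3 : constantCoeff (3 : PowerSeries ℤ) = (3 : ℤ) := rfl
      rw [h3] at this
      norm_num at this
    have k6 := mul_left_cancel₀ k5 k1
    refine mul_left_cancel₀ (mul_ne_zero nu (pow_ne_zero 2 nQ)) ?_
    calc u * Q ^ 2 * (u * NC11.D u) = u ^ 2 * NC11.D u * Q ^ 2 := by ring
      _ = w * Q ^ 2 * (Gs * u) := by rw [k6, hgu]
      _ = u * Q ^ 2 * (Gs * w) := by ring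
  refine ⟨u, w, ?_, ?_, ?_, ?_, ?_⟩
  · rw [hu, coeff_zero_X_mul]
  · rw [hu, show (1 : ℕ) = 0 + 1 from rfl, coeff_succ_X_mul, coeff_zero_eq_constantCoeff_apply, map_mul, map_mul,
      map_pow, map_pow, map_pow, c3, c27, ci9]
    norm_num
  · rw [coeff_zero_eq_constantCoeff_apply, hw, map_mul, map_sub, map_sub, map_mul, map_mul, map_mul, map_pow, map_pow,
      cv, cc, ciQ]
    norm_num
  · refine mul_left_cancel₀ (pow_ne_zero 2 nQ) ?_
    calc Q ^ 2 * w ^ 2 = (w * Q) ^ 2 := by ring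
      _ = Q ^ 2 - 18 * (c * (v - 3 * c)) * Q - 27 * (c * (v - 3 * c)) ^ 2 := by
        rw [hwQ, hQ]
        ring
      _ = Q ^ 2 * (1 - 18 * u ^ 3 - 27 * u ^ 6) := by
        rw [← hu3]
        ring
  · rw [par_D]
    exact hd

/-- the coefficient `b_p` modulo `p` -/
theorem b_cart {p : ℕ} (hp : p.Prime) (h3 : p % 3 = 2) (h2 : p ≠ 2) : (p : ℤ) ∣ coeff p Gs - c3 p := by
  obtain ⟨u, w, h0, h1, hw0, hw, hd⟩ := par
  exact cart hp h3 h2 h0 h1 hw0 hw hd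

end E8T3
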