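import Pool.Agent.E8T3.Count
import Pool.Agent.E8T3.CARD
import Pool.Agent.E8T3.Par
import Pool.Agent.E8T3.B
import Pool.Agent.E8T3.K

/-! E8T3 block (c), end: the number of points of `y² + 3xy - oy = x³` (`o² + o + 1 = 0`) over the field with `p²`
elements is `(p + 1)² - 3 b²`, `b` the `p`-th coefficient of `η(3z) η(9z)² η(27z)`. -/

set_option autoImplicit false

open Finset PowerSeries
open E8T (Cs As)

namespace E8T3

theorem Gs_small {p : ℕ} (hp : p.Prime) (h3 : p % 3 = 2) : |3 * coeff p Gs| ≤ (p : ℤ) + 1 := by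
  apply k_abs h3
  rw [← sigma1_two_mod h3, ArithmeticFunction.sigma_one_apply, hp.sum_divisors]
  push_cast
  ring

theorem card_Gs {p : ℕ} {K : Type*} [Field K] [Fintype K] [DecidableEq K] (hp : p.Prime) (h3 : p % 3 = 2)
    (h2 : p ≠ 2) (hK : Fintype.card K = p ^ 2) {o : K} (ho : o ^ 2 + o + 1 = 0) :
    (Nat.card (⟨3, 0, -o, 0, 0⟩ : WeierstrassCurve K).toAffine.Point : ℤ) = (p + 1) ^ 2 - 3 * (coeff p Gs) ^ 2 := by
  have h20 := two_ne (K := K) hp h2 hK
  have h30 := three_ne (K := K) hp h3 hK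
  have hk : (-(2 * o + 1)) ^ 2 = -3 := by linear_combination 4 * ho
  have hb : -o = (1 + -(2 * o + 1)) / 2 := by
    rw [eq_div_iff h20]
    ring
  rw [card_W h20 h30 hk hb]
  push_cast
  rw [count hp h3 h2 hK hk (Gs_small hp h3) (b_cart hp h3 h2)]
  ring

end E8T3
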