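import Pool.Agent.E8T3.Kum

/-!
# [E8T3-D4a] reciprocity on `y² + S x y + b y = x³` for a point `P₃` with `3 P₃ = (0, 0)`
-/

set_option autoImplicit false

open WeierstrassCurve.Affine

namespace E8T3

variable {F : Type*} [Field F] [DecidableEq F]

/-- Three affine points with sum zero are on a line. -/
theorem d4_line (a b : F) {x1 y1 x2 y2 x3 y3 : F}
    (h1 : (⟨a, 0, b, 0, 0⟩ : WeierstrassCurve F).toAffine.Nonsingular x1 y1)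
    (h2 : (⟨a, 0, b, 0, 0⟩ : WeierstrassCurve F).toAffine.Nonsingular x2 y2)
    (h3 : (⟨a, 0, b, 0, 0⟩ : WeierstrassCurve F).toAffine.Nonsingular x3 y3)
    (h : Point.some x1 y1 h1 + Point.some x2 y2 h2 + Point.some x3 y3 h3 = 0) :
    ∃ m c, y1 = m * x1 + c ∧ y2 = m * x2 + c ∧ y3 = m * x3 + c ∧
      x1 + x2 + x3 = m ^ 2 + a * m ∧
      x1 * x2 + x1 * x3 + x2 * x3 = -(2 * m * c + a * c + b * m) ∧
      x1 * x2 * x3 = c ^ 2 + b * c := by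
  have h' : Point.some x1 y1 h1 + Point.some x2 y2 h2 = -Point.some x3 y3 h3 :=
    eq_neg_of_add_eq_zero_left h
  rw [Point.neg_some] at h'
  by_cases hxy : x1 = x2 ∧ y1 = (⟨a, 0, b, 0, 0⟩ : WeierstrassCurve F).toAffine.negY x2 y2
  · rw [Point.add_of_Y_eq hxy.1 hxy.2] at h'
    exact absurd h'.symm (by simp)
  · rw [Point.add_some hxy] at h'
    simp only [Point.some.injEq] at h'
    obtain ⟨hx, hy⟩ := h'
    obtain ⟨l, hl⟩ : ∃ l, l = (⟨a, 0, b, 0, 0⟩ : WeierstrassCurve F).toAffine.slope x1 x2 y1 y2 :=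
      ⟨_, rfl⟩
    rw [← hl] at hx hy
    obtain ⟨k1, k2, k3⟩ := kum_coef a b h1.1 h2.1 hxy hl hx.symm rfl
    have hy2 := kum_y2 (⟨a, 0, b, 0, 0⟩ : WeierstrassCurve F) h1.1 h2.1 hxy
    rw [← hl] at hy2
    refine ⟨l, y1 - l * x1, by ring, by rw [hy2]; ring, ?_, k1, k2, k3⟩
    simp only [addY, negAddY, negY] at hy
    rw [hx] at hy
    linear_combination hy

/-- The polynomial identity. -/
theorem d4_poly {a0 a1 a2 m c c1 c2 : F}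
    (hR : a0 ^ 2 * a1 + a1 ^ 2 * a2 + a2 ^ 2 * a0 = 3 * a0 * a1 * a2) (h02 : a0 - a2 ≠ 0)
    (hc1 : c1 * (a0 - a2) = a0 * a1 * (a1 - a2)) (hc2 : c2 * (a0 - a2) = a0 * (a0 - a1)) {S b : F}
    (hS : S = a0 + a1 + a2) (hb : b = a0 * a1 * a2) {x1 x2 x3 : F}
    (k1 : x1 + x2 + x3 = m ^ 2 + S * m)
    (k2 : x1 * x2 + x1 * x3 + x2 * x3 = -(2 * m * c + S * c + b * m))
    (k3 : x1 * x2 * x3 = c ^ 2 + b * c) :
    (x1 ^ 2 + c1 * x1 + c2 * (m * x1 + c + S * x1 + b)) *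
      (x2 ^ 2 + c1 * x2 + c2 * (m * x2 + c + S * x2 + b)) *
      (x3 ^ 2 + c1 * x3 + c2 * (m * x3 + c + S * x3 + b)) =
      -(c + b) * (a0 * a1 * (a0 + m) - c) ^ 3 := by
  obtain ⟨u, hu⟩ : ∃ u, u = c1 + c2 * (m + S) := ⟨_, rfl⟩
  obtain ⟨v, hv⟩ : ∃ v, v = c2 * (c + b) := ⟨_, rfl⟩
  obtain ⟨e1, he1⟩ : ∃ e1, e1 = m ^ 2 + S * m := ⟨_, rfl⟩
  obtain ⟨e2, he2⟩ : ∃ e2, e2 = -(2 * m * c + S * c + b * m) := ⟨_, rfl⟩
  rw [← he1] at k1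
  rw [← he2] at k2
  have e3 : c ^ 2 + b * c = c * (c + b) := by ring
  rw [e3] at k3
  have step1 : (x1 ^ 2 + c1 * x1 + c2 * (m * x1 + c + S * x1 + b)) *
      (x2 ^ 2 + c1 * x2 + c2 * (m * x2 + c + S * x2 + b)) *
      (x3 ^ 2 + c1 * x3 + c2 * (m * x3 + c + S * x3 + b)) =
      (u ^ 2 - v + e1 * u + e2) ^ 2 * v - (u ^ 2 - v + e1 * u + e2) *
        (u * v + e1 * v - c * (c + b)) * u + (u * v + e1 * v - c * (c + b)) ^ 2 := by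
    rw [← k1, ← k2, ← k3, hu, hv]
    ring
  rw [step1]
  have step2 : ((u ^ 2 - v + e1 * u + e2) ^ 2 * v - (u ^ 2 - v + e1 * u + e2) *
        (u * v + e1 * v - c * (c + b)) * u + (u * v + e1 * v - c * (c + b)) ^ 2 +
        (c + b) * (a0 * a1 * (a0 + m) - c) ^ 3) * (a0 - a2) ^ 5 = 0 := by
    have s1 : ((u ^ 2 - v + e1 * u + e2) ^ 2 * v - (u ^ 2 - v + e1 * u + e2) *
        (u * v + e1 * v - c * (c + b)) * u + (u * v + e1 * v - c * (c + b)) ^ 2 +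
        (c + b) * (a0 * a1 * (a0 + m) - c) ^ 3) * (a0 - a2) ^ 5 =
        (c + b) * ((((c1 * (a0 - a2)) + (c2 * (a0 - a2)) * (m + S)) *
            (((c1 * (a0 - a2)) + (c2 * (a0 - a2)) * (m + S)) + e1 * (a0 - a2)) -
            (c2 * (a0 - a2)) * (c + b) * (a0 - a2) + e2 * (a0 - a2) ^ 2) ^ 2 * (c2 * (a0 - a2)) -
          (((c1 * (a0 - a2)) + (c2 * (a0 - a2)) * (m + S)) *
            (((c1 * (a0 - a2)) + (c2 * (a0 - a2)) * (m + S)) + e1 * (a0 - a2)) -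
            (c2 * (a0 - a2)) * (c + b) * (a0 - a2) + e2 * (a0 - a2) ^ 2) *
          ((c2 * (a0 - a2)) * (((c1 * (a0 - a2)) + (c2 * (a0 - a2)) * (m + S)) + e1 * (a0 - a2)) -
            c * (a0 - a2) ^ 2) * ((c1 * (a0 - a2)) + (c2 * (a0 - a2)) * (m + S)) +
          (c + b) * ((c2 * (a0 - a2)) * (((c1 * (a0 - a2)) + (c2 * (a0 - a2)) * (m + S)) +
            e1 * (a0 - a2)) - c * (a0 - a2) ^ 2) ^ 2 * (a0 - a2) +
          (a0 * a1 * (a0 + m) - c) ^ 3 * (a0 - a2) ^ 5) := by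
      rw [hu, hv]
      ring
    rw [s1, hc1, hc2, he1, he2, hS, hb]
    linear_combination (c + a0 * a1 * a2) * (a0 - a2) ^ 2 * (a0^7*a1^2 + 3*a0^6*a1^2*m
      - a0^5*a1^3*a2 - a0^5*a1^2*a2*m + 3*a0^5*a1^2*m^2 - 2*a0^5*a1*c - 2*a0^4*a1^3*a2*m
      - 2*a0^4*a1^2*a2*m^2 + a0^4*a1^2*m^3 - 4*a0^4*a1*m*c - a0^3*a1^3*a2*m^2
      - a0^3*a1^2*a2*m^3 + 2*a0^3*a1^2*a2*c + 2*a0^3*a1*a2*m*c - 2*a0^3*a1*m^2*c + a0^3*c^2
      + 2*a0^2*a1^2*a2*m*c + 2*a0^2*a1*a2*m^2*c + a0^2*m*c^2 - a0*a1*a2*c^2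
      - a0*a2*m*c^2) * hR
  have h5 := pow_ne_zero 5 h02
  have := (mul_eq_zero.1 step2).resolve_right h5
  linear_combination this

end E8T3
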