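import Pool.Agent.E8T3.D4a

/-!
# [E8T3-D4b] the ninth power relation for `3 P₅ = P₃`
-/

set_option autoImplicit false

open WeierstrassCurve.Affine

namespace E8T3

variable {F : Type*} [Field F]

theorem d4_vert {a0 a1 a2 c1 c2 : F}
    (hR : a0 ^ 2 * a1 + a1 ^ 2 * a2 + a2 ^ 2 * a0 = 3 * a0 * a1 * a2) (h02 : a0 - a2 ≠ 0)
    (hc1 : c1 * (a0 - a2) = a0 * a1 * (a1 - a2)) (hc2 : c2 * (a0 - a2) = a0 * (a0 - a1)) {S b : F}
    (hS : S = a0 + a1 + a2) (hb : b = a0 * a1 * a2) {x y : F}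
    (h : y ^ 2 + S * x * y + b * y = x ^ 3) :
    (x ^ 2 + c1 * x + c2 * (y + S * x + b)) * (x ^ 2 + c1 * x + c2 * (-y)) =
      x * (x + a0 * a1) ^ 3 := by
  have q1 : 2 * c1 + c2 * S - c2 ^ 2 = 3 * a0 * a1 := by
    have h1 : (2 * c1 + c2 * S - c2 ^ 2 - 3 * a0 * a1) * (a0 - a2) ^ 2 = 0 := by
      have e : (2 * c1 + c2 * S - c2 ^ 2 - 3 * a0 * a1) * (a0 - a2) ^ 2 =
        2 * (c1 * (a0 - a2)) * (a0 - a2) + (c2 * (a0 - a2)) * S * (a0 - a2) -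
          (c2 * (a0 - a2)) ^ 2 - 3 * a0 * a1 * (a0 - a2) ^ 2 := by ring
      rw [e, hc1, hc2, hS]
      linear_combination (-a0) * hR
    have := (mul_eq_zero.1 h1).resolve_right (pow_ne_zero 2 h02)
    linear_combination this
  have q2 : c1 ^ 2 + c2 * b + c1 * c2 * S = 3 * a0 ^ 2 * a1 ^ 2 := by
    have h1 : (c1 ^ 2 + c2 * b + c1 * c2 * S - 3 * a0 ^ 2 * a1 ^ 2) * (a0 - a2) ^ 2 = 0 := by
      have e : (c1 ^ 2 + c2 * b + c1 * c2 * S - 3 * a0 ^ 2 * a1 ^ 2) * (a0 - a2) ^ 2 =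
        (c1 * (a0 - a2)) ^ 2 + (c2 * (a0 - a2)) * b * (a0 - a2) +
          (c1 * (a0 - a2)) * (c2 * (a0 - a2)) * S - 3 * a0 ^ 2 * a1 ^ 2 * (a0 - a2) ^ 2 := by ring
      rw [e, hc1, hc2, hS, hb]
      linear_combination (-2 * a0 ^ 2 * a1) * hR
    have := (mul_eq_zero.1 h1).resolve_right (pow_ne_zero 2 h02)
    linear_combination this
  have q3 : c1 * c2 * b = a0 ^ 3 * a1 ^ 3 := by
    have h1 : (c1 * c2 * b - a0 ^ 3 * a1 ^ 3) * (a0 - a2) ^ 2 = 0 := by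
      have e : (c1 * c2 * b - a0 ^ 3 * a1 ^ 3) * (a0 - a2) ^ 2 =
        (c1 * (a0 - a2)) * (c2 * (a0 - a2)) * b - a0 ^ 3 * a1 ^ 3 * (a0 - a2) ^ 2 := by ring
      rw [e, hc1, hc2, hb]
      linear_combination (-a0 ^ 3 * a1 ^ 2) * hR
    have := (mul_eq_zero.1 h1).resolve_right (pow_ne_zero 2 h02)
    linear_combination this
  linear_combination x ^ 3 * q1 + x ^ 2 * q2 + x * q3 - c2 ^ 2 * h

theorem d4_fin {L5 L2 L2' L3 x5 x2 w y5 y2 y2' y3 c b l c' l' : F}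
    (A1 : L5 * L5 * L2' = -(c + b) * l ^ 3) (B1 : x5 * x5 * x2 = c ^ 2 + b * c)
    (C1 : y5 * y5 * y2' = c ^ 3) (A3 : L5 * L2 * L3 = -(c' + b) * l' ^ 3)
    (B3 : x5 * x2 * (-w) = c' ^ 2 + b * c') (C3 : y5 * y2 * y3 = c' ^ 3)
    (A2 : L2 * L2' = x2 * (x2 + w) ^ 3) (C2 : y2 * y2' = -x2 ^ 3) (hx2 : x2 ≠ 0)
    (hxw : x2 + w ≠ 0) (hL5 : L5 ≠ 0) (hw : w ≠ 0) :
    (y5 * (L3 / (-w))) ^ 3 * y3 = (-(x5 * l * l') / (L5 * (x2 + w))) ^ 9 := by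
  have E1 : (L5 * L5 * L2') ^ 3 * (y5 * y5 * y2') = -(x5 * x5 * x2) ^ 3 * l ^ 9 := by
    rw [A1, B1, C1]
    ring
  have E3 : (L5 * L2 * L3) ^ 3 * (y5 * y2 * y3) = -(x5 * x2 * (-w)) ^ 3 * l' ^ 9 := by
    rw [A3, B3, C3]
    ring
  have E : L5 ^ 9 * (L2 * L2') ^ 3 * L3 ^ 3 * y5 ^ 3 * (y2 * y2') * y3 =
      (x5 * x5 * x2) ^ 3 * l ^ 9 * ((x5 * x2 * (-w)) ^ 3 * l' ^ 9) := by
    have e : L5 ^ 9 * (L2 * L2') ^ 3 * L3 ^ 3 * y5 ^ 3 * (y2 * y2') * y3 =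
      ((L5 * L5 * L2') ^ 3 * (y5 * y5 * y2')) * ((L5 * L2 * L3) ^ 3 * (y5 * y2 * y3)) := by ring
    rw [e, E1, E3]
    ring
  rw [A2, C2] at E
  have E' : -(L5 ^ 9 * (x2 + w) ^ 9 * L3 ^ 3 * y5 ^ 3 * y3) = x5 ^ 9 * (-w) ^ 3 * (l * l') ^ 9 := by
    have h6 : x2 ^ 6 ≠ 0 := pow_ne_zero 6 hx2
    apply mul_left_cancel₀ h6
    linear_combination E
  have hw3 : (-w) ^ 3 ≠ 0 := pow_ne_zero 3 (neg_ne_zero.2 hw)
  have hd : (L5 * (x2 + w)) ^ 9 ≠ 0 := pow_ne_zero 9 (mul_ne_zero hL5 hxw)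
  have e1 : (y5 * (L3 / (-w))) ^ 3 * y3 = y5 ^ 3 * L3 ^ 3 * y3 / (-w) ^ 3 := by
    rw [mul_pow, div_pow]
    ring
  rw [e1, div_pow, div_eq_div_iff hw3 hd]
  linear_combination -E'

variable [DecidableEq F]

theorem d4_curve {a b x y : F}
    (h : (⟨a, 0, b, 0, 0⟩ : WeierstrassCurve F).toAffine.Nonsingular x y) :
    y ^ 2 + a * x * y + b * y = x ^ 3 := by
  have := (equation_iff (W := (⟨a, 0, b, 0, 0⟩ : WeierstrassCurve F).toAffine) x y).1 h.1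
  simpa using this

theorem d4_negY {a b x y : F} :
    (⟨a, 0, b, 0, 0⟩ : WeierstrassCurve F).toAffine.negY x y = -y - a * x - b := rfl

/-- equal `x` -/
theorem d4_same {a b x1 y1 x2 y2 : F}
    (h1 : (⟨a, 0, b, 0, 0⟩ : WeierstrassCurve F).toAffine.Nonsingular x1 y1)
    (h2 : (⟨a, 0, b, 0, 0⟩ : WeierstrassCurve F).toAffine.Nonsingular x2 y2) (h : x1 = x2) :
    Point.some x1 y1 h1 = Point.some x2 y2 h2 ∨ Point.some x1 y1 h1 = -Point.some x2 y2 h2 := by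
  subst h
  rcases Y_eq_of_X_eq h1.1 h2.1 rfl with h3 | h3
  · left
    subst h3
    rfl
  · right
    rw [Point.neg_some]
    subst h3
    rfl

theorem d4_main {S b a0 a1 a2 : F} (hS : S = a0 + a1 + a2) (hb : b = a0 * a1 * a2)
    (hR : a0 ^ 2 * a1 + a1 ^ 2 * a2 + a2 ^ 2 * a0 = 3 * a0 * a1 * a2) (h02 : a0 - a2 ≠ 0)
    (h01 : a0 - a1 ≠ 0) (h0 : a0 ≠ 0) (h1 : a1 ≠ 0) (h2 : a2 ≠ 0) {x5 y5 : F}
    (n5 : (⟨S, 0, b, 0, 0⟩ : WeierstrassCurve F).toAffine.Nonsingular x5 y5)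
    (n3 : (⟨S, 0, b, 0, 0⟩ : WeierstrassCurve F).toAffine.Nonsingular (-(a0 * a1)) (a0 ^ 2 * a1))
    (nT : (⟨S, 0, b, 0, 0⟩ : WeierstrassCurve F).toAffine.Nonsingular 0 0)
    (hP : (3 : ℤ) • Point.some x5 y5 n5 = Point.some _ _ n3)
    (hT : (3 : ℤ) • Point.some _ _ n3 = Point.some 0 0 nT)
    (h3T : (3 : ℤ) • Point.some 0 0 nT = 0) :
    y5 ≠ 0 ∧ ∃ U : F, U ≠ 0 ∧
      (y5 * (a0 * (a0 - a1) ^ 2 / (a0 - a2))) ^ 3 * (a0 * a1 ^ 2) = U ^ 9 := by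
  -- the order of `P₅`
  have hz : ∀ n : ℤ, n • Point.some x5 y5 n5 = 0 → (27 : ℤ) ∣ n := by
    intro n hn
    have h27 : (27 : ℤ) • Point.some x5 y5 n5 = 0 := by
      rw [show (27 : ℤ) = 3 * (3 * 3) by norm_num, mul_smul, mul_smul, hP, hT, h3T]
    have h9 : (9 : ℤ) • Point.some x5 y5 n5 ≠ 0 := by
      rw [show (9 : ℤ) = 3 * 3 by norm_num, mul_smul, hP, hT]
      exact fun h => by simp at h
    have h4 : addOrderOf (Point.some x5 y5 n5) = 3 ^ (2 + 1) := by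
      apply addOrderOf_eq_prime_pow
      · intro h
        apply h9
        have := congrArg id h
        simpa [← natCast_zsmul] using this
      · rw [← natCast_zsmul]
        simpa using h27
    have := addOrderOf_dvd_iff_zsmul_eq_zero.2 hn
    rw [h4] at this
    norm_num at this
    exact this
  have hb0 : b ≠ 0 := by rw [hb]; exact mul_ne_zero (mul_ne_zero h0 h1) h2
  -- points with `x = 0`
  have hx0 : ∀ {x y : F} (h : (⟨S, 0, b, 0, 0⟩ : WeierstrassCurve F).toAffine.Nonsingular x y),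
      x = 0 → (3 : ℤ) • Point.some x y h = 0 := by
    intro x y h hx
    rcases d4_same h nT hx with h3 | h3
    · rw [h3, h3T]
    · rw [h3, smul_neg, h3T, neg_zero]
  have hx5 : x5 ≠ 0 := by
    intro h
    have h3 := hz 3 (hx0 n5 h)
    norm_num at h3
  have q5 := d4_curve n5
  have hy5 : y5 ≠ 0 := by
    rintro rfl
    apply hx5
    have : x5 ^ 3 = 0 := by rw [← q5]; ring
    exact pow_eq_zero_iff (by norm_num) |>.1 this
  refine ⟨hy5, ?_⟩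
  obtain ⟨c2, hc2⟩ : ∃ c2, c2 = a0 * (a0 - a1) / (a0 - a2) := ⟨_, rfl⟩
  obtain ⟨c1, hc1⟩ : ∃ c1, c1 = a0 * a1 * (a1 - a2) / (a0 - a2) := ⟨_, rfl⟩
  have hc2' : c2 * (a0 - a2) = a0 * (a0 - a1) := by rw [hc2, div_mul_cancel₀ _ h02]
  have hc1' : c1 * (a0 - a2) = a0 * a1 * (a1 - a2) := by rw [hc1, div_mul_cancel₀ _ h02]
  -- `2 P₅`
  obtain ⟨Q, hQ⟩ : ∃ Q, Q = (2 : ℤ) • Point.some x5 y5 n5 := ⟨_, rfl⟩
  rcases Q with _ | ⟨x2, y2, n2⟩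
  · have h3 := hz 2 hQ.symm
    norm_num at h3
  have hx2 : x2 ≠ 0 := by
    intro h
    have h3 := hx0 n2 h
    rw [hQ, smul_smul] at h3
    have h4 := hz _ h3
    norm_num at h4
  have hx2a : x2 + a0 * a1 ≠ 0 := by
    intro h
    have h3 : x2 = -(a0 * a1) := by linear_combination h
    rcases d4_same n2 n3 h3 with h4 | h4
    · rw [hQ, ← hP, ← sub_eq_zero, ← sub_smul] at h4
      have h5 := hz _ h4
      norm_num at h5
    · rw [hQ, ← hP, ← sub_eq_zero, sub_neg_eq_add, ← add_smul] at h4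
      have h5 := hz _ h4
      norm_num at h5
  have hx5a : x5 + a0 * a1 ≠ 0 := by
    intro h
    have h3 : x5 = -(a0 * a1) := by linear_combination h
    rcases d4_same n5 n3 h3 with h4 | h4
    · rw [← hP, ← sub_eq_zero] at h4
      have h6 : ((1 : ℤ) - 3) • Point.some x5 y5 n5 = 0 := by rw [sub_smul, one_smul, h4]
      have h5 := hz _ h6
      norm_num at h5
    · rw [← hP, ← sub_eq_zero, sub_neg_eq_add] at h4
      have h6 : ((1 : ℤ) + 3) • Point.some x5 y5 n5 = 0 := by rw [add_smul, one_smul, h4]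
      have h5 := hz _ h6
      norm_num at h5
  have q2 := d4_curve n2
  -- the three relations
  have hv5 := d4_vert hR h02 hc1' hc2' hS hb q5
  have hv2 := d4_vert hR h02 hc1' hc2' hS hb q2
  have n2' : (⟨S, 0, b, 0, 0⟩ : WeierstrassCurve F).toAffine.Nonsingular x2
      ((⟨S, 0, b, 0, 0⟩ : WeierstrassCurve F).toAffine.negY x2 y2) := (nonsingular_neg x2 y2).2 n2
  have n3' : (⟨S, 0, b, 0, 0⟩ : WeierstrassCurve F).toAffine.Nonsingular (-(a0 * a1))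
      ((⟨S, 0, b, 0, 0⟩ : WeierstrassCurve F).toAffine.negY (-(a0 * a1)) (a0 ^ 2 * a1)) :=
    (nonsingular_neg _ _).2 n3
  have f2 : Point.some _ _ n2' = -Point.some x2 y2 n2 := by rw [Point.neg_some]
  have f3 : Point.some _ _ n3' = -Point.some (-(a0 * a1)) (a0 ^ 2 * a1) n3 := by
    rw [Point.neg_some]
  have e1 : Point.some x5 y5 n5 + Point.some x5 y5 n5 + Point.some _ _ n2' = 0 := by
    rw [f2, hQ, two_zsmul, add_neg_cancel]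
  have e3 : Point.some x5 y5 n5 + Point.some x2 y2 n2 + Point.some _ _ n3' = 0 := by
    rw [f3, hQ, ← hP]
    module
  obtain ⟨m, c, l1, -, l3, k1, k2, k3⟩ := d4_line S b n5 n5 _ e1
  obtain ⟨m', c', l1', l2', l3', k1', k2', k3'⟩ := d4_line S b n5 n2 _ e3
  rw [d4_negY] at l3 l3'
  have A1 := d4_poly hR h02 hc1' hc2' hS hb k1 k2 k3
  have A3 := d4_poly hR h02 hc1' hc2' hS hb k1' k2' k3'
  have C1 : y5 * y5 * (-y2 - S * x2 - b) = c ^ 3 := by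
    rw [l3, l1]
    linear_combination m ^ 3 * k3 + m ^ 2 * c * k2 + m * c ^ 2 * k1
  have C3 : y5 * y2 * (a0 * a1 ^ 2) = c' ^ 3 := by
    have e : a0 * a1 ^ 2 = m' * -(a0 * a1) + c' := by
      rw [← l3', hS, hb]
      ring
    rw [e, l1', l2']
    linear_combination m' ^ 3 * k3' + m' ^ 2 * c' * k2' + m' * c' ^ 2 * k1'
  have C2 : y2 * (-y2 - S * x2 - b) = -x2 ^ 3 := by linear_combination -q2
  have r1 : m * x5 + c + S * x5 + b = y5 + S * x5 + b := by rw [l1]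
  have r2 : m * x2 + c + S * x2 + b = -y2 := by rw [← l3]; ring
  have r1' : m' * x5 + c' + S * x5 + b = y5 + S * x5 + b := by rw [l1']
  have r2' : m' * x2 + c' + S * x2 + b = y2 + S * x2 + b := by rw [l2']
  have r3' : m' * -(a0 * a1) + c' + S * -(a0 * a1) + b = -(a0 ^ 2 * a1) := by rw [← l3']; ring
  rw [r1, r2] at A1
  rw [r1', r2', r3'] at A3
  have hL5 : x5 ^ 2 + c1 * x5 + c2 * (y5 + S * x5 + b) ≠ 0 := by
    intro h
    rw [h, zero_mul] at hv5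
    exact mul_ne_zero hx5 (pow_ne_zero 3 hx5a) hv5.symm
  have hw : a0 * a1 ≠ 0 := mul_ne_zero h0 h1
  have key := d4_fin A1 k3 C1 A3 k3' C3 hv2 C2 hx2 hx2a hL5 hw
  have hL3 : ((-(a0 * a1)) ^ 2 + c1 * -(a0 * a1) + c2 * -(a0 ^ 2 * a1)) / -(a0 * a1) =
      a0 * (a0 - a1) ^ 2 / (a0 - a2) := by
    rw [hc1, hc2]
    field_simp
    ring
  rw [hL3] at key
  refine ⟨_, ?_, key⟩
  intro h
  rw [h] at key
  have h9 : (y5 * (a0 * (a0 - a1) ^ 2 / (a0 - a2))) ^ 3 * (a0 * a1 ^ 2) ≠ 0 :=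
    mul_ne_zero (pow_ne_zero 3 (mul_ne_zero hy5 (div_ne_zero (mul_ne_zero h0 (pow_ne_zero 2 h01)) h02)))
      (mul_ne_zero h0 (pow_ne_zero 2 h1))
  apply h9
  rw [key]
  ring

end E8T3
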