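import Pool.Agent.E8T3.PTS

/-!
# [E8T3-D4c] the field identities (I1), (I2) over `s⁶ + s³ + 1 = 0`, `θ³ = 3`
-/

set_option autoImplicit false

namespace E8T3

theorem d4c_I1 {K : Type*} [Field K] (h3 : (3 : K) ≠ 0) {s θ : K} (hs : s ^ 6 + s ^ 3 + 1 = 0)
    (hθ : θ ^ 3 = 3) {a0 a1 b0 b1 e : K}
    (A0 : 3 * a0 =
      3 + θ + θ ^ 2 + s * θ ^ 2 - s ^ 2 * θ - s ^ 2 * θ ^ 2 - s ^ 3 * θ - 2 * s ^ 5 * θ - s ^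
      5 * θ ^ 2)
    (A1 : 3 * a1 =
      3 + θ - θ ^ 2 - s * θ ^ 2 + 2 * s ^ 2 * θ + 2 * s ^ 3 * θ - s ^ 3 * θ ^ 2 - s ^ 4 * θ ^
      2 + s ^ 5 * θ + s ^ 5 * θ ^ 2)
    (B0 : 3 * b0 =
      3 + 2 * θ + θ ^ 2 + s * θ + s * θ ^ 2 - s ^ 2 * θ ^ 2 + s ^ 3 * θ - s ^ 4 * θ - s ^ 5 *
      θ ^ 2)
    (B1 : 3 * b1 =
      3 - θ - 2 * s * θ + s ^ 2 * θ ^ 2 - 2 * s ^ 3 * θ + s ^ 3 * θ ^ 2 - s ^ 4 * θ + s ^ 4 *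
      θ ^ 2)
    (He : 3 * e =
      1 - θ - s + s * θ - s ^ 3 + s ^ 3 * θ ^ 2 + s ^ 4 + s ^ 4 * θ - s ^ 5 * θ) :
    a0 * b1 = s * e ^ 3 * (a1 * b0) := by
  have P1 : 9 * (a0 * b1) =
      -3 * θ ^ 2 - 3 * s * θ + 3 * s ^ 2 * θ - 3 * s ^ 2 * θ ^ 2 - 3 * s ^ 3 * θ ^ 2 + 3 * s ^
      4 * θ + 3 * s ^ 4 * θ ^ 2 - 3 * s ^ 5 * θ - 3 * s ^ 5 * θ ^ 2 := by
    have e0 : 9 * (a0 * b1) =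
        (3 * (a0)) * (3 * (b1)) := by ring
    rw [e0, A0, B1]
    linear_combination
      (5 * θ ^ 2 + 2 * θ ^ 3 + s * θ ^ 2 - 3 * s * θ ^ 3 - s * θ ^ 4 + 4 * s ^ 2 * θ ^ 2 - s ^
      2 * θ ^ 4 + 2 * s ^ 3 * θ ^ 2 - s ^ 3 * θ ^ 3 - s ^ 3 * θ ^ 4) * hs + (-3 + s * θ + 2 *
      s ^ 2 * θ + 3 * s ^ 3 * θ + 2 * s ^ 4 * θ + s ^ 5 * θ) * hθ
  have P2 : 9 * (e * e) =
      -9 * θ + 3 * θ ^ 2 - 6 * s + 6 * s * θ - 3 * s * θ ^ 2 + 6 * s ^ 2 - 6 * s ^ 2 * θ - 9 *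
      s ^ 3 - 3 * s ^ 3 * θ + 6 * s ^ 3 * θ ^ 2 + 6 * s ^ 4 - 6 * s ^ 4 * θ ^ 2 + 3 * s ^ 5 -
      6 * s ^ 5 * θ + 3 * s ^ 5 * θ ^ 2 := by
    have e0 : 9 * (e * e) =
        (3 * (e)) * (3 * (e)) := by ring
    rw [e0, He]
    linear_combination
      (1 + 4 * θ - 2 * θ ^ 2 + θ ^ 4 - 2 * s - 2 * s * θ + s * θ ^ 2 + 2 * s * θ ^ 3 + s ^ 2 +
      4 * s ^ 2 * θ + s ^ 2 * θ ^ 2 - 2 * s ^ 2 * θ ^ 3 - 2 * s ^ 3 * θ - 2 * s ^ 3 * θ ^ 2 +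
      s ^ 4 * θ ^ 2) * hs + (-θ - 2 * s + 2 * s ^ 2 - 2 * s ^ 3 - s ^ 3 * θ + 2 * s ^ 5) * hθ
  have P3 : 27 * (e * (e * e)) =
      -54 * θ + 45 * θ ^ 2 + 54 * s * θ - 36 * s * θ ^ 2 + 54 * s ^ 2 - 54 * s ^ 2 * θ + 18 *
      s ^ 2 * θ ^ 2 - 81 * s ^ 3 + 36 * s ^ 3 * θ ^ 2 + 81 * s ^ 4 - 45 * s ^ 4 * θ ^ 2 - 27 *
      s ^ 5 - 27 * s ^ 5 * θ + 36 * s ^ 5 * θ ^ 2 := by
    have e0 : 27 * (e * (e * e)) =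
        (3 * (e)) * (9 * (e * e)) := by ring
    rw [e0, He, P2]
    linear_combination
      (9 + 27 * θ - 33 * θ ^ 2 - 6 * θ ^ 3 + 6 * θ ^ 4 - 15 * s - 15 * s * θ + 15 * s * θ ^ 2
      + 9 * s * θ ^ 3 - 6 * s * θ ^ 4 + 3 * s ^ 2 + 21 * s ^ 2 * θ - 3 * s ^ 2 * θ ^ 2 - 18 *
      s ^ 2 * θ ^ 3 + 3 * s ^ 2 * θ ^ 4 + 3 * s ^ 3 - 9 * s ^ 3 * θ - 3 * s ^ 3 * θ ^ 2 + 9 *
      s ^ 3 * θ ^ 3 - 3 * s ^ 4 * θ + 6 * s ^ 4 * θ ^ 2 - 3 * s ^ 4 * θ ^ 3) * hs + (3 - 6 * θ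
      - 3 * s + 6 * s * θ + 15 * s ^ 2 - 3 * s ^ 2 * θ - 18 * s ^ 3 - 3 * s ^ 3 * θ + 15 * s ^
      4 + 3 * s ^ 4 * θ - 3 * s ^ 5 - 3 * s ^ 5 * θ) * hθ
  have P4 : 9 * (a1 * b0) =
      -3 * s * θ + 3 * s * θ ^ 2 + 3 * s ^ 2 * θ + 3 * s ^ 3 * θ ^ 2 - 6 * s ^ 4 * θ + 6 * s ^
      5 * θ + 3 * s ^ 5 * θ ^ 2 := by
    have e0 : 9 * (a1 * b0) =
        (3 * (a1)) * (3 * (b0)) := by ring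
    rw [e0, A1, B0]
    linear_combination
      (2 * θ ^ 2 + 2 * θ ^ 3 + 2 * θ ^ 4 - 2 * s * θ ^ 2 - 2 * s * θ ^ 3 + s ^ 2 * θ ^ 2 + s ^
      2 * θ ^ 4 - s ^ 3 * θ ^ 2 - s ^ 3 * θ ^ 3 + s ^ 3 * θ ^ 4 - s ^ 4 * θ ^ 3 - s ^ 4 * θ ^
      4) * hs + (-3 - 3 * θ - 2 * s * θ - s ^ 2 * θ - 3 * s ^ 3 * θ - s ^ 4 * θ + s ^ 5 * θ) *
      hθ
  have P5 : 243 * (e * (e * e) * (a1 * b0)) =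
      -81 * θ + 81 * s * θ - 81 * s * θ ^ 2 + 81 * s ^ 3 * θ + 81 * s ^ 3 * θ ^ 2 - 81 * s ^ 4
      * θ - 81 * s ^ 4 * θ ^ 2 + 81 * s ^ 5 * θ ^ 2 := by
    have e0 : 243 * (e * (e * e) * (a1 * b0)) =
        (27 * (e * (e * e))) * (9 * (a1 * b0)) := by ring
    rw [e0, P3, P4]
    linear_combination
      (-648 * θ + 243 * θ ^ 4 + 891 * s * θ + 243 * s * θ ^ 2 - 297 * s * θ ^ 3 - 189 * s * θ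
      ^ 4 - 972 * s ^ 2 * θ - 324 * s ^ 2 * θ ^ 2 + 405 * s ^ 2 * θ ^ 3 + 216 * s ^ 2 * θ ^ 4
      + 648 * s ^ 3 * θ + 405 * s ^ 3 * θ ^ 2 - 486 * s ^ 3 * θ ^ 3 - 135 * s ^ 3 * θ ^ 4 -
      162 * s ^ 4 * θ - 243 * s ^ 4 * θ ^ 2 + 135 * s ^ 4 * θ ^ 3 + 108 * s ^ 4 * θ ^ 4) * hs
      + (-243 * θ + 324 * s * θ - 324 * s ^ 2 * θ + 81 * s ^ 3 * θ + 81 * s ^ 4 * θ - 162 * s
      ^ 5 * θ) * hθ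
  have h243 : (243 : K) ≠ 0 := by
    have : (243 : K) = 3 ^ 5 := by norm_num
    rw [this]
    exact pow_ne_zero _ h3
  refine mul_left_cancel₀ h243 ?_
  linear_combination 27 * P1 - s * P5 +
    (-81 * θ ^ 2) * hs

theorem d4c_I2 {K : Type*} [Field K] (h3 : (3 : K) ≠ 0) {s θ : K} (hs : s ^ 6 + s ^ 3 + 1 = 0)
    (hθ : θ ^ 3 = 3) {a0 a1 a2 b0 b1 b2 e E η η' : K}
    (A0 : 3 * a0 =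
      3 + θ + θ ^ 2 + s * θ ^ 2 - s ^ 2 * θ - s ^ 2 * θ ^ 2 - s ^ 3 * θ - 2 * s ^ 5 * θ - s ^
      5 * θ ^ 2)
    (A1 : 3 * a1 =
      3 + θ - θ ^ 2 - s * θ ^ 2 + 2 * s ^ 2 * θ + 2 * s ^ 3 * θ - s ^ 3 * θ ^ 2 - s ^ 4 * θ ^
      2 + s ^ 5 * θ + s ^ 5 * θ ^ 2)
    (A2 : 3 * a2 =
      3 - 2 * θ - s ^ 2 * θ + s ^ 2 * θ ^ 2 - s ^ 3 * θ + s ^ 3 * θ ^ 2 + s ^ 4 * θ ^ 2 + s ^
      5 * θ)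
    (B0 : 3 * b0 =
      3 + 2 * θ + θ ^ 2 + s * θ + s * θ ^ 2 - s ^ 2 * θ ^ 2 + s ^ 3 * θ - s ^ 4 * θ - s ^ 5 *
      θ ^ 2)
    (B1 : 3 * b1 =
      3 - θ - 2 * s * θ + s ^ 2 * θ ^ 2 - 2 * s ^ 3 * θ + s ^ 3 * θ ^ 2 - s ^ 4 * θ + s ^ 4 *
      θ ^ 2)
    (B2 : 3 * b2 =
      3 - θ - θ ^ 2 + s * θ - s * θ ^ 2 + s ^ 3 * θ - s ^ 3 * θ ^ 2 + 2 * s ^ 4 * θ - s ^ 4 *
      θ ^ 2 + s ^ 5 * θ ^ 2)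
    (He : 3 * e =
      1 - θ - s + s * θ - s ^ 3 + s ^ 3 * θ ^ 2 + s ^ 4 + s ^ 4 * θ - s ^ 5 * θ)
    (HE : 3 * E =
      1 - θ + θ ^ 2 - s - s * θ - 3 * s ^ 2 + s ^ 2 * θ - s ^ 3 + s ^ 3 * θ ^ 2 - 2 * s ^ 4 +
      s ^ 5 * θ - s ^ 5 * θ ^ 2)
    (Hη : 3 * η =
      3 + 3 * θ + θ ^ 2 - s ^ 3 * θ ^ 2)
    (Hη' : 3 * η' =
      3 + 3 * θ + 2 * θ ^ 2 + s ^ 3 * θ ^ 2) :
    (a0 - a1) * (a0 - a2) * (b0 * b1) * η =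
      s ^ 2 * E ^ 3 * e * ((b0 - b1) * (b0 - b2) * (a0 * a1)) * η' := by
  have D1 : 3 * (a0 - a1) =
      2 * θ ^ 2 + 2 * s * θ ^ 2 - 3 * s ^ 2 * θ - s ^ 2 * θ ^ 2 - 3 * s ^ 3 * θ + s ^ 3 * θ ^
      2 + s ^ 4 * θ ^ 2 - 3 * s ^ 5 * θ - 2 * s ^ 5 * θ ^ 2 := by
    linear_combination A0 - A1
  have D2 : 3 * (a0 - a2) =
      3 * θ + θ ^ 2 + s * θ ^ 2 - 2 * s ^ 2 * θ ^ 2 - s ^ 3 * θ ^ 2 - s ^ 4 * θ ^ 2 - 3 * s ^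
      5 * θ - s ^ 5 * θ ^ 2 := by
    linear_combination A0 - A2
  have D3 : 3 * (b0 - b1) =
      3 * θ + θ ^ 2 + 3 * s * θ + s * θ ^ 2 - 2 * s ^ 2 * θ ^ 2 + 3 * s ^ 3 * θ - s ^ 3 * θ ^
      2 - s ^ 4 * θ ^ 2 - s ^ 5 * θ ^ 2 := by
    linear_combination B0 - B1
  have D4 : 3 * (b0 - b2) =
      3 * θ + 2 * θ ^ 2 + 2 * s * θ ^ 2 - s ^ 2 * θ ^ 2 + s ^ 3 * θ ^ 2 - 3 * s ^ 4 * θ + s ^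
      4 * θ ^ 2 - 2 * s ^ 5 * θ ^ 2 := by
    linear_combination B0 - B2
  have P1 : 9 * ((a0 - a1) * (a0 - a2)) =
      27 + 27 * θ + 9 * s * θ - 27 * s ^ 2 - 9 * s ^ 2 * θ - 18 * s ^ 2 * θ ^ 2 - 9 * s ^ 3 *
      θ ^ 2 - 27 * s ^ 4 - 9 * s ^ 4 * θ - 9 * s ^ 4 * θ ^ 2 - 27 * s ^ 5 - 18 * s ^ 5 * θ -
      18 * s ^ 5 * θ ^ 2 := by
    have e0 : 9 * ((a0 - a1) * (a0 - a2)) =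
        (3 * (a0 - a1)) * (3 * (a0 - a2)) := by ring
    rw [e0, D1, D2]
    linear_combination
      (-3 * θ ^ 3 - 7 * θ ^ 4 + 6 * s * θ ^ 3 + s * θ ^ 4 + 9 * s ^ 2 * θ ^ 2 + 3 * s ^ 2 * θ
      ^ 3 + s ^ 3 * θ ^ 4 + 9 * s ^ 4 * θ ^ 2 + 9 * s ^ 4 * θ ^ 3 + 2 * s ^ 4 * θ ^ 4) * hs +
      (9 + 9 * θ + 3 * s * θ - 9 * s ^ 2 - 3 * s ^ 2 * θ - 9 * s ^ 4 - 3 * s ^ 4 * θ - 9 * s ^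
      5 - 6 * s ^ 5 * θ) * hθ
  have P2 : 9 * (b0 * b1) =
      3 * θ + 3 * θ ^ 2 - 9 * s - 3 * s * θ ^ 2 + 6 * s ^ 2 * θ - 3 * s ^ 2 * θ ^ 2 + 6 * s ^
      3 * θ - 3 * s ^ 4 * θ ^ 2 + 9 * s ^ 5 + 3 * s ^ 5 * θ - 3 * s ^ 5 * θ ^ 2 := by
    have e0 : 9 * (b0 * b1) =
        (3 * (b0)) * (3 * (b1)) := by ring
    rw [e0, B0, B1]
    linear_combination
      (-2 * θ ^ 2 + 2 * θ ^ 3 + s * θ ^ 2 - s * θ ^ 4 + s ^ 2 * θ ^ 2 + s ^ 2 * θ ^ 3 - s ^ 2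
      * θ ^ 4 + s ^ 3 * θ ^ 3 - s ^ 3 * θ ^ 4) * hs + (-3 - 3 * s + s * θ + 2 * s ^ 2 * θ + 3
      * s ^ 3 * θ + 2 * s ^ 4 * θ + 3 * s ^ 5 + s ^ 5 * θ) * hθ
  have P3 : 81 * ((a0 - a1) * (a0 - a2) * (b0 * b1)) =
      -324 * θ - 162 * θ ^ 2 - 243 * s * θ - 243 * s ^ 2 - 162 * s ^ 2 * θ + 81 * s ^ 2 * θ ^
      2 - 162 * s ^ 3 * θ + 81 * s ^ 3 * θ ^ 2 + 162 * s ^ 4 * θ ^ 2 - 243 * s ^ 5 + 162 * s ^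
      5 * θ + 81 * s ^ 5 * θ ^ 2 := by
    have e0 : 81 * ((a0 - a1) * (a0 - a2) * (b0 * b1)) =
        (9 * ((a0 - a1) * (a0 - a2))) * (9 * (b0 * b1)) := by ring
    rw [e0, P1, P2]
    linear_combination
      (486 + 243 * θ + 324 * θ ^ 2 - 81 * θ ^ 3 + 54 * θ ^ 4 - 243 * s * θ - 54 * s * θ ^ 2 -
      135 * s * θ ^ 3 + 81 * s * θ ^ 4 - 162 * s ^ 2 * θ - 108 * s ^ 2 * θ ^ 2 - 108 * s ^ 2 *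
      θ ^ 3 + 54 * s ^ 2 * θ ^ 4 - 243 * s ^ 3 - 162 * s ^ 3 * θ + 54 * s ^ 3 * θ ^ 2 + 54 * s
      ^ 3 * θ ^ 3 + 81 * s ^ 3 * θ ^ 4 - 243 * s ^ 4 - 243 * s ^ 4 * θ - 135 * s ^ 4 * θ ^ 2 +
      54 * s ^ 4 * θ ^ 4) * hs + (162 - 54 * θ + 81 * s - 81 * s * θ - 81 * s ^ 2 - 108 * s ^
      2 * θ - 108 * s ^ 3 * θ - 81 * s ^ 4 - 81 * s ^ 4 * θ - 243 * s ^ 5 - 54 * s ^ 5 * θ) *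
      hθ
  have P4 : 243 * ((a0 - a1) * (a0 - a2) * (b0 * b1) * η) =
      -2916 - 1215 * θ - 1458 * θ ^ 2 - 729 * s - 243 * s * θ - 729 * s * θ ^ 2 - 729 * s ^ 2
      * θ - 729 * s ^ 2 * θ ^ 2 + 729 * s ^ 3 + 486 * s ^ 3 * θ - 243 * s ^ 3 * θ ^ 2 + 2187 *
      s ^ 4 + 972 * s ^ 4 * θ + 486 * s ^ 4 * θ ^ 2 + 1458 * s ^ 5 + 486 * s ^ 5 * θ ^ 2 := by
    have e0 : 243 * ((a0 - a1) * (a0 - a2) * (b0 * b1) * η) =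
        (81 * ((a0 - a1) * (a0 - a2) * (b0 * b1))) * (3 * (η)) := by ring
    rw [e0, P3, Hη]
    linear_combination
      (162 * θ ^ 3 - 81 * θ ^ 4 - 162 * s * θ ^ 4 + 243 * s ^ 2 * θ ^ 2 - 162 * s ^ 2 * θ ^ 3
      - 81 * s ^ 2 * θ ^ 4) * hs + (-972 - 81 * θ - 243 * s + 162 * s * θ + 243 * s ^ 2 + 162
      * s ^ 2 * θ + 243 * s ^ 3 + 324 * s ^ 3 * θ + 729 * s ^ 4 + 324 * s ^ 4 * θ + 729 * s ^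
      5 + 81 * s ^ 5 * θ) * hθ
  have Q1 : 9 * ((b0 - b1) * (b0 - b2)) =
      27 + 27 * θ + 9 * θ ^ 2 + 27 * s + 9 * s * θ + 18 * s * θ ^ 2 - 9 * s ^ 2 * θ + 9 * s ^
      3 * θ ^ 2 - 9 * s ^ 4 * θ - 27 * s ^ 5 - 18 * s ^ 5 * θ - 9 * s ^ 5 * θ ^ 2 := by
    have e0 : 9 * ((b0 - b1) * (b0 - b2)) =
        (3 * (b0 - b1)) * (3 * (b0 - b2)) := by ring
    rw [e0, D3, D4]
    linear_combination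
      (-7 * θ ^ 4 - 9 * s * θ ^ 2 + 6 * s * θ ^ 3 + s * θ ^ 4 - 3 * s ^ 2 * θ ^ 3 + 3 * s ^ 3
      * θ ^ 3 + s ^ 3 * θ ^ 4 + 2 * s ^ 4 * θ ^ 4) * hs + (9 + 9 * θ + 9 * s + 3 * s * θ - 3 *
      s ^ 2 * θ - 3 * s ^ 4 * θ - 9 * s ^ 5 - 6 * s ^ 5 * θ) * hθ
  have Q2 : 9 * (a0 * a1) =
      -3 * θ + 3 * θ ^ 2 - 6 * s * θ + 3 * s * θ ^ 2 + 9 * s ^ 2 + 3 * s ^ 2 * θ ^ 2 - 6 * s ^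
      3 * θ + 9 * s ^ 4 - 3 * s ^ 4 * θ + 9 * s ^ 5 := by
    have e0 : 9 * (a0 * a1) =
        (3 * (a0)) * (3 * (a1)) := by ring
    rw [e0, A0, A1]
    linear_combination
      (-2 * θ ^ 2 + 3 * θ ^ 3 + 2 * θ ^ 4 - 3 * s * θ ^ 2 - 5 * s ^ 2 * θ ^ 2 - s ^ 2 * θ ^ 3
      + s ^ 2 * θ ^ 4 + 2 * s ^ 3 * θ ^ 3 + s ^ 3 * θ ^ 4 - 2 * s ^ 4 * θ ^ 2 - 3 * s ^ 4 * θ
      ^ 3 - s ^ 4 * θ ^ 4) * hs + (-3 - 3 * θ - 2 * s * θ + 3 * s ^ 2 - s ^ 2 * θ - 3 * s ^ 3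
      * θ + 3 * s ^ 4 - s ^ 4 * θ + 3 * s ^ 5 + s ^ 5 * θ) * hθ
  have Q3 : 81 * ((b0 - b1) * (b0 - b2) * (a0 * a1)) =
      -162 * θ - 243 * θ ^ 2 + 243 * s + 162 * s * θ - 81 * s * θ ^ 2 + 243 * s ^ 2 * θ + 162
      * s ^ 3 * θ - 81 * s ^ 3 * θ ^ 2 + 324 * s ^ 4 * θ + 243 * s ^ 5 * θ + 162 * s ^ 5 * θ ^
      2 := by
    have e0 : 81 * ((b0 - b1) * (b0 - b2) * (a0 * a1)) =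
        (9 * ((b0 - b1) * (b0 - b2))) * (9 * (a0 * a1)) := by ring
    rw [e0, Q1, Q2]
    linear_combination
      (486 + 243 * θ + 243 * θ ^ 2 - 108 * θ ^ 3 - 27 * θ ^ 4 - 81 * s * θ + 54 * s * θ ^ 2 -
      81 * s * θ ^ 3 - 27 * s * θ ^ 4 + 81 * s ^ 2 * θ + 216 * s ^ 2 * θ ^ 2 + 54 * s ^ 2 * θ
      ^ 3 - 243 * s ^ 3 - 162 * s ^ 3 * θ - 27 * s ^ 3 * θ ^ 2 + 27 * s ^ 3 * θ ^ 3 - 243 * s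
      ^ 4 - 162 * s ^ 4 * θ - 81 * s ^ 4 * θ ^ 2) * hs + (162 + 54 * θ + 81 * s + 108 * s * θ
      - 81 * s ^ 2 + 81 * s ^ 2 * θ + 108 * s ^ 3 * θ - 162 * s ^ 4 + 54 * s ^ 4 * θ - 162 * s
      ^ 5) * hθ
  have Q4 : 243 * ((b0 - b1) * (b0 - b2) * (a0 * a1) * η') =
      -3645 - 1701 * θ - 1215 * θ ^ 2 + 729 * s * θ + 729 * s * θ ^ 2 + 729 * s ^ 2 + 243 * s
      ^ 2 * θ + 729 * s ^ 2 * θ ^ 2 - 729 * s ^ 3 - 486 * s ^ 3 * θ + 243 * s ^ 3 * θ ^ 2 +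
      1458 * s ^ 4 + 729 * s ^ 4 * θ + 1215 * s ^ 4 * θ ^ 2 + 2916 * s ^ 5 + 1215 * s ^ 5 * θ
      + 1215 * s ^ 5 * θ ^ 2 := by
    have e0 : 243 * ((b0 - b1) * (b0 - b2) * (a0 * a1) * η') =
        (81 * ((b0 - b1) * (b0 - b2) * (a0 * a1))) * (3 * (η')) := by ring
    rw [e0, Q3, Hη']
    linear_combination
      (162 * θ ^ 3 - 81 * θ ^ 4 + 324 * s * θ ^ 3 + 243 * s ^ 2 * θ ^ 3 + 162 * s ^ 2 * θ ^ 4)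
      * hs + (-1215 - 405 * θ - 243 * s - 162 * s * θ + 243 * s ^ 2 - 162 * s ^ 2 * θ - 243 *
      s ^ 3 - 324 * s ^ 3 * θ + 486 * s ^ 4 - 81 * s ^ 4 * θ + 972 * s ^ 5 + 162 * s ^ 5 * θ)
      * hθ
  have R1 : 9 * (E * E) =
      -24 + 9 * θ ^ 2 - 12 * s + 9 * s * θ - 3 * s * θ ^ 2 - 9 * s ^ 2 + 18 * s ^ 2 * θ - 9 *
      s ^ 2 * θ ^ 2 - 21 * s ^ 3 + 15 * s ^ 3 * θ + 3 * s ^ 4 + 6 * s ^ 4 * θ - 9 * s ^ 4 * θ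
      ^ 2 + 18 * s ^ 5 + 6 * s ^ 5 * θ - 12 * s ^ 5 * θ ^ 2 := by
    have e0 : 9 * (E * E) =
        (3 * (E)) * (3 * (E)) := by ring
    rw [e0, HE]
    linear_combination
      (13 - 2 * θ - 6 * θ ^ 2 + 2 * θ ^ 3 + θ ^ 4 + 4 * s - 6 * s * θ + 3 * s * θ ^ 2 - s * θ
      ^ 4 + 4 * s ^ 2 - 2 * s ^ 2 * θ + 2 * s ^ 2 * θ ^ 2 + 2 * s ^ 2 * θ ^ 3 - 2 * s ^ 2 * θ
      ^ 4 - 4 * s ^ 3 * θ + 4 * s ^ 3 * θ ^ 2 + s ^ 4 * θ ^ 2 - 2 * s ^ 4 * θ ^ 3 + s ^ 4 * θ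
      ^ 4) * hs + (-4 - 2 * s + s * θ + 2 * s ^ 2 * θ - 4 * s ^ 3 + s ^ 3 * θ + 4 * s ^ 5) *
      hθ
  have R2 : 27 * (E * (E * E)) =
      -162 + 162 * θ - 45 * θ ^ 2 + 81 * s + 135 * s * θ - 126 * s * θ ^ 2 + 243 * s ^ 2 + 54
      * s ^ 2 * θ - 153 * s ^ 2 * θ ^ 2 + 81 * s ^ 3 + 108 * s ^ 3 * θ - 117 * s ^ 3 * θ ^ 2 +
      270 * s ^ 4 - 54 * s ^ 4 * θ - 90 * s ^ 4 * θ ^ 2 + 324 * s ^ 5 - 162 * s ^ 5 * θ - 36 *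
      s ^ 5 * θ ^ 2 := by
    have e0 : 27 * (E * (E * E)) =
        (3 * (E)) * (9 * (E * E)) := by ring
    rw [e0, HE, R1]
    linear_combination
      (48 - 93 * θ + 30 * θ ^ 2 + 21 * θ ^ 3 - 6 * θ ^ 4 - 15 * s - 63 * s * θ + 93 * s * θ ^
      2 - 15 * s * θ ^ 3 - 12 * s * θ ^ 4 - 24 * s ^ 2 - 39 * s ^ 2 * θ + 84 * s ^ 2 * θ ^ 2 -
      9 * s ^ 2 * θ ^ 3 - 12 * s ^ 2 * θ ^ 4 - 36 * s ^ 3 - 9 * s ^ 3 * θ + 27 * s ^ 3 * θ ^ 2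
      - 15 * s ^ 3 * θ ^ 3 + 9 * s ^ 3 * θ ^ 4 + 18 * s ^ 4 * θ - 12 * s ^ 4 * θ ^ 2 - 18 * s
      ^ 4 * θ ^ 3 + 12 * s ^ 4 * θ ^ 4) * hs + (-30 + 15 * θ + 18 * s + 9 * s * θ + 48 * s ^ 2
      + 3 * s ^ 2 * θ + 15 * s ^ 3 + 6 * s ^ 3 * θ + 48 * s ^ 4 - 12 * s ^ 4 * θ + 63 * s ^ 5
      - 18 * s ^ 5 * θ) * hθ
  have R3 : 81 * (E * (E * E) * e) =
      486 - 27 * θ - 189 * θ ^ 2 + 837 * s - 324 * s * θ - 189 * s * θ ^ 2 + 702 * s ^ 2 - 432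
      * s ^ 2 * θ - 54 * s ^ 2 * θ ^ 2 + 405 * s ^ 3 - 324 * s ^ 3 * θ + 27 * s ^ 3 * θ ^ 2 +
      378 * s ^ 4 - 594 * s ^ 4 * θ + 216 * s ^ 4 * θ ^ 2 + 108 * s ^ 5 - 486 * s ^ 5 * θ +
      297 * s ^ 5 * θ ^ 2 := by
    have e0 : 81 * (E * (E * E) * e) =
        (27 * (E * (E * E))) * (3 * (e)) := by ring
    rw [e0, R2, He]
    linear_combination
      (-486 + 702 * θ - 18 * θ ^ 2 - 9 * θ ^ 3 - 117 * θ ^ 4 - 189 * s + 324 * s * θ + 135 * s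
      * θ ^ 2 - 54 * s * θ ^ 3 - 90 * s * θ ^ 4 - 54 * s ^ 2 + 297 * s ^ 2 * θ + 108 * s ^ 2 *
      θ ^ 2 - 135 * s ^ 2 * θ ^ 3 - 36 * s ^ 2 * θ ^ 4 + 324 * s ^ 3 - 108 * s ^ 3 * θ - 144 *
      s ^ 3 * θ ^ 2 + 54 * s ^ 3 * θ ^ 3 - 324 * s ^ 4 * θ + 162 * s ^ 4 * θ ^ 2 + 36 * s ^ 4
      * θ ^ 3) * hs + (54 + 117 * θ + 135 * s + 90 * s * θ + 162 * s ^ 2 + 36 * s ^ 2 * θ + 81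
      * s ^ 3 + 72 * s ^ 3 * θ + 81 * s ^ 4 - 36 * s ^ 4 * θ + 54 * s ^ 5 - 117 * s ^ 5 * θ) *
      hθ
  have R4 : 19683 * (E * (E * E) * e * ((b0 - b1) * (b0 - b2) * (a0 * a1) * η')) =
      -59049 * θ - 59049 * θ ^ 2 + 295245 * s + 137781 * s * θ + 98415 * s * θ ^ 2 + 236196 *
      s ^ 2 + 98415 * s ^ 2 * θ + 98415 * s ^ 2 * θ ^ 2 + 118098 * s ^ 3 + 39366 * s ^ 3 * θ ^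
      2 + 236196 * s ^ 4 + 98415 * s ^ 4 * θ + 118098 * s ^ 4 * θ ^ 2 + 59049 * s ^ 5 + 19683
      * s ^ 5 * θ + 59049 * s ^ 5 * θ ^ 2 := by
    have e0 : 19683 * (E * (E * E) * e * ((b0 - b1) * (b0 - b2) * (a0 * a1) * η')) =
        (81 * (E * (E * E) * e)) * (243 * ((b0 - b1) * (b0 - b2) * (a0 * a1) * η')) := by ring
    rw [e0, R3, Q4]
    linear_combination
      (2184813 + 1633689 * θ + 203391 * θ ^ 2 - 964467 * θ ^ 3 - 538002 * θ ^ 4 + 2125764 * s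
      + 623295 * s * θ + 459270 * s * θ ^ 2 - 1266273 * s * θ ^ 3 - 124659 * s * θ ^ 4 +
      1653372 * s ^ 2 - 741393 * s ^ 2 * θ + 564246 * s ^ 2 * θ ^ 2 - 1187541 * s ^ 2 * θ ^ 3
      + 367416 * s ^ 2 * θ ^ 4 + 1259712 * s ^ 3 - 1902690 * s ^ 3 * θ + 577368 * s ^ 3 * θ ^
      2 - 833247 * s ^ 3 * θ ^ 3 + 623295 * s ^ 3 * θ ^ 4 + 314928 * s ^ 4 - 1285956 * s ^ 4 *
      θ + 406782 * s ^ 4 * θ ^ 2 - 229635 * s ^ 4 * θ ^ 3 + 360855 * s ^ 4 * θ ^ 4) * hs +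
      (1318761 + 767637 * θ + 1823958 * s + 216513 * s * θ + 1364688 * s ^ 2 - 577368 * s ^ 2
      * θ + 1594323 * s ^ 3 - 341172 * s ^ 3 * θ + 1148175 * s ^ 4 - 793881 * s ^ 4 * θ -
      104976 * s ^ 5 - 1023516 * s ^ 5 * θ) * hθ
  have h243 : (19683 : K) ≠ 0 := by
    have : (19683 : K) = 3 ^ 9 := by norm_num
    rw [this]
    exact pow_ne_zero _ h3
  refine mul_left_cancel₀ h243 ?_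
  linear_combination 81 * P4 - s ^ 2 * R4 +
    (-236196 - 98415 * θ - 118098 * θ ^ 2 - 59049 * s - 19683 * s * θ - 59049 * s * θ ^ 2) *
    hs

section d4c

variable {K : Type*} [Field K] {s θ : K}

/-- `m₀ = 1 + A + g` -/
def b0 (t θ : K) : K := 1 + ga t θ + gg t θ

/-- `m₁ = 1 + t³ A + t⁶ g` -/
def b1 (t θ : K) : K := 1 + t ^ 3 * ga t θ + (t ^ 3) ^ 2 * gg t θ

/-- `m₂ = 1 + t⁶ A + t³ g` -/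
def b2 (t θ : K) : K := 1 + (t ^ 3) ^ 2 * ga t θ + t ^ 3 * gg t θ

/-- `η = 1 + θ + (1 - t³) / θ` -/
def et (t θ : K) : K := 1 + θ + (1 - t ^ 3) / θ

theorem hs_inv (hs : s ^ 6 + s ^ 3 + 1 = 0) : s⁻¹ ^ 6 + s⁻¹ ^ 3 + 1 = 0 := by
  have h0 := pts_s0 hs
  have h : s⁻¹ * s = 1 := inv_mul_cancel₀ h0
  have h6 : (s⁻¹ ^ 6 + s⁻¹ ^ 3 + 1) * s ^ 6 = s ^ 6 + s ^ 3 + 1 := by
    have e : (s⁻¹ ^ 6 + s⁻¹ ^ 3 + 1) * s ^ 6 = (s⁻¹ * s) ^ 6 + (s⁻¹ * s) ^ 3 * s ^ 3 + s ^ 6 := by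
      ring
    rw [e, h]
    ring
  rw [hs] at h6
  exact (mul_eq_zero.1 h6).resolve_right (pow_ne_zero 6 h0)

theorem d4c_pow (hs : s ^ 6 + s ^ 3 + 1 = 0) :
    s⁻¹ = -s ^ 5 - s ^ 2 ∧ s⁻¹ ^ 2 = -s ^ 4 - s ∧ s⁻¹ ^ 3 = -s ^ 3 - 1 ∧ s⁻¹ ^ 4 = s ^ 5 ∧
      s⁻¹ ^ 5 = s ^ 4 := by
  have h := pts_inv hs
  have h2 : s⁻¹ ^ 2 = -s ^ 4 - s := by
    rw [h]
    linear_combination (s + s ^ 4) * hs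
  have h3 : s⁻¹ ^ 3 = -s ^ 3 - 1 := by
    rw [pow_succ, h2, h]
    linear_combination (1 + s ^ 3) * hs
  have h4 : s⁻¹ ^ 4 = s ^ 5 := by
    rw [pow_succ, h3, h]
    linear_combination (s ^ 2) * hs
  have h5 : s⁻¹ ^ 5 = s ^ 4 := by
    rw [pow_succ, h4, h]
    linear_combination (-s ^ 4) * hs
  exact ⟨h, h2, h3, h4, h5⟩

theorem d4c_th (h3 : (3 : K) ≠ 0) (hθ : θ ^ 3 = 3) : θ ≠ 0 := by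
  rintro rfl
  apply h3
  rw [← hθ]
  ring

theorem d4c_gg (h3 : (3 : K) ≠ 0) (hs : s ^ 6 + s ^ 3 + 1 = 0) (hθ : θ ^ 3 = 3) :
    3 * gg s θ = θ ^ 2 + s * θ ^ 2 - s ^ 2 * θ ^ 2 - s ^ 5 * θ ^ 2 := by
  rw [gg, pts_inv hs, ← mul_div_assoc, div_eq_iff (d4c_th h3 hθ)]
  linear_combination (-(1 + s - s ^ 2 - s ^ 5)) * hθ

theorem d4c_ga (h3 : (3 : K) ≠ 0) (hs : s ^ 6 + s ^ 3 + 1 = 0) (hθ : θ ^ 3 = 3) :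
    3 * ga s θ = θ - s ^ 2 * θ - s ^ 3 * θ - 2 * s ^ 5 * θ := by
  have h1 := ga_mul h3 hs hθ
  have h2 := d4c_gg h3 hs hθ
  rw [pts_u hs] at h1
  refine mul_right_cancel₀ (mul_ne_zero h3 (gg_ne h3 hs hθ)) ?_
  linear_combination 9 * h1 - (θ - s ^ 2 * θ - s ^ 3 * θ - 2 * s ^ 5 * θ) * h2 +
    (2 * θ ^ 3 - s * θ ^ 3 - s ^ 2 * θ ^ 3 - 2 * s ^ 4 * θ ^ 3) * hs + (-3 + 3 * s ^ 2 + 3 * s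
    ^ 4 + 3 * s ^ 5) * hθ

theorem d4c_n0 (h3 : (3 : K) ≠ 0) (hs : s ^ 6 + s ^ 3 + 1 = 0) (hθ : θ ^ 3 = 3) :
    3 * b0 s θ =
      3 + θ + θ ^ 2 + s * θ ^ 2 - s ^ 2 * θ - s ^ 2 * θ ^ 2 - s ^ 3 * θ - 2 * s ^ 5 * θ - s ^
      5 * θ ^ 2 := by
  have h1 := d4c_ga h3 hs hθ
  have h2 := d4c_gg h3 hs hθ
  rw [b0]
  linear_combination h1 + h2

theorem d4c_n1 (h3 : (3 : K) ≠ 0) (hs : s ^ 6 + s ^ 3 + 1 = 0) (hθ : θ ^ 3 = 3) :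
    3 * b1 s θ =
      3 + θ - θ ^ 2 - s * θ ^ 2 + 2 * s ^ 2 * θ + 2 * s ^ 3 * θ - s ^ 3 * θ ^ 2 - s ^ 4 * θ ^
      2 + s ^ 5 * θ + s ^ 5 * θ ^ 2 := by
  have h1 := d4c_ga h3 hs hθ
  have h2 := d4c_gg h3 hs hθ
  rw [b1]
  linear_combination s ^ 3 * h1 + (s ^ 3) ^ 2 * h2 +
    (-θ + θ ^ 2 + s * θ ^ 2 - 2 * s ^ 2 * θ - s ^ 5 * θ ^ 2) * hs

theorem d4c_n2 (h3 : (3 : K) ≠ 0) (hs : s ^ 6 + s ^ 3 + 1 = 0) (hθ : θ ^ 3 = 3) :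
    3 * b2 s θ =
      3 - 2 * θ - s ^ 2 * θ + s ^ 2 * θ ^ 2 - s ^ 3 * θ + s ^ 3 * θ ^ 2 + s ^ 4 * θ ^ 2 + s ^
      5 * θ := by
  have h1 := d4c_ga h3 hs hθ
  have h2 := d4c_gg h3 hs hθ
  rw [b2]
  linear_combination (s ^ 3) ^ 2 * h1 + s ^ 3 * h2 +
    (2 * θ + s ^ 2 * θ - s ^ 2 * θ ^ 2 - s ^ 3 * θ - 2 * s ^ 5 * θ) * hs

theorem d4c_m0 (h3 : (3 : K) ≠ 0) (hs : s ^ 6 + s ^ 3 + 1 = 0) (hθ : θ ^ 3 = 3) :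
    3 * b0 s⁻¹ θ =
      3 + 2 * θ + θ ^ 2 + s * θ + s * θ ^ 2 - s ^ 2 * θ ^ 2 + s ^ 3 * θ - s ^ 4 * θ - s ^ 5 *
      θ ^ 2 := by
  have h := d4c_n0 (s := s⁻¹) (θ := θ) h3 (hs_inv hs) hθ
  obtain ⟨p1, p2, p3, p4, p5⟩ := d4c_pow hs
  linear_combination
    h + (θ ^ 2) * p1 + (-θ - θ ^ 2) * p2 + (-θ) * p3 + (-2 * θ - θ ^ 2) * p5

theorem d4c_m1 (h3 : (3 : K) ≠ 0) (hs : s ^ 6 + s ^ 3 + 1 = 0) (hθ : θ ^ 3 = 3) :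
    3 * b1 s⁻¹ θ =
      3 - θ - 2 * s * θ + s ^ 2 * θ ^ 2 - 2 * s ^ 3 * θ + s ^ 3 * θ ^ 2 - s ^ 4 * θ + s ^ 4 *
      θ ^ 2 := by
  have h := d4c_n1 (s := s⁻¹) (θ := θ) h3 (hs_inv hs) hθ
  obtain ⟨p1, p2, p3, p4, p5⟩ := d4c_pow hs
  linear_combination
    h + (-θ ^ 2) * p1 + (2 * θ) * p2 + (2 * θ - θ ^ 2) * p3 + (-θ ^ 2) * p4 + (θ + θ ^ 2) * p5

theorem d4c_m2 (h3 : (3 : K) ≠ 0) (hs : s ^ 6 + s ^ 3 + 1 = 0) (hθ : θ ^ 3 = 3) :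
    3 * b2 s⁻¹ θ =
      3 - θ - θ ^ 2 + s * θ - s * θ ^ 2 + s ^ 3 * θ - s ^ 3 * θ ^ 2 + 2 * s ^ 4 * θ - s ^ 4 *
      θ ^ 2 + s ^ 5 * θ ^ 2 := by
  have h := d4c_n2 (s := s⁻¹) (θ := θ) h3 (hs_inv hs) hθ
  obtain ⟨p1, p2, p3, p4, p5⟩ := d4c_pow hs
  linear_combination
    h + (-θ + θ ^ 2) * p2 + (-θ + θ ^ 2) * p3 + (θ ^ 2) * p4 + (θ) * p5

theorem d4c_net (h3 : (3 : K) ≠ 0) (hθ : θ ^ 3 = 3) :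
    3 * et s θ = 3 + 3 * θ + θ ^ 2 - s ^ 3 * θ ^ 2 := by
  have h0 := d4c_th h3 hθ
  have h : 3 * ((1 - s ^ 3) / θ) = (1 - s ^ 3) * θ ^ 2 := by
    rw [← mul_div_assoc, div_eq_iff h0]
    linear_combination (-(1 - s ^ 3)) * hθ
  rw [et]
  linear_combination h

theorem d4c_met (h3 : (3 : K) ≠ 0) (hs : s ^ 6 + s ^ 3 + 1 = 0) (hθ : θ ^ 3 = 3) :
    3 * et s⁻¹ θ = 3 + 3 * θ + 2 * θ ^ 2 + s ^ 3 * θ ^ 2 := by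
  have h := d4c_net (s := s⁻¹) (θ := θ) h3 hθ
  obtain ⟨p1, p2, p3, p4, p5⟩ := d4c_pow hs
  linear_combination h + (-θ ^ 2) * p3

theorem d4c_01 (h3 : (3 : K) ≠ 0) (hs : s ^ 6 + s ^ 3 + 1 = 0) (hθ : θ ^ 3 = 3) :
    b0 s θ - b1 s θ ≠ 0 := by
  intro h
  have h1 : 3 * (b0 s θ - b1 s θ) =
      2 * θ ^ 2 + 2 * s * θ ^ 2 - 3 * s ^ 2 * θ - s ^ 2 * θ ^ 2 - 3 * s ^ 3 * θ + s ^ 3 * θ ^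
      2 + s ^ 4 * θ ^ 2 - 3 * s ^ 5 * θ - 2 * s ^ 5 * θ ^ 2 := by
    linear_combination d4c_n0 h3 hs hθ - d4c_n1 h3 hs hθ
  rw [h, mul_zero] at h1
  apply pow_ne_zero 3 h3
  linear_combination
    -(θ + s * θ ^ 2 - s ^ 2 * θ - s ^ 3 * θ + s ^ 3 * θ ^ 2 - 3 * s ^ 5 + s ^ 5 * θ + s ^ 5 *
    θ ^ 2) * h1 - ((-7 * θ ^ 3 + 2 * s * θ ^ 3 + 2 * s * θ ^ 4 + 9 * s ^ 2 * θ - 3 * s ^ 2 * θ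
    ^ 2 - 3 * s ^ 2 * θ ^ 3 - s ^ 2 * θ ^ 4 - 3 * s ^ 3 * θ ^ 2 + s ^ 3 * θ ^ 3 + s ^ 3 * θ ^
    4 + 9 * s ^ 4 * θ + 3 * s ^ 4 * θ ^ 2 - 5 * s ^ 4 * θ ^ 3 - 2 * s ^ 4 * θ ^ 4) * hs + (9 +
    3 * s ^ 2 * θ + 3 * s ^ 4 * θ + 3 * s ^ 5 * θ) * hθ)

theorem d4c_02 (h3 : (3 : K) ≠ 0) (hs : s ^ 6 + s ^ 3 + 1 = 0) (hθ : θ ^ 3 = 3) :
    b0 s θ - b2 s θ ≠ 0 := by
  intro h
  have h1 : 3 * (b0 s θ - b2 s θ) =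
      3 * θ + θ ^ 2 + s * θ ^ 2 - 2 * s ^ 2 * θ ^ 2 - s ^ 3 * θ ^ 2 - s ^ 4 * θ ^ 2 - 3 * s ^
      5 * θ - s ^ 5 * θ ^ 2 := by
    linear_combination d4c_n0 h3 hs hθ - d4c_n2 h3 hs hθ
  rw [h, mul_zero] at h1
  apply pow_ne_zero 3 h3
  linear_combination
    -(2 * θ + θ ^ 2 - 2 * s ^ 2 * θ + s ^ 2 * θ ^ 2 + s ^ 3 * θ + s ^ 3 * θ ^ 2 - s ^ 4 * θ ^
    2 + 3 * s ^ 5 - s ^ 5 * θ + s ^ 5 * θ ^ 2) * h1 - ((6 * θ ^ 2 - 4 * θ ^ 3 + θ ^ 4 + 9 * s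
    * θ + 2 * s * θ ^ 3 - 2 * s * θ ^ 4 - 6 * s ^ 2 * θ ^ 2 - 3 * s ^ 2 * θ ^ 3 - s ^ 2 * θ ^
    4 - 3 * s ^ 3 * θ ^ 2 + 4 * s ^ 3 * θ ^ 3 - 9 * s ^ 4 * θ - 2 * s ^ 4 * θ ^ 3 - s ^ 4 * θ
    ^ 4) * hs + (9 + 3 * s * θ - 3 * s ^ 5 * θ) * hθ)

theorem d4c_et (h3 : (3 : K) ≠ 0) (hs : s ^ 6 + s ^ 3 + 1 = 0) (hθ : θ ^ 3 = 3) :
    et s θ ≠ 0 := by
  intro h
  have h1 : 3 * (et s θ) =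
      3 + 3 * θ + θ ^ 2 - s ^ 3 * θ ^ 2 := by
    exact d4c_net h3 hθ
  rw [h, mul_zero] at h1
  apply pow_ne_zero 2 h3
  linear_combination
    -(3 - θ ^ 2 + 3 * s ^ 3 * θ - 2 * s ^ 3 * θ ^ 2) * h1 - ((-3 * θ ^ 3 + 2 * θ ^ 4) * hs +
    (-3 * θ - 3 * s ^ 3 * θ) * hθ)

theorem d4c_sum0 (hs : s ^ 6 + s ^ 3 + 1 = 0) : b0 s θ + b1 s θ + b2 s θ = 3 := by
  rw [b0, b1, b2]
  linear_combination (ga s θ + gg s θ) * hs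

theorem d4c_sum (_h3 : (3 : K) ≠ 0) (hs : s ^ 6 + s ^ 3 + 1 = 0) (_hθ : θ ^ 3 = 3) :
    b0 s θ + b1 s θ + b2 s θ = 3 :=
  d4c_sum0 hs

theorem d4c_prod (h3 : (3 : K) ≠ 0) (hs : s ^ 6 + s ^ 3 + 1 = 0) (hθ : θ ^ 3 = 3) :
    b0 s θ * b1 s θ * b2 s θ = -(s ^ 3) := by
  have h := pts3_eq h3 hs hθ
  have h1 : b2 s θ = 3 - (1 + ga s θ + gg s θ) - (1 + s ^ 3 * ga s θ + (s ^ 3) ^ 2 * gg s θ) := by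
    have h2 := d4c_sum0 (θ := θ) hs
    rw [b0, b1] at h2
    linear_combination h2
  rw [h1]
  exact h

theorem d4c_R (h3 : (3 : K) ≠ 0) (hs : s ^ 6 + s ^ 3 + 1 = 0) (hθ : θ ^ 3 = 3) :
    b0 s θ ^ 2 * b1 s θ + b1 s θ ^ 2 * b2 s θ + b2 s θ ^ 2 * b0 s θ =
      3 * b0 s θ * b1 s θ * b2 s θ := by
  have hp := d4c_prod h3 hs hθ
  have h1 := gg_cube h3 hs hθ
  have h4 := ga_cube h3 hs hθ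
  have ho := pts_o hs
  have h6 : b0 s θ ^ 2 * b1 s θ + b1 s θ ^ 2 * b2 s θ + b2 s θ ^ 2 * b0 s θ =
      3 * (1 + s ^ 3 * ga s θ ^ 3 + (s ^ 3) ^ 2 * gg s θ ^ 3) := by
    rw [b0, b1, b2]
    generalize s ^ 3 = o at ho
    generalize ga s θ = A
    generalize gg s θ = g
    linear_combination
      (3 * g + g ^ 2 + g ^ 2 * o + g ^ 2 * o ^ 2 - g ^ 3 * o ^ 2 + g ^ 3 * o ^ 3 + 3 * A + 2 *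
      A * g + 2 * A * g * o + 2 * A * g * o ^ 2 + A * g ^ 2 * o + 2 * A * g ^ 2 * o ^ 2 - A *
      g ^ 2 * o ^ 3 + A * g ^ 2 * o ^ 4 + A ^ 2 + A ^ 2 * o + A ^ 2 * o ^ 2 + 2 * A ^ 2 * g *
      o - A ^ 2 * g * o ^ 2 + 2 * A ^ 2 * g * o ^ 3 - 2 * A ^ 3 * o + 2 * A ^ 3 * o ^ 2) * ho
  rw [h6, h4, h1, pts_u hs]
  linear_combination (-3) * hp + (3 + 3 * s ^ 3 - 3 * s ^ 4 - 3 * s ^ 5) * hs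

theorem d4c_b0 (h3 : (3 : K) ≠ 0) (hs : s ^ 6 + s ^ 3 + 1 = 0) (hθ : θ ^ 3 = 3) :
    b0 s θ ≠ 0 := by
  intro h
  have hp := d4c_prod h3 hs hθ
  rw [h, zero_mul, zero_mul] at hp
  exact pts_b0 hs hp.symm

theorem d4c_b1 (h3 : (3 : K) ≠ 0) (hs : s ^ 6 + s ^ 3 + 1 = 0) (hθ : θ ^ 3 = 3) :
    b1 s θ ≠ 0 := by
  intro h
  have hp := d4c_prod h3 hs hθ
  rw [h, mul_zero, zero_mul] at hp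
  exact pts_b0 hs hp.symm

theorem d4c_b2 (h3 : (3 : K) ≠ 0) (hs : s ^ 6 + s ^ 3 + 1 = 0) (hθ : θ ^ 3 = 3) :
    b2 s θ ≠ 0 := by
  intro h
  have hp := d4c_prod h3 hs hθ
  rw [h, mul_zero] at hp
  exact pts_b0 hs hp.symm

/-- (I1) and (I2) -/
theorem d4c_main (h3 : (3 : K) ≠ 0) (hs : s ^ 6 + s ^ 3 + 1 = 0) (hθ : θ ^ 3 = 3) :
    ∃ e E : K, e ≠ 0 ∧ E ≠ 0 ∧
      b0 s θ * b1 s⁻¹ θ = s * e ^ 3 * (b1 s θ * b0 s⁻¹ θ) ∧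
      (b0 s θ - b1 s θ) * (b0 s θ - b2 s θ) * (b0 s⁻¹ θ * b1 s⁻¹ θ) * et s θ =
        s ^ 2 * E ^ 3 * e * ((b0 s⁻¹ θ - b1 s⁻¹ θ) * (b0 s⁻¹ θ - b2 s⁻¹ θ) *
          (b0 s θ * b1 s θ) * et s⁻¹ θ) := by
  have hs' := hs_inv hs
  obtain ⟨e, he⟩ : ∃ e : K, 3 * e =
      1 - θ - s + s * θ - s ^ 3 + s ^ 3 * θ ^ 2 + s ^ 4 + s ^ 4 * θ - s ^ 5 * θ :=
    ⟨_ / 3, mul_div_cancel₀ _ h3⟩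
  obtain ⟨E, hE⟩ : ∃ E : K, 3 * E =
      1 - θ + θ ^ 2 - s - s * θ - 3 * s ^ 2 + s ^ 2 * θ - s ^ 3 + s ^ 3 * θ ^ 2 - 2 * s ^ 4 +
      s ^ 5 * θ - s ^ 5 * θ ^ 2 :=
    ⟨_ / 3, mul_div_cancel₀ _ h3⟩
  have I1 := d4c_I1 h3 hs hθ (d4c_n0 h3 hs hθ) (d4c_n1 h3 hs hθ) (d4c_m0 h3 hs hθ)
    (d4c_m1 h3 hs hθ) he
  have I2 := d4c_I2 h3 hs hθ (d4c_n0 h3 hs hθ) (d4c_n1 h3 hs hθ) (d4c_n2 h3 hs hθ)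
    (d4c_m0 h3 hs hθ) (d4c_m1 h3 hs hθ) (d4c_m2 h3 hs hθ) he hE (d4c_net h3 hθ)
    (d4c_met h3 hs hθ)
  refine ⟨e, E, ?_, ?_, I1, by rw [I2]; ring⟩
  · rintro rfl
    have h := mul_ne_zero (d4c_b0 h3 hs hθ) (d4c_b1 h3 hs' hθ)
    apply h
    rw [I1]
    ring
  · rintro rfl
    have h := mul_ne_zero (mul_ne_zero (mul_ne_zero (d4c_01 h3 hs hθ) (d4c_02 h3 hs hθ))
      (mul_ne_zero (d4c_b0 h3 hs' hθ) (d4c_b1 h3 hs' hθ))) (d4c_et h3 hs hθ)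
    apply h
    rw [I2]
    ring

theorem d4c_I (h3 : (3 : K) ≠ 0) (hs : s ^ 6 + s ^ 3 + 1 = 0) (hθ : θ ^ 3 = 3) :
    ∃ e E : K, e ≠ 0 ∧
      b0 s θ * b1 s⁻¹ θ = s * e ^ 3 * (b1 s θ * b0 s⁻¹ θ) ∧
      (b0 s θ - b1 s θ) * (b0 s θ - b2 s θ) * (b0 s⁻¹ θ * b1 s⁻¹ θ) * et s θ =
        s ^ 2 * E ^ 3 * e * ((b0 s⁻¹ θ - b1 s⁻¹ θ) * (b0 s⁻¹ θ - b2 s⁻¹ θ) *
          (b0 s θ * b1 s θ) * et s⁻¹ θ) := by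
  obtain ⟨e, E, he, _, I1, I2⟩ := d4c_main h3 hs hθ
  exact ⟨e, E, he, I1, I2⟩

end d4c

end E8T3
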