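import Pool.Agent.E8T3.CB

/-!
# [E8T3-D4d] from the ninth power relation to the cubic symbol (field part)
-/

set_option autoImplicit false

namespace E8T3

variable {K : Type*} [Field K]

/-- A ninth root of a ninth root of unity. -/
theorem d4_root [Fintype K] {p : ℕ} (hp : p.Prime) (hK : Fintype.card K = p ^ 2)
    (h81 : 81 ∣ p + 1) {s : K} (hs : s ^ 9 = 1) : ∃ r : K, r ^ 9 = s := by
  classical
  obtain ⟨k, hk⟩ := h81
  have hk1 : 1 ≤ k := by omega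
  have hfac := card_fac (K := K) hp hK
  have hnm : 9 * (9 * k * (p - 1)) = Fintype.card K - 1 := by
    rw [← hfac, hk]
    ring
  have hy : s ^ (9 * k * (p - 1)) = 1 := by
    rw [mul_assoc, pow_mul, hs, one_pow]
  have hc := card_pow hnm (by norm_num) hy
  have hne : (Finset.univ.filter fun x : K => x ^ 9 = s).Nonempty := by
    rw [← Finset.card_pos, hc]
    norm_num
  obtain ⟨r, hr⟩ := hne
  exact ⟨r, (Finset.mem_filter.1 hr).2⟩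

/-- cube roots of unity are cubes -/
theorem d4_mu {s μ : K} (hs : s ^ 6 + s ^ 3 + 1 = 0) (hμ : μ ^ 3 = 1) : ∃ ν : K, μ = ν ^ 3 := by
  have h : (μ - 1) * (μ - s ^ 3) * (μ - s ^ 6) = 0 := by
    linear_combination hμ + (-μ ^ 2 + s ^ 3 * μ - (s ^ 3 - 1)) * hs
  rcases mul_eq_zero.1 h with h | h
  · rcases mul_eq_zero.1 h with h | h
    · exact ⟨1, by linear_combination h⟩
    · exact ⟨s, by linear_combination h⟩
  · exact ⟨s ^ 2, by linear_combination h⟩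

theorem d4_core [Fintype K] {p : ℕ} (hp : p.Prime) (hK : Fintype.card K = p ^ 2)
    (h81 : 81 ∣ p + 1) {s : K} (hs : s ^ 6 + s ^ 3 + 1 = 0) (φ : K →+* K) (hφ : ∀ x, φ x = x ^ p)
    {y5 a0 a1 a2 a0' a1' a2' e E η η' U : K}
    (f0 : φ a0 = a0') (f1 : φ a1 = a1') (f2 : φ a2 = a2') (fη : φ η = η')
    (key : (y5 * (a0 * (a0 - a1) ^ 2 / (a0 - a2))) ^ 3 * (a0 * a1 ^ 2) = U ^ 9)
    (I1 : a0 * a1' = s * e ^ 3 * (a1 * a0'))
    (I2 : (a0 - a1) * (a0 - a2) * (a0' * a1') * η =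
      s ^ 2 * E ^ 3 * e * ((a0' - a1') * (a0' - a2') * (a0 * a1) * η'))
    (h0 : a0 ≠ 0) (h1 : a1 ≠ 0) (h01 : a0 - a1 ≠ 0) (h02 : a0 - a2 ≠ 0) (he : e ≠ 0) (hη : η ≠ 0)
    (hy5 : y5 ≠ 0) (hU : U ≠ 0) : ∃ w : K, y5 * η = w ^ 3 := by
  have hs9 : s ^ 9 = 1 := by linear_combination (s ^ 3 - 1) * hs
  have hs0 : s ≠ 0 := by
    rintro rfl
    apply one_ne_zero (α := K)
    linear_combination hs
  obtain ⟨σ, hσ⟩ := d4_root hp hK h81 hs9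
  have hσ0 : σ ≠ 0 := by
    rintro rfl
    exact hs0 (by rw [← hσ]; ring)
  have inj : ∀ {x : K}, x ≠ 0 → φ x ≠ 0 := fun {x} hx h => hx ((map_eq_zero φ).1 h)
  have h0' : a0' ≠ 0 := by rw [← f0]; exact inj h0
  have h1' : a1' ≠ 0 := by rw [← f1]; exact inj h1
  have h01' : a0' - a1' ≠ 0 := by rw [← f0, ← f1, ← map_sub]; exact inj h01
  have h02' : a0' - a2' ≠ 0 := by rw [← f0, ← f2, ← map_sub]; exact inj h02
  have hη' : η' ≠ 0 := by rw [← fη]; exact inj hη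
  have hy5' : φ y5 ≠ 0 := inj hy5
  have hU' : φ U ≠ 0 := inj hU
  have hE : E ≠ 0 := by
    rintro rfl
    have : (a0 - a1) * (a0 - a2) * (a0' * a1') * η ≠ 0 :=
      mul_ne_zero (mul_ne_zero (mul_ne_zero h01 h02) (mul_ne_zero h0' h1')) hη
    apply this
    rw [I2]
    ring
  have key' : (φ y5 * (a0' * (a0' - a1') ^ 2 / (a0' - a2'))) ^ 3 * (a0' * a1' ^ 2) = (φ U) ^ 9 := by
    have := congrArg φ key
    simpa only [map_mul, map_pow, map_div₀, map_sub, f0, f1, f2] using this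
  -- the quotient
  obtain ⟨L, hL⟩ : ∃ L, L = a0 * (a0 - a1) ^ 2 / (a0 - a2) := ⟨_, rfl⟩
  obtain ⟨L', hL'⟩ : ∃ L', L' = a0' * (a0' - a1') ^ 2 / (a0' - a2') := ⟨_, rfl⟩
  have hL0 : L ≠ 0 := by
    rw [hL]
    exact div_ne_zero (mul_ne_zero h0 (pow_ne_zero 2 h01)) h02
  have hL0' : L' ≠ 0 := by
    rw [hL']
    exact div_ne_zero (mul_ne_zero h0' (pow_ne_zero 2 h01')) h02'
  rw [← hL] at key
  rw [← hL'] at key'
  obtain ⟨R, hR⟩ : ∃ R, R = y5 * L * a1 * (e * σ ^ 3) / (φ y5 * L' * a1') := ⟨_, rfl⟩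
  have hR3 : R ^ 3 = (U / φ U) ^ 9 := by
    rw [hR, div_pow, div_pow, div_eq_div_iff (pow_ne_zero 3 (mul_ne_zero (mul_ne_zero hy5' hL0') h1'))
      (pow_ne_zero 9 hU'), ← key, ← key']
    have e1 : (y5 * L * a1 * (e * σ ^ 3)) ^ 3 * ((φ y5 * L') ^ 3 * (a0' * a1' ^ 2)) =
      (y5 * L) ^ 3 * (φ y5 * L') ^ 3 * a1 ^ 2 * a1' ^ 2 * (σ ^ 9 * e ^ 3 * (a1 * a0')) := by ring
    rw [e1, hσ, ← I1]
    ring
  have hR0 : R ≠ 0 := by
    rw [hR]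
    exact div_ne_zero (mul_ne_zero (mul_ne_zero (mul_ne_zero hy5 hL0) h1)
      (mul_ne_zero he (pow_ne_zero 3 hσ0))) (mul_ne_zero (mul_ne_zero hy5' hL0') h1')
  obtain ⟨V, hV⟩ : ∃ V, V = U / φ U := ⟨_, rfl⟩
  have hV0 : V ≠ 0 := by rw [hV]; exact div_ne_zero hU hU'
  rw [← hV] at hR3
  obtain ⟨ν, hν⟩ := d4_mu (μ := R / V ^ 3) hs (by
    rw [div_pow, hR3, ← pow_mul]
    exact div_self (pow_ne_zero 9 hV0))
  have hRc : R = (ν * V) ^ 3 := by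
    rw [mul_pow, ← hν, div_mul_cancel₀ _ (pow_ne_zero 3 hV0)]
  -- `v / φ v` is a cube
  obtain ⟨v, hv⟩ : ∃ v, v = y5 * η := ⟨_, rfl⟩
  have hv0 : v ≠ 0 := by rw [hv]; exact mul_ne_zero hy5 hη
  have hvφ : φ v = φ y5 * η' := by rw [hv, map_mul, fη]
  obtain ⟨c, hc⟩ : ∃ c, c = ν * V * (σ ^ 5 * E * ((a0' - a1') / (a0 - a1))) := ⟨_, rfl⟩
  have hvc : v = c ^ 3 * φ v := by
    have e1 : v / φ v = c ^ 3 := by
      have e2 : c ^ 3 = R * (σ ^ 15 * E ^ 3 * ((a0' - a1') ^ 3 / (a0 - a1) ^ 3)) := by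
        rw [hc, hRc, mul_pow, mul_pow (σ ^ 5 * E), mul_pow (σ ^ 5), div_pow, ← pow_mul]
      rw [e2, hvφ, hv, hR, hL, hL']
      rw [div_eq_iff (mul_ne_zero hy5' hη')]
      have hA : (a0 - a1) ^ 3 ≠ 0 := pow_ne_zero 3 h01
      have e4 : (σ : K) ^ 18 = s ^ 2 := by
        rw [← hσ]
        ring
      field_simp
      rw [e4]
      linear_combination I2
    rw [← e1, div_mul_cancel₀ _ (inj hv0)]
  -- conclusion
  obtain ⟨k, hk⟩ := h81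
  have hnorm : v * φ v = (v ^ (27 * k)) ^ 3 := by
    rw [hφ, ← pow_succ', hk, ← pow_mul]
    congr 1
    ring
  have hφv : φ v ≠ 0 := inj hv0
  refine ⟨(v ^ (27 * k) * c) ^ 2 / v, ?_⟩
  rw [← hv, div_pow, eq_div_iff (pow_ne_zero 3 hv0)]
  have e4 : v ^ 2 = (v ^ (27 * k) * c) ^ 3 := by
    rw [mul_pow, ← hnorm]
    calc v ^ 2 = v * v := by ring
      _ = v * (c ^ 3 * φ v) := by rw [← hvc]
      _ = v * φ v * c ^ 3 := by ring
  calc v * v ^ 3 = (v ^ 2) ^ 2 := by ring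
    _ = ((v ^ (27 * k) * c) ^ 2) ^ 3 := by rw [e4]; ring

end E8T3
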