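import Pool.Agent.E8T3.RD
import Pool.Agent.E8T3.CB

/-!
[E8T3] PTS: the points `P₂`, `P₃` of `W b`, `b = -s³`, `s⁶ + s³ + 1 = 0`, `θ³ = 3`; their images
under `f`; existence of the field, of `s` and of `θ`.
-/

set_option autoImplicit false

open WeierstrassCurve WeierstrassCurve.Affine

namespace E8T3

section field

variable {K : Type*} [Field K] {s θ : K}

theorem pts_o (hs : s ^ 6 + s ^ 3 + 1 = 0) : (s ^ 3) ^ 2 + s ^ 3 + 1 = 0 := by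
  linear_combination hs

theorem pts_s0 (hs : s ^ 6 + s ^ 3 + 1 = 0) : s ≠ 0 := by
  rintro rfl
  apply one_ne_zero (α := K)
  linear_combination hs

theorem pts_b0 (hs : s ^ 6 + s ^ 3 + 1 = 0) : -(s ^ 3) ≠ 0 :=
  neg_ne_zero.2 (pow_ne_zero 3 (pts_s0 hs))

theorem pts_b1 (hs : s ^ 6 + s ^ 3 + 1 = 0) : -(s ^ 3) ≠ 1 := by
  intro h
  apply one_ne_zero (α := K)
  linear_combination hs + s ^ 3 * h

theorem pts_inv (hs : s ^ 6 + s ^ 3 + 1 = 0) : s⁻¹ = -s ^ 5 - s ^ 2 := by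
  have h : (-s ^ 5 - s ^ 2) * s = 1 := by linear_combination -hs
  exact (eq_inv_of_mul_eq_one_left h).symm

theorem pts_u (hs : s ^ 6 + s ^ 3 + 1 = 0) : (s ^ 2)⁻¹ = -s ^ 4 - s := by
  have h : (-s ^ 4 - s) * s ^ 2 = 1 := by linear_combination -hs
  exact (eq_inv_of_mul_eq_one_left h).symm

theorem pts_1s (hs : s ^ 6 + s ^ 3 + 1 = 0) : 1 + s ≠ 0 := by
  intro h
  apply one_ne_zero (α := K)
  linear_combination hs + (-s ^ 5 + s ^ 4 - s ^ 3) * h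

theorem pts_1u (hs : s ^ 6 + s ^ 3 + 1 = 0) : 1 + (s ^ 2)⁻¹ ≠ 0 := by
  rw [pts_u hs]
  intro h
  apply one_ne_zero (α := K)
  linear_combination (1 + s ^ 3 - s) * hs + (s + s ^ 2 - s ^ 3 + s ^ 5) * h

/-- `g = (1 + s + 1/s) / θ` -/
def gg (s θ : K) : K := (1 + s + s⁻¹) / θ

/-- `A = (1 + s) (1 + 1/s²) / g` -/
def ga (s θ : K) : K := (1 + s) * (1 + (s ^ 2)⁻¹) / gg s θ

theorem gg_cube (h3 : (3 : K) ≠ 0) (hs : s ^ 6 + s ^ 3 + 1 = 0) (hθ : θ ^ 3 = 3) :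
    gg s θ ^ 3 = (1 + s) ^ 2 * (1 + (s ^ 2)⁻¹) := by
  rw [gg, div_pow, hθ, div_eq_iff h3, pts_inv hs, pts_u hs]
  linear_combination (-2 + 3 * s ^ 2 + 3 * s ^ 4 + 3 * s ^ 5 - 2 * s ^ 6 - s ^ 9) * hs

theorem gg_ne (h3 : (3 : K) ≠ 0) (hs : s ^ 6 + s ^ 3 + 1 = 0) (hθ : θ ^ 3 = 3) : gg s θ ≠ 0 := by
  intro h
  have h1 := gg_cube h3 hs hθ
  rw [h] at h1
  have h2 : (1 + s) ^ 2 * (1 + (s ^ 2)⁻¹) ≠ 0 :=
    mul_ne_zero (pow_ne_zero 2 (pts_1s hs)) (pts_1u hs)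
  apply h2
  rw [← h1]
  ring

theorem ga_mul (h3 : (3 : K) ≠ 0) (hs : s ^ 6 + s ^ 3 + 1 = 0) (hθ : θ ^ 3 = 3) :
    ga s θ * gg s θ = (1 + s) * (1 + (s ^ 2)⁻¹) := by
  rw [ga, div_mul_cancel₀ _ (gg_ne h3 hs hθ)]

theorem ga_cube (h3 : (3 : K) ≠ 0) (hs : s ^ 6 + s ^ 3 + 1 = 0) (hθ : θ ^ 3 = 3) :
    ga s θ ^ 3 = (1 + s) * (1 + (s ^ 2)⁻¹) ^ 2 := by
  have h1 := gg_cube h3 hs hθ
  have h2 := ga_mul h3 hs hθ
  have h4 : (1 + s) ^ 2 * (1 + (s ^ 2)⁻¹) ≠ 0 :=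
    mul_ne_zero (pow_ne_zero 2 (pts_1s hs)) (pts_1u hs)
  refine mul_right_cancel₀ h4 ?_
  rw [← h1, ← mul_pow, h2, h1]
  ring

/-- `A = g² / (1 + s)` -/
theorem ga_eq (h3 : (3 : K) ≠ 0) (hs : s ^ 6 + s ^ 3 + 1 = 0) (hθ : θ ^ 3 = 3) :
    ga s θ = gg s θ ^ 2 / (1 + s) := by
  rw [ga, eq_div_iff (pts_1s hs), div_mul_eq_mul_div, div_eq_iff (gg_ne h3 hs hθ)]
  have h1 := gg_cube h3 hs hθ
  linear_combination -h1

theorem pts2_eq (hs : s ^ 6 + s ^ 3 + 1 = 0) :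
    (1 + s⁻¹) * (1 + s ^ 2) * (3 - (1 + s⁻¹) - (1 + s ^ 2)) = -(s ^ 3) := by
  rw [pts_inv hs]
  linear_combination (1 - s ^ 4 - s ^ 6) * hs

theorem pts3_eq (h3 : (3 : K) ≠ 0) (hs : s ^ 6 + s ^ 3 + 1 = 0) (hθ : θ ^ 3 = 3) :
    (1 + ga s θ + gg s θ) * (1 + s ^ 3 * ga s θ + (s ^ 3) ^ 2 * gg s θ) *
      (3 - (1 + ga s θ + gg s θ) - (1 + s ^ 3 * ga s θ + (s ^ 3) ^ 2 * gg s θ)) = -(s ^ 3) := by
  have h1 := gg_cube h3 hs hθ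
  have h2 := ga_mul h3 hs hθ
  have h4 := ga_cube h3 hs hθ
  have ho := pts_o hs
  set A := ga s θ
  set g := gg s θ
  rw [pts_u hs] at h1 h2 h4
  have h5 : 3 - (1 + A + g) - (1 + s ^ 3 * A + (s ^ 3) ^ 2 * g) = 1 + (s ^ 3) ^ 2 * A + s ^ 3 * g := by
    linear_combination (-(A + g)) * ho
  rw [h5]
  have h6 : (1 + A + g) * (1 + s ^ 3 * A + (s ^ 3) ^ 2 * g) * (1 + (s ^ 3) ^ 2 * A + s ^ 3 * g) =
      1 + A ^ 3 + g ^ 3 - 3 * (A * g) := by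
    generalize s ^ 3 = o at ho
    linear_combination (-(-A ^ 3 * o + A ^ 3 - A ^ 2 * g * o ^ 2 - A ^ 2 * o - A * g ^ 2 * o ^ 2 -
      A * g * o ^ 2 + A * g * o - 3 * A * g - A - g ^ 3 * o + g ^ 3 - g ^ 2 * o - g)) * ho
  rw [h6, h4, h1, h2]
  linear_combination (s ^ 2 + s ^ 3) * hs

/-- the point `P₂ = (-m₀ m₁, m₀² m₁)`, `m₀ = 1 + 1/s`, `m₁ = 1 + s²` -/
def P2 (h3 : (3 : K) ≠ 0) (hs : s ^ 6 + s ^ 3 + 1 = 0) : (W (-(s ^ 3))).Point :=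
  pt h3 (pts_b0 hs) (pts_b1 hs) (pts2_eq hs)

/-- the point `P₃ = (-m₀ m₁, m₀² m₁)`, `m₀ = 1 + A + g`, `m₁ = 1 + s³ A + s⁶ g` -/
def P3 (h3 : (3 : K) ≠ 0) (hs : s ^ 6 + s ^ 3 + 1 = 0) (hθ : θ ^ 3 = 3) : (W (-(s ^ 3))).Point :=
  pt h3 (pts_b0 hs) (pts_b1 hs) (pts3_eq h3 hs hθ)

/-- The map `f` on a point which is given by `(A, B)`. -/
theorem f_AB (p : ℕ) {o b : K} (ho : o ^ 2 + o + 1 = 0) (h3 : (3 : K) ≠ 0) (hb0 : b ≠ 0)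
    (hb1 : b ≠ 1) {A B m0 m1 x y : K} (h : m0 * m1 * (3 - m0 - m1) = b) (hm0 : m0 = 1 + A + B)
    (hm1 : m1 = 1 + o * A + o ^ 2 * B) (hns : (W b).Nonsingular x y) (e1 : (-(A * B)) ^ p = x)
    (e2 : (B ^ 3) ^ p = y) : f p o b (pt h3 hb0 hb1 h) = Point.some _ _ hns := by
  obtain ⟨hA, hB, -, -⟩ := aAB_m ho h3 hb0 h
  have hA' : aA o b (-(m0 * m1)) (m0 ^ 2 * m1) = A := by
    rw [hA, div_eq_iff h3, hm0, hm1]
    linear_combination (B * o ^ 2 + (A - 2 * B) * o + (1 - 2 * A + B)) * ho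
  have hB' : aB o b (-(m0 * m1)) (m0 ^ 2 * m1) = B := by
    rw [hB, div_eq_iff h3, hm0, hm1]
    linear_combination (-B * o ^ 2 + (2 * B - A) * o + (1 + A - 2 * B)) * ho
  have hx : -(m0 * m1) ≠ 0 := by
    intro h4
    apply hb0
    rw [← h]
    linear_combination (-(3 - m0 - m1)) * h4
  have e3 : (-(aA o b (-(m0 * m1)) (m0 ^ 2 * m1) * aB o b (-(m0 * m1)) (m0 ^ 2 * m1))) ^ p = x := by
    rw [hA', hB', e1]
  have e4 : (aB o b (-(m0 * m1)) (m0 ^ 2 * m1) ^ 3) ^ p = y := by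
    rw [hB', e2]
  subst e3
  subst e4
  unfold pt
  rw [f]
  exact dif_pos ⟨hx, hns⟩

theorem f_P2 (p : ℕ) (hp0 : p ≠ 0) (h3 : (3 : K) ≠ 0) (hs : s ^ 6 + s ^ 3 + 1 = 0) :
    f p (s ^ 3) (-(s ^ 3)) (P2 h3 hs) = T h3 (pts_b0 hs) (pts_b1 hs) := by
  refine f_AB p (pts_o hs) h3 (pts_b0 hs) (pts_b1 hs) (A := s⁻¹) (B := 0) (pts2_eq hs) ?_ ?_ _ ?_ ?_
  · rw [add_zero]
  · have := pts_s0 hs
    field_simp
    ring
  · rw [mul_zero, neg_zero, zero_pow hp0]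
  · rw [zero_pow (by norm_num), zero_pow hp0]

theorem f_P3 (p : ℕ) [Fact p.Prime] [CharP K p] (hp2 : p ≠ 2) (h3 : (3 : K) ≠ 0)
    (hs : s ^ 6 + s ^ 3 + 1 = 0) (hθ : θ ^ 3 = 3) (hsp : s ^ p = s⁻¹) :
    f p (s ^ 3) (-(s ^ 3)) (P3 h3 hs hθ) = P2 h3 hs := by
  have hodd : Odd p := (Fact.out : p.Prime).odd_of_ne_two hp2
  have hs0 := pts_s0 hs
  have k1 : (1 + s) ^ p = 1 + s⁻¹ := by
    rw [add_pow_char, one_pow, hsp]
  have k2 : (1 + (s ^ 2)⁻¹) ^ p = 1 + s ^ 2 := by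
    rw [add_pow_char, one_pow, inv_pow, ← pow_mul, mul_comm, pow_mul, hsp, inv_pow, inv_inv]
  refine f_AB p (pts_o hs) h3 (pts_b0 hs) (pts_b1 hs) (A := ga s θ) (B := gg s θ)
    (pts3_eq h3 hs hθ) rfl rfl _ ?_ ?_
  · rw [ga_mul h3 hs hθ, hodd.neg_pow, mul_pow, k1, k2]
  · rw [gg_cube h3 hs hθ, mul_pow, ← pow_mul, mul_comm 2 p, pow_mul, k1, k2]

/-- `y(P₂) = g³` -/
theorem y_P2 (h3 : (3 : K) ≠ 0) (hs : s ^ 6 + s ^ 3 + 1 = 0) (hθ : θ ^ 3 = 3) :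
    (1 + s⁻¹) ^ 2 * (1 + s ^ 2) = gg s θ ^ 3 := by
  rw [gg_cube h3 hs hθ, pts_inv hs, pts_u hs]
  linear_combination (-s + s ^ 3 + s ^ 4 + s ^ 6) * hs

/-- `k = 2 s³ + 1` is a square root of `-3`. -/
theorem k_sq (hs : s ^ 6 + s ^ 3 + 1 = 0) : (2 * s ^ 3 + 1) ^ 2 = -3 := by
  linear_combination 4 * hs

theorem b_k (h2 : (2 : K) ≠ 0) : -(s ^ 3) = (1 + -(2 * s ^ 3 + 1)) / 2 := by
  field_simp
  ring

end field

/-- Existence of `s` and `θ`. -/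
theorem exists_s {K : Type*} [Field K] [Fintype K] {p : ℕ} (hp : p.Prime) (h9 : p % 9 = 8)
    (hK : Fintype.card K = p ^ 2) :
    ∃ s θ : K, s ^ 6 + s ^ 3 + 1 = 0 ∧ s ^ p = s⁻¹ ∧ θ ^ 3 = 3 ∧ θ ^ p = θ := by
  classical
  have h30 : (3 : K) ≠ 0 := three_ne hp (by omega) hK
  obtain ⟨a, ha⟩ : ∃ a, p = 9 * a + 8 := ⟨p / 9, by omega⟩
  have hn : p ^ 2 - 1 = 9 * (9 * a ^ 2 + 16 * a + 7) := by
    have : (9 * a + 8) ^ 2 = 9 * (9 * a ^ 2 + 16 * a + 7) + 1 := by ring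
    rw [ha]
    omega
  obtain ⟨g, hg⟩ := IsCyclic.exists_generator (α := Kˣ)
  have hcard : orderOf g = p ^ 2 - 1 := by
    rw [orderOf_eq_card_of_forall_mem_zpowers hg, Nat.card_eq_fintype_card, Fintype.card_units, hK]
  set n := 9 * a ^ 2 + 16 * a + 7 with hndef
  have hn0 : 0 < n := by positivity
  set s : K := (g : K) ^ n with hs
  have hs9 : s ^ 9 = 1 := by
    rw [hs, ← pow_mul, mul_comm n 9, ← hn, ← hcard, ← Units.val_pow_eq_pow_val, pow_orderOf_eq_one,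
      Units.val_one]
  have hs3 : s ^ 3 ≠ 1 := by
    intro h
    have h4 : g ^ (n * 3) = 1 := by
      ext
      rw [Units.val_pow_eq_pow_val, Units.val_one, pow_mul]
      exact h
    have h5 := Nat.le_of_dvd (by omega) (orderOf_dvd_of_pow_eq_one h4)
    omega
  have hs1 : s ^ 6 + s ^ 3 + 1 = 0 := by
    have h4 : (s ^ 3 - 1) * (s ^ 6 + s ^ 3 + 1) = 0 := by linear_combination hs9
    rcases mul_eq_zero.1 h4 with h | h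
    · exact absurd (sub_eq_zero.1 h) hs3
    · exact h
  have hs0 : s ≠ 0 := pts_s0 hs1
  have h3p : (3 : K) ^ p = 3 := by
    have := fr_nat (K := K) hp hK 3
    push_cast at this
    exact this
  refine ⟨s, 3 ^ (6 * a + 5), hs1, ?_, ?_, ?_⟩
  · refine eq_inv_of_mul_eq_one_left ?_
    rw [← pow_succ, ha, show 9 * a + 8 + 1 = 9 * (a + 1) by ring, pow_mul, hs9, one_pow]
  · have hq : (3 : K) ^ (p - 1) = 1 := by
      refine mul_right_cancel₀ h30 ?_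
      rw [← pow_succ, Nat.sub_add_cancel hp.one_lt.le, h3p, one_mul]
    rw [← pow_mul]
    have h5 : (6 * a + 5) * 3 = (p - 1) * 2 + 1 := by omega
    rw [h5, pow_succ, pow_mul, hq, one_pow, one_mul]
  · rw [← pow_mul, mul_comm, pow_mul, h3p]

/-- Existence of the field. -/
theorem exists_K (p : ℕ) [Fact p.Prime] : ∃ (K : Type) (_ : Field K) (_ : Fintype K)
    (_ : DecidableEq K), CharP K p ∧ Fintype.card K = p ^ 2 := by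
  classical
  have : Finite (GaloisField p 2) := inferInstance
  have := Fintype.ofFinite (GaloisField p 2)
  refine ⟨GaloisField p 2, inferInstance, inferInstance, inferInstance, inferInstance, ?_⟩
  rw [← Nat.card_eq_fintype_card, GaloisField.card p 2 (by norm_num)]

end E8T3
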