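import Pool.Agent.E8T3.D4c
import Pool.Agent.E8T3.D4d
import Pool.Agent.E8T3.PTS

/-!
# [E8T3-D4e] `y(P₃)` is a cube for `27 ∣ p + 1`
-/

set_option autoImplicit false

namespace E8T3

variable {K : Type*} [Field K]

theorem d4_normcube {p : ℕ} (h3 : 3 ∣ p + 1) (φ : K →+* K) (hφ : ∀ x, φ x = x ^ p) {v c : K}
    (hv0 : v ≠ 0) (hvc : v = c ^ 3 * φ v) : ∃ w : K, v = w ^ 3 := by
  obtain ⟨k, hk⟩ := h3
  have hnorm : v * φ v = (v ^ k) ^ 3 := by
    rw [hφ, ← pow_succ', hk, ← pow_mul]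
    congr 1
    ring
  refine ⟨(v ^ k * c) ^ 2 / v, ?_⟩
  rw [div_pow, eq_div_iff (pow_ne_zero 3 hv0)]
  have e4 : v ^ 2 = (v ^ k * c) ^ 3 := by
    rw [mul_pow, ← hnorm]
    calc v ^ 2 = v * v := by ring
      _ = v * (c ^ 3 * φ v) := by rw [← hvc]
      _ = v * φ v * c ^ 3 := by ring
  calc v * v ^ 3 = (v ^ 2) ^ 2 := by ring
    _ = ((v ^ k * c) ^ 2) ^ 3 := by rw [e4]; ring

/-- A cube root of a ninth root of unity. -/
theorem d4_root3 [Fintype K] {p : ℕ} (hp : p.Prime) (hK : Fintype.card K = p ^ 2)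
    (h27 : 27 ∣ p + 1) {s : K} (hs : s ^ 9 = 1) : ∃ r : K, r ^ 3 = s := by
  classical
  obtain ⟨k, hk⟩ := h27
  have hfac := card_fac (K := K) hp hK
  have hnm : 3 * (9 * k * (p - 1)) = Fintype.card K - 1 := by
    rw [← hfac, hk]
    ring
  have hy : s ^ (9 * k * (p - 1)) = 1 := by
    rw [mul_assoc, pow_mul, hs, one_pow]
  have hc := card_pow hnm (by norm_num) hy
  have hne : (Finset.univ.filter fun x : K => x ^ 3 = s).Nonempty := by
    rw [← Finset.card_pos, hc]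
    norm_num
  obtain ⟨r, hr⟩ := hne
  exact ⟨r, (Finset.mem_filter.1 hr).2⟩

theorem y3_core [Fintype K] {p : ℕ} (hp : p.Prime) (hK : Fintype.card K = p ^ 2)
    (h27 : 27 ∣ p + 1) {s : K} (hs : s ^ 6 + s ^ 3 + 1 = 0) (φ : K →+* K) (hφ : ∀ x, φ x = x ^ p)
    {a0 a1 a0' a1' e : K} (f0 : φ a0 = a0') (f1 : φ a1 = a1')
    (I1 : a0 * a1' = s * e ^ 3 * (a1 * a0')) (h0 : a0 ≠ 0) (h1 : a1 ≠ 0) :
    ∃ w : K, a0 ^ 2 * a1 = w ^ 3 := by
  have hs9 : s ^ 9 = 1 := by linear_combination (s ^ 3 - 1) * hs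
  obtain ⟨ρ, hρ⟩ := d4_root3 hp hK h27 hs9
  have h0' : a0' ≠ 0 := by rw [← f0]; exact fun h => h0 ((map_eq_zero φ).1 h)
  have h1' : a1' ≠ 0 := by rw [← f1]; exact fun h => h1 ((map_eq_zero φ).1 h)
  refine d4_normcube (dvd_trans (by norm_num) h27) φ hφ (v := a0 ^ 2 * a1)
    (c := ρ ^ 2 * e ^ 2 * (a1 / a1')) (mul_ne_zero (pow_ne_zero 2 h0) h1) ?_
  rw [map_mul, map_pow, f0, f1, mul_pow, mul_pow, div_pow]
  have e1 : (ρ ^ 2) ^ 3 = s ^ 2 := by rw [← hρ]; ring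
  rw [e1]
  field_simp
  linear_combination (a0 * a1' + s * e ^ 3 * (a1 * a0')) * I1

open WeierstrassCurve WeierstrassCurve.Affine in
/-- The `y` coordinate of `P₃` is a cube. -/
theorem P3_cube {p : ℕ} [hpF : Fact p.Prime] [Fintype K] [CharP K p]
    (hK : Fintype.card K = p ^ 2) (h27 : 27 ∣ p + 1) {s θ : K}
    (hs : s ^ 6 + s ^ 3 + 1 = 0) (hsp : s ^ p = s⁻¹) (hθ : θ ^ 3 = 3) (hθp : θ ^ p = θ)
    (h3 : (3 : K) ≠ 0) : ∃ (x y : K) (n : (W (-(s ^ 3))).Nonsingular x y) (c : K),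
      P3 h3 hs hθ = Point.some x y n ∧ y = c ^ 3 := by
  have hprod := d4c_prod h3 hs hθ
  have hb := pts_b0 hs
  obtain ⟨e, E, he, hE, I1, I2⟩ := d4c_main h3 hs hθ
  have h0 : b0 s θ ≠ 0 := by
    intro h0
    rw [h0, zero_mul, zero_mul] at hprod
    exact hb hprod.symm
  have h1 : b1 s θ ≠ 0 := by
    intro h1
    rw [h1, mul_zero, zero_mul] at hprod
    exact hb hprod.symm
  have hφs : frobenius K p s = s⁻¹ := by rw [frobenius_def, hsp]
  have hφθ : frobenius K p θ = θ := by rw [frobenius_def, hθp]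
  have hg : frobenius K p (gg s θ) = gg s⁻¹ θ := by
    simp only [gg, map_div₀, map_add, map_one, map_inv₀, hφs, hφθ]
  have ha : frobenius K p (ga s θ) = ga s⁻¹ θ := by
    simp only [ga, map_div₀, map_mul, map_add, map_one, map_inv₀, map_pow, hφs, hg]
  have f0 : frobenius K p (b0 s θ) = b0 s⁻¹ θ := by
    simp only [b0, map_add, map_one, hg, ha]
  have f1 : frobenius K p (b1 s θ) = b1 s⁻¹ θ := by
    simp only [b1, map_add, map_one, map_mul, map_pow, hg, ha, hφs]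
  obtain ⟨w, hw⟩ := y3_core hpF.out hK h27 hs (frobenius K p) (fun x => frobenius_def p x) f0 f1 I1
    h0 h1
  exact ⟨_, _, W_ns h3 (pts_b0 hs) (pts_b1 hs) (W_pt (pts3_eq h3 hs hθ)), w, rfl, hw⟩

end E8T3
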