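import Mathlib

/-!
[E8T3-D6] The unit `η` is a cube in `F_(p²)` exactly when `(x³ - 3x + 1)³ = 24` has a root mod `p`.
-/

set_option autoImplicit false

namespace E8T3

/-- Every element of `ZMod p` is a cube, `p ≡ 2 mod 3`. -/
theorem exists_cube {p : ℕ} [Fact p.Prime] (hp : p % 3 = 2) (a : ZMod p) : ∃ b, b ^ 3 = a := by
  rcases eq_or_ne a 0 with rfl | ha
  · exact ⟨0, by simp⟩
  · refine ⟨a ^ ((2 * p - 1) / 3), ?_⟩
    have h1 : (2 * p - 1) / 3 * 3 = 1 + 2 * (p - 1) := by omega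
    rw [← pow_mul, h1, pow_add, mul_comm 2, pow_mul, ZMod.pow_card_sub_one_eq_one ha]
    simp

theorem cube_inj {p : ℕ} [Fact p.Prime] (hp : p % 3 = 2) {a b : ZMod p} (h : a ^ 3 = b ^ 3) :
    a = b := by
  have h1 : Function.Surjective fun a : ZMod p => a ^ 3 := fun a => exists_cube hp a
  exact (Finite.injective_iff_surjective.2 h1) h

section

variable {p : ℕ} [Fact p.Prime] {K : Type*} [Field K] [Algebra (ZMod p) K]

/-- The fixed elements of the Frobenius map. -/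
theorem mem_zmod [Finite K] {x : K} (hx : x ^ p = x) : ∃ a : ZMod p, algebraMap (ZMod p) K a = x := by
  classical
  have hp1 : 1 < p := (Fact.out : p.Prime).one_lt
  have h0 : (Polynomial.X ^ p - Polynomial.X : Polynomial K) ≠ 0 :=
    FiniteField.X_pow_card_sub_X_ne_zero K hp1
  set S : Finset K := Finset.univ.image (algebraMap (ZMod p) K) with hS
  set R : Finset K := (Polynomial.X ^ p - Polynomial.X : Polynomial K).roots.toFinset with hR
  have hSR : S ⊆ R := by
    intro y hy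
    obtain ⟨a, -, rfl⟩ := Finset.mem_image.1 hy
    rw [hR, Multiset.mem_toFinset, Polynomial.mem_roots h0, Polynomial.IsRoot.def]
    simp [← map_pow, ZMod.pow_card]
  have hSc : S.card = p := by
    rw [hS, Finset.card_image_of_injective _ (algebraMap (ZMod p) K).injective, Finset.card_univ,
      ZMod.card]
  have hRc : R.card ≤ p := by
    refine (Multiset.toFinset_card_le _).trans ((Polynomial.card_roots' _).trans ?_)
    rw [FiniteField.X_pow_card_sub_X_natDegree_eq K hp1]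
  have hSR' : S = R := Finset.eq_of_subset_of_card_le hSR (by rw [hSc]; exact hRc)
  have hx' : x ∈ R := by
    rw [hR, Multiset.mem_toFinset, Polynomial.mem_roots h0, Polynomial.IsRoot.def]
    simp [hx]
  rw [← hSR'] at hx'
  obtain ⟨a, -, ha⟩ := Finset.mem_image.1 hx'
  exact ⟨a, ha⟩

/-- Elements of `F_p` are squares in `F_(p²)`. -/
theorem sq_of_zmod [Finite K] (hK : Nat.card K = p ^ 2) (hp2 : p ≠ 2) (a : ZMod p) :
    ∃ y : K, y ^ 2 = algebraMap (ZMod p) K a := by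
  have hprime : p.Prime := Fact.out
  have : Fintype K := Fintype.ofFinite K
  have : CharP K p := charP_of_injective_algebraMap (algebraMap (ZMod p) K).injective p
  have hc : ringChar K ≠ 2 := by
    rw [ringChar.eq K p]
    exact hp2
  rcases eq_or_ne a 0 with rfl | ha
  · exact ⟨0, by simp⟩
  · have ha' : algebraMap (ZMod p) K a ≠ 0 := by
      rw [Ne, map_eq_zero]
      exact ha
    have hodd : p % 2 = 1 := (Nat.Prime.eq_two_or_odd hprime).resolve_left hp2
    have h1 : Fintype.card K / 2 = (p - 1) * ((p + 1) / 2) := by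
      rw [← Nat.card_eq_fintype_card, hK]
      obtain ⟨k, hk⟩ : ∃ k, p = 2 * k + 1 := ⟨p / 2, by omega⟩
      rw [hk]
      have e1 : 2 * k + 1 - 1 = 2 * k := by omega
      have e2 : (2 * k + 1 + 1) / 2 = k + 1 := by omega
      rw [e1, e2]
      have e3 : (2 * k + 1) ^ 2 = 2 * (2 * k * (k + 1)) + 1 := by ring
      rw [e3]
      omega
    obtain ⟨y, hy⟩ := (FiniteField.isSquare_iff hc ha').2 (by
      rw [h1, pow_mul, ← map_pow, ZMod.pow_card_sub_one_eq_one ha, map_one, one_pow])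
    exact ⟨y, by rw [hy, sq]⟩

end

section

variable {K : Type*} [Field K]

/-- The unit. -/
def eta (ζ θ : K) : K := 1 + θ + (1 - ζ) / θ

theorem eta_mul {ζ θ : K} (hζ : ζ ^ 2 + ζ + 1 = 0) (hθ : θ ^ 3 = 3) (h0 : θ ≠ 0) :
    eta ζ θ * eta (ζ ^ 2) θ = 4 + 3 * θ + 2 * θ ^ 2 := by
  have hζ3 : ζ ^ 3 = 1 := by linear_combination (ζ - 1) * hζ
  unfold eta
  field_simp
  linear_combination (-θ ^ 2 - θ - 2 + ζ) * hζ + (-θ - 1) * hθ

theorem eta_add {ζ θ : K} (hζ : ζ ^ 2 + ζ + 1 = 0) (hθ : θ ^ 3 = 3) (h0 : θ ≠ 0) :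
    eta ζ θ + eta (ζ ^ 2) θ = 2 + 2 * θ + θ ^ 2 := by
  unfold eta
  field_simp
  linear_combination (-1) * hζ - hθ

/-- `m (θ² - 2) = 1`. -/
theorem eta_m {θ : K} (hθ : θ ^ 3 = 3) : (4 + 3 * θ + 2 * θ ^ 2) * (θ ^ 2 - 2) = 1 := by
  linear_combination (3 + 2 * θ) * hθ

/-- `e + 1/e = 2 θ - 1`, `e = η / η'`. -/
theorem eta_e {ζ θ : K} (hζ : ζ ^ 2 + ζ + 1 = 0) (hθ : θ ^ 3 = 3) (h0 : θ ≠ 0) :
    eta ζ θ ≠ 0 ∧ eta (ζ ^ 2) θ ≠ 0 ∧
      eta ζ θ / eta (ζ ^ 2) θ + eta (ζ ^ 2) θ / eta ζ θ = 2 * θ - 1 := by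
  have hm := eta_mul hζ hθ h0
  have ha := eta_add hζ hθ h0
  have h1 := eta_m hθ
  have hm0 : (4 + 3 * θ + 2 * θ ^ 2 : K) ≠ 0 := left_ne_zero_of_mul_eq_one h1
  have hη : eta ζ θ ≠ 0 := by
    intro h
    rw [h, zero_mul] at hm
    exact hm0 hm.symm
  have hη' : eta (ζ ^ 2) θ ≠ 0 := by
    intro h
    rw [h, mul_zero] at hm
    exact hm0 hm.symm
  refine ⟨hη, hη', ?_⟩
  set a := eta ζ θ with ha'
  set b := eta (ζ ^ 2) θ with hb'
  have h2 : a ^ 2 + b ^ 2 = (2 * θ - 1) * (a * b) := by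
    have h3 : a ^ 2 + b ^ 2 = (a + b) ^ 2 - 2 * (a * b) := by ring
    rw [h3, ha, hm]
    linear_combination θ * hθ
  field_simp
  linear_combination h2

end

section

variable {p : ℕ} [Fact p.Prime] {K : Type*} [Field K] [Finite K] [Algebra (ZMod p) K]

omit [Finite K] in
theorem two_ne' (hp : p % 9 = 8) : (2 : K) ≠ 0 := by
  have : CharP K p := charP_of_injective_algebraMap (algebraMap (ZMod p) K).injective p
  intro h
  have h1 : ((2 : ℕ) : K) = 0 := by exact_mod_cast h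
  rw [CharP.cast_eq_zero_iff K p] at h1
  have h2 := (Nat.prime_dvd_prime_iff_eq (Fact.out : p.Prime) Nat.prime_two).1 h1
  omega

omit [Finite K] in
theorem three_ne' (hp : p % 9 = 8) : (3 : K) ≠ 0 := by
  have : CharP K p := charP_of_injective_algebraMap (algebraMap (ZMod p) K).injective p
  intro h
  have h1 : ((3 : ℕ) : K) = 0 := by exact_mod_cast h
  rw [CharP.cast_eq_zero_iff K p] at h1
  have h2 := (Nat.prime_dvd_prime_iff_eq (Fact.out : p.Prime) Nat.prime_three).1 h1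
  omega

omit [Finite K] in
theorem n25_ne' (hp : p % 9 = 8) : (25 : K) ≠ 0 := by
  have : CharP K p := charP_of_injective_algebraMap (algebraMap (ZMod p) K).injective p
  intro h
  have h1 : ((25 : ℕ) : K) = 0 := by exact_mod_cast h
  rw [CharP.cast_eq_zero_iff K p] at h1
  have h2 : p ∣ 5 := (Fact.out : p.Prime).dvd_of_dvd_pow (n := 2) (by simpa using h1)
  have h3 := (Nat.prime_dvd_prime_iff_eq (Fact.out : p.Prime) Nat.prime_five).1 h2
  omega

/-- The equation of the root. -/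
theorem root_eq (hp : p % 9 = 8) {θ x : ZMod p} (hθ : θ ^ 3 = 3) :
    (x ^ 3 - 3 * x + 1) ^ 3 = 24 ↔ x ^ 3 - 3 * x + 1 = 2 * θ := by
  have h24 : (2 * θ) ^ 3 = 24 := by linear_combination 8 * hθ
  constructor
  · intro h
    exact cube_inj (by omega) (h.trans h24.symm)
  · intro h
    rw [h, h24]

/-- From a root to a cube root of `η`. -/
theorem cube_of_root (hp : p % 9 = 8) (hK : Nat.card K = p ^ 2) {ζ : K}
    (hζ : ζ ^ 2 + ζ + 1 = 0) {θ : ZMod p} (hθ : θ ^ 3 = 3) {x : ZMod p}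
    (hx : (x ^ 3 - 3 * x + 1) ^ 3 = 24) : ∃ w : K, w ^ 3 = eta ζ (algebraMap (ZMod p) K θ) := by
  have h2 : (2 : K) ≠ 0 := two_ne' hp
  have h3 : (3 : K) ≠ 0 := three_ne' hp
  have hx' := (root_eq hp hθ).1 hx
  set X : K := algebraMap (ZMod p) K x with hX
  set T : K := algebraMap (ZMod p) K θ with hT
  have hT3 : T ^ 3 = 3 := by
    rw [hT, ← map_pow, hθ]
    exact map_ofNat (algebraMap (ZMod p) K) 3
  have hT0 : T ≠ 0 := by
    intro h
    rw [h] at hT3
    exact h3 (by simpa using hT3.symm)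
  have a2 : algebraMap (ZMod p) K 2 = 2 := map_ofNat (algebraMap (ZMod p) K) 2
  have a3 : algebraMap (ZMod p) K 3 = 3 := map_ofNat (algebraMap (ZMod p) K) 3
  have a4 : algebraMap (ZMod p) K 4 = 4 := map_ofNat (algebraMap (ZMod p) K) 4
  have hXT : X ^ 3 - 3 * X + 1 = 2 * T := by
    have := congrArg (algebraMap (ZMod p) K) hx'
    rw [map_add, map_sub, map_mul, map_mul, map_pow, map_one, a2, a3] at this
    exact this
  obtain ⟨y, hy⟩ := sq_of_zmod hK (by rintro rfl; omega) (x ^ 2 - 4)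
  have hy' : y ^ 2 = X ^ 2 - 4 := by
    rw [hy, map_sub, map_pow, a4]
  set z : K := (X + y) / 2 with hz
  have hzq : z ^ 2 - X * z + 1 = 0 := by
    rw [hz]
    field_simp
    linear_combination hy'
  have hz0 : z ≠ 0 := by
    intro h
    rw [h] at hzq
    simp at hzq
  have hzX : X = z + 1 / z := by
    field_simp
    linear_combination -hzq
  obtain ⟨hη, hη', he⟩ := eta_e hζ hT3 hT0
  have hm := eta_mul hζ hT3 hT0
  set a := eta ζ T with ha
  set b := eta (ζ ^ 2) T with hb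
  obtain ⟨c, hc⟩ := exists_cube (p := p) (by omega) (4 + 3 * θ + 2 * θ ^ 2)
  set c' : K := algebraMap (ZMod p) K c with hc'
  have hc3 : c' ^ 3 = a * b := by
    rw [hm, hc', ← map_pow, hc, map_add, map_add, map_mul, map_mul, map_pow, a2, a3, a4]
  have hc0 : c' ≠ 0 := by
    intro h
    rw [h] at hc3
    exact mul_ne_zero hη hη' (by rw [← hc3]; simp)
  have hkey : (z ^ 3 * b - a) * (z ^ 3 * a - b) = 0 := by
    have e1 : z ^ 3 + 1 / z ^ 3 = 2 * T - 1 := by
      rw [← hXT, hzX]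
      field_simp
      ring
    have e2 : a ^ 2 + b ^ 2 = (2 * T - 1) * (a * b) := by
      rw [← he]
      field_simp
    rw [← e1] at e2
    field_simp at e2
    linear_combination (-1) * e2
  rcases mul_eq_zero.1 hkey with h | h
  · refine ⟨a / (c' * z), ?_⟩
    rw [div_pow, mul_pow, hc3]
    field_simp
    linear_combination (-1) * h
  · refine ⟨a * z / c', ?_⟩
    rw [div_pow, mul_pow, hc3]
    field_simp
    linear_combination h

/-- From a cube root of `η` to an element of norm one. -/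
theorem norm_one_of_cube (hp : p % 9 = 8) (hK : Nat.card K = p ^ 2) {ζ : K}
    (hζ : ζ ^ 2 + ζ + 1 = 0) {θ : ZMod p} (hθ : θ ^ 3 = 3) {w : K}
    (hw : w ^ 3 = eta ζ (algebraMap (ZMod p) K θ)) : ∃ z : K, z ≠ 0 ∧ z ^ p = z⁻¹ ∧
      z ^ 3 + (z ^ 3)⁻¹ = 2 * algebraMap (ZMod p) K θ - 1 := by
  have hchar : CharP K p := charP_of_injective_algebraMap (algebraMap (ZMod p) K).injective p
  have h3 : (3 : K) ≠ 0 := three_ne' hp
  set T : K := algebraMap (ZMod p) K θ with hT
  have hT3 : T ^ 3 = 3 := by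
    rw [hT, ← map_pow, hθ]
    exact map_ofNat (algebraMap (ZMod p) K) 3
  have hT0 : T ≠ 0 := by
    intro h
    rw [h] at hT3
    exact h3 (by simpa using hT3.symm)
  have hTp : T ^ p = T := by
    rw [hT, ← map_pow, ZMod.pow_card]
  have hζ3 : ζ ^ 3 = 1 := by linear_combination (ζ - 1) * hζ
  have hζp : ζ ^ p = ζ ^ 2 := by
    obtain ⟨k, hk⟩ : ∃ k, p = 3 * k + 2 := ⟨p / 3, by omega⟩
    rw [hk, pow_add, pow_mul, hζ3, one_pow, one_mul]
  obtain ⟨hη, hη', he⟩ := eta_e hζ hT3 hT0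
  have hηp : eta ζ T ^ p = eta (ζ ^ 2) T := by
    have h1 : frobenius K p (eta ζ T) = eta (frobenius K p ζ) (frobenius K p T) := by
      unfold eta
      rw [map_add, map_add, map_div₀, map_sub, map_one]
    rw [frobenius_def, frobenius_def, frobenius_def, hζp, hTp] at h1
    exact h1
  have hw0 : w ≠ 0 := by
    intro h
    rw [h] at hw
    exact hη (by rw [← hw]; simp)
  have hwp : w ^ (p ^ 2) = w := by
    have : Fintype K := Fintype.ofFinite K
    have h1 := FiniteField.pow_card w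
    rwa [← Nat.card_eq_fintype_card, hK] at h1
  refine ⟨w / w ^ p, div_ne_zero hw0 (pow_ne_zero _ hw0), ?_, ?_⟩
  · rw [div_pow, ← pow_mul, ← sq, hwp, inv_div]
  · have h1 : (w / w ^ p) ^ 3 = eta ζ T / eta (ζ ^ 2) T := by
      rw [div_pow, ← pow_mul, mul_comm p 3, pow_mul, hw, hηp]
    rw [h1, inv_div, he]

/-- An element of norm one gives a root. -/
theorem root_of_norm_one (hp : p % 9 = 8) {θ : ZMod p} (hθ : θ ^ 3 = 3) {u : K} (hu : u ≠ 0)
    (hup : u ^ p = u⁻¹) (h : u ^ 3 + (u ^ 3)⁻¹ = 2 * algebraMap (ZMod p) K θ - 1) :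
    ∃ x : ZMod p, algebraMap (ZMod p) K x = u + u⁻¹ ∧ (x ^ 3 - 3 * x + 1) ^ 3 = 24 := by
  have hchar : CharP K p := charP_of_injective_algebraMap (algebraMap (ZMod p) K).injective p
  obtain ⟨x, hx⟩ := mem_zmod (p := p) (x := u + u⁻¹) (by
    rw [add_pow_char, inv_pow, hup, inv_inv, add_comm])
  refine ⟨x, hx, ?_⟩
  rw [root_eq hp hθ]
  refine (algebraMap (ZMod p) K).injective ?_
  have a2 : algebraMap (ZMod p) K 2 = 2 := map_ofNat (algebraMap (ZMod p) K) 2
  have a3 : algebraMap (ZMod p) K 3 = 3 := map_ofNat (algebraMap (ZMod p) K) 3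
  rw [map_add, map_sub, map_mul, map_mul, map_pow, map_one, a2, a3, hx]
  have e : (u + u⁻¹) ^ 3 - 3 * (u + u⁻¹) + 1 = u ^ 3 + (u ^ 3)⁻¹ + 1 := by
    field_simp
    ring
  rw [e, h]
  ring

/-- **D6.** `η` is a cube exactly when the polynomial has a root. -/
theorem eta_cube_iff (hp : p % 9 = 8) (hK : Nat.card K = p ^ 2) {ζ : K}
    (hζ : ζ ^ 2 + ζ + 1 = 0) {θ : ZMod p} (hθ : θ ^ 3 = 3) :
    (∃ w : K, w ^ 3 = eta ζ (algebraMap (ZMod p) K θ)) ↔
      ∃ x : ZMod p, (x ^ 3 - 3 * x + 1) ^ 3 = 24 := by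
  constructor
  · rintro ⟨w, hw⟩
    obtain ⟨z, h0, h1, h2⟩ := norm_one_of_cube hp hK hζ hθ hw
    obtain ⟨x, -, hx⟩ := root_of_norm_one hp hθ h0 h1 h2
    exact ⟨x, hx⟩
  · rintro ⟨x, hx⟩
    exact cube_of_root hp hK hζ hθ hx

/-- **D6.** The number of roots is `3` or `0`. -/
theorem root_card (hp : p % 9 = 8) (hK : Nat.card K = p ^ 2) {ζ : K}
    (hζ : ζ ^ 2 + ζ + 1 = 0) {θ : ZMod p} (hθ : θ ^ 3 = 3)
    (hw : ∃ w : K, w ^ 3 = eta ζ (algebraMap (ZMod p) K θ)) :
    (Finset.univ.filter fun x : ZMod p => (x ^ 3 - 3 * x + 1) ^ 3 = 24).card = 3 := by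
  obtain ⟨w, hw⟩ := hw
  obtain ⟨z, h0, h1, h2⟩ := norm_one_of_cube hp hK hζ hθ hw
  have hζ3 : ζ ^ 3 = 1 := by linear_combination (ζ - 1) * hζ
  have hζ0 : ζ ≠ 0 := by
    intro h
    rw [h] at hζ
    simp at hζ
  have hζi : ζ⁻¹ = ζ ^ 2 := by
    rw [inv_eq_iff_eq_inv, eq_comm, inv_eq_iff_eq_inv]
    field_simp
    linear_combination hζ3
  have hζp : ζ ^ p = ζ ^ 2 := by
    obtain ⟨k, hk⟩ : ∃ k, p = 3 * k + 2 := ⟨p / 3, by omega⟩
    rw [hk, pow_add, pow_mul, hζ3, one_pow, one_mul]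
  set T : K := algebraMap (ZMod p) K θ with hT
  have hT3 : T ^ 3 = 3 := by
    rw [hT, ← map_pow, hθ]
    exact map_ofNat (algebraMap (ZMod p) K) 3
  have hu1 : (z * ζ) ^ p = (z * ζ)⁻¹ := by rw [mul_pow, h1, hζp, mul_inv, hζi]
  have hu2 : (z * ζ ^ 2) ^ p = (z * ζ ^ 2)⁻¹ := by
    rw [mul_pow, h1, ← pow_mul, mul_comm 2 p, pow_mul, hζp, mul_inv, ← inv_pow, hζi]
  obtain ⟨x0, hx0, hr0⟩ := root_of_norm_one hp hθ h0 h1 h2
  obtain ⟨x1, hx1, hr1⟩ := root_of_norm_one hp hθ (mul_ne_zero h0 hζ0) hu1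
    (by rw [mul_pow, hζ3, mul_one]; exact h2)
  obtain ⟨x2, hx2, hr2⟩ := root_of_norm_one hp hθ (mul_ne_zero h0 (pow_ne_zero 2 hζ0)) hu2 (by
    rw [mul_pow, ← pow_mul, mul_comm 2 3, pow_mul, hζ3, one_pow, mul_one]
    exact h2)
  -- `z^6 ≠ 1`
  have hz6 : z ^ 6 ≠ 1 := by
    intro h
    have h5 : (z ^ 3 - 1) * (z ^ 3 + 1) = 0 := by linear_combination h
    rcases mul_eq_zero.1 h5 with h6 | h6
    · have h7 : z ^ 3 = 1 := by linear_combination h6
      rw [h7] at h2
      have h8 : 2 * T = 3 := by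
        rw [inv_one] at h2
        linear_combination -h2
      refine three_ne' (K := K) hp ?_
      have h9 : (2 * T) ^ 3 = 27 := by rw [h8]; norm_num
      linear_combination 8 * hT3 - h9
    · have h7 : z ^ 3 = -1 := by linear_combination h6
      rw [h7] at h2
      have h8 : 2 * T = -1 := by
        rw [inv_neg, inv_one] at h2
        linear_combination -h2
      refine n25_ne' (K := K) hp ?_
      have h9 : (2 * T) ^ 3 = -1 := by rw [h8]; norm_num
      linear_combination h9 - 8 * hT3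
  have hdist : ∀ u v : K, u ≠ 0 → v ≠ 0 → u + u⁻¹ = v + v⁻¹ → u = v ∨ u * v = 1 := by
    intro u v hu hv h
    have h5 : (u - v) * (u * v - 1) = 0 := by
      field_simp at h
      linear_combination h
    rcases mul_eq_zero.1 h5 with h6 | h6
    · exact Or.inl (by linear_combination h6)
    · exact Or.inr (by linear_combination h6)
  have hζ1 : ζ ≠ 1 := by
    intro h
    rw [h] at hζ
    exact three_ne' (K := K) hp (by linear_combination hζ)
  have d01 : x0 ≠ x1 := by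
    intro h
    have h5 : z + z⁻¹ = z * ζ + (z * ζ)⁻¹ := by rw [← hx0, ← hx1, h]
    rcases hdist _ _ h0 (mul_ne_zero h0 hζ0) h5 with h6 | h6
    · exact hζ1 (mul_left_cancel₀ h0 (by rw [mul_one]; exact h6.symm))
    · refine hz6 ?_
      have : (z * (z * ζ)) ^ 3 = 1 := by rw [h6, one_pow]
      linear_combination this - z ^ 6 * hζ3
  have d02 : x0 ≠ x2 := by
    intro h
    have h5 : z + z⁻¹ = z * ζ ^ 2 + (z * ζ ^ 2)⁻¹ := by rw [← hx0, ← hx2, h]
    rcases hdist _ _ h0 (mul_ne_zero h0 (pow_ne_zero 2 hζ0)) h5 with h6 | h6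
    · have h7 : ζ ^ 2 = 1 := mul_left_cancel₀ h0 (by rw [mul_one]; exact h6.symm)
      exact hζ1 (by linear_combination hζ3 - ζ * h7)
    · refine hz6 ?_
      have : (z * (z * ζ ^ 2)) ^ 3 = 1 := by rw [h6, one_pow]
      linear_combination this - z ^ 6 * (ζ ^ 3 + 1) * hζ3
  have d12 : x1 ≠ x2 := by
    intro h
    have h5 : z * ζ + (z * ζ)⁻¹ = z * ζ ^ 2 + (z * ζ ^ 2)⁻¹ := by rw [← hx1, ← hx2, h]
    rcases hdist _ _ (mul_ne_zero h0 hζ0) (mul_ne_zero h0 (pow_ne_zero 2 hζ0)) h5 with h6 | h6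
    · have h7 : ζ = ζ ^ 2 := mul_left_cancel₀ h0 h6
      exact hζ1 (mul_left_cancel₀ hζ0 (by rw [mul_one, ← sq]; exact h7.symm))
    · refine hz6 ?_
      have h7 : z ^ 2 = 1 := by linear_combination h6 - z ^ 2 * hζ3
      linear_combination (z ^ 4 + z ^ 2 + 1) * h7
  have hS : (Finset.univ.filter fun x : ZMod p => (x ^ 3 - 3 * x + 1) ^ 3 = 24) =
      {x0, x1, x2} := by
    ext x
    simp only [Finset.mem_filter, Finset.mem_univ, true_and, Finset.mem_insert,
      Finset.mem_singleton]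
    constructor
    · intro hx
      have h5 := (root_eq hp hθ).1 hx
      set X : K := algebraMap (ZMod p) K x with hX
      have a2 : algebraMap (ZMod p) K 2 = 2 := map_ofNat (algebraMap (ZMod p) K) 2
      have a3 : algebraMap (ZMod p) K 3 = 3 := map_ofNat (algebraMap (ZMod p) K) 3
      have h6 : X ^ 3 - 3 * X + 1 = 2 * T := by
        have := congrArg (algebraMap (ZMod p) K) h5
        rw [map_add, map_sub, map_mul, map_mul, map_pow, map_one, a2, a3] at this
        exact this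
      have h7 : (X - (z + z⁻¹)) * (X - (z * ζ + (z * ζ)⁻¹)) * (X - (z * ζ ^ 2 + (z * ζ ^ 2)⁻¹)) =
          0 := by
        have e1 : (z * ζ)⁻¹ = z⁻¹ * ζ ^ 2 := by rw [mul_inv, hζi]
        have e2 : (z * ζ ^ 2)⁻¹ = z⁻¹ * ζ := by
          rw [mul_inv, ← hζi, inv_inv]
        have e3 : z * z⁻¹ = 1 := mul_inv_cancel₀ h0
        have e4 : (z ^ 3)⁻¹ = z⁻¹ ^ 3 := by rw [inv_pow]
        rw [e4] at h2
        rw [e1, e2]
        set y := z⁻¹ with hy
        have hs : ζ ^ 2 = -ζ - 1 := by linear_combination hζ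
        rw [hs]
        have h8 : (X - (z + y)) * (X - (z * ζ + y * (-ζ - 1))) * (X - (z * (-ζ - 1) + y * ζ)) =
            X ^ 3 - 3 * X - (z ^ 3 + y ^ 3) := by
          linear_combination (2 * X * z * y - X * z ^ 2 - X * y ^ 2 - z * y ^ 2 - z ^ 2 * y +
            z ^ 3 + y ^ 3) * hζ - 3 * X * e3
        rw [h8, h2]
        linear_combination h6
      rcases mul_eq_zero.1 h7 with h8 | h8
      · rcases mul_eq_zero.1 h8 with h9 | h9
        · left
          refine (algebraMap (ZMod p) K).injective ?_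
          rw [hx0]
          linear_combination h9
        · right; left
          refine (algebraMap (ZMod p) K).injective ?_
          rw [hx1]
          linear_combination h9
      · right; right
        refine (algebraMap (ZMod p) K).injective ?_
        rw [hx2]
        linear_combination h8
    · rintro (rfl | rfl | rfl)
      · exact hr0
      · exact hr1
      · exact hr2
  rw [hS, Finset.card_insert_of_notMem (by simp [d01, d02]),
    Finset.card_insert_of_notMem (by simp [d12]), Finset.card_singleton]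

end

end E8T3
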