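import Pool.Agent.E8T.X4

/-!
# [E8T3-F] `τ(n)` modulo `3^8` for `n ≡ 2 mod 3` by divisor sums and a newform of level `81`
-/

set_option autoImplicit false

open PowerSeries
open N19 (ex psi phs)

namespace E8T3

open E8T

/-- the divisor part of the formula -/
noncomputable def PS (n : ℕ) : ℤ :=
  (ArithmeticFunction.sigma 5 n : ℤ) + 8 * n * (ArithmeticFunction.sigma 3 n : ℤ) +
    21 * (ArithmeticFunction.sigma 3 n : ℤ) + 46 * (n : ℤ) ^ 2 * (ArithmeticFunction.sigma 1 n : ℤ) +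
    90 * n * (ArithmeticFunction.sigma 1 n : ℤ) + 270 * (ArithmeticFunction.sigma 1 n : ℤ)

theorem f_v : ∃ B : PowerSeries ℤ, ex 3 As = 1 + 3 * B := by
  obtain ⟨B, hB⟩ := As_mod
  refine ⟨ex 3 B, ?_⟩
  conv_lhs => rw [hB]
  rw [E8X.ex_add, x3_ex3, show (1 : PowerSeries ℤ) = C 1 from rfl, E8X.ex_ofNat (by norm_num)]

theorem f_As : As = ex 3 As + 6 * ex 3 Cs := by
  conv_lhs => rw [As_eq, aS_eq']
  rw [E8X.ex_add, show (6 : PowerSeries ℤ) = C 6 from rfl, E8X.ex_mul (by norm_num),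
    E8X.ex_ofNat (by norm_num)]

theorem f_cubic : Cs ^ 3 = ex 3 Cs * (ex 3 As ^ 2 + 3 * ex 3 As * ex 3 Cs + 9 * ex 3 Cs ^ 2) := by
  rw [C_cubic, E8X.ex_mul (by norm_num), E8X.ex_add, E8X.ex_add, E8X.ex_pow (by norm_num),
    show (3 : PowerSeries ℤ) = C 3 from rfl, show (9 : PowerSeries ℤ) = C 9 from rfl,
    E8X.ex_mul (by norm_num), E8X.ex_mul (by norm_num), E8X.ex_ofNat (by norm_num),
    E8X.ex_mul (by norm_num), E8X.ex_ofNat (by norm_num), E8X.ex_pow (by norm_num)]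

/-- `R₅ = c mod 9` -/
theorem f_series : ∃ W : PowerSeries ℤ, As ^ 7 * Cs ^ 5 = Cs ^ 2 * ex 3 Cs + 9 * W := by
  obtain ⟨B, hB⟩ := f_v
  have h1 := f_As
  have h2 := f_cubic
  obtain ⟨u, hu⟩ : ∃ u : PowerSeries ℤ, u = ex 3 Cs := ⟨_, rfl⟩
  obtain ⟨v, hv⟩ : ∃ v : PowerSeries ℤ, v = ex 3 As := ⟨_, rfl⟩
  rw [← hu, ← hv] at h1 h2
  rw [← hv] at hB
  rw [← hu]
  have h3 : As ^ 7 * Cs ^ 5 = Cs ^ 2 * u * ((v + 6 * u) ^ 7 * (v ^ 2 + 3 * v * u + 9 * u ^ 2)) := by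
    have : Cs ^ 5 = Cs ^ 2 * Cs ^ 3 := by ring
    rw [this, h2, h1]
    ring
  have h4 : ∃ W : PowerSeries ℤ, (v + 6 * u) ^ 7 * (v ^ 2 + 3 * v * u + 9 * u ^ 2) = 1 + 9 * W := by
    have h5 : ∃ W1 : PowerSeries ℤ, (v + 6 * u) ^ 7 = v ^ 7 + 42 * u * v ^ 6 + 9 * W1 := by
      refine ⟨84 * u ^ 2 * v ^ 5 + 840 * u ^ 3 * v ^ 4 + 5040 * u ^ 4 * v ^ 3 + 18144 * u ^ 5 * v ^ 2 +
        36288 * u ^ 6 * v + 31104 * u ^ 7, ?_⟩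
      ring
    have h6 : ∃ W2 : PowerSeries ℤ, v ^ 9 = 1 + 9 * W2 := by
      have h7 : v ^ 3 = 1 + 9 * (B + 3 * B ^ 2 + 3 * B ^ 3) := by
        rw [hB]
        ring
      refine ⟨(B + 3 * B ^ 2 + 3 * B ^ 3) * (3 + 27 * (B + 3 * B ^ 2 + 3 * B ^ 3) +
        81 * (B + 3 * B ^ 2 + 3 * B ^ 3) ^ 2), ?_⟩
      have : v ^ 9 = (v ^ 3) ^ 3 := by ring
      rw [this, h7]
      ring
    obtain ⟨W1, h5⟩ := h5
    obtain ⟨W2, h6⟩ := h6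
    refine ⟨W2 + 5 * u * v ^ 8 + W1 * (v ^ 2 + 3 * v * u + 9 * u ^ 2) + v ^ 7 * u ^ 2 +
      14 * u ^ 2 * v ^ 7 + 42 * u ^ 3 * v ^ 6, ?_⟩
    rw [h5]
    linear_combination h6
  obtain ⟨W, h4⟩ := h4
  refine ⟨Cs ^ 2 * u * W, ?_⟩
  rw [h3, h4]
  ring

theorem f_R5 (n : ℕ) : (9 : ℤ) ∣ tj 5 n - coeff n (Cs ^ 2 * ex 3 Cs) := by
  obtain ⟨W, h⟩ := f_series
  refine ⟨coeff n W, ?_⟩
  rw [tj, show 12 - 5 = 7 from rfl, h, map_add, show (9 : PowerSeries ℤ) = C 9 from rfl, coeff_C_mul]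
  ring

/-- The formula modulo `3^8`. -/
theorem tau_star {n : ℕ} (hn : n % 3 = 2) {b : ℤ}
    (hb : (2187 : ℤ) ∣ 81 * (3 * coeff n (Cs ^ 2 * ex 3 Cs) + b) - PS n) :
    (6561 : ℤ) ∣ 683 * E8X.tau n + 8 * (ArithmeticFunction.sigma 11 n : ℤ) - (6 * PS n - 486 * b) := by
  obtain ⟨k, hk⟩ := hb
  obtain ⟨l, hl⟩ := f_R5 n
  have h := main_id hn
  refine ⟨2 * k + 540362 * l + 60040 * coeff n (Cs ^ 2 * ex 3 Cs) + 7665954 * tj 8 n +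
    43433496 * tj 11 n, ?_⟩
  linear_combination h + 6 * hk + 393923898 * hl

theorem PS_prime {p : ℕ} (hp : p.Prime) {z : ℤ} (hz : (p : ℤ) + 1 = 2187 * z) :
    ∃ Q : ℤ, PS p = 2187 * Q := by
  refine ⟨z * ((p : ℤ) ^ 4 - (p : ℤ) ^ 3 + (p : ℤ) ^ 2 - p + 1 + (8 * p + 21) * ((p : ℤ) ^ 2 - p + 1) +
    46 * (p : ℤ) ^ 2 + 90 * p + 270), ?_⟩
  have h1 := E8X.g2_sigma (k := 1) hp
  rw [PS, E8X.g2_sigma hp, E8X.g2_sigma hp, h1]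
  linear_combination ((p : ℤ) ^ 4 - (p : ℤ) ^ 3 + (p : ℤ) ^ 2 - p + 1 + (8 * p + 21) * ((p : ℤ) ^ 2 - p + 1) +
    46 * (p : ℤ) ^ 2 + 90 * p + 270) * hz

theorem f_arith {t b z c : ℤ} (h1 : (6561 : ℤ) ∣ 683 * t + 2187 * z + 486 * b) (h2 : (27 : ℤ) ∣ 3 * c + b)
    (h3 : (3 : ℤ) ∣ c) : (9 : ℤ) ∣ b ∧ (2187 : ℤ) ∣ t ∧ ((6561 : ℤ) ∣ t ↔ (27 : ℤ) ∣ b - 9 * z) := by
  obtain ⟨c', rfl⟩ := h3
  obtain ⟨b', rfl⟩ : (9 : ℤ) ∣ b := by omega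
  obtain ⟨k, hk⟩ := h1
  obtain ⟨t', rfl⟩ : (2187 : ℤ) ∣ t := by
    refine ⟨935 * (3 * k - z - 2 * b') + -292 * t, ?_⟩
    linear_combination 935 * hk
  have hk' : 683 * t' + z + 2 * b' = 3 * k := by linarith
  refine ⟨dvd_mul_right _ _, dvd_mul_right _ _, ?_, ?_⟩
  · rintro ⟨j, hj⟩
    have : t' = 3 * j := by linarith
    exact ⟨b' - k + 683 * j, by linarith⟩
  · rintro ⟨j, hj⟩
    exact ⟨2 * (k - b' + j) - 455 * t', by linarith⟩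

/-- The prime case: `9 ∣ b_p`, and `3^8 ∣ τ(p)` if and only if `b_p = 9 z mod 27`. -/
theorem prime_b {p : ℕ} (hp : p.Prime) {b : ℤ}
    (hb : (2187 : ℤ) ∣ 81 * (3 * coeff p (Cs ^ 2 * ex 3 Cs) + b) - PS p) {z : ℤ}
    (hz : (p : ℤ) + 1 = 2187 * z) :
    (9 : ℤ) ∣ b ∧ (2187 : ℤ) ∣ E8X.tau p ∧ ((6561 : ℤ) ∣ E8X.tau p ↔ (27 : ℤ) ∣ b - 9 * z) := by
  have hn : p % 3 = 2 := by omega
  obtain ⟨Q, hQ⟩ := PS_prime hp hz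
  have h1 := tau_star hn hb
  rw [E8X.g2_sigma hp, hQ] at h1
  have e11 : ∃ m : ℤ, 1 + (p : ℤ) ^ 11 = 11 * (2187 * z) + 6561 * m := by
    have hp' : (p : ℤ) = 2187 * z - 1 := by linarith
    rw [hp']
    refine ⟨729 * z ^ 2 * (-55 + 165 * (2187 * z) - 330 * (2187 * z) ^ 2 + 462 * (2187 * z) ^ 3 -
      462 * (2187 * z) ^ 4 + 330 * (2187 * z) ^ 5 - 165 * (2187 * z) ^ 6 + 55 * (2187 * z) ^ 7 -
      11 * (2187 * z) ^ 8 + (2187 * z) ^ 9), ?_⟩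
    ring
  obtain ⟨m, hm⟩ := e11
  have h2 : (6561 : ℤ) ∣ 683 * E8X.tau p + 2187 * z + 486 * b := by
    obtain ⟨k, hk⟩ := h1
    refine ⟨k - 8 * m - 29 * z + 2 * Q, ?_⟩
    linear_combination hk - 8 * hm
  have h3 : (27 : ℤ) ∣ 3 * coeff p (Cs ^ 2 * ex 3 Cs) + b := by
    obtain ⟨k, hk⟩ := hb
    rw [hQ] at hk
    exact ⟨k + Q, by linarith⟩
  have h4 : (3 : ℤ) ∣ coeff p (Cs ^ 2 * ex 3 Cs) := by
    have h5 := R5_mod hn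
    rw [E8X.g2_sigma hp, E8X.g2_sigma hp] at h5
    obtain ⟨k, hk⟩ := h5
    obtain ⟨l, hl⟩ := f_R5 p
    have h6 : 11 * (p : ℤ) * (1 + (p : ℤ) ^ 3) - 6 * (1 + (p : ℤ) ^ 5) =
        2187 * (z * (11 * (p : ℤ) * ((p : ℤ) ^ 2 - p + 1) -
          6 * ((p : ℤ) ^ 4 - (p : ℤ) ^ 3 + (p : ℤ) ^ 2 - p + 1))) := by
      linear_combination (11 * (p : ℤ) * ((p : ℤ) ^ 2 - p + 1) -
          6 * ((p : ℤ) ^ 4 - (p : ℤ) ^ 3 + (p : ℤ) ^ 2 - p + 1)) * hz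
    refine ⟨k + 9 * (z * (11 * (p : ℤ) * ((p : ℤ) ^ 2 - p + 1) -
          6 * ((p : ℤ) ^ 4 - (p : ℤ) ^ 3 + (p : ℤ) ^ 2 - p + 1))) - 3 * l, ?_⟩
    rw [h6] at hk
    linarith
  exact f_arith h2 h3 h4

end E8T3
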