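import Pool.Agent.E8T3.Grp

/-!
# [E8T3-Grp1] (G1) and (G2): division by `3` and the order of the group
-/

set_option autoImplicit false

namespace E8T3

variable {G : Type*} [AddCommGroup G]

theorem grp_iter (ρ : G → G) (h3 : ∀ Q : G, ρ (ρ Q) = (3 : ℕ) • Q) (n : ℕ) (x : G) :
    ρ^[2 * n] x = 3 ^ n • x := by
  induction n generalizing x with
  | zero => simp
  | succ n ih =>
    rw [show 2 * (n + 1) = (2 * n).succ.succ by omega, Function.iterate_succ_apply, Function.iterate_succ_apply,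
      h3, ih, smul_smul, pow_succ]

theorem grp_fib_card [DecidableEq G] (ρ : G → G) {T : G} (h3T : (3 : ℤ) • T = 0)
    (hfib : ∀ Q Q' : G, ρ Q = ρ Q' → ∃ i : ℤ, Q' = Q + i • T) (s : Finset G) (a : G) :
    (s.filter fun x => ρ x = a).card ≤ 3 := by
  rcases (s.filter fun x => ρ x = a).eq_empty_or_nonempty with h | ⟨Q, hQ⟩
  · rw [h]
    simp
  · have hsub : (s.filter fun x => ρ x = a) ⊆ {Q, Q + T, Q + (2 : ℤ) • T} := by
      intro x hx
      obtain ⟨i, hi⟩ := hfib Q x (((Finset.mem_filter.1 hQ).2).trans ((Finset.mem_filter.1 hx).2).symm)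
      rw [grp_mod h3T] at hi
      have h1 : i % 3 = 0 ∨ i % 3 = 1 ∨ i % 3 = 2 := by omega
      simp only [Finset.mem_insert, Finset.mem_singleton]
      rcases h1 with h1 | h1 | h1
      · left
        rw [hi, h1, zero_smul, add_zero]
      · right; left
        rw [hi, h1, one_smul]
      · right; right
        rw [hi, h1]
    exact (Finset.card_le_card hsub).trans Finset.card_le_three

theorem grp_ker_card [Fintype G] [DecidableEq G] (ρ : G → G) {T : G} (h3T : (3 : ℤ) • T = 0)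
    (hfib : ∀ Q Q' : G, ρ Q = ρ Q' → ∃ i : ℤ, Q' = Q + i • T) (n : ℕ) :
    (Finset.univ.filter fun x : G => ρ^[n] x = 0).card ≤ 3 ^ n := by
  induction n with
  | zero =>
    have : (Finset.univ.filter fun x : G => ρ^[0] x = 0) = {0} := by
      ext x
      simp
    rw [this]
    simp
  | succ n ih =>
    have h := Finset.card_le_mul_card_image (f := ρ) (Finset.univ.filter fun x : G => ρ^[n + 1] x = 0) 3
      (fun a _ => grp_fib_card ρ h3T hfib _ a)
    refine h.trans ?_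
    rw [pow_succ, mul_comm]
    refine Nat.mul_le_mul_right 3 ((Finset.card_le_card ?_).trans ih)
    intro x hx
    obtain ⟨y, hy, rfl⟩ := Finset.mem_image.1 hx
    rw [Finset.mem_filter] at hy ⊢
    refine ⟨Finset.mem_univ _, ?_⟩
    have := hy.2
    rwa [Function.iterate_succ_apply] at this

/-- A chain of length `5`. -/
theorem grp_chain [Finite G] (ρ : G → G) {T : G} (h3T : (3 : ℤ) • T = 0) (hT : ρ T = 0)
    (h3 : ∀ Q : G, ρ (ρ Q) = (3 : ℕ) • Q) (hinv : ∀ Q : G, ρ (Q + T) = ρ Q)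
    (hfib : ∀ Q Q' : G, ρ Q = ρ Q' → ∃ i : ℤ, Q' = Q + i • T) {k : ℕ} (hd : 3 ^ (k + 1) ∣ Nat.card G) :
    ∃ Q : G, ρ^[k + 1] Q = 0 ∧ ρ^[k] Q ≠ 0 := by
  classical
  have := Fintype.ofFinite G
  have h0 : ρ 0 = 0 := by
    have := hinv 0
    rw [zero_add, hT] at this
    exact this.symm
  have h00 : ∀ m : ℕ, ρ^[m] 0 = 0 := by
    intro m
    induction m with
    | zero => rfl
    | succ m ih => rw [Function.iterate_succ_apply, h0, ih]
  have : Fact (Nat.Prime 3) := ⟨Nat.prime_three⟩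
  obtain ⟨H, hH⟩ := Sylow.exists_subgroup_card_pow_prime (G := Multiplicative G) 3 (n := k + 1)
    (by rwa [Nat.card_congr (Multiplicative.ofAdd (α := G)).symm])
  have hx : ∃ x : G, Multiplicative.ofAdd x ∈ H ∧ ρ^[k] x ≠ 0 := by
    by_contra hc
    push Not at hc
    have h1 : Nat.card H ≤ 3 ^ k := by
      refine le_trans ?_ (grp_ker_card ρ h3T hfib k)
      have h2 : Nat.card H = (Finset.univ.filter fun x : G => Multiplicative.ofAdd x ∈ H).card := by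
        rw [Nat.card_eq_fintype_card, ← Fintype.card_subtype]
        exact Fintype.card_congr ⟨fun x => ⟨Multiplicative.toAdd x.1, x.2⟩, fun x => ⟨Multiplicative.ofAdd x.1, x.2⟩,
          fun x => rfl, fun x => rfl⟩
      rw [h2]
      refine Finset.card_le_card fun x hx => ?_
      rw [Finset.mem_filter] at hx ⊢
      exact ⟨Finset.mem_univ _, hc x hx.2⟩
    rw [hH] at h1
    have := Nat.pow_lt_pow_right (show 1 < 3 by norm_num) (Nat.lt_succ_self k)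
    omega
  obtain ⟨x, hxH, hxk⟩ := hx
  have hex : ∃ m : ℕ, ρ^[m] x = 0 := by
    refine ⟨2 * (k + 1), ?_⟩
    rw [grp_iter ρ h3]
    have h5 : (⟨Multiplicative.ofAdd x, hxH⟩ : H) ^ (3 ^ (k + 1)) = 1 := by
      rw [← hH]
      exact pow_card_eq_one'
    have h6 := congrArg (fun y : H => Multiplicative.toAdd (y : Multiplicative G)) h5
    simpa using h6
  obtain ⟨m, hm, hmin⟩ : ∃ m : ℕ, ρ^[m] x = 0 ∧ ∀ j < m, ρ^[j] x ≠ 0 :=
    ⟨Nat.find hex, Nat.find_spec hex, fun j hj => Nat.find_min hex hj⟩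
  have hkm : k < m := by
    by_contra hc
    apply hxk
    have : k = (k - m) + m := by omega
    rw [this, Function.iterate_add_apply, hm, h00]
  refine ⟨ρ^[m - (k + 1)] x, ?_, ?_⟩
  · rw [← Function.iterate_add_apply, show k + 1 + (m - (k + 1)) = m by omega, hm]
  · rw [← Function.iterate_add_apply]
    exact hmin _ (by omega)

/-- (G1) -/
theorem grp_G1 [Finite G] (ρ : G → G) {T P2 P3 : G} (hT0 : T ≠ 0) (hT : ρ T = 0)
    (h3 : ∀ x : G, ρ (ρ x) = (3 : ℕ) • x) (hinv : ∀ x : G, ρ (x + T) = ρ x)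
    (hfib : ∀ x y : G, ρ x = ρ y → y - x = 0 ∨ y - x = T ∨ y - x = -T)
    (hP2 : ρ P2 = T) (hP3 : ρ P3 = P2) (hd : 3 ^ 5 ∣ Nat.card G) : ∃ P5 : G, (3 : ℕ) • P5 = P3 := by
  have h0 : ρ 0 = 0 := by
    have := hinv 0
    rw [zero_add, hT] at this
    exact this.symm
  have h3' : ∀ x : G, ρ (ρ x) = (3 : ℤ) • x := fun x => by rw [h3]; exact (natCast_zsmul x 3).symm
  have hfib' : ∀ Q Q' : G, ρ Q = ρ Q' → ∃ i : ℤ, Q' = Q + i • T := by
    intro Q Q' h
    rcases hfib Q Q' h with h | h | h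
    · exact ⟨0, by rw [zero_smul, ← h]; abel⟩
    · exact ⟨1, by rw [one_smul, ← h]; abel⟩
    · exact ⟨-1, by rw [neg_smul, one_smul, ← h]; abel⟩
  have h3T : (3 : ℤ) • T = 0 := by rw [← h3', hT, h0]
  have h3P2 : (3 : ℤ) • P2 = 0 := by rw [← h3', hP2, hT]
  have h3P3 : (3 : ℤ) • P3 = T := by rw [← h3', hP3, hP2]
  obtain ⟨Q, hQ5, hQ4⟩ := grp_chain ρ h3T hT h3 hinv hfib' (k := 4) hd
  have e4 : ρ^[4] Q = (3 : ℤ) • (3 : ℤ) • Q := by
    show ρ (ρ (ρ (ρ Q))) = _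
    rw [h3', h3']
  have e3 : ρ^[3] Q = (3 : ℤ) • ρ Q := by
    show ρ (ρ (ρ Q)) = _
    rw [h3']
  have e34 : ρ (ρ^[3] Q) = ρ^[4] Q := rfl
  have hr : ρ (ρ^[4] Q) = ρ 0 := by
    rw [h0]
    exact hQ5
  have h2P : ρ (-P2) = -T := by
    rcases hfib 0 (ρ (-P2)) (by rw [h3, h0, smul_neg, ← natCast_zsmul]; norm_num; exact h3P2) with h | h | h
    · exfalso
      rw [sub_zero] at h
      obtain ⟨i, hi⟩ := hfib' 0 (-P2) (h0.trans h.symm)
      have h5 : (1 : ℤ) • P2 + i • T = 0 := by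
        rw [one_smul, ← zero_add (i • T), ← hi, add_neg_cancel]
      have := (grp_indep ρ hT0 hT h3T h3P2 hinv hP2 h5).1
      omega
    · exfalso
      rw [sub_zero] at h
      obtain ⟨i, hi⟩ := hfib' P2 (-P2) (hP2.trans h.symm)
      have h5 : (2 : ℤ) • P2 + i • T = 0 := by
        rw [two_smul, add_assoc, ← hi, add_neg_cancel]
      have := (grp_indep ρ hT0 hT h3T h3P2 hinv hP2 h5).1
      omega
    · rwa [sub_zero] at h
  -- `P2` is divisible by `3`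
  have main : ∀ (R R' : G), (3 : ℤ) • R = T → (∃ i : ℤ, (3 : ℤ) • R' = P2 + i • T) →
      (∃ Z : G, (3 : ℤ) • Z = R) → ∃ P5 : G, (3 : ℕ) • P5 = P3 := by
    rintro R R' hR ⟨i, hi⟩ ⟨Z, hZ⟩
    have h5 : (3 : ℤ) • (P3 - R) = 0 := by rw [smul_sub, h3P3, hR, sub_self]
    obtain ⟨a, c, hac⟩ := grp_three ρ hT0 h3T h3' hinv hT hfib' hP2 h3P2 h5
    refine ⟨Z + (a • P3) + c • (R' - i • P3), ?_⟩
    rw [← natCast_zsmul]
    push_cast
    rw [smul_add, smul_add, hZ, smul_comm (3 : ℤ) a, smul_comm (3 : ℤ) c, smul_sub, hi, h3P3, smul_comm (3 : ℤ) i,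
      h3P3, add_sub_cancel_right]
    rw [add_assoc, ← hac]
    abel
  rcases hfib 0 _ hr.symm with h | h | h
  · exact absurd (by rwa [sub_zero] at h) hQ4
  · rw [sub_zero] at h
    refine main ((3 : ℤ) • Q) (ρ Q) (by rw [← e4, h]) ?_ ⟨Q, rfl⟩
    rw [← e3]
    exact hfib' P2 _ (by rw [hP2, e34, h])
  · rw [sub_zero] at h
    refine main ((3 : ℤ) • (-Q)) (-ρ Q) (by rw [smul_neg, smul_neg, ← e4, h, neg_neg]) ?_ ⟨-Q, rfl⟩
    obtain ⟨i, hi⟩ := hfib' (-P2) (ρ^[3] Q) (by rw [h2P, e34, h])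
    refine ⟨-i, ?_⟩
    rw [smul_neg, ← e3, hi, neg_smul]
    abel

/-- (G2) -/
theorem grp_G2 [Finite G] (ρ : G → G) (S : AddSubgroup G) (hS : ∀ x : G, x ∈ S ↔ ∃ y : G, ρ y = x)
    {T P2 P3 P5 : G} (hT0 : T ≠ 0) (hT : ρ T = 0)
    (h3 : ∀ x : G, ρ (ρ x) = (3 : ℕ) • x) (hinv : ∀ x : G, ρ (x + T) = ρ x)
    (hfib : ∀ x y : G, ρ x = ρ y → y - x = 0 ∨ y - x = T ∨ y - x = -T)
    (hP2 : ρ P2 = T) (hP3 : ρ P3 = P2) (hP5 : (3 : ℕ) • P5 = P3) : 3 ^ 6 ∣ Nat.card G ↔ P5 ∈ S := by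
  have h3' : ∀ x : G, ρ (ρ x) = (3 : ℤ) • x := fun x => by rw [h3]; exact (natCast_zsmul x 3).symm
  have hfib' : ∀ Q Q' : G, ρ Q = ρ Q' → ∃ i : ℤ, Q' = Q + i • T := by
    intro Q Q' h
    rcases hfib Q Q' h with h | h | h
    · exact ⟨0, by rw [zero_smul, ← h]; abel⟩
    · exact ⟨1, by rw [one_smul, ← h]; abel⟩
    · exact ⟨-1, by rw [neg_smul, one_smul, ← h]; abel⟩
  exact grp ρ S hS hT0 hT h3' hinv hfib' hP2 hP3 (P4 := ρ P5) (by rw [h3, hP5]) rfl

end E8T3
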