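import Mathlib

/-!
# [E8T3-Kum] the curve `y² + a x y + b³ y = x³`: the points with `y` a cube form a subgroup
-/

set_option autoImplicit false

open WeierstrassCurve.Affine

namespace E8T3

variable {F : Type*} [Field F] [DecidableEq F]

/-- The coefficients of the cubic of a line. -/
theorem kum_coef (a b : F) {x1 x2 y1 y2 : F}
    (h1 : (⟨a, 0, b, 0, 0⟩ : WeierstrassCurve F).toAffine.Equation x1 y1)
    (h2 : (⟨a, 0, b, 0, 0⟩ : WeierstrassCurve F).toAffine.Equation x2 y2)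
    (hxy : ¬(x1 = x2 ∧ y1 = (⟨a, 0, b, 0, 0⟩ : WeierstrassCurve F).toAffine.negY x2 y2)) {l x3 n : F}
    (hl : l = (⟨a, 0, b, 0, 0⟩ : WeierstrassCurve F).toAffine.slope x1 x2 y1 y2)
    (hx3 : x3 = (⟨a, 0, b, 0, 0⟩ : WeierstrassCurve F).toAffine.addX x1 x2 l) (hn : n = y1 - l * x1) :
    x1 + x2 + x3 = l ^ 2 + a * l ∧ x1 * x2 + x1 * x3 + x2 * x3 = -(2 * l * n + a * n + b * l) ∧
      x1 * x2 * x3 = n ^ 2 + b * n := by
  have h := addPolynomial_slope h1 h2 hxy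
  rw [← hl, ← hx3, addPolynomial_eq, neg_inj, Cubic.prod_X_sub_C_eq, Cubic.toPoly_injective] at h
  rw [Cubic.mk.injEq] at h
  obtain ⟨-, k1, k2, k3⟩ := h
  simp only at k1 k2 k3
  rw [hn]
  refine ⟨?_, ?_, ?_⟩
  · linear_combination k1
  · linear_combination -k2
  · linear_combination k3

/-- The second point is on the line. -/
theorem kum_y2 (W : WeierstrassCurve F) {x1 x2 y1 y2 : F} (h1 : W.toAffine.Equation x1 y1)
    (h2 : W.toAffine.Equation x2 y2) (hxy : ¬(x1 = x2 ∧ y1 = W.toAffine.negY x2 y2)) :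
    y2 = W.toAffine.slope x1 x2 y1 y2 * (x2 - x1) + y1 := by
  by_cases hx : x1 = x2
  · have hy : y1 ≠ W.toAffine.negY x2 y2 := fun h => hxy ⟨hx, h⟩
    have := Y_eq_of_Y_ne h1 h2 hx hy
    rw [hx, this]
    ring
  · rw [slope_of_X_ne hx]
    have : x1 - x2 ≠ 0 := sub_ne_zero.2 hx
    field_simp
    ring

/-- The third point. -/
theorem kum_third (a b : F) (hb : b ≠ 0) {x1 x2 y1 y2 : F}
    (h1 : (⟨a, 0, b ^ 3, 0, 0⟩ : WeierstrassCurve F).toAffine.Equation x1 y1)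
    (h2 : (⟨a, 0, b ^ 3, 0, 0⟩ : WeierstrassCurve F).toAffine.Equation x2 y2)
    (hxy : ¬(x1 = x2 ∧ y1 = (⟨a, 0, b ^ 3, 0, 0⟩ : WeierstrassCurve F).toAffine.negY x2 y2))
    (hc1 : ∃ c, y1 = c ^ 3) (hc2 : ∃ c, y2 = c ^ 3) :
    ∃ c, (⟨a, 0, b ^ 3, 0, 0⟩ : WeierstrassCurve F).toAffine.negAddY x1 x2 y1
      ((⟨a, 0, b ^ 3, 0, 0⟩ : WeierstrassCurve F).toAffine.slope x1 x2 y1 y2) = c ^ 3 := by
  obtain ⟨l, hl⟩ : ∃ l, l = (⟨a, 0, b ^ 3, 0, 0⟩ : WeierstrassCurve F).toAffine.slope x1 x2 y1 y2 := ⟨_, rfl⟩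
  obtain ⟨x3, hx3⟩ : ∃ x3, x3 = (⟨a, 0, b ^ 3, 0, 0⟩ : WeierstrassCurve F).toAffine.addX x1 x2 l := ⟨_, rfl⟩
  obtain ⟨n, hn⟩ : ∃ n, n = y1 - l * x1 := ⟨_, rfl⟩
  obtain ⟨k1, k2, k3⟩ := kum_coef a (b ^ 3) h1 h2 hxy hl hx3 hn
  have hy2 := kum_y2 (⟨a, 0, b ^ 3, 0, 0⟩ : WeierstrassCurve F) h1 h2 hxy
  rw [← hl] at hy2
  have e1 : (y1 : F) = l * x1 + n := by rw [hn]; ring
  have e2 : (y2 : F) = l * x2 + n := by rw [hn, hy2]; ring
  have e3 : (⟨a, 0, b ^ 3, 0, 0⟩ : WeierstrassCurve F).toAffine.negAddY x1 x2 y1 l = l * x3 + n := by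
    rw [negAddY, ← hx3, hn]
    ring
  rw [← hl, e3]
  have q1 : y1 ^ 2 + a * x1 * y1 + b ^ 3 * y1 = x1 ^ 3 := by
    have := (equation_iff (W := (⟨a, 0, b ^ 3, 0, 0⟩ : WeierstrassCurve F).toAffine) x1 y1).1 h1
    simpa using this
  have q2 : y2 ^ 2 + a * x2 * y2 + b ^ 3 * y2 = x2 ^ 3 := by
    have := (equation_iff (W := (⟨a, 0, b ^ 3, 0, 0⟩ : WeierstrassCurve F).toAffine) x2 y2).1 h2
    simpa using this
  have hprod : y1 * y2 * (l * x3 + n) = n ^ 3 := by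
    rw [e1, e2]
    linear_combination l ^ 3 * k3 + l ^ 2 * n * k2 + l * n ^ 2 * k1
  obtain ⟨c1, hc1⟩ := hc1
  obtain ⟨c2, hc2⟩ := hc2
  by_cases hy1 : y1 = 0
  · have hx1 : x1 = 0 := by
      rw [hy1] at q1
      have : x1 ^ 3 = 0 := by rw [← q1]; ring
      exact pow_eq_zero_iff (by norm_num) |>.1 this
    have hn0 : n = 0 := by rw [hn, hy1, hx1]; ring
    rw [hx1, hn0] at k2
    by_cases hx2 : x2 = 0
    · rw [hx2] at k2
      have hl0 : l = 0 := by
        have : b ^ 3 * l = 0 := by linear_combination k2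
        exact (mul_eq_zero.1 this).resolve_left (pow_ne_zero 3 hb)
      exact ⟨0, by rw [hl0, hn0]; ring⟩
    · refine ⟨-(b * c2 ^ 2 / x2), ?_⟩
      rw [hn0, add_zero]
      rw [hn0, add_zero] at e2
      have h3 : x3 = -(b ^ 3 * l) / x2 := by
        rw [eq_div_iff hx2]
        linear_combination k2
      have h4 : c2 ^ 3 = l * x2 := by rw [← hc2, e2]
      rw [h3]
      have : (c2 ^ 2) ^ 3 = (l * x2) ^ 2 := by rw [← h4]; ring
      rw [neg_pow, div_pow, mul_pow, this]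
      field_simp
  · by_cases hy2 : y2 = 0
    · have hx2 : x2 = 0 := by
        rw [hy2] at q2
        have : x2 ^ 3 = 0 := by rw [← q2]; ring
        exact pow_eq_zero_iff (by norm_num) |>.1 this
      have hn0 : n = 0 := by rw [hy2, hx2] at e2; rw [mul_zero, zero_add] at e2; exact e2.symm
      rw [hx2, hn0] at k2
      have hx1 : x1 ≠ 0 := by
        intro h
        rw [h, hn0] at e1
        apply hy1
        rw [e1]
        ring
      refine ⟨-(b * c1 ^ 2 / x1), ?_⟩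
      rw [hn0, add_zero]
      rw [hn0, add_zero] at e1
      have h3 : x3 = -(b ^ 3 * l) / x1 := by
        rw [eq_div_iff hx1]
        linear_combination k2
      have h4 : c1 ^ 3 = l * x1 := by rw [← hc1, e1]
      rw [h3]
      have : (c1 ^ 2) ^ 3 = (l * x1) ^ 2 := by rw [← h4]; ring
      rw [neg_pow, div_pow, mul_pow, this]
      field_simp
    · refine ⟨n / (c1 * c2), ?_⟩
      have h5 : y1 * y2 ≠ 0 := mul_ne_zero hy1 hy2
      rw [div_pow, mul_pow, ← hc1, ← hc2, eq_div_iff h5]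
      linear_combination hprod

/-- The condition on a point: `y` is a cube. -/
def KumP (W : WeierstrassCurve F) : W.toAffine.Point → Prop
  | .zero => True
  | .some _ y _ => ∃ c, y = c ^ 3

theorem kum_neg (a b : F) {P : (⟨a, 0, b ^ 3, 0, 0⟩ : WeierstrassCurve F).toAffine.Point}
    (hP : KumP _ P) : KumP _ (-P) := by
  rcases P with _ | ⟨x, y, h⟩
  · exact trivial
  · obtain ⟨c, hc⟩ := hP
    rw [Point.neg_some]
    have q1 : y ^ 2 + a * x * y + b ^ 3 * y = x ^ 3 := by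
      have := (equation_iff (W := (⟨a, 0, b ^ 3, 0, 0⟩ : WeierstrassCurve F).toAffine) x y).1 h.1
      simpa using this
    have e : (⟨a, 0, b ^ 3, 0, 0⟩ : WeierstrassCurve F).toAffine.negY x y = -y - a * x - b ^ 3 := rfl
    show ∃ d, (⟨a, 0, b ^ 3, 0, 0⟩ : WeierstrassCurve F).toAffine.negY x y = d ^ 3
    rw [e]
    by_cases hy : y = 0
    · have hx : x = 0 := by
        rw [hy] at q1
        have : x ^ 3 = 0 := by rw [← q1]; ring
        exact pow_eq_zero_iff (by norm_num) |>.1 this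
      exact ⟨-b, by rw [hy, hx]; ring⟩
    · refine ⟨-(x / c), ?_⟩
      rw [neg_pow, div_pow, ← hc]
      field_simp
      linear_combination -q1

/-- The subgroup of the points with `y` a cube. -/
def kumS (a b : F) (hb : b ≠ 0) : AddSubgroup (⟨a, 0, b ^ 3, 0, 0⟩ : WeierstrassCurve F).toAffine.Point where
  carrier := {P | KumP _ P}
  zero_mem' := trivial
  neg_mem' := fun hP => kum_neg a b hP
  add_mem' := by
    intro P Q hP hQ
    show KumP _ (P + Q)
    rcases P with _ | ⟨x1, y1, h1⟩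
    · rw [← Point.zero_def, zero_add]
      exact hQ
    · rcases Q with _ | ⟨x2, y2, h2⟩
      · rw [← Point.zero_def, add_zero]
        exact hP
      · by_cases hxy : x1 = x2 ∧ y1 = (⟨a, 0, b ^ 3, 0, 0⟩ : WeierstrassCurve F).toAffine.negY x2 y2
        · rw [Point.add_of_Y_eq hxy.1 hxy.2]
          exact trivial
        · rw [Point.add_some hxy]
          have h3 := kum_third a b hb h1.1 h2.1 hxy hP hQ
          have h4 := kum_neg a b (P := Point.some _ _ (nonsingular_negAdd h1 h2 hxy)) h3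
          rw [Point.neg_some] at h4
          exact h4

/-- Three points of sum `0`, none of them the point at infinity, are on a line. -/
theorem kum_line (a b : F) {x1 y1 x2 y2 x3 y3 : F}
    (h1 : (⟨a, 0, b, 0, 0⟩ : WeierstrassCurve F).toAffine.Nonsingular x1 y1)
    (h2 : (⟨a, 0, b, 0, 0⟩ : WeierstrassCurve F).toAffine.Nonsingular x2 y2)
    (h3 : (⟨a, 0, b, 0, 0⟩ : WeierstrassCurve F).toAffine.Nonsingular x3 y3)
    (h : Point.some x1 y1 h1 + Point.some x2 y2 h2 + Point.some x3 y3 h3 = 0) :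
    ∃ m c : F, y1 = m * x1 + c ∧ y2 = m * x2 + c ∧ y3 = m * x3 + c ∧
      x1 + x2 + x3 = m * (m + a) ∧ x1 * x2 + x2 * x3 + x3 * x1 = -(2 * m * c + m * b + a * c) ∧
      x1 * x2 * x3 = c * (c + b) := by
  have hR : Point.some x1 y1 h1 + Point.some x2 y2 h2 = -Point.some x3 y3 h3 := eq_neg_of_add_eq_zero_left h
  rw [Point.neg_some] at hR
  have hxy : ¬(x1 = x2 ∧ y1 = (⟨a, 0, b, 0, 0⟩ : WeierstrassCurve F).toAffine.negY x2 y2) := by
    intro hh
    rw [Point.add_of_Y_eq hh.1 hh.2] at hR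
    exact absurd hR.symm (Point.some_ne_zero _)
  rw [Point.add_some hxy, Point.some.injEq] at hR
  obtain ⟨q1, q2⟩ := hR
  obtain ⟨l, hl⟩ : ∃ l, l = (⟨a, 0, b, 0, 0⟩ : WeierstrassCurve F).toAffine.slope x1 x2 y1 y2 := ⟨_, rfl⟩
  have hy2 := kum_y2 (⟨a, 0, b, 0, 0⟩ : WeierstrassCurve F) h1.1 h2.1 hxy
  rw [← hl] at q1 q2 hy2
  obtain ⟨k1, k2, k3⟩ := kum_coef a b h1.1 h2.1 hxy hl q1.symm (rfl : y1 - l * x1 = y1 - l * x1)
  have hy3 : y3 = l * (x3 - x1) + y1 := by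
    simp only [addY, negAddY, negY, q1] at q2
    linear_combination q2
  refine ⟨l, y1 - l * x1, by ring, by rw [hy2]; ring, by rw [hy3]; ring, ?_, ?_, ?_⟩
  · linear_combination k1
  · linear_combination k2
  · linear_combination k3

end E8T3
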