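import Pool.Agent.E8T3.D4b
import Pool.Agent.E8T3.D4c
import Pool.Agent.E8T3.D4d
import Pool.Agent.E8T3.PTS

/-!
# [E8T3-Link] for `3 P₅ = P₃`: `y(P₅) η` is a cube
-/

set_option autoImplicit false

open WeierstrassCurve WeierstrassCurve.Affine

namespace E8T3

theorem link {p : ℕ} [hpF : Fact p.Prime] {K : Type*} [Field K] [Fintype K] [DecidableEq K]
    [CharP K p] (hK : Fintype.card K = p ^ 2) (h81 : 81 ∣ p + 1) {s θ : K}
    (hs : s ^ 6 + s ^ 3 + 1 = 0) (hsp : s ^ p = s⁻¹) (hθ : θ ^ 3 = 3) (hθp : θ ^ p = θ)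
    (h3 : (3 : K) ≠ 0) {P5 : (W (-(s ^ 3))).Point} (h : (3 : ℕ) • P5 = P3 h3 hs hθ)
    (hT : (3 : ℕ) • P3 h3 hs hθ = T h3 (pts_b0 hs) (pts_b1 hs))
    (h3T : (3 : ℕ) • T h3 (pts_b0 hs) (pts_b1 hs) = 0) :
    ∃ (x y : K) (n : (W (-(s ^ 3))).Nonsingular x y) (w : K), P5 = Point.some x y n ∧ y ≠ 0 ∧
      y * (1 + θ + (1 - s ^ 3) / θ) = w ^ 3 := by
  have hp : p.Prime := hpF.out
  have z3 : ∀ Q : (W (-(s ^ 3))).Point, (3 : ℤ) • Q = (3 : ℕ) • Q := fun Q => by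
    rw [← natCast_zsmul]
    norm_num
  obtain ⟨e, E, he, hE, I1, I2⟩ := d4c_main h3 hs hθ
  have hprod := d4c_prod h3 hs hθ
  have hb := pts_b0 hs
  have h0 : b0 s θ ≠ 0 := by
    intro h0
    rw [h0, zero_mul, zero_mul] at hprod
    exact hb hprod.symm
  have h1 : b1 s θ ≠ 0 := by
    intro h1
    rw [h1, mul_zero, zero_mul] at hprod
    exact hb hprod.symm
  have h2 : b2 s θ ≠ 0 := by
    intro h2
    rw [h2, mul_zero] at hprod
    exact hb hprod.symm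
  have h01 := d4c_01 h3 hs hθ
  have h02 := d4c_02 h3 hs hθ
  have hη := d4c_et h3 hs hθ
  -- Frobenius
  have hφs : frobenius K p s = s⁻¹ := by rw [frobenius_def, hsp]
  have hφθ : frobenius K p θ = θ := by rw [frobenius_def, hθp]
  have hg : frobenius K p (gg s θ) = gg s⁻¹ θ := by
    simp only [gg, map_div₀, map_add, map_one, map_inv₀, hφs, hφθ]
  have ha : frobenius K p (ga s θ) = ga s⁻¹ θ := by
    simp only [ga, map_div₀, map_mul, map_add, map_one, map_inv₀, map_pow, hφs, hg]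
  have f0 : frobenius K p (b0 s θ) = b0 s⁻¹ θ := by
    simp only [b0, map_add, map_one, hg, ha]
  have f1 : frobenius K p (b1 s θ) = b1 s⁻¹ θ := by
    simp only [b1, map_add, map_one, map_mul, map_pow, hg, ha, hφs]
  have f2 : frobenius K p (b2 s θ) = b2 s⁻¹ θ := by
    simp only [b2, map_add, map_one, map_mul, map_pow, hg, ha, hφs]
  have fη : frobenius K p (et s θ) = et s⁻¹ θ := by
    simp only [et, map_add, map_one, map_div₀, map_sub, map_pow, hφs, hφθ]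
  rcases P5 with _ | ⟨x, y, n⟩
  · exfalso
    rw [← Point.zero_def, smul_zero] at h
    exact absurd h (by simp [P3, pt])
  · refine ⟨x, y, n, ?_⟩
    have n3 : (W (-(s ^ 3))).Nonsingular (-(b0 s θ * b1 s θ)) (b0 s θ ^ 2 * b1 s θ) :=
      W_ns h3 (pts_b0 hs) (pts_b1 hs) (W_pt (pts3_eq h3 hs hθ))
    obtain ⟨hy, U, hU, key⟩ := d4_main (S := 3) (b := -(s ^ 3)) (d4c_sum h3 hs hθ).symm hprod.symm
      (d4c_R h3 hs hθ) h02 h01 h0 h1 h2 n n3 (T_ns h3 (pts_b0 hs) (pts_b1 hs))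
      ((z3 _).trans h) ((z3 _).trans hT) ((z3 _).trans h3T)
    obtain ⟨w, hw⟩ := d4_core hp hK h81 hs (frobenius K p) (fun x => frobenius_def p x) f0 f1 f2 fη
      key I1 I2 h0 h1 h01 h02 he hη hy hU
    exact ⟨w, rfl, hy, hw⟩

end E8T3
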