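import Pool.Agent.E8T3.RD

/-!
# [E8T3] row (d3): `f (f P) = 3 P`
-/

set_option autoImplicit false

open WeierstrassCurve WeierstrassCurve.Affine

namespace E8T3

variable {K : Type*} [Field K]

section add

variable [DecidableEq K] {b : K}

theorem add_ne' {x1 y1 x2 y2 x3 y3 l : K} {h1 : (W b).Nonsingular x1 y1} {h2 : (W b).Nonsingular x2 y2}
    (hx : x1 ≠ x2) (hl : l * (x1 - x2) = y1 - y2)
    (e1 : x3 = l ^ 2 + 3 * l - x1 - x2) (e2 : y3 = -(l * (x3 - x1) + y1) - 3 * x3 - b) :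
    ∃ h3 : (W b).Nonsingular x3 y3, Point.some _ _ h1 + Point.some _ _ h2 = Point.some _ _ h3 := by
  have hs : (W b).slope x1 x2 y1 y2 = l := by
    rw [WeierstrassCurve.Affine.slope_of_X_ne hx, div_eq_iff (sub_ne_zero.2 hx)]
    exact hl.symm
  have e3 : (W b).addX x1 x2 ((W b).slope x1 x2 y1 y2) = x3 := by
    rw [hs, addX_eq, e1]
  have e4 : (W b).addY x1 x2 y1 ((W b).slope x1 x2 y1 y2) = y3 := by
    rw [hs, addY_eq, ← e1, e2]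
  have h := nonsingular_add h1 h2 fun hxy => hx hxy.left
  rw [e3, e4] at h
  exact ⟨h, add_ne hx hl e1 e2⟩

theorem add_self' {x1 y1 x3 y3 l : K} {h1 : (W b).Nonsingular x1 y1}
    (hy : 2 * y1 + 3 * x1 + b ≠ 0) (hl : l * (2 * y1 + 3 * x1 + b) = 3 * x1 ^ 2 - 3 * y1)
    (e1 : x3 = l ^ 2 + 3 * l - x1 - x1) (e2 : y3 = -(l * (x3 - x1) + y1) - 3 * x3 - b) :
    ∃ h3 : (W b).Nonsingular x3 y3, Point.some _ _ h1 + Point.some _ _ h1 = Point.some _ _ h3 := by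
  have hy' : y1 ≠ (W b).negY x1 y1 := by
    rw [negY_eq]
    intro h
    exact hy (by linear_combination h)
  have hs : (W b).slope x1 x1 y1 y1 = l := by
    rw [WeierstrassCurve.Affine.slope_of_Y_ne rfl hy', negY_eq]
    show (3 * x1 ^ 2 + 2 * 0 * x1 + 0 - 3 * y1) / (y1 - (-y1 - 3 * x1 - b)) = l
    rw [div_eq_iff (by
      intro h
      exact hy (by linear_combination h))]
    linear_combination (-1) * hl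
  have e3 : (W b).addX x1 x1 ((W b).slope x1 x1 y1 y1) = x3 := by
    rw [hs, addX_eq, e1]
  have e4 : (W b).addY x1 x1 y1 ((W b).slope x1 x1 y1 y1) = y3 := by
    rw [hs, addY_eq, ← e1, e2]
  have h := nonsingular_add h1 h1 fun hxy => hy' hxy.right
  rw [e3, e4] at h
  exact ⟨h, add_self hy hl e1 e2⟩

variable (h3 : (3 : K) ≠ 0) (hb0 : b ≠ 0) (hb1 : b ≠ 1)

omit [DecidableEq K] in
include hb0 in
theorem m_ne {m0 m1 : K} (h : m0 * m1 * (3 - m0 - m1) = b) : m0 ≠ 0 ∧ m1 ≠ 0 ∧ 3 - m0 - m1 ≠ 0 := by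
  refine ⟨?_, ?_, ?_⟩ <;> intro h0 <;> apply hb0 <;> rw [← h, h0] <;> ring

/-- the double of a point -/
theorem dbl {m0 m1 m2 : K} (h : m0 * m1 * (3 - m0 - m1) = b) (hm : m2 = 3 - m0 - m1) (hd : m0 ≠ m1) :
    ∃ h2 : (W b).Nonsingular (-(m0 * m1 * ((m1 - m2) * (m2 - m0))) / (m0 - m1) ^ 2)
        (m0 * m1 ^ 2 * (m2 - m0) ^ 3 / (m0 - m1) ^ 3),
      pt h3 hb0 hb1 h + pt h3 hb0 hb1 h = Point.some _ _ h2 := by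
  obtain ⟨n0, n1, n2⟩ := m_ne hb0 h
  have hd' : m0 - m1 ≠ 0 := sub_ne_zero.2 hd
  refine add_self' (l := m0 * ((m1 - m2) - (m0 - m1)) / (m0 - m1)) ?_ ?_ ?_ ?_
  · have e : 2 * (m0 ^ 2 * m1) + 3 * (-(m0 * m1)) + b = m0 * m1 * (m0 - m1) := by
      rw [← h]
      ring
    rw [e]
    exact mul_ne_zero (mul_ne_zero n0 n1) hd'
  · rw [← h, hm]
    field_simp
    ring
  · rw [hm]
    field_simp
    ring
  · rw [← h, hm]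
    field_simp
    ring

set_option maxRecDepth 8000 in
/-- the triple of a point, `A B ≠ 0`, `m₀ ≠ m₁` -/
theorem trp {o A B A' B' : K} (ho : o ^ 2 + o + 1 = 0) {m0 m1 : K} (h : m0 * m1 * (3 - m0 - m1) = b)
    (e0 : m0 = 1 + A + B) (e1 : m1 = 1 + o * A + o ^ 2 * B) (hb : A ^ 3 + B ^ 3 - 3 * (A * B) + 1 = b)
    (hA : A ≠ 0) (hB : B ≠ 0)
    (hA' : 3 * (A * B) * A' = B ^ 3 + o * A ^ 3 + o ^ 2 * (1 - b))
    (hB' : 3 * (A * B) * B' = B ^ 3 + o ^ 2 * A ^ 3 + o * (1 - b)) (hd : m0 ≠ m1) :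
    ∃ hn : (W b).Nonsingular (-(A' * B')) (B' ^ 3),
      pt h3 hb0 hb1 h + (pt h3 hb0 hb1 h + pt h3 hb0 hb1 h) = Point.some _ _ hn := by
  obtain ⟨n0, n1, n2⟩ := m_ne hb0 h
  have hd' : m0 - m1 ≠ 0 := sub_ne_zero.2 hd
  obtain ⟨m2, hm⟩ : ∃ m2, m2 = 3 - m0 - m1 := ⟨_, rfl⟩
  have key : ∀ X2 Y2 : K, X2 = -(m0 * m1 * ((m1 - m2) * (m2 - m0))) / (m0 - m1) ^ 2 →
      Y2 = m0 * m1 ^ 2 * (m2 - m0) ^ 3 / (m0 - m1) ^ 3 →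
      ∃ h2 : (W b).Nonsingular X2 Y2, pt h3 hb0 hb1 h + pt h3 hb0 hb1 h = Point.some _ _ h2 := by
    rintro _ _ rfl rfl
    exact dbl h3 hb0 hb1 h hm hd
  have hm2 : m2 = 1 + o ^ 2 * A + o * B := by
    rw [hm, e0, e1]
    linear_combination (-(A + B)) * ho
  have h9 : (9 : K) ≠ 0 := by
    have : (9 : K) = 3 * 3 := by norm_num
    rw [this]
    exact mul_ne_zero h3 h3
  have hAB : A * B ≠ 0 := mul_ne_zero hA hB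
  obtain ⟨d2, hd2⟩ : ∃ d2, d2 = m0 - m1 := ⟨_, rfl⟩
  have nd2 : d2 ≠ 0 := by rw [hd2]; exact hd'
  obtain ⟨X2, hX2⟩ : ∃ X2, X2 = -(m0 * m1 * ((m1 - m2) * (m2 - m0))) / (m0 - m1) ^ 2 := ⟨_, rfl⟩
  obtain ⟨Y2, hY2⟩ : ∃ Y2, Y2 = m0 * m1 ^ 2 * (m2 - m0) ^ 3 / (m0 - m1) ^ 3 := ⟨_, rfl⟩
  have kX : X2 * d2 ^ 2 = -(m0 * m1 * ((m1 - m2) * (m2 - m0))) := by
    rw [hX2, hd2]
    field_simp
  have kY : Y2 * d2 ^ 3 = m0 * m1 ^ 2 * (m2 - m0) ^ 3 := by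
    rw [hY2, hd2]
    field_simp
  obtain ⟨n, hn⟩ : ∃ n, n = -o^2*A^4+o*A^3*B-3*A^2*B^2-3*A^2*B+o^2*A*B^3-3*A*B^2-o*B^4 := ⟨_, rfl⟩
  obtain ⟨l, hl⟩ : ∃ l, l = n / (A * B * d2) := ⟨_, rfl⟩
  have kl : A * B * d2 * l = n := by
    rw [hl]
    field_simp
  have hcb : 1 - b = 3*A*B-A^3-B^3 := by
    rw [← hb]
    ring
  rw [hcb] at hA' hB'
  have hdel : (m1 - m2) * (m2 - m0) - d2 ^ 2 + 9 * A * B = 0 := by
    rw [hd2, e1, hm2, e0]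
    linear_combination (-A^2*o^2+2*A^2*o-A^2+A*B*o^2-5*A*B*o+7*A*B-B^2*o^2+2*B^2*o-B^2) * ho
  have hx : -(m0 * m1) ≠ X2 := by
    intro hc
    have k : m0 * m1 * (9 * (A * B)) = 0 := by
      have : -(m0 * m1) * d2 ^ 2 = -(m0 * m1 * ((m1 - m2) * (m2 - m0))) := by
        rw [hc, kX]
      linear_combination m0 * m1 * hdel - this
    exact (mul_ne_zero (mul_ne_zero n0 n1) (mul_ne_zero h9 hAB)) k
  obtain ⟨h2, e2⟩ := key X2 Y2 hX2 hY2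
  rw [e2]
  refine add_ne' (l := l) hx ?_ ?_ ?_
  · refine mul_left_cancel₀ (mul_ne_zero hAB (pow_ne_zero 3 nd2)) ?_
    have e : A * B * d2 ^ 3 * (l * (-(m0 * m1) - X2)) =
        (A * B * d2 * l) * (-(m0 * m1) * d2 ^ 2 - X2 * d2 ^ 2) := by ring
    have e' : A * B * d2 ^ 3 * (m0 ^ 2 * m1 - Y2) = A * B * (m0 ^ 2 * m1 * d2 ^ 3 - Y2 * d2 ^ 3) := by ring
    rw [e, e', kl, kX, kY, hn, hd2, hm2, e0, e1]
    linear_combination (-(-A^8*o^5+2*A^8*o^4-A^8*o^3-2*A^7*B*o^6+3*A^7*B*o^5-2*A^7*B*o^2+A^7*B*o-A^7*o^5+A^7*o^4+A^7*o^3-A^7*o^2-2*A^6*B^2*o^7+A^6*B^2*o^6+2*A^6*B^2*o^5+2*A^6*B^2*o^4-2*A^6*B^2*o^3-3*A^6*B^2*o^2+2*A^6*B^2*o-2*A^6*B*o^6+2*A^6*B*o^5+2*A^6*B*o^3-A^6*B*o^2-2*A^6*B*o+A^6*B-A^6*o^4+2*A^6*o^3-A^6*o^2-A^5*B^3*o^8-A^5*B^3*o^7-A^5*B^3*o^6+8*A^5*B^3*o^5-A^5*B^3*o^4-6*A^5*B^3*o^3+A^5*B^3*o^2+A^5*B^3*o-2*A^5*B^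2*o^7+A^5*B^2*o^6-2*A^5*B^2*o^5+3*A^5*B^2*o^4+3*A^5*B^2*o^3+2*A^5*B^2*o^2-7*A^5*B^2*o+2*A^5*B^2-2*A^5*B*o^5+2*A^5*B*o^4+2*A^5*B*o^2-2*A^5*B*o-A^4*B^4*o^8-2*A^4*B^4*o^7+3*A^4*B^4*o^6+A^4*B^4*o^5+5*A^4*B^4*o^4-8*A^4*B^4*o^3+A^4*B^4*o^2+A^4*B^4*o-A^4*B^3*o^8+A^4*B^3*o^7-6*A^4*B^3*o^6+6*A^4*B^3*o^5-2*A^4*B^3*o^4+6*A^4*B^3*o^3+2*A^4*B^3*o^2-7*A^4*B^3*o+A^4*B^3-2*A^4*B^2*o^6+2*A^4*B^2*o^5-5*A^4*B^2*o^4+5*A^4*B^2*o^3+4*A^4*B^2*o^2-A^4*B^2*o-3*A^4*B^2-A^4*B*o^4+A^4*B*o^3+A^4*B*o-A^4*B-3*A^3*B^5*o^7+2*A^3*B^5*o^6+2*A^3*B^5*o^5+3*A^3*B^5*o^4-3*A^3*B^5*o^3-3*A^3*B^5*o^2+2*A^3*B^5*o-3*A^3*B^4*o^7+7*A^3*B^4*o^6-19*A^3*B^4*o^5+16*A^3*B^4*o^4+11*A^3*B^4*o^3-10*A^3*B^4*o^2-3*A^3*B^4*o+A^3*B^4-6*A^3*B^3*o^5+7*A^3*B^3*o^4-4*A^3*B^3*o^3+5*A^3*B^3*o^2+4*A^3*B^3*o-6*A^3*B^3-3*A^3*B^2*o^3+3*A^3*B^2*o^2+3*A^3*B^2*o-3*A^3*B^2-5*A^2*B^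6*o^6+10*A^2*B^6*o^5-5*A^2*B^6*o^4+A^2*B^6*o^3-2*A^2*B^6*o^2+A^2*B^6*o-6*A^2*B^5*o^6+8*A^2*B^5*o^5-8*A^2*B^5*o^4+16*A^2*B^5*o^3-8*A^2*B^5*o^2-4*A^2*B^5*o+2*A^2*B^5-4*A^2*B^4*o^5-2*A^2*B^4*o^4+12*A^2*B^4*o^3-5*A^2*B^4*o^2+2*A^2*B^4*o-3*A^2*B^4-3*A^2*B^3*o^3+3*A^2*B^3*o^2+3*A^2*B^3*o-3*A^2*B^3-2*A*B^7*o^5+4*A*B^7*o^4-2*A*B^7*o^3-A*B^6*o^6+2*A*B^6*o^4-2*A*B^6*o^3+4*A*B^6*o^2-4*A*B^6*o+A*B^6-A*B^5*o^6+A*B^5*o^5-A*B^5*o^4+A*B^5*o^3+2*A*B^5*o^2-2*A*B^5*o-A*B^4*o^4+A*B^4*o^3+A*B^4*o-A*B^4-B^8*o^5+2*B^8*o^4-B^8*o^3-B^7*o^5+2*B^7*o^4-2*B^7*o^3+2*B^7*o^2-B^7*o-B^6*o^3+2*B^6*o^2-B^6*o)) * ho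
  · refine mul_left_cancel₀ (mul_ne_zero h9 (pow_ne_zero 2 (mul_ne_zero hAB nd2))) ?_
    have e : 9 * (A * B * d2) ^ 2 * (-(A' * B')) = -(d2 ^ 2 * ((3 * (A * B) * A') * (3 * (A * B) * B'))) := by ring
    have e' : 9 * (A * B * d2) ^ 2 * (l ^ 2 + 3 * l - -(m0 * m1) - X2) =
        9 * ((A * B * d2 * l) ^ 2 + 3 * (A * B * d2) * (A * B * d2 * l) + (A * B) ^ 2 * d2 ^ 2 * (m0 * m1) -
          (A * B) ^ 2 * (X2 * d2 ^ 2)) := by ring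
    rw [e, e', kl, kX, hA', hB', hn, hd2, hm2, e0, e1]
    linear_combination (A^8*o^4-5*A^8*o^3+A^8*o^2+2*A^7*B*o^5-8*A^7*B*o^4+10*A^7*B*o^3+2*A^7*B*o^2+A^6*B^2*o^6-3*A^6*B^2*o^5+A^6*B^2*o^4+15*A^6*B^2*o^3-26*A^6*B^2*o^2-9*A^6*B^2*o-3*A^6*B*o^4+15*A^6*B*o^3-30*A^6*B*o^2+10*A^5*B^3*o^4-23*A^5*B^3*o^3+10*A^5*B^3*o^2+27*A^5*B^3*o-6*A^5*B^2*o^5+24*A^5*B^2*o^4-21*A^5*B^2*o^3-42*A^5*B^2*o^2+54*A^5*B^2*o-9*A^5*B^2+2*A^4*B^4*o^5-8*A^4*B^4*o^4-17*A^4*B^4*o^3+11*A^4*B^4*o^2+54*A^4*B^4*o-81*A^4*B^4-3*A^4*B^3*o^6+9*A^4*B^3*o^5+6*A^4*B^3*o^4-45*A^4*B^3*o^3+24*A^4*B^3*o^2+81*A^4*B^3*o-108*A^4*B^3-9*A^4*B^2*o^3+36*A^4*B^2*o^2-45*A^4*B^2*o-9*A^4*B^2+A^3*B^5*o^6-3*A^3*B^5*o^5-17*A^3*B^5*o^4+6*A^3*B^5*o^3+46*A^3*B^5*o^2-9*A^3*B^5*o-9*A^3*B^4*o^4+6*A^3*B^4*o^3-30*A^3*B^4*o^2+105*A^3*B^4*o-108*A^3*B^4-18*A^3*B^3*o^4+36*A^3*B^3*o^3-9*A^3*B^3*o^2-45*A^3*B^3*o-18*A^3*B^3-9*A^2*B^6*o^4-A^2*B^6*o^3+40*A^2*B^6*o^2-50*A^2*B^6*o-A^2*B^6+3*A^2*B^5*o^4-30*A^2*B^5*o^3+69*A^2*B^5*o^2-33*A^2*B^5*o-9*A^2*B^5-9*A^2*B^4*o^5+9*A^2*B^4*o^4+18*A^2*B^4*o^3-36*A^2*B^4*o^2-9*A^2*B^4-2*A*B^7*o^4+6*A*B^7*o^3-2*A*B^7*o^2+6*A*B^7*o-2*A*B^7+6*A*B^6*o^5-9*A*B^6*o^4-12*A*B^6*o^3+27*A*B^6*o^2-30*A*B^6*o-B^8*o^5+2*B^8*o^4+2*B^8*o^3-7*B^8*o^2+2*B^8*o-B^8)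 * ho
  · refine mul_left_cancel₀ (mul_ne_zero (mul_ne_zero (mul_ne_zero h9 h3) (pow_ne_zero 3 hAB)) nd2) ?_
    have e : 9 * 3 * (A * B) ^ 3 * d2 * B' ^ 3 = d2 * (3 * (A * B) * B') ^ 3 := by ring
    have e' : 9 * 3 * (A * B) ^ 3 * d2 * (-(l * (-(A' * B') - -(m0 * m1)) + m0 ^ 2 * m1) - 3 * -(A' * B') - b) =
        -((A * B * d2 * l) * (-3 * ((3 * (A * B) * A') * (3 * (A * B) * B')) + 27 * (A * B) ^ 2 * (m0 * m1)) +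
          27 * (A * B) ^ 3 * d2 * (m0 ^ 2 * m1)) +
          9 * ((3 * (A * B) * A') * (3 * (A * B) * B')) * (A * B) * d2 - 27 * (A * B) ^ 3 * d2 * b := by ring
    rw [e, e', kl, hA', hB', hn, hd2, ← hb, e0, e1]
    linear_combination (-A^10*o^5+2*A^10*o^4-A^10*o^3-A^9*B*o^6+4*A^9*B*o^5-5*A^9*B*o^4+2*A^9*B*o^3-9*A^8*B^2*o^2+3*A^7*B^3*o^4-15*A^7*B^3*o^3+3*A^7*B^3*o^2-27*A^7*B^3*o+27*A^7*B^3-9*A^7*B^2*o^5+18*A^7*B^2*o^4-27*A^7*B^2*o^2+3*A^6*B^4*o^5-12*A^6*B^4*o^4+15*A^6*B^4*o^3-24*A^6*B^4*o^2-27*A^6*B^4*o+27*A^6*B^4-54*A^6*B^3*o+27*A^6*B^3+27*A^6*B^2*o^3-27*A^6*B^2*o^2-36*A^5*B^5*o^2-9*A^5*B^4*o^4+18*A^5*B^4*o^3-45*A^5*B^4*o^2-81*A^5*B^4-27*A^5*B^3*o^3+54*A^5*B^3*o^2-54*A^5*B^3*o-27*A^5*B^3+3*A^4*B^6*o^4-9*A^4*B^6*o^3-9*A^4*B^6*o^2-30*A^4*B^6*o+27*A^4*B^6+9*A^4*B^5*o^4-18*A^4*B^5*o^3-54*A^4*B^5*o^2+27*A^4*B^5*o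-81*A^4*B^5+27*A^4*B^4*o-135*A^4*B^4+54*A^4*B^3*o^2-27*A^4*B^3*o-27*A^4*B^3-3*A^3*B^7*o^4+9*A^3*B^7*o^3-9*A^3*B^7*o^2-33*A^3*B^7*o+27*A^3*B^7-27*A^3*B^6*o^2-27*A^3*B^6*o+27*A^3*B^6-27*A^3*B^5*o^3-27*A^3*B^5*o^2+27*A^3*B^5*o-27*A^3*B^5+54*A^3*B^4*o^3-54*A^3*B^4*o^2+27*A^3*B^4*o-27*A^3*B^4-18*A^2*B^8*o+9*A^2*B^8+18*A^2*B^7*o^3-27*A^2*B^7*o^2-9*A^2*B^7*o-27*A^2*B^6*o^3+54*A^2*B^6*o^2-27*A^2*B^6*o-3*A*B^9*o^3+7*A*B^9*o^2-5*A*B^9*o+A*B^9-9*A*B^8*o^2+9*A*B^8*o+B^10*o^3-B^10*o^2-B^10*o+B^10) * ho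

/-- the triple of a two-torsion point (`m₀ = m₁`) -/
theorem trp_two {o A B A' B' : K} (ho : o ^ 2 + o + 1 = 0) {m0 m1 : K} (h : m0 * m1 * (3 - m0 - m1) = b)
    (e0 : m0 = 1 + A + B) (e1 : m1 = 1 + o * A + o ^ 2 * B) (hb : A ^ 3 + B ^ 3 - 3 * (A * B) + 1 = b)
    (hA : A ≠ 0) (hB : B ≠ 0)
    (hA' : 3 * (A * B) * A' = B ^ 3 + o * A ^ 3 + o ^ 2 * (1 - b))
    (hB' : 3 * (A * B) * B' = B ^ 3 + o ^ 2 * A ^ 3 + o * (1 - b)) (hd : m0 = m1) :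
    ∃ hn : (W b).Nonsingular (-(A' * B')) (B' ^ 3),
      pt h3 hb0 hb1 h + (pt h3 hb0 hb1 h + pt h3 hb0 hb1 h) = Point.some _ _ hn := by
  have ho1 : (1 - o) ≠ 0 := by
    intro h0
    have : o = 1 := by linear_combination -h0
    rw [this] at ho
    exact h3 (by linear_combination ho)
  have hBA : B = o * A := by
    -- `(1 - o) A + (1 - o²) B = 0`, `A = - (1 + o) B = o² B`
    have k : (1 - o) * (A - o ^ 2 * B) = 0 := by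
      rw [e0, e1] at hd
      linear_combination hd + (1 - o) * (-B) * ho
    rcases mul_eq_zero.1 k with k1 | k1
    · exact absurd k1 ho1
    · linear_combination (-o) * k1 + (1 - o) * B * ho
  have h9 : (3 * (A * B) : K) ≠ 0 := mul_ne_zero h3 (mul_ne_zero hA hB)
  have kA : A' = o ^ 2 * m0 := by
    refine mul_left_cancel₀ h9 ?_
    rw [hA', e0, ← hb, hBA]
    linear_combination (-A^3*o^3-2*A^3*o^2+A^3*o) * ho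
  have kB : B' = o * m0 := by
    refine mul_left_cancel₀ h9 ?_
    rw [hB', e0, ← hb, hBA]
    linear_combination (-A^3*o^2-A^3*o) * ho
  have ex : -(A' * B') = -(m0 * m1) := by
    rw [kA, kB, ← hd]
    linear_combination (-(m0 ^ 2) * (o - 1)) * ho
  have ey : B' ^ 3 = m0 ^ 2 * m1 := by
    rw [kB, ← hd]
    linear_combination (m0 ^ 3 * (o - 1)) * ho
  have hz : pt h3 hb0 hb1 h + pt h3 hb0 hb1 h = 0 := by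
    refine Point.add_self_of_Y_eq ?_
    rw [negY_eq, ← h, ← hd]
    ring
  rw [hz, add_zero]
  have key : ∀ X Y : K, X = -(m0 * m1) → Y = m0 ^ 2 * m1 →
      ∃ hn : (W b).Nonsingular X Y, pt h3 hb0 hb1 h = Point.some _ _ hn := by
    rintro _ _ rfl rfl
    exact ⟨W_ns h3 hb0 hb1 (W_pt h), rfl⟩
  exact key _ _ ex ey

/-- the triple of a point with `A B = 0` -/
theorem trp_zero {o A B : K} (ho : o ^ 2 + o + 1 = 0) {m0 m1 : K} (h : m0 * m1 * (3 - m0 - m1) = b)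
    (e0 : m0 = 1 + A + B) (e1 : m1 = 1 + o * A + o ^ 2 * B) (hb : A ^ 3 + B ^ 3 - 3 * (A * B) + 1 = b)
    (hAB : A * B = 0) :
    pt h3 hb0 hb1 h + (pt h3 hb0 hb1 h + pt h3 hb0 hb1 h) = 0 := by
  obtain ⟨n0, n1, n2⟩ := m_ne hb0 h
  obtain ⟨m2, hm⟩ : ∃ m2, m2 = 3 - m0 - m1 := ⟨_, rfl⟩
  have hm2 : m2 = 1 + o ^ 2 * A + o * B := by
    rw [hm, e0, e1]
    linear_combination (-(A + B)) * ho
  have ho1 : (1 - o) ≠ 0 := by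
    intro h0
    have : o = 1 := by linear_combination -h0
    rw [this] at ho
    exact h3 (by linear_combination ho)
  have hd : m0 ≠ m1 := by
    intro hd
    have k : (1 - o) * (A - o ^ 2 * B) = 0 := by
      rw [e0, e1] at hd
      linear_combination hd + (1 - o) * (-B) * ho
    rcases mul_eq_zero.1 k with k1 | k1
    · exact ho1 k1
    · rcases mul_eq_zero.1 hAB with hA | hB
      · have hB : B = 0 := by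
          have k2 : B = -(o * (A - o ^ 2 * B)) + o * A + (1 - o) * B * (o ^ 2 + o + 1) := by ring
          rw [k2, k1, ho, hA]
          ring
        apply hb1
        rw [← hb, hA, hB]
        ring
      · have hA : A = 0 := by
          rw [hB] at k1
          linear_combination k1
        apply hb1
        rw [← hb, hA, hB]
        ring
  have hd' : m0 - m1 ≠ 0 := sub_ne_zero.2 hd
  have key : ∀ X2 Y2 : K, X2 = -(m0 * m1 * ((m1 - m2) * (m2 - m0))) / (m0 - m1) ^ 2 →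
      Y2 = m0 * m1 ^ 2 * (m2 - m0) ^ 3 / (m0 - m1) ^ 3 →
      ∃ h2 : (W b).Nonsingular X2 Y2, pt h3 hb0 hb1 h + pt h3 hb0 hb1 h = Point.some _ _ h2 := by
    rintro _ _ rfl rfl
    exact dbl h3 hb0 hb1 h hm hd
  have hdel : (m1 - m2) * (m2 - m0) - (m0 - m1) ^ 2 + 9 * A * B = 0 := by
    rw [e1, hm2, e0]
    linear_combination (-A^2*o^2+2*A^2*o-A^2+A*B*o^2-5*A*B*o+7*A*B-B^2*o^2+2*B^2*o-B^2) * ho
  have hdel' : (m1 - m2) * (m2 - m0) = (m0 - m1) ^ 2 := by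
    linear_combination hdel - 9 * hAB
  have hcub : (m2 - m0) ^ 3 = (m0 - m1) ^ 3 := by
    linear_combination (-((m2 - m0) - (m0 - m1))) * hdel'
  obtain ⟨h2, e2⟩ := key (-(m0 * m1)) (m0 * m1 ^ 2) (by
    rw [hdel', eq_div_iff (pow_ne_zero 2 hd')]
    ring) (by
    rw [hcub, eq_div_iff (pow_ne_zero 3 hd')])
  rw [e2]
  refine Point.add_of_Y_eq rfl ?_
  rw [negY_eq, ← h]
  ring

theorem three_T : T h3 hb0 hb1 + (T h3 hb0 hb1 + T h3 hb0 hb1) = 0 := by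
  obtain ⟨h2, e2⟩ := add_self' (b := b) (x1 := 0) (y1 := 0) (x3 := 0) (y3 := -b) (l := 0)
    (h1 := T_ns h3 hb0 hb1) (by simpa using hb0) (by ring) (by ring) (by ring)
  rw [T, e2]
  refine Point.add_of_Y_eq rfl ?_
  rw [negY_eq]
  ring

omit [DecidableEq K] in
theorem neg_T : -(T h3 hb0 hb1) = Point.some 0 (-b) (W_ns h3 hb0 hb1 (W_eq.2 (by ring))) := by
  rw [T, Point.neg_some]
  have key : ∀ Y Z : K, Y = Z → ∀ (h1 : (W b).Nonsingular 0 Y) (h2 : (W b).Nonsingular 0 Z),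
      Point.some 0 Y h1 = Point.some 0 Z h2 := by
    rintro Y _ rfl h1 h2
    rfl
  exact key _ _ (by rw [negY_eq]; ring) _ _

include h3 hb0 hb1 in
theorem three_T' {y : K} (h : (W b).Nonsingular 0 y) :
    Point.some _ _ h + (Point.some _ _ h + Point.some _ _ h) = 0 := by
  have h1 := h.1
  rw [W_eq] at h1
  have h2 : y * (y + b) = 0 := by linear_combination h1
  rcases mul_eq_zero.1 h2 with h4 | h4
  · subst h4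
    exact three_T h3 hb0 hb1
  · have h5 : y = -b := by linear_combination h4
    subst h5
    have h6 := congrArg Neg.neg (three_T h3 hb0 hb1)
    rw [neg_add, neg_add, neg_T, neg_zero] at h6
    exact h6

end add

section frob

variable {p : ℕ} [Fact p.Prime] [CharP K p] {o b : K}

omit [Fact p.Prime] [CharP K p] in
theorem f_zero : f p o b 0 = 0 := rfl

theorem r3_fr (x : K) : frobenius K p x = x ^ p := rfl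

/-- the Frobenius image of a point of `E_(1-b)` is on `E_b` -/
theorem r3_eq (hbp : b ^ p = 1 - b) {X Y : K} (h : (W (1 - b)).Equation X Y) :
    (W b).Equation (X ^ p) (Y ^ p) := by
  rw [W_eq] at h ⊢
  have h1 := congrArg (frobenius K p) h
  rw [map_add, map_add, map_mul, map_mul, map_mul, map_sub, map_pow, map_pow, map_one, map_ofNat, r3_fr, r3_fr,
    r3_fr, hbp] at h1
  linear_combination h1

theorem r3_some (ho : o ^ 2 + o + 1 = 0) (h3 : (3 : K) ≠ 0) (hbp : b ^ p = 1 - b) (hb0 : b ≠ 0) (hb1 : b ≠ 1)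
    {x y : K} (h : (W b).Nonsingular x y) (hx : x ≠ 0) :
    ∃ hn : (W b).Nonsingular ((-(aA o b x y * aB o b x y)) ^ p) ((aB o b x y ^ 3) ^ p),
      f p o b (Point.some _ _ h) = Point.some _ _ hn := by
  have hn := W_ns h3 hb0 hb1 (r3_eq hbp (al_eq ho h3 hb0 hx h.1))
  refine ⟨hn, ?_⟩
  rw [f, dif_pos ⟨hx, hn⟩]

/-- `A` of a Frobenius image -/
theorem r3_A (hop : o ^ p = o ^ 2) (ho : o ^ 2 + o + 1 = 0) (hbp : b ^ p = 1 - b) (X Y : K) :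
    aA o b (X ^ p) (Y ^ p) = aA (o ^ 2) (1 - b) X Y ^ p := by
  have e1 : frobenius K p (o ^ 2) = o := by
    rw [map_pow, r3_fr, hop]
    linear_combination o * (o - 1) * ho
  have e2 : frobenius K p b = 1 - b := hbp
  rw [← r3_fr (p := p) (aA (o ^ 2) (1 - b) X Y), aA, aA]
  simp only [map_add, map_div₀, map_mul, map_neg, map_pow, map_sub, map_one, map_ofNat, e2, r3_fr] at e1 ⊢
  rw [e1]
  ring

theorem r3_B (hop : o ^ p = o ^ 2) (ho : o ^ 2 + o + 1 = 0) (hbp : b ^ p = 1 - b) (X Y : K) :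
    aB o b (X ^ p) (Y ^ p) = aB (o ^ 2) (1 - b) X Y ^ p := by
  have e1 : frobenius K p (o ^ 2) = o := by
    rw [map_pow, r3_fr, hop]
    linear_combination o * (o - 1) * ho
  have e2 : frobenius K p b = 1 - b := hbp
  rw [← r3_fr (p := p) (aB (o ^ 2) (1 - b) X Y), aB, aB]
  simp only [map_add, map_div₀, map_mul, map_neg, map_pow, map_sub, map_one, map_ofNat, e2, r3_fr] at e1 ⊢
  rw [e1]
  ring

/-- **row (d3)**: `f (f P) = 3 P` -/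
theorem rho_rho [DecidableEq K] (ho : o ^ 2 + o + 1 = 0) (hop : o ^ p = o ^ 2) (hK : ∀ x : K, (x ^ p) ^ p = x)
    (h3 : (3 : K) ≠ 0) (hbp : b ^ p = 1 - b) (hb0 : b ≠ 0) (hb1 : b ≠ 1) (P : (W b).Point) :
    f p o b (f p o b P) = (3 : ℕ) • P := by
  have e3 : (3 : ℕ) • P = P + (P + P) := by
    rw [show (3 : ℕ) = 1 + (1 + 1) from rfl, add_nsmul, add_nsmul, one_nsmul]
  rw [e3]
  match P with
  | Point.zero =>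
    show f p o b (f p o b 0) = 0 + (0 + 0)
    rw [f_zero, f_zero, add_zero, add_zero]
  | Point.some x y h =>
    by_cases hx : x = 0
    · subst hx
      rw [three_T' h3 hb0 hb1 h, f, dif_neg (fun hc => hc.1 rfl), f_zero]
    obtain ⟨hn, e1⟩ := r3_some (p := p) ho h3 hbp hb0 hb1 h hx
    rw [e1]
    obtain ⟨m0, m1, hm, rfl, rfl, -⟩ := W_m hx h.1
    obtain ⟨-, -, k0, k1⟩ := aAB_m ho h3 hb0 hm
    have kb := aAB_eq ho h3 hb0 hx h.1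
    have hpt : Point.some _ _ h = pt h3 hb0 hb1 hm := rfl
    rw [hpt]
    set A := aA o b (-(m0 * m1)) (m0 ^ 2 * m1) with hA
    set B := aB o b (-(m0 * m1)) (m0 ^ 2 * m1) with hB
    by_cases hAB : A * B = 0
    · rw [trp_zero h3 hb0 hb1 ho hm k0.symm k1.symm kb hAB, f, dif_neg]
      rintro ⟨hc, -⟩
      rw [hAB, neg_zero, zero_pow (Fact.out : p.Prime).ne_zero] at hc
      exact hc rfl
    have hX : (-(A * B)) ^ p ≠ 0 := pow_ne_zero _ (neg_ne_zero.2 hAB)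
    have nA : A ≠ 0 := left_ne_zero_of_mul hAB
    have nB : B ≠ 0 := right_ne_zero_of_mul hAB
    obtain ⟨hn2, e2⟩ := r3_some (p := p) ho h3 hbp hb0 hb1 hn hX
    rw [e2]
    have c1 : 1 - b = 3 * (A * B) - A ^ 3 - B ^ 3 := by
      linear_combination kb
    have hA' : 3 * (A * B) * aA (o ^ 2) (1 - b) (-(A * B)) (B ^ 3) = B ^ 3 + o * A ^ 3 + o ^ 2 * (1 - b) := by
      rw [aA, c1]
      field_simp
      linear_combination (o * (o - 1) * A ^ 3) * ho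
    have hB' : 3 * (A * B) * aB (o ^ 2) (1 - b) (-(A * B)) (B ^ 3) = B ^ 3 + o ^ 2 * A ^ 3 + o * (1 - b) := by
      rw [aB, c1]
      field_simp
      linear_combination (o * (o - 1) * (3 * A * B - A ^ 3 - B ^ 3)) * ho
    have key : ∃ hn : (W b).Nonsingular
        (-(aA (o ^ 2) (1 - b) (-(A * B)) (B ^ 3) * aB (o ^ 2) (1 - b) (-(A * B)) (B ^ 3)))
        (aB (o ^ 2) (1 - b) (-(A * B)) (B ^ 3) ^ 3),
      pt h3 hb0 hb1 hm + (pt h3 hb0 hb1 hm + pt h3 hb0 hb1 hm) = Point.some _ _ hn := by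
      by_cases hd : m0 = m1
      · exact trp_two h3 hb0 hb1 ho hm k0.symm k1.symm kb nA nB hA' hB' hd
      · exact trp h3 hb0 hb1 ho hm k0.symm k1.symm kb nA nB hA' hB' hd
    obtain ⟨hn3, e3⟩ := key
    rw [e3]
    have l1 : (-(aA o b ((-(A * B)) ^ p) ((B ^ 3) ^ p) * aB o b ((-(A * B)) ^ p) ((B ^ 3) ^ p))) ^ p =
        -(aA (o ^ 2) (1 - b) (-(A * B)) (B ^ 3) * aB (o ^ 2) (1 - b) (-(A * B)) (B ^ 3)) := by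
      rw [r3_A hop ho hbp, r3_B hop ho hbp, ← mul_pow, ← r3_fr (p := p), map_neg, r3_fr, hK]
    have l2 : (aB o b ((-(A * B)) ^ p) ((B ^ 3) ^ p) ^ 3) ^ p = aB (o ^ 2) (1 - b) (-(A * B)) (B ^ 3) ^ 3 := by
      rw [r3_B hop ho hbp, ← pow_mul, mul_comm 3 p, pow_mul, hK]
    have gen : ∀ X Y X' Y' : K, X = X' → Y = Y' → ∀ (h1 : (W b).Nonsingular X Y) (h2 : (W b).Nonsingular X' Y'),
        Point.some X Y h1 = Point.some X' Y' h2 := by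
      rintro X Y _ _ rfl rfl h1 h2
      rfl
    exact gen _ _ _ _ l1 l2 _ _

end frob

end E8T3
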