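import Pool.Agent.E8T3.R2b
import Pool.Agent.E8T3.R3
import Pool.Agent.E8T3.PTS
import Pool.Agent.E8T3.Kum
import Pool.Agent.E8T3.Grp1
import Pool.Agent.E8T3.CountGs
import Pool.Agent.E8T3.D4e
import Pool.Agent.E8T3.D6
import Pool.Agent.E8T3.Link

/-!
# [E8T3-Final] the coefficient of `η(3z) η(9z)² η(27z)` at a prime `p`, `81 ∣ p + 1`, modulo `27`
-/

set_option autoImplicit false

open PowerSeries
open WeierstrassCurve WeierstrassCurve.Affine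

namespace E8T3


/-- `f` is invariant under translation by `T`. -/
theorem fin_add_T {K : Type*} [Field K] {p : ℕ} [Fact p.Prime] [CharP K p] [DecidableEq K] {o b : K}
    (ho : o ^ 2 + o + 1 = 0) (h3 : (3 : K) ≠ 0) (hbp : b ^ p = 1 - b) (hb0 : b ≠ 0) (hb1 : b ≠ 1)
    (P : (W b).Point) : f p o b (P + T h3 hb0 hb1) = f p o b P := by
  have hT : f p o b (T h3 hb0 hb1) = 0 := r2_x0 _
  have hnT : f p o b (-T h3 hb0 hb1) = 0 := by
    have h1 : (W b).Nonsingular 0 (-b) := W_ns h3 hb0 hb1 (W_eq.2 (by ring))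
    have e1 : -T h3 hb0 hb1 = Point.some _ _ h1 := by
      rw [T, Point.neg_some]
      simp only [Point.some.injEq, true_and]
      rw [negY_eq]
      ring
    rw [e1]
    exact r2_x0 _
  rcases P with _ | ⟨x, y, hP⟩
  · rw [← Point.zero_def, zero_add, hT]
    rfl
  · by_cases hx : x = 0
    · subst hx
      rw [r2_x0 hP]
      rcases r2_ker h3 hb0 hb1 hP with h | h
      · rw [h, T_add_T, hnT]
      · rw [h, neg_add_cancel]
        rfl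
    · obtain ⟨m0, m1, hm, rfl, rfl, -⟩ := W_m hx hP.1
      obtain ⟨-, -, a0, a1⟩ := aAB_m ho h3 hb0 hm
      have ho3 : o ^ 3 = 1 := by linear_combination (o - 1) * ho
      have a2 : 3 - m0 - m1 = 1 + o ^ 2 * aA o b (-(m0 * m1)) (m0 ^ 2 * m1) +
          o * aB o b (-(m0 * m1)) (m0 ^ 2 * m1) := by
        have := r2_m (A := aA o b (-(m0 * m1)) (m0 ^ 2 * m1)) (B := aB o b (-(m0 * m1)) (m0 ^ 2 * m1)) ho
        rwa [a0, a1] at this
      have eP : Point.some _ _ hP = pt h3 hb0 hb1 hm := rfl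
      rw [r2_some ho h3 hbp hb0 hb1 hx, eP, pt_add_T h3 hb0 hb1 hm rfl]
      refine f_AB p ho h3 hb0 hb1 (A := o ^ 2 * aA o b (-(m0 * m1)) (m0 ^ 2 * m1))
        (B := o * aB o b (-(m0 * m1)) (m0 ^ 2 * m1)) _ ?_ ?_ _ ?_ ?_
      · rw [a2]
      · conv_lhs => rw [← a0]
        linear_combination (-(aA o b (-(m0 * m1)) (m0 ^ 2 * m1)) -
          aB o b (-(m0 * m1)) (m0 ^ 2 * m1)) * ho3
      · congr 1
        linear_combination (-(aA o b (-(m0 * m1)) (m0 ^ 2 * m1) *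
          aB o b (-(m0 * m1)) (m0 ^ 2 * m1))) * ho3
      · congr 1
        linear_combination (aB o b (-(m0 * m1)) (m0 ^ 2 * m1) ^ 3) * ho3

/-- A chain `ρ P₂ = T`, `ρ P₃ = P₂`, `ρ P₄ = P₃`: the group has a subgroup `ℤ/9 × ℤ/9`. -/
theorem grp_81 {G : Type*} [AddCommGroup G] [Finite G] (ρ : G → G) {T P2 P3 P4 : G} (hT0 : T ≠ 0)
    (hT : ρ T = 0) (h3 : ∀ x : G, ρ (ρ x) = (3 : ℕ) • x) (hinv : ∀ x : G, ρ (x + T) = ρ x)
    (hP2 : ρ P2 = T) (hP3 : ρ P3 = P2) (hP4 : ρ P4 = P3) : 3 ^ 4 ∣ Nat.card G := by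
  have h0 : ρ 0 = 0 := by
    have := hinv 0
    rw [zero_add, hT] at this
    exact this.symm
  have h3' : ∀ x : G, ρ (ρ x) = (3 : ℤ) • x := fun x => by rw [h3]; exact (natCast_zsmul x 3).symm
  have h3T : (3 : ℤ) • T = 0 := by rw [← h3', hT, h0]
  have h3P2 : (3 : ℤ) • P2 = 0 := by rw [← h3', hP2, hT]
  have h3P3 : (3 : ℤ) • P3 = T := by rw [← h3', hP3, hP2]
  have h3P4 : (3 : ℤ) • P4 = P2 := by rw [← h3', hP4, hP3]
  have hom : ∀ (n : ℕ) (P : G), (n : ℤ) • P = 0 → ∃ f : ZMod n →+ G, ∀ i : ℤ, f (i : ZMod n) = i • P := by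
    intro n P hP
    refine ⟨ZMod.lift n ⟨zmultiplesHom G P, by
      rw [zmultiplesHom_apply]
      exact hP⟩, fun i => ?_⟩
    rw [ZMod.lift_coe]
    rw [zmultiplesHom_apply]
  obtain ⟨f, hf⟩ := hom 9 P4 (by
    have : ((9 : ℕ) : ℤ) • P4 = (3 : ℤ) • (3 : ℤ) • P4 := by
      rw [smul_smul]
      norm_num
    rw [this, h3P4, h3P2])
  obtain ⟨g, hg⟩ := hom 9 P3 (by
    have : ((9 : ℕ) : ℤ) • P3 = (3 : ℤ) • (3 : ℤ) • P3 := by
      rw [smul_smul]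
      norm_num
    rw [this, h3P3, h3T])
  let φ : ZMod 9 × ZMod 9 →+ G := f.coprod g
  have hinj : Function.Injective φ := by
    rw [injective_iff_map_eq_zero]
    rintro ⟨x, y⟩ hxy
    obtain ⟨a, rfl⟩ := ZMod.intCast_surjective x
    obtain ⟨b, rfl⟩ := ZMod.intCast_surjective y
    rw [AddMonoidHom.coprod_apply, hf, hg] at hxy
    have hin : ∀ {c d : ℤ}, c • P2 + d • T = 0 → (3 : ℤ) ∣ c ∧ (3 : ℤ) ∣ d :=
      fun h => grp_indep ρ hT0 hT h3T h3P2 hinv hP2 h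
    have k1 : a • P2 + b • T = 0 := by
      have e : (3 : ℤ) • (a • P4 + b • P3) = a • P2 + b • T := by
        rw [smul_add, smul_comm (3 : ℤ) a, smul_comm (3 : ℤ) b, h3P4, h3P3]
      rw [← e, hxy, smul_zero]
    obtain ⟨⟨a1, rfl⟩, ⟨b1, rfl⟩⟩ := hin k1
    have e2 : (3 * a1) • P4 + (3 * b1) • P3 = a1 • P2 + b1 • T := by
      rw [mul_comm 3 a1, mul_comm 3 b1, mul_smul, mul_smul, h3P4, h3P3]
    rw [e2] at hxy
    obtain ⟨⟨a2, rfl⟩, ⟨b2, rfl⟩⟩ := hin hxy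
    refine Prod.ext ?_ ?_
    · exact (ZMod.intCast_zmod_eq_zero_iff_dvd _ 9).2 ⟨a2, by push_cast; ring⟩
    · exact (ZMod.intCast_zmod_eq_zero_iff_dvd _ 9).2 ⟨b2, by push_cast; ring⟩
  have h := AddSubgroup.card_dvd_of_injective φ hinj
  rwa [Nat.card_prod, Nat.card_zmod, show 9 * 9 = 3 ^ 4 by norm_num] at h

/-! ### arithmetic -/

theorem fin_arith4 {n b z : ℤ} (hn : n = 81 * z) (h : (3 : ℤ) ^ 4 ∣ n ^ 2 - 3 * b ^ 2) : (9 : ℤ) ∣ b := by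
  obtain ⟨d, hd⟩ := h
  subst hn
  have h0 : b ^ 2 = 3 * (729 * z ^ 2 - 9 * d) := by linarith
  have h1 : (3 : ℤ) ∣ b := Int.Prime.dvd_pow' Nat.prime_three ⟨_, h0⟩
  obtain ⟨c, rfl⟩ := h1
  have h2 : c ^ 2 = 3 * (81 * z ^ 2 - d) := by linarith
  have h3 : (3 : ℤ) ∣ c := Int.Prime.dvd_pow' Nat.prime_three ⟨_, h2⟩
  obtain ⟨e, rfl⟩ := h3
  exact ⟨e, by ring⟩

theorem fin_arith {n b z : ℤ} (hn : n = 81 * z) (hb : (9 : ℤ) ∣ b) :
    (3 : ℤ) ^ 5 ∣ n ^ 2 - 3 * b ^ 2 ∧ ((27 : ℤ) ∣ b ↔ (3 : ℤ) ^ 6 ∣ n ^ 2 - 3 * b ^ 2) := by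
  obtain ⟨c, rfl⟩ := hb
  subst hn
  refine ⟨⟨27 * z ^ 2 - c ^ 2, by ring⟩, ?_, ?_⟩
  · rintro ⟨d, hd⟩
    have hc : c = 3 * d := by omega
    subst hc
    exact ⟨9 * z ^ 2 - 3 * d ^ 2, by ring⟩
  · rintro ⟨d, hd⟩
    have h1 : (3 : ℤ) ∣ c ^ 2 := ⟨9 * z ^ 2 - d, by linarith⟩
    have h2 : (3 : ℤ) ∣ c := Int.Prime.dvd_pow' Nat.prime_three h1
    obtain ⟨e, rfl⟩ := h2
    exact ⟨e, by ring⟩

theorem fin_finite {K : Type*} [Field K] [Finite K] (b : K) : Finite (W b).Point := by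
  refine Finite.of_injective (β := Option (K × K))
    (fun P => match P with
      | Point.zero => none
      | Point.some x y _ => some (x, y)) ?_
  rintro (_ | ⟨x, y, h⟩) (_ | ⟨x', y', h'⟩) hh
  · rfl
  · exact absurd hh (by simp)
  · exact absurd hh (by simp)
  · simp only [Option.some.injEq, Prod.mk.injEq] at hh
    obtain ⟨rfl, rfl⟩ := hh
    rfl

/-- The points with `y` a cube form a subgroup. -/
theorem fin_sub {K : Type*} [Field K] [DecidableEq K] {b c : K} (hc : c ≠ 0) (hb : b = c ^ 3) :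
    ∃ S : AddSubgroup (W b).Point, ∀ P : (W b).Point,
      P ∈ S ↔ P = 0 ∨ ∃ x y h d, P = Point.some x y h ∧ y = d ^ 3 := by
  subst hb
  refine ⟨kumS 3 c hc, fun P => ?_⟩
  rcases P with _ | ⟨x, y, h⟩
  · exact ⟨fun _ => Or.inl rfl, fun _ => trivial⟩
  · constructor
    · rintro ⟨d, hd⟩
      exact Or.inr ⟨x, y, h, d, rfl, hd⟩
    · rintro (h1 | ⟨x', y', h', d, h1, hd⟩)
      · exact absurd h1 (Point.some_ne_zero _)
      · obtain ⟨rfl, rfl⟩ := (Point.some.injEq _ _ _ _ _ _).mp h1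
        exact ⟨d, hd⟩

/-- **The governing cubic.** For a prime `p` with `81 ∣ p + 1` the coefficient of `X ^ p` of
`X² E(X³) E(X⁹)² E(X²⁷)` is divisible by `9`, and it is divisible by `27` if and only if
`(x³ - 3 x + 1)³ - 24` has a root modulo `p`. -/
theorem final {p : ℕ} (hp : p.Prime) (h81 : 81 ∣ p + 1) :
    (9 : ℤ) ∣ coeff p Gs ∧
      ((27 : ℤ) ∣ coeff p Gs ↔ ∃ x : ZMod p, (x ^ 3 - 3 * x + 1) ^ 3 = 24) := by
  have : Fact p.Prime := ⟨hp⟩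
  obtain ⟨z, hz⟩ := h81
  have h9 : p % 9 = 8 := by omega
  have hp3 : p % 3 = 2 := by omega
  have hp2 : p ≠ 2 := by omega
  have h81 : 81 ∣ p + 1 := ⟨z, hz⟩
  have h27 : 27 ∣ p + 1 := dvd_trans (by norm_num) h81
  obtain ⟨K, fK, ftK, dK, cK, hK⟩ := exists_K p
  obtain ⟨s, θ, hs, hsp, hθ, hθp⟩ := exists_s (K := K) hp h9 hK
  have h3 : (3 : K) ≠ 0 := three_ne hp hp3 hK
  have ho := pts_o hs
  have hs0 := pts_s0 hs
  have hb0 := pts_b0 hs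
  have hb1 := pts_b1 hs
  have hop : (s ^ 3) ^ p = (s ^ 3) ^ 2 := by
    have h1 : (s ^ 3) ^ p * s ^ 3 = 1 := by
      rw [← pow_mul, mul_comm 3 p, pow_mul, hsp, ← mul_pow, inv_mul_cancel₀ hs0, one_pow]
    have h2 : s ^ 3 * (s ^ 3) ^ 2 = 1 := by linear_combination (s ^ 3 - 1) * hs
    calc (s ^ 3) ^ p = (s ^ 3) ^ p * (s ^ 3 * (s ^ 3) ^ 2) := by rw [h2, mul_one]
      _ = ((s ^ 3) ^ p * s ^ 3) * (s ^ 3) ^ 2 := by ring
      _ = (s ^ 3) ^ 2 := by rw [h1, one_mul]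
  have hodd : Odd p := hp.odd_of_ne_two hp2
  have hbp : (-(s ^ 3)) ^ p = 1 - -(s ^ 3) := by
    rw [hodd.neg_pow, hop]
    linear_combination (-1) * hs
  have hKK : ∀ x : K, (x ^ p) ^ p = x := fun x => fr_fr hK x
  -- the group
  have hfin : Finite (W (-(s ^ 3))).Point := fin_finite _
  have hT0 : T h3 hb0 hb1 ≠ 0 := Point.some_ne_zero _
  have hT : f p (s ^ 3) (-(s ^ 3)) (T h3 hb0 hb1) = 0 := r2_x0 _
  have h33 : ∀ P : (W (-(s ^ 3))).Point, f p (s ^ 3) (-(s ^ 3)) (f p (s ^ 3) (-(s ^ 3)) P) = (3 : ℕ) • P :=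
    fun P => rho_rho ho hop hKK h3 hbp hb0 hb1 P
  have hinv : ∀ P : (W (-(s ^ 3))).Point, f p (s ^ 3) (-(s ^ 3)) (P + T h3 hb0 hb1) = f p (s ^ 3) (-(s ^ 3)) P :=
    fun P => fin_add_T ho h3 hbp hb0 hb1 P
  have hfib : ∀ P P' : (W (-(s ^ 3))).Point, f p (s ^ 3) (-(s ^ 3)) P = f p (s ^ 3) (-(s ^ 3)) P' →
      P' - P = 0 ∨ P' - P = T h3 hb0 hb1 ∨ P' - P = -T h3 hb0 hb1 :=
    fun P P' h => f_fib ho h3 hbp hb0 hb1 h
  have hP2 := f_P2 p hp.ne_zero h3 hs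
  have hP3 := f_P3 p hp2 h3 hs hθ hsp
  obtain ⟨P4, hP4⟩ : ∃ P4, f p (s ^ 3) (-(s ^ 3)) P4 = P3 h3 hs hθ :=
    (f_range ho hop hKK h3 rfl rfl hbp hb0 hb1 _).2 (Or.inr (P3_cube hK h27 hs hsp hθ hθp h3))
  have d4 := grp_81 _ hT0 hT h33 hinv hP2 hP3 hP4
  -- the number of points
  have hz' : (p : ℤ) + 1 = 81 * z := by
    have : p + 1 = 81 * z := hz
    exact_mod_cast this
  have hN : (Nat.card (W (-(s ^ 3))).Point : ℤ) = ((p : ℤ) + 1) ^ 2 - 3 * (coeff p Gs) ^ 2 :=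
    card_Gs hp hp3 hp2 hK ho
  have hb9 : (9 : ℤ) ∣ coeff p Gs := by
    refine fin_arith4 hz' ?_
    rw [← hN]
    exact_mod_cast d4
  obtain ⟨e5, e6⟩ := fin_arith hz' hb9
  rw [← hN] at e5 e6
  have d5 : 3 ^ 5 ∣ Nat.card (W (-(s ^ 3))).Point := by exact_mod_cast e5
  have d6 : (27 : ℤ) ∣ coeff p Gs ↔ 3 ^ 6 ∣ Nat.card (W (-(s ^ 3))).Point := by
    rw [e6]
    constructor
    · intro h
      exact_mod_cast h
    · intro h
      exact_mod_cast h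
  obtain ⟨P5, hP5⟩ := grp_G1 _ hT0 hT h33 hinv hfib hP2 hP3 d5
  obtain ⟨S, hS⟩ := fin_sub (b := -(s ^ 3)) (c := -s) (neg_ne_zero.2 hs0) (by ring)
  have hS' : ∀ P : (W (-(s ^ 3))).Point, P ∈ S ↔ ∃ Q, f p (s ^ 3) (-(s ^ 3)) Q = P := fun P => by
    rw [hS, f_range ho hop hKK h3 rfl rfl hbp hb0 hb1 P]
  have g2 := grp_G2 _ S hS' hT0 hT h33 hinv hfib hP2 hP3 hP5
  have h3P3 : (3 : ℕ) • P3 h3 hs hθ = T h3 hb0 hb1 := by rw [← h33, hP3, hP2]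
  have h3T : (3 : ℕ) • T h3 hb0 hb1 = 0 := by
    rw [← h33, hT]
    rfl
  obtain ⟨x5, y5, n5, w, hP, hy, hw⟩ := link hK h81 hs hsp hθ hθp h3 hP5 h3P3 h3T
  -- the cube
  let _ := ZMod.algebra K p
  have hKn : Nat.card K = p ^ 2 := by rw [Nat.card_eq_fintype_card, hK]
  obtain ⟨θ0, hθ0⟩ := mem_zmod (p := p) hθp
  have hθ3 : θ0 ^ 3 = 3 := by
    apply (algebraMap (ZMod p) K).injective
    rw [map_pow, hθ0, hθ, map_ofNat]
  have g3 := eta_cube_iff (K := K) h9 hKn ho hθ3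
  rw [hθ0] at g3
  refine ⟨hb9, ?_⟩
  rw [d6, g2, ← g3, hS]
  constructor
  · rintro (h | ⟨x, y, h, d, h1, hd⟩)
    · rw [hP] at h
      exact absurd h (Point.some_ne_zero _)
    · rw [hP] at h1
      obtain ⟨rfl, rfl⟩ := (Point.some.injEq _ _ _ _ _ _).mp h1
      have hd0 : d ≠ 0 := by
        rintro rfl
        exact hy (by rw [hd]; ring)
      refine ⟨w / d, ?_⟩
      rw [div_pow, ← hw, hd, eta]
      field_simp
  · rintro ⟨v, hv⟩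
    refine Or.inr ⟨x5, y5, n5, w / v, hP, ?_⟩
    have hv0 : v ≠ 0 := by
      rintro rfl
      refine (eta_e ho hθ ?_).1 (by rw [← hv]; ring)
      rintro rfl
      exact h3 (by rw [← hθ]; ring)
    rw [div_pow, ← hw, hv, eta]
    rw [eta] at hv
    rw [mul_div_assoc, div_self, mul_one]
    rw [← hv]
    exact pow_ne_zero 3 hv0

end E8T3
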