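import Pool.Agent.E8T.C4
import Pool.Agent.T5X.A3

/-!
# [E8T3-G] the newform of level 81 as a quotient of theta series of `ℤ[ω]`

`b(q) = A - 3 C = E³ / E(X³)`, `C = X E(X⁹)³ / E(X³)`, hence
`g = X² E(X³) E(X⁹)² E(X²⁷)` satisfies `g b(q⁹) = C² b(q³)`.
-/

set_option autoImplicit false

open PowerSeries
open N19 (ex)
open T5X (E)
open E8T (As Cs aS c3)

namespace E8T3

/-- `g = η(3z) η(9z)² η(27z) = X² E(X³) E(X⁹)² E(X²⁷)` -/
noncomputable def Gs : PowerSeries ℤ := X ^ 2 * (ex 3 E * ex 9 E ^ 2 * ex 27 E)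

/-- `b(q) = A - 3 C` -/
noncomputable def Bs : PowerSeries ℤ := As - 3 * Cs

theorem g_cc_ex {k : ℕ} (f : PowerSeries ℤ) : constantCoeff (ex k f) = constantCoeff f := by
  rw [← coeff_zero_eq_constantCoeff_apply, ← coeff_zero_eq_constantCoeff_apply, ex, coeff_mk,
    if_pos (dvd_zero _), Nat.zero_div]

theorem g_ne {f : PowerSeries ℤ} (h : constantCoeff f = 1) : f ≠ 0 := by
  rintro rfl
  rw [map_zero] at h
  norm_num at h

theorem pow3 {f g : PowerSeries ℤ} (hf : constantCoeff f = 1) (hg : constantCoeff g = 1)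
    (h : f ^ 3 = g ^ 3) : f = g := by
  have h1 : (f - g) * (f ^ 2 + f * g + g ^ 2) = 0 := by
    linear_combination h
  rcases mul_eq_zero.1 h1 with h2 | h2
  · exact sub_eq_zero.1 h2
  · exfalso
    have h3 := congrArg (constantCoeff (R := ℤ)) h2
    rw [map_add, map_add, map_pow, map_mul, map_pow, hf, hg, map_zero] at h3
    norm_num at h3

theorem pow24 {f g : PowerSeries ℤ} (hf : constantCoeff f = 1) (hg : constantCoeff g = 1)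
    (h : f ^ 24 = g ^ 24) : f = g := by
  refine pow3 hf hg (T5X.pow8 ?_ ?_ ?_)
  · rw [map_pow, hf]; norm_num
  · rw [map_pow, hg]; norm_num
  · linear_combination h

theorem E_cc : constantCoeff E = 1 := T5X.E_zero

theorem Bs_cc : constantCoeff Bs = 1 := by
  rw [Bs, map_sub, map_mul, E8T.c4_A0, E8T.c4_C0]
  simp

/-- `b(q³)³ = A³ - 27 C³` -/
theorem ex3_Bs_cube : ex 3 Bs ^ 3 = As ^ 3 - 27 * Cs ^ 3 := by
  have e27 : (C (27 : ℤ) : PowerSeries ℤ) = 27 := rfl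
  rw [← E8X.ex_pow (by norm_num), Bs, ← E8T.a3_c3, E8T.x1_ex_sub, E8X.ex_pow (by norm_num), ← E8T.As_eq,
    E8T.c3_eq, show 27 * Cs * (As ^ 2 + 3 * As * Cs + 9 * Cs ^ 2) =
      C 27 * (Cs * (As ^ 2 + 3 * As * Cs + 9 * Cs ^ 2)) by rw [e27]; ring,
    E8X.ex_mul (by norm_num) (C 27), E8X.ex_ofNat (by norm_num), ← E8T.C_cubic, e27]

/-- `Δ(q³) = C³ b(q³)⁹` -/
theorem ex3_Dl : ex 3 E8X.Dl = Cs ^ 3 * ex 3 Bs ^ 9 := by
  rw [E8T.Dl_AC, E8X.ex_mul (by norm_num), E8X.ex_pow (by norm_num), ← E8T.C_cubic]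
  rfl

theorem ex3_Dl_E : ex 3 E8X.Dl = X ^ 3 * ex 3 E ^ 24 := by
  rw [T5X.Dl_eq, E8X.ex_mul (by norm_num), E8X.ex_X (by norm_num), E8X.ex_pow (by norm_num)]

/-- `b(q) = E³ / E(X³)` -/
theorem Bs_E : Bs * ex 3 E = E ^ 3 := by
  refine pow24 ?_ ?_ ?_
  · rw [map_mul, Bs_cc, g_cc_ex, E_cc]; norm_num
  · rw [map_pow, E_cc]; norm_num
  · have h1 : E8X.Dl ^ 3 = ex 3 E8X.Dl * Bs ^ 24 := by
      have h2 : ex 3 Bs ^ 9 = (As ^ 3 - 27 * Cs ^ 3) ^ 3 := by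
        rw [← ex3_Bs_cube]; ring
      rw [ex3_Dl, h2, E8T.Dl_AC, Bs]
      ring
    rw [ex3_Dl_E, T5X.Dl_eq] at h1
    have h3 : (X : PowerSeries ℤ) ^ 3 * (E ^ 3) ^ 24 = X ^ 3 * (Bs * ex 3 E) ^ 24 := by
      linear_combination h1
    exact (mul_left_cancel₀ (pow_ne_zero 3 X_ne_zero) h3).symm

/-- `C = X E(X⁹)³ / E(X³)` -/
theorem Cs_E : Cs * ex 3 E = X * ex 9 E ^ 3 := by
  obtain ⟨S, hS, hS1⟩ := E8T.c4_Cs
  have h9 : ex 3 Bs * ex 9 E = ex 3 E ^ 3 := by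
    have h := congrArg (ex 3) Bs_E
    rw [E8X.ex_mul (by norm_num), E8X.ex_ex (by norm_num) (by norm_num), E8X.ex_pow (by norm_num)] at h
    exact h
  have h1 : ex 3 E ≠ 0 := g_ne (by rw [g_cc_ex, E_cc])
  have h2 : S * ex 3 E = ex 9 E ^ 3 := by
    refine pow3 ?_ ?_ ?_
    · rw [map_mul, hS1, g_cc_ex, E_cc]; norm_num
    · rw [map_pow, g_cc_ex, E_cc]; norm_num
    · have h3 := ex3_Dl.symm.trans ex3_Dl_E
      rw [hS] at h3
      have h4 : (X : PowerSeries ℤ) ^ 3 * ex 3 E ^ 24 * (ex 9 E ^ 3) ^ 3 =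
          X ^ 3 * ex 3 E ^ 24 * (S * ex 3 E) ^ 3 := by
        have h5 : ex 3 Bs ^ 9 * ex 9 E ^ 9 = (ex 3 E ^ 3) ^ 9 := by
          rw [← h9]; ring
        linear_combination (-(ex 9 E ^ 9)) * h3 + X ^ 3 * S ^ 3 * h5
      exact (mul_left_cancel₀ (mul_ne_zero (pow_ne_zero 3 X_ne_zero) (pow_ne_zero 24 h1)) h4).symm
  rw [hS]
  linear_combination X * h2

/-- `g b(q⁹) = C² b(q³)` -/
theorem Gs_eq : Gs * ex 9 (As - 3 * Cs) = Cs ^ 2 * ex 3 (As - 3 * Cs) := by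
  have h3 : ex 3 Bs * ex 9 E = ex 3 E ^ 3 := by
    have h := congrArg (ex 3) Bs_E
    rw [E8X.ex_mul (by norm_num), E8X.ex_ex (by norm_num) (by norm_num), E8X.ex_pow (by norm_num)] at h
    exact h
  have h9 : ex 9 Bs * ex 27 E = ex 9 E ^ 3 := by
    have h := congrArg (ex 9) Bs_E
    rw [E8X.ex_mul (by norm_num), E8X.ex_ex (by norm_num) (by norm_num), E8X.ex_pow (by norm_num)] at h
    exact h
  have h1 : ex 3 E ≠ 0 := g_ne (by rw [g_cc_ex, E_cc])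
  have h2 : ex 9 E ≠ 0 := g_ne (by rw [g_cc_ex, E_cc])
  have h27 : ex 27 E ≠ 0 := g_ne (by rw [g_cc_ex, E_cc])
  have hC := Cs_E
  show Gs * ex 9 Bs = Cs ^ 2 * ex 3 Bs
  refine mul_left_cancel₀ (mul_ne_zero (mul_ne_zero (pow_ne_zero 2 h1) h2) h27) ?_
  have e1 : ex 3 E ^ 2 * ex 9 E * ex 27 E * (Gs * ex 9 Bs) =
      ex 3 E ^ 2 * ex 9 E * Gs * ex 9 E ^ 3 := by
    rw [← h9]; ring
  have e2 : ex 3 E ^ 2 * ex 9 E * ex 27 E * (Cs ^ 2 * ex 3 Bs) =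
      (X * ex 9 E ^ 3) ^ 2 * ex 27 E * ex 3 E ^ 3 := by
    rw [← hC, ← h3]; ring
  rw [e1, e2, Gs]
  ring

/-- the coefficients of `g` vanish outside the class `2` modulo `3` -/
theorem Gs_cl {n : ℕ} (hn : n % 3 ≠ 2) : coeff n Gs = 0 := by
  have h : ex 3 E * ex 9 E ^ 2 * ex 27 E = ex 3 (E * ex 3 E ^ 2 * ex 9 E) := by
    rw [E8X.ex_mul (by norm_num), E8X.ex_mul (by norm_num), E8X.ex_pow (by norm_num),
      E8X.ex_ex (by norm_num) (by norm_num), E8X.ex_ex (by norm_num) (by norm_num)]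
  rw [Gs, h]
  rcases Nat.lt_or_ge n 2 with h2 | h2
  · rw [coeff_X_pow_mul', if_neg (by omega)]
  · obtain ⟨m, rfl⟩ := Nat.exists_eq_add_of_le h2
    rw [Nat.add_comm, coeff_X_pow_mul, ex, coeff_mk, if_neg (by omega)]

end E8T3
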