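import Mathlib

/-!
# [E8T3-Grp] finite abelian groups with a set map `ρ`, `ρ ∘ ρ = 3`
-/

set_option autoImplicit false

namespace E8T3

variable {G : Type*} [AddCommGroup G]

theorem grp_per (ρ : G → G) {T : G} (hinv : ∀ Q : G, ρ (Q + T) = ρ Q) (i : ℤ) (Q : G) :
    ρ (Q + i • T) = ρ Q := by
  induction i using Int.induction_on with
  | zero => rw [zero_smul, add_zero]
  | succ n ih => rw [add_smul, one_smul, ← add_assoc, hinv, ih]
  | pred n ih =>
    rw [← hinv (Q + (-(n : ℤ) - 1) • T), add_assoc, ← ih]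
    congr 2
    rw [sub_smul, one_smul, sub_add_cancel]

/-- multiples modulo `3` -/
theorem grp_mod {P : G} (h : (3 : ℤ) • P = 0) (i : ℤ) : i • P = (i % 3) • P := by
  conv_lhs => rw [← Int.emod_add_mul_ediv i 3]
  rw [add_smul, mul_comm, mul_smul, h, smul_zero, add_zero]

theorem grp_indep (ρ : G → G) {T P2 : G} (hT0 : T ≠ 0) (hT : ρ T = 0)
    (h3T : (3 : ℤ) • T = 0) (h3P : (3 : ℤ) • P2 = 0)
    (hinv : ∀ Q : G, ρ (Q + T) = ρ Q) (hP2 : ρ P2 = T) {a b : ℤ} (h : a • P2 + b • T = 0) :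
    (3 : ℤ) ∣ a ∧ (3 : ℤ) ∣ b := by
  have h0 : ρ 0 = 0 := by
    have := hinv 0
    rw [zero_add, hT] at this
    exact this.symm
  have hn : ∀ i : ℤ, P2 ≠ i • T := by
    intro i hi
    have h1 := grp_per ρ hinv i 0
    rw [zero_add, ← hi, hP2, h0] at h1
    exact hT0 h1
  have ha : (3 : ℤ) ∣ a := by
    by_contra hc
    have h1 : a % 3 = 1 ∨ a % 3 = 2 := by omega
    rw [grp_mod h3P a] at h
    rcases h1 with h1 | h1
    · rw [h1, one_smul] at h
      refine hn (-b) ?_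
      rw [neg_smul]
      exact eq_neg_of_add_eq_zero_left h
    · rw [h1] at h
      refine hn b ?_
      have h2 : (3 : ℤ) • P2 - ((2 : ℤ) • P2 + b • T) = P2 - b • T := by
        rw [show (3 : ℤ) = 2 + 1 by norm_num, add_smul, one_smul]
        abel
      rw [h3P, h, sub_zero] at h2
      exact (sub_eq_zero.1 h2.symm)
  refine ⟨ha, ?_⟩
  obtain ⟨c, rfl⟩ := ha
  rw [mul_comm, mul_smul, h3P, smul_zero, zero_add] at h
  by_contra hc
  have h1 : b % 3 = 1 ∨ b % 3 = 2 := by omega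
  rw [grp_mod h3T b] at h
  rcases h1 with h1 | h1
  · rw [h1, one_smul] at h
    exact hT0 h
  · rw [h1] at h
    have h2 : (3 : ℤ) • T - (2 : ℤ) • T = T := by
      rw [← sub_smul]
      norm_num
    rw [h3T, h, sub_zero] at h2
    exact hT0 h2.symm

theorem grp_three (ρ : G → G) {T : G} (hT0 : T ≠ 0) (h3T : (3 : ℤ) • T = 0)
    (h3 : ∀ Q : G, ρ (ρ Q) = (3 : ℤ) • Q) (hinv : ∀ Q : G, ρ (Q + T) = ρ Q) (hT : ρ T = 0)
    (hfib : ∀ Q Q' : G, ρ Q = ρ Q' → ∃ i : ℤ, Q' = Q + i • T) {Q P2 : G} (hP2 : ρ P2 = T)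
    (h3P : (3 : ℤ) • P2 = 0) (hQ : (3 : ℤ) • Q = 0) : ∃ i j : ℤ, Q = i • T + j • P2 := by
  have h0 : ρ 0 = 0 := by
    have := hinv 0
    rw [zero_add, hT] at this
    exact this.symm
  have hval : ∀ R : G, (3 : ℤ) • R = 0 → ρ R = 0 ∨ ρ R = T ∨ ρ R = (2 : ℤ) • T := by
    intro R hR
    obtain ⟨i, hi⟩ := hfib 0 (ρ R) (by rw [h0, h3, hR])
    rw [zero_add, grp_mod h3T] at hi
    have h1 : i % 3 = 0 ∨ i % 3 = 1 ∨ i % 3 = 2 := by omega
    rcases h1 with h1 | h1 | h1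
    · left
      rw [hi, h1, zero_smul]
    · right; left
      rw [hi, h1, one_smul]
    · right; right
      rw [hi, h1]
  have h2P : ρ ((2 : ℤ) • P2) = (2 : ℤ) • T := by
    rcases hval ((2 : ℤ) • P2) (by rw [smul_comm, h3P, smul_zero]) with h | h | h
    · exfalso
      obtain ⟨i, hi⟩ := hfib 0 ((2 : ℤ) • P2) (h0.trans h.symm)
      have h5 : (2 : ℤ) • P2 + (-i) • T = 0 := by
        rw [hi, zero_add, ← add_smul]
        norm_num
      have := (grp_indep ρ hT0 hT h3T h3P hinv hP2 h5).1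
      omega
    · exfalso
      obtain ⟨i, hi⟩ := hfib P2 ((2 : ℤ) • P2) (hP2.trans h.symm)
      have h5 : (1 : ℤ) • P2 + (-i) • T = 0 := by
        have : (2 : ℤ) • P2 = P2 + P2 := two_smul ℤ P2
        rw [this] at hi
        have h6 : P2 = i • T := add_left_cancel hi
        rw [one_smul, neg_smul, ← h6, add_neg_cancel]
      have := (grp_indep ρ hT0 hT h3T h3P hinv hP2 h5).1
      omega
    · exact h
  rcases hval Q hQ with h | h | h
  · obtain ⟨i, hi⟩ := hfib 0 Q (h0.trans h.symm)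
    exact ⟨i, 0, by rw [hi, zero_smul, zero_add, add_zero]⟩
  · obtain ⟨i, hi⟩ := hfib P2 Q (hP2.trans h.symm)
    exact ⟨i, 1, by rw [hi, one_smul, add_comm]⟩
  · obtain ⟨i, hi⟩ := hfib ((2 : ℤ) • P2) Q (h2P.trans h.symm)
    exact ⟨i, 2, by rw [hi, add_comm]⟩

/-- The order of the group and divisibility by `ρ`. -/
theorem grp [Finite G] (ρ : G → G) (S : AddSubgroup G) (hS : ∀ P : G, P ∈ S ↔ ∃ Q : G, ρ Q = P)
    {T P2 P3 P4 P5 : G} (hT0 : T ≠ 0) (hT : ρ T = 0)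
    (h3 : ∀ Q : G, ρ (ρ Q) = (3 : ℤ) • Q)
    (hinv : ∀ Q : G, ρ (Q + T) = ρ Q)
    (hfib : ∀ Q Q' : G, ρ Q = ρ Q' → ∃ i : ℤ, Q' = Q + i • T)
    (hP2 : ρ P2 = T) (hP3 : ρ P3 = P2) (hP4 : ρ P4 = P3) (hP5 : ρ P5 = P4) :
    3 ^ 6 ∣ Nat.card G ↔ P5 ∈ S := by
  have h0 : ρ 0 = 0 := by
    have := hinv 0
    rw [zero_add, hT] at this
    exact this.symm
  have h3T : (3 : ℤ) • T = 0 := by rw [← h3, hT, h0]
  have h3P2 : (3 : ℤ) • P2 = 0 := by rw [← h3, hP2, hT]
  have h3P3 : (3 : ℤ) • P3 = T := by rw [← h3, hP3, hP2]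
  have h3P4 : (3 : ℤ) • P4 = P2 := by rw [← h3, hP4, hP3]
  have h3P5 : (3 : ℤ) • P5 = P3 := by rw [← h3, hP5, hP4]
  have m3 : ∀ Q : G, (3 : ℤ) • Q ∈ S := fun Q => (hS _).2 ⟨ρ Q, h3 Q⟩
  have mT : T ∈ S := (hS _).2 ⟨P2, hP2⟩
  have mP3 : P3 ∈ S := (hS _).2 ⟨P4, hP4⟩
  have mP4 : P4 ∈ S := (hS _).2 ⟨P5, hP5⟩
  have hom : ∀ (n : ℕ) (P : G), (n : ℤ) • P = 0 → ∃ f : ZMod n →+ G, ∀ i : ℤ, f (i : ZMod n) = i • P := by
    intro n P hP
    refine ⟨ZMod.lift n ⟨zmultiplesHom G P, by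
      rw [zmultiplesHom_apply]
      exact hP⟩, fun i => ?_⟩
    rw [ZMod.lift_coe]
    rw [zmultiplesHom_apply]
  constructor
  · intro hd
    obtain ⟨f, hf⟩ := hom 27 P5 (by
      have : ((27 : ℕ) : ℤ) • P5 = (3 : ℤ) • (3 : ℤ) • (3 : ℤ) • P5 := by
        rw [smul_smul, smul_smul]
        norm_num
      rw [this, h3P5, h3P3, h3T])
    obtain ⟨g, hg⟩ := hom 9 P4 (by
      have : ((9 : ℕ) : ℤ) • P4 = (3 : ℤ) • (3 : ℤ) • P4 := by
        rw [smul_smul]
        norm_num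
      rw [this, h3P4, h3P2])
    let φ : ZMod 27 × ZMod 9 →+ G := f.coprod g
    have hφ : ∀ a b : ℤ, a • P5 + b • P4 ∈ φ.range := by
      intro a b
      refine ⟨((a : ZMod 27), (b : ZMod 9)), ?_⟩
      rw [AddMonoidHom.coprod_apply, hf, hg]
    have hφ' : ∀ P ∈ φ.range, ∃ a b : ℤ, P = a • P5 + b • P4 := by
      rintro P ⟨⟨x, y⟩, rfl⟩
      obtain ⟨a, rfl⟩ := ZMod.intCast_surjective x
      obtain ⟨b, rfl⟩ := ZMod.intCast_surjective y
      exact ⟨a, b, by rw [AddMonoidHom.coprod_apply, hf, hg]⟩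
    have hcard : Nat.card φ.range ∣ 243 := by
      have h := AddSubgroup.card_dvd_of_surjective φ.rangeRestrict φ.rangeRestrict_surjective
      rwa [Nat.card_prod, Nat.card_zmod, Nat.card_zmod] at h
    have hq : 3 ∣ Nat.card (G ⧸ φ.range) := by
      have h := AddSubgroup.card_eq_card_quotient_mul_card_addSubgroup φ.range
      rw [h] at hd
      obtain ⟨c, hc⟩ := hcard
      have h1 : 3 ^ 6 ∣ Nat.card (G ⧸ φ.range) * 243 := by
        rw [hc, ← mul_assoc]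
        exact Dvd.dvd.mul_right hd c
      obtain ⟨d, hd'⟩ := h1
      exact ⟨d, by omega⟩
    have : Fact (Nat.Prime 3) := ⟨Nat.prime_three⟩
    obtain ⟨x, hx⟩ := exists_prime_addOrderOf_dvd_card' (G := G ⧸ φ.range) 3 hq
    obtain ⟨Q, rfl⟩ := QuotientAddGroup.mk_surjective x
    have hQ : Q ∉ φ.range := by
      intro hQ
      rw [(QuotientAddGroup.eq_zero_iff Q).2 hQ, addOrderOf_zero] at hx
      norm_num at hx
    have h3Q : (3 : ℤ) • Q ∈ φ.range := by
      rw [← QuotientAddGroup.eq_zero_iff]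
      have h := addOrderOf_nsmul_eq_zero (QuotientAddGroup.mk Q : G ⧸ φ.range)
      rw [hx] at h
      rw [show (3 : ℤ) • Q = (3 : ℕ) • Q from (natCast_zsmul Q 3)]
      exact h
    obtain ⟨a, b, hab⟩ := hφ' _ h3Q
    by_cases ha : (3 : ℤ) ∣ a
    · obtain ⟨a', rfl⟩ := ha
      by_cases hb : (3 : ℤ) ∣ b
      · exfalso
        obtain ⟨b', rfl⟩ := hb
        have h5 : (3 : ℤ) • (Q - a' • P5 - b' • P4) = 0 := by
          rw [smul_sub, smul_sub, hab, mul_smul, mul_smul]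
          abel
        obtain ⟨i, j, hij⟩ := grp_three ρ hT0 h3T h3 hinv hT hfib hP2 h3P2 h5
        apply hQ
        have h6 : Q = (a' + 9 * i) • P5 + (b' + 3 * j) • P4 := by
          have e1 : Q = a' • P5 + b' • P4 + (Q - a' • P5 - b' • P4) := by abel
          have e2 : (9 * i) • P5 = i • T := by
            rw [mul_comm, mul_smul, show (9 : ℤ) = 3 * 3 by norm_num, mul_smul, h3P5, h3P3]
          have e3 : (3 * j) • P4 = j • P2 := by
            rw [mul_comm, mul_smul, h3P4]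
          rw [e1, hij, add_smul, add_smul, e2, e3]
          abel
        rw [h6]
        exact hφ _ _
      · have h5 : (3 : ℤ) • (Q - a' • P5) = b • P4 := by
          rw [smul_sub, hab, mul_smul]
          abel
        have h6 : ∃ R : G, P4 = (3 : ℤ) • R := by
          have h7 : b % 3 = 1 ∨ b % 3 = 2 := by omega
          rcases h7 with h7 | h7
          · refine ⟨Q - a' • P5 - (b / 3) • P4, ?_⟩
            rw [smul_sub, h5, smul_smul]
            have h8 : b = 3 * (b / 3) + 1 := by omega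
            conv_rhs => rw [h8, add_smul, one_smul]
            have h9 : (3 * (b / 3) + 1) / 3 = b / 3 := by omega
            rw [h9]
            abel
          · refine ⟨P4 - (Q - a' • P5) + (b / 3) • P4, ?_⟩
            rw [smul_add, smul_sub, h5, smul_smul]
            have h8 : b = 3 * (b / 3) + 2 := by omega
            have h9 : (3 : ℤ) • P4 - b • P4 + (3 * (b / 3)) • P4 = (3 - b + 3 * (b / 3)) • P4 := by
              rw [add_smul, sub_smul]
            rw [h9, show 3 - b + 3 * (b / 3) = 1 by omega, one_smul]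
        obtain ⟨R, hR⟩ := h6
        obtain ⟨i, hi⟩ := hfib (ρ R) P5 (by rw [h3, ← hR, hP5])
        rw [hi]
        exact S.add_mem ((hS _).2 ⟨R, rfl⟩) (S.zsmul_mem mT i)
    · have h5 : a • P5 ∈ S := by
        have : a • P5 = (3 : ℤ) • Q - b • P4 := by
          rw [hab]
          abel
        rw [this]
        exact S.sub_mem (m3 Q) (S.zsmul_mem mP4 b)
      have h7 : a % 3 = 1 ∨ a % 3 = 2 := by omega
      rcases h7 with h7 | h7
      · have : P5 = a • P5 - (a / 3) • (3 : ℤ) • P5 := by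
          rw [smul_smul, ← sub_smul, show a - a / 3 * 3 = 1 by omega, one_smul]
        rw [this]
        exact S.sub_mem h5 (S.zsmul_mem (m3 P5) _)
      · have : P5 = (a / 3 + 1) • (3 : ℤ) • P5 - a • P5 := by
          rw [smul_smul, ← sub_smul, show (a / 3 + 1) * 3 - a = 1 by omega, one_smul]
        rw [this]
        exact S.sub_mem (S.zsmul_mem (m3 P5) _) h5
  · intro hm
    obtain ⟨P6, hP6⟩ := (hS _).1 hm
    have h3P6 : (3 : ℤ) • P6 = P4 := by rw [← h3, hP6, hP5]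
    obtain ⟨f, hf⟩ := hom 27 P6 (by
      have : ((27 : ℕ) : ℤ) • P6 = (3 : ℤ) • (3 : ℤ) • (3 : ℤ) • P6 := by
        rw [smul_smul, smul_smul]
        norm_num
      rw [this, h3P6, h3P4, h3P2])
    obtain ⟨g, hg⟩ := hom 27 P5 (by
      have : ((27 : ℕ) : ℤ) • P5 = (3 : ℤ) • (3 : ℤ) • (3 : ℤ) • P5 := by
        rw [smul_smul, smul_smul]
        norm_num
      rw [this, h3P5, h3P3, h3T])
    let φ : ZMod 27 × ZMod 27 →+ G := f.coprod g
    have hinj : Function.Injective φ := by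
      rw [injective_iff_map_eq_zero]
      rintro ⟨x, y⟩ hxy
      obtain ⟨a, rfl⟩ := ZMod.intCast_surjective x
      obtain ⟨b, rfl⟩ := ZMod.intCast_surjective y
      rw [AddMonoidHom.coprod_apply, hf, hg] at hxy
      have hin : ∀ {c d : ℤ}, c • P2 + d • T = 0 → (3 : ℤ) ∣ c ∧ (3 : ℤ) ∣ d :=
        fun h => grp_indep ρ hT0 hT h3T h3P2 hinv hP2 h
      have k1 : a • P2 + b • T = 0 := by
        have e : (3 : ℤ) • (3 : ℤ) • (a • P6 + b • P5) = a • P2 + b • T := by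
          rw [smul_add, smul_comm (3 : ℤ) a, smul_comm (3 : ℤ) b, h3P6, h3P5, smul_add,
            smul_comm (3 : ℤ) a, smul_comm (3 : ℤ) b, h3P4, h3P3]
        rw [← e, hxy, smul_zero, smul_zero]
      obtain ⟨⟨a1, rfl⟩, ⟨b1, rfl⟩⟩ := hin k1
      have e1 : (3 * a1) • P6 + (3 * b1) • P5 = a1 • P4 + b1 • P3 := by
        rw [mul_comm 3 a1, mul_comm 3 b1, mul_smul, mul_smul, h3P6, h3P5]
      rw [e1] at hxy
      have k2 : a1 • P2 + b1 • T = 0 := by
        have e : (3 : ℤ) • (a1 • P4 + b1 • P3) = a1 • P2 + b1 • T := by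
          rw [smul_add, smul_comm (3 : ℤ) a1, smul_comm (3 : ℤ) b1, h3P4, h3P3]
        rw [← e, hxy, smul_zero]
      obtain ⟨⟨a2, rfl⟩, ⟨b2, rfl⟩⟩ := hin k2
      have e2 : (3 * a2) • P4 + (3 * b2) • P3 = a2 • P2 + b2 • T := by
        rw [mul_comm 3 a2, mul_comm 3 b2, mul_smul, mul_smul, h3P4, h3P3]
      rw [e2] at hxy
      obtain ⟨⟨a3, rfl⟩, ⟨b3, rfl⟩⟩ := hin hxy
      refine Prod.ext ?_ ?_
      · exact (ZMod.intCast_zmod_eq_zero_iff_dvd _ 27).2 ⟨a3, by push_cast; ring⟩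
      · exact (ZMod.intCast_zmod_eq_zero_iff_dvd _ 27).2 ⟨b3, by push_cast; ring⟩
    have h := AddSubgroup.card_dvd_of_injective φ hinj
    rwa [Nat.card_prod, Nat.card_zmod, show 27 * 27 = 3 ^ 6 by norm_num] at h

end E8T3
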