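import Pool.Agent.E8T3.G

/-!
# [E8T3-Q1] the coefficients of the newform as coefficients of polynomials
-/

set_option autoImplicit false

open PowerSeries Filter
open N19 (ex)
open T5X (E)

namespace E8T3

/-- the coefficient of `q^n` in `q² ∏ (1 - q^(3m)) (1 - q^(9m))² (1 - q^(27m))` -/
noncomputable def bn (n : ℕ) : ℤ :=
  (Polynomial.X ^ 2 * ∏ m ∈ Finset.range n, ((1 - Polynomial.X ^ (3 * (m + 1))) *
    (1 - Polynomial.X ^ (9 * (m + 1))) ^ 2 * (1 - Polynomial.X ^ (27 * (m + 1)))) :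
      Polynomial ℤ).coeff n

theorem q1_tail (N : ℕ) (s : Finset ℕ) (h : ∀ m ∈ s, N ≤ m) :
    (X : PowerSeries ℤ) ^ (N + 1) ∣ ∏ m ∈ s, (1 - X ^ (m + 1)) - 1 := by
  induction s using Finset.induction_on with
  | empty => simp
  | insert a s ha ih =>
    rw [Finset.prod_insert ha]
    have h1 := ih (fun m hm => h m (Finset.mem_insert_of_mem hm))
    have h2 : (X : PowerSeries ℤ) ^ (N + 1) ∣ X ^ (a + 1) :=
      pow_dvd_pow _ (by have := h a (Finset.mem_insert_self a s); omega)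
    have h3 : (1 - X ^ (a + 1)) * ∏ m ∈ s, (1 - (X : PowerSeries ℤ) ^ (m + 1)) - 1 =
        (∏ m ∈ s, (1 - (X : PowerSeries ℤ) ^ (m + 1)) - 1) -
          X ^ (a + 1) * ∏ m ∈ s, (1 - (X : PowerSeries ℤ) ^ (m + 1)) := by ring
    rw [h3]
    exact dvd_sub h1 (Dvd.dvd.mul_right h2 _)

theorem q1_E (N : ℕ) :
    (X : PowerSeries ℤ) ^ (N + 1) ∣ E - ∏ m ∈ Finset.range N, (1 - X ^ (m + 1)) := by
  rw [X_pow_dvd_iff]
  intro n hn
  obtain ⟨s, hs1, hs2⟩ := ((coeff_prod_one_sub_X_pow_eventually_eq (R := ℤ) n).and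
    (eventually_ge_atTop (Finset.range N))).exists
  have hs3 : Finset.range N ⊆ s := hs2
  rw [map_sub, sub_eq_zero, E, ← hs1, ← Finset.prod_sdiff hs3]
  obtain ⟨g, hg⟩ := q1_tail N (s \ Finset.range N) (by
    intro m hm
    rw [Finset.mem_sdiff, Finset.mem_range] at hm
    omega)
  have h1 : (∏ m ∈ s \ Finset.range N, (1 - (X : PowerSeries ℤ) ^ (m + 1))) *
      ∏ m ∈ Finset.range N, (1 - X ^ (m + 1)) = ∏ m ∈ Finset.range N, (1 - X ^ (m + 1)) +
        X ^ (N + 1) * (g * ∏ m ∈ Finset.range N, (1 - X ^ (m + 1))) := by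
    linear_combination (∏ m ∈ Finset.range N, (1 - (X : PowerSeries ℤ) ^ (m + 1))) * hg
  rw [h1, map_add, coeff_X_pow_mul', if_neg (by omega), add_zero]

theorem q1_ex_sub (k : ℕ) (f g : PowerSeries ℤ) : ex k (f - g) = ex k f - ex k g := by
  rw [eq_sub_iff_add_eq, ← E8X.ex_add, sub_add_cancel]

theorem q1_ex_prod {k : ℕ} (hk : 0 < k) (s : Finset ℕ) :
    ex k (∏ m ∈ s, (1 - X ^ (m + 1))) = ∏ m ∈ s, (1 - X ^ (k * (m + 1))) := by
  induction s using Finset.induction_on with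
  | empty =>
    rw [Finset.prod_empty, Finset.prod_empty, show (1 : PowerSeries ℤ) = C 1 by simp,
      E8X.ex_ofNat hk]
  | insert a s ha ih =>
    rw [Finset.prod_insert ha, Finset.prod_insert ha, E8X.ex_mul hk, ih, q1_ex_sub,
      E8X.ex_pow hk, E8X.ex_X hk, ← pow_mul, show (1 : PowerSeries ℤ) = C 1 by simp,
      E8X.ex_ofNat hk]

theorem q1_ex {k : ℕ} (hk : 0 < k) (N : ℕ) :
    (X : PowerSeries ℤ) ^ (N + 1) ∣ ex k E - ∏ m ∈ Finset.range N, (1 - X ^ (k * (m + 1))) := by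
  obtain ⟨g, hg⟩ := q1_E N
  rw [← q1_ex_prod hk, ← q1_ex_sub, hg, E8X.ex_mul hk, E8X.ex_pow hk, E8X.ex_X hk, ← pow_mul]
  refine Dvd.dvd.mul_right (pow_dvd_pow _ ?_) _
  nlinarith

theorem q1_mul {N : ℕ} {f f' g g' : PowerSeries ℤ} (h1 : (X : PowerSeries ℤ) ^ N ∣ f - f')
    (h2 : (X : PowerSeries ℤ) ^ N ∣ g - g') : (X : PowerSeries ℤ) ^ N ∣ f * g - f' * g' := by
  have h3 : f * g - f' * g' = (f - f') * g + f' * (g - g') := by ring
  rw [h3]
  exact dvd_add (Dvd.dvd.mul_right h1 _) (Dvd.dvd.mul_left h2 _)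

theorem bn_eq (n : ℕ) : bn n = coeff n Gs := by
  have h3 := q1_ex (k := 3) (by norm_num) n
  have h9 := q1_ex (k := 9) (by norm_num) n
  have h27 := q1_ex (k := 27) (by norm_num) n
  have h := q1_mul (q1_mul h3 (q1_mul h9 h9)) h27
  have hb : bn n = coeff n ((X : PowerSeries ℤ) ^ 2 *
      ((∏ m ∈ Finset.range n, (1 - X ^ (3 * (m + 1)))) *
        ((∏ m ∈ Finset.range n, (1 - X ^ (9 * (m + 1)))) *
          (∏ m ∈ Finset.range n, (1 - X ^ (9 * (m + 1))))) *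
        (∏ m ∈ Finset.range n, (1 - X ^ (27 * (m + 1)))))) := by
    rw [bn, ← Polynomial.coeff_coe]
    congr 1
    rw [← Finset.prod_mul_distrib, ← Finset.prod_mul_distrib, ← Finset.prod_mul_distrib,
      ← Polynomial.coeToPowerSeries.ringHom_apply, map_mul, map_prod]
    simp only [map_mul, map_pow, map_sub, map_one, Polynomial.coeToPowerSeries.ringHom_apply,
      Polynomial.coe_X, pow_two]
  rw [hb, Gs, ← sub_eq_zero, ← map_sub]
  obtain ⟨r, hr⟩ := h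
  have h2 : (X : PowerSeries ℤ) ^ 2 *
      ((∏ m ∈ Finset.range n, (1 - X ^ (3 * (m + 1)))) *
        ((∏ m ∈ Finset.range n, (1 - X ^ (9 * (m + 1)))) *
          (∏ m ∈ Finset.range n, (1 - X ^ (9 * (m + 1))))) *
        (∏ m ∈ Finset.range n, (1 - X ^ (27 * (m + 1))))) -
      X ^ 2 * (ex 3 E * ex 9 E ^ 2 * ex 27 E) = X ^ (n + 1) * (-(X ^ 2 * r)) := by
    linear_combination -((X : PowerSeries ℤ) ^ 2) * hr
  rw [h2, coeff_X_pow_mul', if_neg (by omega)]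

end E8T3
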