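import Pool.Agent.E8G.P

/-!
# [E8T3-Q2] an explicit prime

`M = 816212625976889800703999` is a prime which satisfies every classical congruence condition for
`τ(M) = 0` and the condition on the first 2-adic digit (`2 ^ 14 ∥ M + 1` and the octic
`((x² - 1)² - 2)² - 2` has exactly two roots modulo `M`); `3 ^ 8 ∣ M + 1` and `(x³ - 3 x + 1)³ = 24`
has no root modulo `M`.
-/

set_option autoImplicit false

namespace E8T3

/-- squaring in `ℤ[x] / (x³ - 3 x - c, M)` -/
def q2sq (M c : ℕ) (a : ℕ × ℕ × ℕ) : ℕ × ℕ × ℕ :=
  ((a.1 * a.1 + 2 * a.2.1 * a.2.2 * c) % M, (2 * a.1 * a.2.1 + 6 * a.2.1 * a.2.2 + a.2.2 * a.2.2 * c) % M,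
    (a.2.1 * a.2.1 + 2 * a.1 * a.2.2 + 3 * a.2.2 * a.2.2) % M)

/-- multiplication by `x` -/
def q2mx (M c : ℕ) (a : ℕ × ℕ × ℕ) : ℕ × ℕ × ℕ :=
  ((c * a.2.2) % M, (a.1 + 3 * a.2.2) % M, a.2.1)

def q2step (M c : ℕ) (a : ℕ × ℕ × ℕ) (b : Bool) : ℕ × ℕ × ℕ :=
  if b then q2mx M c (q2sq M c a) else q2sq M c a

def q2num (n : ℕ) (b : Bool) : ℕ := if b then 2 * n + 1 else 2 * n

theorem q2_fold {M c : ℕ} (x : ZMod M) (hx : x ^ 3 = 3 * x + (c : ZMod M)) (l : List Bool) :
    ∀ (a : ℕ × ℕ × ℕ) (n : ℕ), ((a.1 : ZMod M) + a.2.1 * x + a.2.2 * x ^ 2 = x ^ n) →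
      (((l.foldl (q2step M c) a).1 : ZMod M) + (l.foldl (q2step M c) a).2.1 * x +
        (l.foldl (q2step M c) a).2.2 * x ^ 2 = x ^ (l.foldl q2num n)) := by
  induction l with
  | nil =>
    intro a n h
    exact h
  | cons b l ih =>
    intro a n h
    rw [List.foldl_cons, List.foldl_cons]
    apply ih
    have h2 : ((a.1 : ZMod M) + a.2.1 * x + a.2.2 * x ^ 2) ^ 2 = x ^ (2 * n) := by
      rw [h, ← pow_mul, mul_comm]
    have h3 : (((q2sq M c a).1 : ZMod M) + (q2sq M c a).2.1 * x + (q2sq M c a).2.2 * x ^ 2) =
        x ^ (2 * n) := by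
      rw [← h2, q2sq]
      simp only [ZMod.natCast_mod]
      push_cast
      linear_combination (-(2 * (a.2.1 : ZMod M) * a.2.2) - (a.2.2 : ZMod M) ^ 2 * x) * hx
    rcases b with _ | _
    · exact h3
    · have h4 : x ^ (q2num n true) = x ^ (2 * n) * x := by
        rw [q2num, if_pos rfl, pow_succ]
      rw [h4, ← h3, q2step, if_pos rfl, q2mx]
      simp only [ZMod.natCast_mod]
      push_cast
      linear_combination (-((q2sq M c a).2.2 : ZMod M)) * hx

/-- cube roots are unique modulo a prime `≡ 2 mod 3` -/
theorem q2_cube {p : ℕ} [Fact p.Prime] (h3 : p % 3 = 2) {a b : ZMod p} (h : a ^ 3 = b ^ 3) : a = b := by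
  have key : ∀ a : ZMod p, (a ^ 3) ^ ((2 * p - 1) / 3) = a := by
    intro a
    rw [← pow_mul, show 3 * ((2 * p - 1) / 3) = (p - 1) + p by omega, pow_add, ZMod.pow_card]
    rcases eq_or_ne a 0 with h0 | h0
    · rw [h0, mul_zero]
    · rw [ZMod.pow_card_sub_one_eq_one h0, one_mul]
  rw [← key a, h, key b]

theorem M_q1 : Nat.Prime 115383845419 := by
  refine lucas_primality _ (2 : ZMod 115383845419) (by reduce_mod_char) ?_
  intro q hq hd
  have h : q ∣ 2 * (3 * (331 * (487 * 119299))) := hd
  have h1 : Nat.Prime 331 := by norm_num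
  have h2 : Nat.Prime 487 := by norm_num
  have h4 : Nat.Prime 119299 := by norm_num
  rw [hq.dvd_mul, hq.dvd_mul, hq.dvd_mul, hq.dvd_mul, Nat.prime_dvd_prime_iff_eq hq Nat.prime_two,
    Nat.prime_dvd_prime_iff_eq hq Nat.prime_three, Nat.prime_dvd_prime_iff_eq hq h1,
    Nat.prime_dvd_prime_iff_eq hq h2, Nat.prime_dvd_prime_iff_eq hq h4] at h
  rcases h with rfl | rfl | rfl | rfl | rfl
  all_goals
    norm_num only
    reduce_mod_char
    decide

theorem M_q2 : Nat.Prime 160614312823249 := by
  refine lucas_primality _ (7 : ZMod 160614312823249) (by reduce_mod_char) ?_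
  intro q hq hd
  have h : q ∣ 2 * (2 * (2 * (2 * (3 * (29 * 115383845419))))) := hd
  have h1 : Nat.Prime 29 := by norm_num
  rw [hq.dvd_mul, hq.dvd_mul, hq.dvd_mul, hq.dvd_mul, hq.dvd_mul, hq.dvd_mul,
    Nat.prime_dvd_prime_iff_eq hq Nat.prime_two,
    Nat.prime_dvd_prime_iff_eq hq Nat.prime_three, Nat.prime_dvd_prime_iff_eq hq h1,
    Nat.prime_dvd_prime_iff_eq hq M_q1] at h
  rcases h with rfl | rfl | rfl | rfl | rfl | rfl | rfl
  all_goals
    norm_num only
    reduce_mod_char
    decide

theorem M_prime : Nat.Prime 816212625976889800703999 := by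
  refine lucas_primality _ (11 : ZMod 816212625976889800703999) (by reduce_mod_char) ?_
  intro q hq hd
  have h : q ∣ 2 * (103 * (1481 * (16657 * 160614312823249))) := hd
  have h1 : Nat.Prime 103 := by norm_num
  have h2 : Nat.Prime 1481 := by norm_num
  have h3 : Nat.Prime 16657 := by norm_num
  rw [hq.dvd_mul, hq.dvd_mul, hq.dvd_mul, hq.dvd_mul, Nat.prime_dvd_prime_iff_eq hq Nat.prime_two,
    Nat.prime_dvd_prime_iff_eq hq h1, Nat.prime_dvd_prime_iff_eq hq h2,
    Nat.prime_dvd_prime_iff_eq hq h3, Nat.prime_dvd_prime_iff_eq hq M_q2] at h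
  rcases h with rfl | rfl | rfl | rfl | rfl
  all_goals
    norm_num only
    reduce_mod_char
    decide

instance M_fact : Fact (Nat.Prime 816212625976889800703999) := ⟨M_prime⟩

theorem M_dvd : 2 ^ 14 * 3 ^ 8 * 5 ^ 3 * 691 ∣ 816212625976889800703999 + 1 ∧
    816212625976889800703999 % 49 = 31 ∧ ¬ 2 ^ 15 ∣ 816212625976889800703999 + 1 := by
  norm_num

theorem M_23 : ¬ IsSquare ((816212625976889800703999 : ℕ) : ZMod 23) := by
  decide

/-- the binary digits of `M` -/
def Mbits : List Bool :=
  [true, false, true, false, true, true, false, false, true, true, false, true, false, true, true,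
  false, true, true, true, true, true, false, false, true, true, false, true, false, false, false,
  false, true, false, false, false, true, true, true, true, false, false, false, true, false,
  false, true, true, false, false, true, true, false, false, true, true, false, true, true, true,
  true, true, true, false, false, true, false, true, true, true, true, true, true, true, true,
  true, true, true, true, true, true]

theorem Mbits_num : Mbits.foldl q2num 0 = 816212625976889800703999 := by
  decide +kernel

theorem M_pow : Mbits.foldl (q2step 816212625976889800703999 642704005863358521634265) (1, 0, 0) =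
    (763470501744457628596726, 77742253263132681560678, 434477375104660986405636) := by
  decide +kernel

/-- The polynomial `(x³ - 3 x + 1)³ - 24` has no root modulo `M`. -/
theorem M_noroot : ¬ ∃ x : ZMod 816212625976889800703999, (x ^ 3 - 3 * x + 1) ^ 3 = 24 := by
  rintro ⟨x, hx⟩
  have h1 : x ^ 3 - 3 * x + 1 = 2 * 321352002931679260817133 := by
    apply q2_cube (by norm_num)
    rw [hx]
    reduce_mod_char
  have h2 : x ^ 3 = 3 * x + ((642704005863358521634265 : ℕ) : ZMod 816212625976889800703999) := by
    have e : (2 * 321352002931679260817133 : ZMod 816212625976889800703999) =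
      1 + ((642704005863358521634265 : ℕ) : ZMod 816212625976889800703999) := by
      push_cast
      reduce_mod_char
    rw [e] at h1
    linear_combination h1
  have h3 := q2_fold x h2 Mbits (1, 0, 0) 0 (by norm_num)
  rw [Mbits_num, M_pow, ZMod.pow_card] at h3
  have h4 : (763470501744457628596726 : ZMod 816212625976889800703999) +
    77742253263132681560677 * x + 434477375104660986405636 * x ^ 2 = 0 := by
    push_cast at h3
    linear_combination h3
  push_cast at h2
  have n3 : (77742253263132681560677 * 777712483720527837395930 + 434477375104660986405636 * 496394276660987349609974 :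
      ZMod 816212625976889800703999) = 508017470895971102815694 := by reduce_mod_char
  have n4 : (434477375104660986405636 * 777712483720527837395930 :
      ZMod 816212625976889800703999) = 712482118072758459531416 := by reduce_mod_char
  have n0 : (763470501744457628596726 * 748387118788060065184925 + 642704005863358521634265 * 508017470895971102815694 :
      ZMod 816212625976889800703999) = 1 := by reduce_mod_char
  have n1 : (763470501744457628596726 * 496394276660987349609974 + 77742253263132681560677 * 748387118788060065184925 +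
      3 * 508017470895971102815694 + 642704005863358521634265 * 712482118072758459531416 :
      ZMod 816212625976889800703999) = 0 := by reduce_mod_char
  have n2 : (763470501744457628596726 * 777712483720527837395930 + 77742253263132681560677 * 496394276660987349609974 +
      434477375104660986405636 * 748387118788060065184925 + 3 * 712482118072758459531416 :
      ZMod 816212625976889800703999) = 0 := by reduce_mod_char
  have h5 : (1 : ZMod 816212625976889800703999) = 0 := by
    linear_combination (748387118788060065184925 + 496394276660987349609974 * x +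
      777712483720527837395930 * x ^ 2) * h4 - n0 - x * n1 - x ^ 2 * n2 - x ^ 3 * n3 - x ^ 4 * n4 -
      (508017470895971102815694 + 712482118072758459531416 * x) * h2
  exact one_ne_zero h5

/-- `τ(M) = 0` passes the test of the first 2-adic digit. -/
theorem M_roots : (Finset.univ.filter fun x : ZMod 816212625976889800703999 =>
    ((x ^ 2 - 1) ^ 2 - 2) ^ 2 - 2 = 0).card = 2 := by
  refine (E8G.roots_of (s := 172070883244421188870341) (τ := 716320478985338155615528) (by norm_num)
    (by reduce_mod_char) ⟨342697883606523532878459, by reduce_mod_char⟩ (by reduce_mod_char)).2 ?_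
  rintro ⟨y, hy⟩
  obtain ⟨-, hneg, -⟩ := E8G.P_signs (p := 816212625976889800703999) (by norm_num)
  have h1 : (768486199711670360210203 : ZMod 816212625976889800703999) * 768486199711670360210203 =
    -(1 + 716320478985338155615528) := by reduce_mod_char
  have hy0 : y ≠ 0 := by
    rintro rfl
    have h2 : (1 + 716320478985338155615528 : ZMod 816212625976889800703999) = 0 := by
      rw [hy, mul_zero]
    have h3 : (1 + 716320478985338155615528 : ZMod 816212625976889800703999) ≠ 0 := by
      reduce_mod_char
      decide
    exact h3 h2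
  apply hneg
  refine ⟨768486199711670360210203 / y, ?_⟩
  rw [div_mul_div_comm, h1, hy, neg_div, div_self (mul_ne_zero hy0 hy0)]

end E8T3
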