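import Pool.Agent.E8T3.B
import Pool.Agent.E8T3.G
import Pool.Agent.E8T3.F

/-!
# [E8T3-Z] Ramanujan's function modulo `3 ^ 8`, block (a)
-/

set_option autoImplicit false

open PowerSeries
open N19 (ex)
open E8T

namespace E8T3

theorem Gs_eq' : Gs * (Vs - 9 * ex 3 Us) = Cs ^ 2 * (Vs - 3 * Us) := by
  have h := Gs_eq
  have e1 : ex 3 (As - 3 * Cs) = Vs - 3 * Us := by
    rw [ex3_sub, E8X.ex_mul z3, ex3_num]
    rfl
  have e2 : ex 9 (As - 3 * Cs) = Vs - 9 * ex 3 Us := by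
    have h1 : ex 9 (As - 3 * Cs) = ex 3 (ex 3 (As - 3 * Cs)) := by
      rw [E8X.ex_ex z3 z3]
    have h2 : ex 3 Vs = Vs - 6 * ex 3 Us := by
      have h3 : Vs = ex 3 Vs + 6 * ex 3 Us := by
        conv_lhs => rw [Vs, a_eq, E8X.ex_add, E8X.ex_mul z3, ex3_num]
      linear_combination -h3
    rw [h1, e1, ex3_sub, E8X.ex_mul z3, ex3_num, h2]
    ring
  rw [e1, e2] at h
  exact h

/-- For all `n = 2 mod 3`. -/
theorem star_Gs {n : ℕ} (hn : n % 3 = 2) :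
    (2187 : ℤ) ∣ 81 * (3 * coeff n (Cs ^ 2 * ex 3 Cs) + coeff n Gs) - PS n :=
  star Gs_eq' hn

/-- **Ramanujan's function modulo `3 ^ 8`**, for all `n = 2 mod 3`. -/
theorem tau_Gs {n : ℕ} (hn : n % 3 = 2) :
    (6561 : ℤ) ∣ 683 * E8X.tau n + 8 * (ArithmeticFunction.sigma 11 n : ℤ) -
      (6 * PS n - 486 * coeff n Gs) :=
  tau_star hn (star_Gs hn)

theorem prime_Gs {p : ℕ} (hp : p.Prime) {z : ℤ} (hz : (p : ℤ) + 1 = 2187 * z) :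
    (9 : ℤ) ∣ coeff p Gs ∧ (2187 : ℤ) ∣ E8X.tau p ∧
      ((6561 : ℤ) ∣ E8X.tau p ↔ (27 : ℤ) ∣ coeff p Gs - 9 * z) :=
  prime_b hp (star_Gs (by omega)) hz

end E8T3
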