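import Pool.Agent.E8T3.Q1
import Pool.Agent.E8T3.Q2
import Pool.Agent.E8T3.Z
import Pool.Agent.E8G.GC

/-!
# [E8T3-Q3] the result, over the theorem on the newform
-/

set_option autoImplicit false

open PowerSeries
open N19 (ex)
open E8T
open Pool.Agent.MP130199 (IsDesign)

namespace E8T3

/-- `(x³ - 3 x + 1)³ - 24` has a root modulo `p` -/
def Rt (p : ℕ) : Prop := ∃ x : ℤ, (p : ℤ) ∣ (x ^ 3 - 3 * x + 1) ^ 3 - 24

theorem rt_iff (p : ℕ) : (∃ x : ZMod p, (x ^ 3 - 3 * x + 1) ^ 3 = 24) ↔ Rt p := by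
  constructor
  · rintro ⟨x, hx⟩
    obtain ⟨y, rfl⟩ := ZMod.intCast_surjective x
    refine ⟨y, ?_⟩
    rw [← ZMod.intCast_zmod_eq_zero_iff_dvd]
    push_cast
    rw [hx, sub_self]
  · rintro ⟨y, hy⟩
    refine ⟨(y : ZMod p), ?_⟩
    rw [← ZMod.intCast_zmod_eq_zero_iff_dvd] at hy
    push_cast at hy
    exact sub_eq_zero.1 hy

/-- the theorem on the newform of level `81` -/
def Hyp : Prop := ∀ p : ℕ, p.Prime → 81 ∣ p + 1 →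
  (9 : ℤ) ∣ coeff p Gs ∧ ((27 : ℤ) ∣ coeff p Gs ↔ ∃ x : ZMod p, (x ^ 3 - 3 * x + 1) ^ 3 = 24)

theorem PS_prime81 {p : ℕ} (hp : p.Prime) {m : ℤ} (hm : (p : ℤ) + 1 = 81 * m) :
    ∃ Q : ℤ, PS p = 21870 * m + 6561 * Q := by
  have h1 := E8X.g2_sigma (k := 1) hp
  have hp' : (p : ℤ) = 81 * m - 1 := by linarith
  rw [PS, E8X.g2_sigma hp, E8X.g2_sigma hp, h1, hp']
  refine ⟨(-27) * m ^ 2 +
    (3645) * m ^ 3 +
    (19683) * m ^ 4 +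
    (531441) * m ^ 5, ?_⟩
  ring

theorem tau81 {p : ℕ} (hp : p.Prime) {m : ℤ} (hm : (p : ℤ) + 1 = 81 * m)
    (hb : (9 : ℤ) ∣ coeff p Gs) :
    (6561 : ℤ) ∣ E8X.tau p - 16 * (p + 1) + 243 * coeff p Gs := by
  obtain ⟨Q, hQ⟩ := PS_prime81 hp hm
  obtain ⟨b, hb⟩ := hb
  have h1 := tau_Gs (n := p) (by omega)
  rw [E8X.g2_sigma hp, hQ, hb] at h1
  obtain ⟨k, hk⟩ := h1
  have e11 : ∃ M : ℤ, 1 + (p : ℤ) ^ 11 = 891 * m + 6561 * M := by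
    have hp' : (p : ℤ) = 81 * m - 1 := by linarith
    rw [hp']
    refine ⟨(-55) * m ^ 2 +
    (13365) * m ^ 3 +
    (-2165130) * m ^ 4 +
    (245525742) * m ^ 5 +
    (-19887585102) * m ^ 6 +
    (1150638852330) * m ^ 7 +
    (-46600873519365) * m ^ 8 +
    (1258223585022855) * m ^ 9 +
    (-20383222077370251) * m ^ 10 +
    (150094635296999121) * m ^ 11, ?_⟩
    ring
  obtain ⟨M, hM⟩ := e11
  rw [hb, hm]
  have h2 : 683 * (E8X.tau p - 16 * (81 * m) + 243 * (9 * b)) =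
      6561 * (k - 8 * M + 6 * Q + 20 * m - 136 * m + 227 * b) := by
    linear_combination hk - 8 * hM
  refine ⟨3122 * (k - 8 * M + 6 * Q + 20 * m - 136 * m + 227 * b) -
    325 * (E8X.tau p - 16 * (81 * m) + 243 * (9 * b)), ?_⟩
  linear_combination 3122 * h2

/-- For all primes `≡ -1 mod 81`. -/
theorem q3_digits (H : Hyp) {p : ℕ} (hp : p.Prime) (h81 : 81 ∣ p + 1) :
    (9 : ℤ) ∣ bn p ∧ (2187 : ℤ) ∣ E8X.tau p - 16 * (p + 1) ∧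
      (6561 : ℤ) ∣ E8X.tau p - 16 * (p + 1) + 243 * bn p ∧ ((27 : ℤ) ∣ bn p ↔ Rt p) ∧
      ((6561 : ℤ) ∣ E8X.tau p - 16 * (p + 1) ↔ Rt p) := by
  obtain ⟨h1, h2⟩ := H p hp h81
  obtain ⟨m, hm⟩ := h81
  have h3 := tau81 hp (m := (m : ℤ)) (by exact_mod_cast hm) h1
  rw [rt_iff] at h2
  rw [← bn_eq] at h1 h2 h3
  refine ⟨h1, ?_, h3, h2, ?_⟩
  · obtain ⟨b, hb⟩ := h1
    obtain ⟨k, hk⟩ := h3
    exact ⟨3 * k - b, by linarith⟩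
  · rw [← h2]
    constructor
    · intro h
      have := dvd_sub h3 h
      obtain ⟨k, hk⟩ := this
      exact ⟨k, by linarith⟩
    · intro h
      obtain ⟨k, hk⟩ := h
      obtain ⟨l, hl⟩ := h3
      exact ⟨l - k, by linarith⟩

/-- The conditions of the result at a prime `p`. -/
def Cond (p v : ℕ) : Prop :=
  p + 1 = 2 ^ 14 * 3 ^ 7 * v ∧ (Rt p ↔ 3 ∣ v) ∧
    ((Odd v ∧ E8G.rN p = 2) ∨ (Even v ∧ E8G.rN p = 6)) ∧
    bn p ≡ 9 * (v : ℤ) [ZMOD 27] ∧ E8G.aN p ≡ -16 * (v : ℤ) [ZMOD 64] ∧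
    R 5 p ≡ 15 * v [MOD 27] ∧ (E8X.reps p).card ≡ 9 * v [MOD 16] ∧
    8 * (p ^ 11 + 1) = 393923898 * R 5 p + 50296324194 * R 8 p + 284967167256 * R 11 p

/-- At a prime with `τ(p) = 0`. -/
theorem q3_zero (H : Hyp) {p : ℕ} (hp : p.Prime) (h0 : E8X.tau p = 0) : ∃ v : ℕ, Cond p v := by
  obtain ⟨h2, z, hz, hR⟩ := prime_cond7 hp h0
  obtain ⟨u, hu, hs, ha, hr⟩ := E8G.gc_zero hp h0
  have hz0 : 0 ≤ z := by omega
  obtain ⟨z, rfl⟩ := Int.eq_ofNat_of_zero_le hz0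
  have h3 : 3 ^ 7 ∣ p + 1 := ⟨z, by norm_num; exact_mod_cast hz⟩
  have h4 : 2 ^ 14 ∣ p + 1 := ⟨u, hu⟩
  obtain ⟨v, hv⟩ := Nat.Coprime.mul_dvd_of_dvd_of_dvd (by norm_num) h4 h3
  have huv : u = 3 ^ 7 * v := by
    have : 2 ^ 14 * u = 2 ^ 14 * (3 ^ 7 * v) := by rw [← hu, hv, mul_assoc]
    exact Nat.eq_of_mul_eq_mul_left (by norm_num) this
  have hd := q3_digits H hp (Dvd.dvd.trans (by norm_num) h3)
  obtain ⟨d1, d2, d3, d4, d5⟩ := hd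
  have hpv : (p : ℤ) + 1 = 35831808 * (v : ℤ) := by
    have : ((p + 1 : ℕ) : ℤ) = ((2 ^ 14 * 3 ^ 7 * v : ℕ) : ℤ) := by rw [hv]
    push_cast at this
    linarith
  have hzv : (z : ℤ) = 16384 * (v : ℤ) := by linarith
  refine ⟨v, hv, ?_, ?_, ?_, ?_, ?_, ?_, ?_⟩
  · rw [← d5, h0, hpv]
    constructor
    · rintro ⟨k, hk⟩
      have h5 : (v : ℤ) * 262144 = -(3 * k) := by linarith
      have h6 : (3 : ℤ) ∣ v := ⟨-k - 87381 * v, by linarith⟩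
      exact_mod_cast h6
    · rintro ⟨k, rfl⟩
      refine ⟨-262144 * k, ?_⟩
      push_cast
      ring
  · rw [huv] at hr
    rcases hr with ⟨h5, h6⟩ | ⟨h5, h6⟩
    · exact Or.inl ⟨(Nat.odd_mul.1 h5).2, h6⟩
    · refine Or.inr ⟨?_, h6⟩
      rw [Nat.even_mul] at h5
      rcases h5 with h5 | h5
      · exact absurd h5 (by decide)
      · exact h5
  · rw [h0, hpv] at d3
    rw [Int.modEq_iff_dvd]
    obtain ⟨k, hk⟩ := d3
    exact ⟨-k - 87381 * v, by linarith⟩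
  · rw [Int.modEq_iff_dvd]
    rw [huv] at ha
    push_cast at ha
    obtain ⟨k, hk⟩ := ha
    exact ⟨k - 547 * v, by linarith⟩
  · rw [tj_R 5 p (Or.inl rfl), hzv] at hR
    refine ((Nat.modEq_iff_dvd (n := 27) (a := 15 * v) (b := R 5 p)).2 ?_).symm
    push_cast
    obtain ⟨k, hk⟩ := hR
    exact ⟨k + 14563 * v, by linarith⟩
  · rw [huv] at hs
    refine ((Nat.modEq_iff_dvd (n := 16) (a := 9 * v) (b := (E8X.reps p).card)).2 ?_).symm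
    push_cast at hs ⊢
    obtain ⟨k, hk⟩ := hs
    exact ⟨k + 1503 * v, by linarith⟩
  · have h1 := main_id h2
    rw [h0, E8X.g2_sigma hp, tj_R 5 p (Or.inl rfl), tj_R 8 p (Or.inr (Or.inl rfl)),
      tj_R 11 p (Or.inr (Or.inr rfl))] at h1
    have h3 : (8 * ((p : ℤ) ^ 11 + 1)) =
        393923898 * (R 5 p : ℤ) + 50296324194 * (R 8 p : ℤ) + 284967167256 * (R 11 p : ℤ) := by
      linarith
    exact_mod_cast h3

/-- For the shells. -/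
theorem q3_design (H : Hyp) {m : ℕ} (hm : 0 < m) (hd : IsDesign m 8) :
    ∃ p : ℕ, p.Prime ∧ Odd (m.factorization p) ∧ ∃ v : ℕ, Cond p v := by
  obtain ⟨p, hp, ho, h0⟩ := E8X.tau_zero_prime hm (E8X.tau_eq_zero hd)
  exact ⟨p, hp, ho, q3_zero H hp h0⟩

/-- a prime with `τ(p) ≠ 0` gives infinitely many shells without the design property -/
theorem q3_not {p : ℕ} (hp : p.Prime) (h : E8X.tau p ≠ 0) {k : ℕ} (hk : 0 < k)
    (hq : ∀ q : ℕ, q.Prime → 2 ^ 14 * 3 ^ 7 ∣ q + 1 → Even (k.factorization q)) :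
    ¬ IsDesign (p * k) 8 := by
  intro hd
  obtain ⟨q, hq', ho, h0⟩ := E8X.tau_zero_prime (Nat.mul_pos hp.pos hk) (E8X.tau_eq_zero hd)
  rw [Nat.factorization_mul hp.ne_zero hk.ne', Finsupp.add_apply, hp.factorization] at ho
  by_cases hpq : p = q
  · rw [hpq] at h
    exact h h0
  · rw [Finsupp.single_eq_of_ne (Ne.symm hpq), zero_add] at ho
    obtain ⟨z, hz, -⟩ := E8X.prime_cond hq' h0
    obtain ⟨-, y, hy, -⟩ := prime_cond7 hq' h0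
    refine (Nat.not_odd_iff_even.2 (hq q hq' ?_)) ho
    have h1 : (2 ^ 14 : ℤ) ∣ ((q + 1 : ℕ) : ℤ) := by
      push_cast
      rw [hz]
      exact ⟨z, by norm_num⟩
    have h2 : (3 ^ 7 : ℤ) ∣ ((q + 1 : ℕ) : ℤ) := by
      push_cast
      rw [hy]
      exact ⟨y, by norm_num⟩
    exact Nat.Coprime.mul_dvd_of_dvd_of_dvd (by norm_num) (by exact_mod_cast h1)
      (by exact_mod_cast h2)

/-- a prime divisible test: `3^7 ∥ p + 1` with a root, or `3^8 ∣ p + 1` without root -/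
theorem q3_ne (H : Hyp) {p : ℕ} (hp : p.Prime)
    (h : (Rt p ∧ ¬ 3 ^ 8 ∣ p + 1) ∨ (¬ Rt p ∧ 3 ^ 8 ∣ p + 1)) : E8X.tau p ≠ 0 := by
  intro h0
  obtain ⟨v, hv, h1, -⟩ := q3_zero H hp h0
  have h2 : 3 ^ 8 ∣ p + 1 ↔ 3 ∣ v := by
    rw [hv]
    constructor
    · rintro ⟨k, hk⟩
      omega
    · rintro ⟨k, rfl⟩
      exact ⟨2 ^ 14 * k, by ring⟩
  rw [h1, h2] at h
  tauto

/-- the explicit prime -/
theorem q3_M (H : Hyp) : E8X.tau 816212625976889800703999 ≠ 0 := by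
  refine q3_ne H M_prime (Or.inr ⟨?_, by norm_num⟩)
  rw [← rt_iff]
  exact M_noroot

/-- the family -/
theorem q3_family (H : Hyp) {v p : ℕ} (hp : p.Prime)
    (hX : (p : ℤ) = 9 * (9 * (v : ℤ) ^ 2 * (v + 1) - 1) ^ 3 + 8)
    (h : v % 9 = 3 ∨ v % 9 = 6 ∨ v % 27 = 8 ∨ v % 27 = 17) : E8X.tau p ≠ 0 := by
  refine q3_ne H hp (Or.inl ⟨⟨-(1 + 3 * v), ?_⟩, ?_⟩)
  · refine ⟨-3, ?_⟩
    rw [hX]
    ring
  · have e : (p : ℤ) + 1 = 243 * ((v : ℤ) ^ 2 * (v + 1) *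
        (1 + 27 * ((v : ℤ) ^ 2 * (v + 1)) ^ 2 - 9 * ((v : ℤ) ^ 2 * (v + 1)))) := by
      rw [hX]
      ring
    rintro ⟨k, hk⟩
    have e2 : ((p + 1 : ℕ) : ℤ) = ((3 ^ 8 * k : ℕ) : ℤ) := by rw [hk]
    push_cast at e2
    rw [e] at e2
    have h27 : ((v : ℤ) ^ 2 * (v + 1)) % 27 = 9 ∨ ((v : ℤ) ^ 2 * (v + 1)) % 27 = 18 := by
      have hv : (v : ℤ) % 27 = 3 ∨ (v : ℤ) % 27 = 12 ∨ (v : ℤ) % 27 = 21 ∨ (v : ℤ) % 27 = 6 ∨
        (v : ℤ) % 27 = 15 ∨ (v : ℤ) % 27 = 24 ∨ (v : ℤ) % 27 = 8 ∨ (v : ℤ) % 27 = 17 := by omega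
      rw [Int.mul_emod ((v : ℤ) ^ 2), pow_two, Int.mul_emod (v : ℤ) (v : ℤ), Int.add_emod (v : ℤ) 1]
      rcases hv with hv | hv | hv | hv | hv | hv | hv | hv <;> rw [hv] <;> decide
    generalize ((v : ℤ) ^ 2 * (v + 1)) = t at e2 h27
    obtain ⟨j, hj⟩ : ∃ j : ℤ, t = 9 * j ∧ ¬ 3 ∣ j := ⟨t / 9, by omega, by omega⟩
    obtain ⟨rfl, hj3⟩ := hj
    apply hj3
    have e3 : j * (1 + 27 * (9 * j) ^ 2 - 9 * (9 * j)) = 3 * k := by linarith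
    refine ⟨(k : ℤ) - j * (9 * (9 * j) ^ 2 - 3 * (9 * j)), ?_⟩
    linarith

end E8T3
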