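import Pool.Agent.E8T3.RD

/-!
# [E8T3] row (d2): the fibres and the image of `f`
-/

set_option autoImplicit false

open WeierstrassCurve WeierstrassCurve.Affine

namespace E8T3

section

variable {K : Type*} [Field K]

theorem r2_m {o A B : K} (ho : o ^ 2 + o + 1 = 0) :
    3 - (1 + A + B) - (1 + o * A + o ^ 2 * B) = 1 + o ^ 2 * A + o * B := by
  linear_combination (-(A + B)) * ho

theorem r2_prod {o b A B : K} (ho : o ^ 2 + o + 1 = 0) (hAB : A ^ 3 + B ^ 3 - 3 * (A * B) + 1 = b) :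
    (1 + A + B) * (1 + o * A + o ^ 2 * B) * (3 - (1 + A + B) - (1 + o * A + o ^ 2 * B)) = b := by
  rw [r2_m ho, ← hAB]
  linear_combination (A^3*o-A^3+A^2*B*o^2+A^2*o+A*B^2*o^2+A*B*o^2-A*B*o+3*A*B+A+B^3*o-B^3+B^2*o+B) * ho

/-- Two points with the same `AB` and `B³`. -/
theorem r2_ab {o b A B A' B' : K} (ho : o ^ 2 + o + 1 = 0)
    (h1 : A ^ 3 + B ^ 3 - 3 * (A * B) + 1 = b) (h2 : A' ^ 3 + B' ^ 3 - 3 * (A' * B') + 1 = b)
    (h3 : A * B = A' * B') (h4 : B ^ 3 = B' ^ 3) :
    (A' = A ∧ B' = B) ∨ (A' = o ^ 2 * A ∧ B' = o * B) ∨ (A' = o * A ∧ B' = o ^ 2 * B) := by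
  have ho3 : o ^ 3 = 1 := by linear_combination (o - 1) * ho
  have cube : ∀ u v : K, u ^ 3 = v ^ 3 → v = u ∨ v = o * u ∨ v = o ^ 2 * u := by
    intro u v h
    have h5 : (v - u) * ((v - o * u) * (v - o ^ 2 * u)) = 0 := by
      linear_combination (-1) * h + (-u*v^2 + o*u^2*v - u^3*o + u^3) * ho
    rcases mul_eq_zero.1 h5 with h6 | h6
    · left
      linear_combination h6
    · rcases mul_eq_zero.1 h6 with h7 | h7
      · right; left
        linear_combination h7
      · right; right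
        linear_combination h7
  have h5 : A ^ 3 = A' ^ 3 := by linear_combination h1 - h2 + 3 * h3 - h4
  by_cases hB : B = 0
  · have hB' : B' = 0 := by
      rw [hB] at h4
      have : B' ^ 3 = 0 := by rw [← h4]; ring
      exact pow_eq_zero_iff (by norm_num) |>.1 this
    rcases cube A A' h5 with h | h | h
    · exact Or.inl ⟨h, by rw [hB, hB']⟩
    · exact Or.inr (Or.inr ⟨h, by rw [hB, hB', mul_zero]⟩)
    · exact Or.inr (Or.inl ⟨h, by rw [hB, hB', mul_zero]⟩)
  · rcases cube B B' h4 with h | h | h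
    · refine Or.inl ⟨?_, h⟩
      rw [h] at h3
      exact (mul_right_cancel₀ hB h3).symm
    · refine Or.inr (Or.inl ⟨?_, h⟩)
      rw [h] at h3
      refine mul_right_cancel₀ hB ?_
      linear_combination (-(o ^ 2)) * h3 - A' * B * ho3
    · refine Or.inr (Or.inr ⟨?_, h⟩)
      rw [h] at h3
      refine mul_right_cancel₀ hB ?_
      linear_combination (-o) * h3 - A' * B * ho3

end

section

variable {K : Type*} [Field K] {p : ℕ} [Fact p.Prime] [CharP K p] {o b : K}

theorem r2_ns (ho : o ^ 2 + o + 1 = 0) (h3 : (3 : K) ≠ 0) (hbp : b ^ p = 1 - b) (hb0 : b ≠ 0)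
    (hb1 : b ≠ 1) {x y : K} (hx : x ≠ 0) (h : (W b).Equation x y) :
    (W b).Nonsingular ((-(aA o b x y * aB o b x y)) ^ p) ((aB o b x y ^ 3) ^ p) := by
  refine W_ns h3 hb0 hb1 ?_
  have h1 := al_eq ho h3 hb0 hx h
  rw [W_eq] at h1 ⊢
  generalize -(aA o b x y * aB o b x y) = u at h1 ⊢
  generalize aB o b x y ^ 3 = v at h1 ⊢
  have h2 := congrArg (frobenius K p) h1
  have e1 : frobenius K p (1 - b) = b := by
    rw [map_sub, map_one, frobenius_def, hbp]
    ring
  have e3 : frobenius K p 3 = 3 := map_ofNat _ 3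
  rw [map_add, map_add, map_mul, map_mul, map_mul, map_pow, map_pow, e1, e3, frobenius_def,
    frobenius_def] at h2
  exact h2

theorem r2_some (ho : o ^ 2 + o + 1 = 0) (h3 : (3 : K) ≠ 0) (hbp : b ^ p = 1 - b) (hb0 : b ≠ 0)
    (hb1 : b ≠ 1) {x y : K} (hx : x ≠ 0) (h : (W b).Nonsingular x y) :
    f p o b (Point.some x y h) = Point.some _ _ (r2_ns ho h3 hbp hb0 hb1 hx h.1) := by
  classical
  have h1 := r2_ns ho h3 hbp hb0 hb1 hx h.1
  show (if h : x ≠ 0 ∧ (W b).Nonsingular ((-(aA o b x y * aB o b x y)) ^ p)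
    ((aB o b x y ^ 3) ^ p) then Point.some _ _ h.2 else 0) = _
  rw [dif_pos ⟨hx, h1⟩]

omit [Fact p.Prime] [CharP K p] in
theorem r2_x0 {y : K} (h : (W b).Nonsingular 0 y) : f p o b (Point.some 0 y h) = 0 := by
  classical
  show (if h : (0 : K) ≠ 0 ∧ (W b).Nonsingular ((-(aA o b 0 y * aB o b 0 y)) ^ p)
    ((aB o b 0 y ^ 3) ^ p) then Point.some _ _ h.2 else 0) = _
  rw [dif_neg fun h => h.1 rfl]

/-- Every solution `(A, B)` gives a point. -/
theorem r2_sur (ho : o ^ 2 + o + 1 = 0) (h3 : (3 : K) ≠ 0) (hbp : b ^ p = 1 - b) (hb0 : b ≠ 0)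
    (hb1 : b ≠ 1) {A B : K} (hAB : A ^ 3 + B ^ 3 - 3 * (A * B) + 1 = b) {x y : K}
    (hns : (W b).Nonsingular x y) (hx : (-(A * B)) ^ p = x) (hy : (B ^ 3) ^ p = y) :
    ∃ Q, f p o b Q = Point.some x y hns := by
  have h := r2_prod ho hAB
  set m0 : K := 1 + A + B with hm0
  set m1 : K := 1 + o * A + o ^ 2 * B with hm1
  have e2 : 3 - m0 - m1 = 1 + o ^ 2 * A + o * B := r2_m ho
  have h0 : m0 ≠ 0 := by
    intro h0
    exact hb0 (by rw [← h, h0]; ring)
  have h1 : m1 ≠ 0 := by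
    intro h1
    exact hb0 (by rw [← h, h1]; ring)
  obtain ⟨eA, eB, -, -⟩ := aAB_m ho h3 hb0 h
  have ho3 : o ^ 3 = 1 := by linear_combination (o - 1) * ho
  have eA' : aA o b (-(m0 * m1)) (m0 ^ 2 * m1) = A := by
    rw [eA, e2, hm0, hm1]
    field_simp
    linear_combination (1 + 2 * A * (o - 1) + B * (o ^ 2 - o + 1)) * ho
  have eB' : aB o b (-(m0 * m1)) (m0 ^ 2 * m1) = B := by
    rw [eB, e2, hm0, hm1]
    field_simp
    linear_combination (1 + 2 * B * (o - 1) + A * (o ^ 2 - o + 1)) * ho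
  refine ⟨pt h3 hb0 hb1 h, ?_⟩
  have hx0 : -(m0 * m1) ≠ 0 := neg_ne_zero.2 (mul_ne_zero h0 h1)
  rw [pt, r2_some ho h3 hbp hb0 hb1 hx0]
  simp only [Point.some.injEq]
  rw [eA', eB']
  exact ⟨hx, hy⟩

end

section

variable {K : Type*} [Field K] {p : ℕ} [Fact p.Prime] [CharP K p] [DecidableEq K] {o b : K}

theorem T_add_T (h3 : (3 : K) ≠ 0) (hb0 : b ≠ 0) (hb1 : b ≠ 1) :
    T h3 hb0 hb1 + T h3 hb0 hb1 = -T h3 hb0 hb1 := by
  have h1 : (W b).Nonsingular 0 (-b) := W_ns h3 hb0 hb1 (W_eq.2 (by ring))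
  have e1 : -T h3 hb0 hb1 = Point.some _ _ h1 := by
    rw [T, Point.neg_some]
    simp only [Point.some.injEq, true_and]
    rw [negY_eq]
    ring
  rw [e1, T]
  refine add_self (l := 0) ?_ ?_ ?_ ?_
  · rw [mul_zero, mul_zero, zero_add, zero_add]
    exact hb0
  · ring
  · ring
  · ring

omit [DecidableEq K] in
/-- The points with `x = 0`. -/
theorem r2_ker (h3 : (3 : K) ≠ 0) (hb0 : b ≠ 0) (hb1 : b ≠ 1) {y : K}
    (h : (W b).Nonsingular 0 y) :
    Point.some 0 y h = T h3 hb0 hb1 ∨ Point.some 0 y h = -T h3 hb0 hb1 := by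
  have h1 := W_eq.1 h.1
  have h2 : y * (y + b) = 0 := by linear_combination h1
  rcases mul_eq_zero.1 h2 with h4 | h4
  · subst h4
    left
    rfl
  · have h5 : y = -b := by linear_combination h4
    subst h5
    right
    rw [T, Point.neg_some]
    simp only [Point.some.injEq, true_and]
    rw [negY_eq]
    ring

/-- The fibres of `f`. -/
theorem f_fib (ho : o ^ 2 + o + 1 = 0) (h3 : (3 : K) ≠ 0) (hbp : b ^ p = 1 - b) (hb0 : b ≠ 0)
    (hb1 : b ≠ 1) {P P' : (W b).Point} (h : f p o b P = f p o b P') :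
    P' - P = 0 ∨ P' - P = T h3 hb0 hb1 ∨ P' - P = -T h3 hb0 hb1 := by
  have h2T := T_add_T (K := K) h3 hb0 hb1
  have h3T : T h3 hb0 hb1 + T h3 hb0 hb1 + T h3 hb0 hb1 = 0 := by rw [h2T, neg_add_cancel]
  have hmT : -T h3 hb0 hb1 + -T h3 hb0 hb1 = T h3 hb0 hb1 := by
    rw [← neg_add, h2T, neg_neg]
  have hker : ∀ Q : (W b).Point, f p o b Q = 0 →
      Q = 0 ∨ Q = T h3 hb0 hb1 ∨ Q = -T h3 hb0 hb1 := by
    rintro (_ | ⟨x, y, hQ⟩) h4
    · left; rfl
    · by_cases hx : x = 0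
      · subst hx
        right
        exact r2_ker h3 hb0 hb1 hQ
      · rw [r2_some ho h3 hbp hb0 hb1 hx] at h4
        exact absurd h4 (by rintro ⟨⟩)
  by_cases h0 : f p o b P = 0
  · have h0' : f p o b P' = 0 := by rw [← h, h0]
    rcases hker P h0 with rfl | rfl | rfl <;> rcases hker P' h0' with rfl | rfl | rfl
    · left; rw [sub_zero]
    · right; left; rw [sub_zero]
    · right; right; rw [sub_zero]
    · right; right; rw [zero_sub]
    · left; rw [sub_self]
    · right; left; rw [sub_eq_add_neg, hmT]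
    · right; left; rw [zero_sub, neg_neg]
    · right; right; rw [sub_neg_eq_add, h2T]
    · left; rw [sub_self]
  · have h0' : f p o b P' ≠ 0 := by rwa [← h]
    rcases P with _ | ⟨x, y, hP⟩
    · exact absurd rfl h0
    rcases P' with _ | ⟨x', y', hP'⟩
    · exact absurd rfl h0'
    have hx : x ≠ 0 := by
      rintro rfl
      exact h0 (r2_x0 hP)
    have hx' : x' ≠ 0 := by
      rintro rfl
      exact h0' (r2_x0 hP')
    rw [r2_some ho h3 hbp hb0 hb1 hx, r2_some ho h3 hbp hb0 hb1 hx'] at h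
    simp only [Point.some.injEq] at h
    obtain ⟨h4, h5⟩ := h
    have h6 : -(aA o b x y * aB o b x y) = -(aA o b x' y' * aB o b x' y') :=
      frobenius_inj K p h4
    have h7 : aB o b x y ^ 3 = aB o b x' y' ^ 3 := frobenius_inj K p h5
    have q1 := aAB_eq ho h3 hb0 hx hP.1
    have q2 := aAB_eq ho h3 hb0 hx' hP'.1
    have q3 := r2_ab ho q1 q2 (neg_injective h6) h7
    obtain ⟨m0, m1, hm, rfl, rfl, -⟩ := W_m hx hP.1
    obtain ⟨n0, n1, hn, rfl, rfl, -⟩ := W_m hx' hP'.1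
    obtain ⟨-, -, a0, a1⟩ := aAB_m ho h3 hb0 hm
    obtain ⟨-, -, c0, c1⟩ := aAB_m ho h3 hb0 hn
    have ho3 : o ^ 3 = 1 := by linear_combination (o - 1) * ho
    have a2 : 3 - m0 - m1 = 1 + o ^ 2 * aA o b (-(m0 * m1)) (m0 ^ 2 * m1) +
        o * aB o b (-(m0 * m1)) (m0 ^ 2 * m1) := by
      have := r2_m (A := aA o b (-(m0 * m1)) (m0 ^ 2 * m1)) (B := aB o b (-(m0 * m1)) (m0 ^ 2 * m1)) ho
      rwa [a0, a1] at this
    have eP : Point.some _ _ hP = pt h3 hb0 hb1 hm := rfl
    have eP' : Point.some _ _ hP' = pt h3 hb0 hb1 hn := rfl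
    rw [eP, eP']
    rcases q3 with ⟨k1, k2⟩ | ⟨k1, k2⟩ | ⟨k1, k2⟩
    · left
      have l0 : n0 = m0 := by rw [← c0, k1, k2, a0]
      have l1 : n1 = m1 := by rw [← c1, k1, k2, a1]
      subst l0
      subst l1
      rw [sub_self]
    · right; left
      have l0 : n0 = 3 - m0 - m1 := by
        rw [a2, ← c0, k1, k2]
      have l1 : n1 = m0 := by
        rw [← c1, k1, k2]
        conv_rhs => rw [← a0]
        linear_combination (aA o b (-(m0 * m1)) (m0 ^ 2 * m1) +
          aB o b (-(m0 * m1)) (m0 ^ 2 * m1)) * ho3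
      rw [sub_eq_iff_eq_add, add_comm, pt_add_T h3 hb0 hb1 hm rfl]
      subst l1
      subst l0
      rfl
    · right; right
      have l0 : n0 = m1 := by
        rw [← c0, k1, k2, a1]
      have l1 : n1 = 3 - m0 - m1 := by
        rw [a2, ← c1, k1, k2]
        linear_combination (o * aB o b (-(m0 * m1)) (m0 ^ 2 * m1)) * ho3
      have l2 : m0 = 3 - n0 - n1 := by
        rw [l0, l1]
        ring
      have e5 := pt_add_T h3 hb0 hb1 hn l2
      rw [sub_eq_iff_eq_add, ← sub_eq_neg_add, eq_sub_iff_add_eq, e5]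
      subst l0
      rfl

/-- The image of `f`. -/
theorem f_range {s : K} (ho : o ^ 2 + o + 1 = 0) (hop : o ^ p = o ^ 2)
    (hK : ∀ x : K, (x ^ p) ^ p = x) (h3 : (3 : K) ≠ 0) (hb : b = -o) (hs : s ^ 3 = o)
    (hbp : b ^ p = 1 - b) (hb0 : b ≠ 0) (hb1 : b ≠ 1) (P : (W b).Point) :
    (∃ Q, f p o b Q = P) ↔ P = 0 ∨ ∃ x y h c, P = Point.some x y h ∧ y = c ^ 3 := by
  have hp0 : p ≠ 0 := (Fact.out : p.Prime).ne_zero
  have ho3 : o ^ 3 = 1 := by linear_combination (o - 1) * ho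
  constructor
  · rintro ⟨Q, rfl⟩
    rcases Q with _ | ⟨x, y, h⟩
    · left; rfl
    · by_cases hx : x = 0
      · subst hx
        left
        exact r2_x0 h
      · right
        refine ⟨_, _, _, aB o b x y ^ p, r2_some ho h3 hbp hb0 hb1 hx h, ?_⟩
        ring
  · rintro (rfl | ⟨x, y, h, c, rfl, hc⟩)
    · exact ⟨0, rfl⟩
    · have h1 := W_eq.1 h.1
      by_cases hx : x = 0
      · subst hx
        have h2 : y * (y + b) = 0 := by linear_combination h1
        rcases mul_eq_zero.1 h2 with h4 | h4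
        · refine r2_sur ho h3 hbp hb0 hb1 (A := s ^ 2) (B := 0) ?_ h ?_ ?_
          · have : (s ^ 2) ^ 3 = o ^ 2 := by rw [← hs]; ring
            rw [this, hb]
            linear_combination ho
          · rw [mul_zero, neg_zero, zero_pow hp0]
          · rw [h4, zero_pow (by norm_num), zero_pow hp0]
        · have h5 : y = o := by rw [hb] at h4; linear_combination h4
          refine r2_sur ho h3 hbp hb0 hb1 (A := 0) (B := s ^ 2) ?_ h ?_ ?_
          · have : (s ^ 2) ^ 3 = o ^ 2 := by rw [← hs]; ring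
            rw [this, hb]
            linear_combination ho
          · rw [zero_mul, neg_zero, zero_pow hp0]
          · have : (s ^ 2) ^ 3 = o ^ 2 := by rw [← hs]; ring
            rw [this, ← pow_mul, mul_comm, pow_mul, hop, h5]
            linear_combination o * ho3
      · have hy : y ≠ 0 := by
          rintro rfl
          apply hx
          have : x ^ 3 = 0 := by rw [← h1]; ring
          exact pow_eq_zero_iff (by norm_num) |>.1 this
        have hc0 : c ≠ 0 := by
          rintro rfl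
          exact hy (by rw [hc]; ring)
        have hcp : c ^ p ≠ 0 := pow_ne_zero _ hc0
        have h2 := congrArg (frobenius K p) h1
        have e3 : frobenius K p 3 = 3 := map_ofNat _ 3
        rw [map_add, map_add, map_mul, map_mul, map_mul, map_pow, map_pow, e3, frobenius_def,
          frobenius_def, frobenius_def, hbp, hc] at h2
        have e4 : (c ^ 3) ^ p = (c ^ p) ^ 3 := by rw [← pow_mul, ← pow_mul, mul_comm]
        rw [e4] at h2
        refine r2_sur ho h3 hbp hb0 hb1 (A := -(x ^ p) / c ^ p) (B := c ^ p) ?_ h ?_ ?_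
        · field_simp
          linear_combination h2
        · have : -(-(x ^ p) / c ^ p * c ^ p) = x ^ p := by
            field_simp
          rw [this, hK]
        · rw [hc, ← pow_mul, mul_comm 3 p, pow_mul, hK]

end

end E8T3
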