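import Mathlib

/-!
# [E8T3] rows (d2), (d3): the curve `y² + 3 x y + b y = x³` in symmetric coordinates

`m₀ = -y/x`, `m₁ = (y + 3x + b)/x`, `m₂ = -b/x`; `m₀ + m₁ + m₂ = 3`, `m₀ m₁ m₂ = b`, `x = -m₀ m₁`, `y = m₀² m₁`.
-/

set_option autoImplicit false

open WeierstrassCurve WeierstrassCurve.Affine

namespace E8T3

variable {K : Type*} [Field K]

/-- `y² + 3 x y + b y = x³` -/
def W (b : K) : WeierstrassCurve.Affine K := (⟨3, 0, b, 0, 0⟩ : WeierstrassCurve K)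

theorem W_eq {b x y : K} : (W b).Equation x y ↔ y ^ 2 + 3 * x * y + b * y = x ^ 3 := by
  rw [WeierstrassCurve.Affine.equation_iff]
  show y ^ 2 + 3 * x * y + b * y = x ^ 3 + 0 * x ^ 2 + 0 * x + 0 ↔ _
  rw [zero_mul, zero_mul, add_zero, add_zero, add_zero]

theorem W_ns {b : K} (h3 : (3 : K) ≠ 0) (hb0 : b ≠ 0) (hb1 : b ≠ 1) {x y : K} (h : (W b).Equation x y) :
    (W b).Nonsingular x y := by
  rw [WeierstrassCurve.Affine.nonsingular_iff]
  refine ⟨h, ?_⟩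
  rw [W_eq] at h
  show (3 : K) * y ≠ 3 * x ^ 2 + 2 * 0 * x + 0 ∨ y ≠ -y - 3 * x - b
  by_contra hc
  rw [not_or, not_not, not_not] at hc
  obtain ⟨h1, h2⟩ := hc
  have h4 : y = x ^ 2 := mul_left_cancel₀ h3 (by linear_combination h1)
  subst h4
  have h5 : x ^ 2 * (x ^ 2 + 2 * x + b) = 0 := by linear_combination h
  rcases mul_eq_zero.1 h5 with h6 | h6
  · have h7 : x = 0 := by simpa using h6
    subst h7
    exact hb0 (by linear_combination h2)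
  · have h7 : x * (x + 1) = 0 := by linear_combination h2 - h6
    rcases mul_eq_zero.1 h7 with h8 | h8
    · subst h8
      exact hb0 (by linear_combination h6)
    · have h9 : x = -1 := by linear_combination h8
      subst h9
      exact hb1 (by linear_combination h6)

theorem W_pt {b m0 m1 : K} (h : m0 * m1 * (3 - m0 - m1) = b) : (W b).Equation (-(m0 * m1)) (m0 ^ 2 * m1) := by
  rw [W_eq]
  linear_combination (-(m0 ^ 2 * m1)) * h

theorem W_m {b x y : K} (hx : x ≠ 0) (h : (W b).Equation x y) :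
    ∃ m0 m1 : K, m0 * m1 * (3 - m0 - m1) = b ∧ x = -(m0 * m1) ∧ y = m0 ^ 2 * m1 ∧ m0 = -y / x := by
  rw [W_eq] at h
  refine ⟨-y / x, (y + 3 * x + b) / x, ?_, ?_, ?_, rfl⟩
  · field_simp
    linear_combination b * h
  · field_simp
    linear_combination (-1) * h
  · field_simp
    linear_combination (-y) * h

/-- the point with coordinates `m₀, m₁` -/
def pt {b : K} (h3 : (3 : K) ≠ 0) (hb0 : b ≠ 0) (hb1 : b ≠ 1) {m0 m1 : K} (h : m0 * m1 * (3 - m0 - m1) = b) :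
    (W b).Point := Point.some _ _ (W_ns h3 hb0 hb1 (W_pt h))

theorem T_ns {b : K} (h3 : (3 : K) ≠ 0) (hb0 : b ≠ 0) (hb1 : b ≠ 1) : (W b).Nonsingular 0 0 :=
  W_ns h3 hb0 hb1 (W_eq.2 (by ring))

/-- the point `T = (0, 0)` of order three -/
def T {b : K} (h3 : (3 : K) ≠ 0) (hb0 : b ≠ 0) (hb1 : b ≠ 1) : (W b).Point := Point.some _ _ (T_ns h3 hb0 hb1)

/-- `A = (m₀ + o² m₁ + o m₂) / 3` -/
def aA (o b x y : K) : K := (-y / x + o ^ 2 * ((y + 3 * x + b) / x) + o * (-b / x)) / 3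

/-- `B = (m₀ + o m₁ + o² m₂) / 3` -/
def aB (o b x y : K) : K := (-y / x + o * ((y + 3 * x + b) / x) + o ^ 2 * (-b / x)) / 3

/-- `A`, `B` in terms of `m₀`, `m₁` -/
theorem aAB_m {o b m0 m1 : K} (ho : o ^ 2 + o + 1 = 0) (h3 : (3 : K) ≠ 0) (hb0 : b ≠ 0)
    (h : m0 * m1 * (3 - m0 - m1) = b) :
    aA o b (-(m0 * m1)) (m0 ^ 2 * m1) = (m0 + o ^ 2 * m1 + o * (3 - m0 - m1)) / 3 ∧
    aB o b (-(m0 * m1)) (m0 ^ 2 * m1) = (m0 + o * m1 + o ^ 2 * (3 - m0 - m1)) / 3 ∧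
    1 + aA o b (-(m0 * m1)) (m0 ^ 2 * m1) + aB o b (-(m0 * m1)) (m0 ^ 2 * m1) = m0 ∧
    1 + o * aA o b (-(m0 * m1)) (m0 ^ 2 * m1) + o ^ 2 * aB o b (-(m0 * m1)) (m0 ^ 2 * m1) = m1 := by
  have hm0 : m0 ≠ 0 := by
    rintro rfl
    exact hb0 (by rw [← h]; ring)
  have hm1 : m1 ≠ 0 := by
    rintro rfl
    exact hb0 (by rw [← h]; ring)
  have e0 : -(m0 ^ 2 * m1) / (-(m0 * m1)) = m0 := by
    field_simp
  have e1 : (m0 ^ 2 * m1 + 3 * (-(m0 * m1)) + b) / (-(m0 * m1)) = m1 := by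
    rw [← h]
    field_simp
    ring
  have e2 : -b / (-(m0 * m1)) = 3 - m0 - m1 := by
    rw [← h]
    field_simp
  have hA : aA o b (-(m0 * m1)) (m0 ^ 2 * m1) = (m0 + o ^ 2 * m1 + o * (3 - m0 - m1)) / 3 := by
    rw [aA, e0, e1, e2]
  have hB : aB o b (-(m0 * m1)) (m0 ^ 2 * m1) = (m0 + o * m1 + o ^ 2 * (3 - m0 - m1)) / 3 := by
    rw [aB, e0, e1, e2]
  refine ⟨hA, hB, ?_, ?_⟩
  · rw [hA, hB]
    field_simp
    linear_combination (3 - m0) * ho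
  · rw [hA, hB]
    field_simp
    linear_combination (-m0*o^2+m0*o-m1*o^2+3*m1*o-3*m1+3*o^2-3*o+3) * ho

/-- the three-isogeny `E_b → E_(1-b)`: `A³ + B³ - 3 A B + 1 = b` -/
theorem aAB_eq {o b x y : K} (ho : o ^ 2 + o + 1 = 0) (h3 : (3 : K) ≠ 0) (hb0 : b ≠ 0) (hx : x ≠ 0)
    (h : (W b).Equation x y) : aA o b x y ^ 3 + aB o b x y ^ 3 - 3 * (aA o b x y * aB o b x y) + 1 = b := by
  obtain ⟨m0, m1, hm, rfl, rfl, -⟩ := W_m hx h
  obtain ⟨-, -, h1, h2⟩ := aAB_m ho h3 hb0 hm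
  set A := aA o b (-(m0 * m1)) (m0 ^ 2 * m1)
  set B := aB o b (-(m0 * m1)) (m0 ^ 2 * m1)
  have h4 : 3 - m0 - m1 = 1 + o ^ 2 * A + o * B := by
    rw [← h1, ← h2]
    linear_combination (-(A + B)) * ho
  have h5 : b = (1 + A + B) * (1 + o * A + o ^ 2 * B) * (1 + o ^ 2 * A + o * B) := by
    rw [← h4, h1, h2, hm]
  rw [h5]
  linear_combination (-A^3*o+A^3-A^2*B*o^2-A^2*o-A*B^2*o^2-A*B*o^2+A*B*o-3*A*B-A-B^3*o+B^3-B^2*o-B) * ho

theorem al_eq {o b x y : K} (ho : o ^ 2 + o + 1 = 0) (h3 : (3 : K) ≠ 0) (hb0 : b ≠ 0) (hx : x ≠ 0)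
    (h : (W b).Equation x y) : (W (1 - b)).Equation (-(aA o b x y * aB o b x y)) (aB o b x y ^ 3) := by
  rw [W_eq]
  linear_combination (aB o b x y ^ 3) * aAB_eq ho h3 hb0 hx h

open Classical in
/-- the composite of the isogeny with the Frobenius map -/
noncomputable def f (p : ℕ) (o b : K) : (W b).Point → (W b).Point
  | Point.zero => 0
  | Point.some x y _ =>
    if h : x ≠ 0 ∧ (W b).Nonsingular ((-(aA o b x y * aB o b x y)) ^ p) ((aB o b x y ^ 3) ^ p) then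
      Point.some _ _ h.2 else 0

theorem negY_eq {b : K} (x y : K) : (W b).negY x y = -y - 3 * x - b := rfl

theorem addX_eq {b : K} (x1 x2 l : K) : (W b).addX x1 x2 l = l ^ 2 + 3 * l - x1 - x2 := by
  show l ^ 2 + 3 * l - 0 - x1 - x2 = _
  ring

theorem addY_eq {b : K} (x1 x2 y1 l : K) : (W b).addY x1 x2 y1 l =
    -(l * ((l ^ 2 + 3 * l - x1 - x2) - x1) + y1) - 3 * (l ^ 2 + 3 * l - x1 - x2) - b := by
  rw [WeierstrassCurve.Affine.addY, WeierstrassCurve.Affine.negAddY, addX_eq, negY_eq]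

section add

variable [DecidableEq K] {b : K}

/-- addition of two points with different `x` through a given slope -/
theorem add_ne {x1 y1 x2 y2 x3 y3 l : K} {h1 : (W b).Nonsingular x1 y1} {h2 : (W b).Nonsingular x2 y2}
    {h3 : (W b).Nonsingular x3 y3} (hx : x1 ≠ x2) (hl : l * (x1 - x2) = y1 - y2)
    (e1 : x3 = l ^ 2 + 3 * l - x1 - x2) (e2 : y3 = -(l * (x3 - x1) + y1) - 3 * x3 - b) :
    Point.some _ _ h1 + Point.some _ _ h2 = Point.some _ _ h3 := by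
  have hs : (W b).slope x1 x2 y1 y2 = l := by
    rw [WeierstrassCurve.Affine.slope_of_X_ne hx, div_eq_iff (sub_ne_zero.2 hx)]
    exact hl.symm
  rw [Point.add_of_X_ne hx]
  have e3 : (W b).addX x1 x2 ((W b).slope x1 x2 y1 y2) = x3 := by
    rw [hs, addX_eq, e1]
  have e4 : (W b).addY x1 x2 y1 ((W b).slope x1 x2 y1 y2) = y3 := by
    rw [hs, addY_eq, ← e1, e2]
  congr 1

/-- doubling through a given slope -/
theorem add_self {x1 y1 x3 y3 l : K} {h1 : (W b).Nonsingular x1 y1} {h3 : (W b).Nonsingular x3 y3}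
    (hy : 2 * y1 + 3 * x1 + b ≠ 0) (hl : l * (2 * y1 + 3 * x1 + b) = 3 * x1 ^ 2 - 3 * y1)
    (e1 : x3 = l ^ 2 + 3 * l - x1 - x1) (e2 : y3 = -(l * (x3 - x1) + y1) - 3 * x3 - b) :
    Point.some _ _ h1 + Point.some _ _ h1 = Point.some _ _ h3 := by
  have hy' : y1 ≠ (W b).negY x1 y1 := by
    rw [negY_eq]
    intro h
    exact hy (by linear_combination h)
  have hs : (W b).slope x1 x1 y1 y1 = l := by
    rw [WeierstrassCurve.Affine.slope_of_Y_ne rfl hy', negY_eq]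
    show (3 * x1 ^ 2 + 2 * 0 * x1 + 0 - 3 * y1) / (y1 - (-y1 - 3 * x1 - b)) = l
    rw [div_eq_iff (by
      intro h
      exact hy (by linear_combination h))]
    linear_combination (-1) * hl
  rw [Point.add_self_of_Y_ne hy']
  have e3 : (W b).addX x1 x1 ((W b).slope x1 x1 y1 y1) = x3 := by
    rw [hs, addX_eq, e1]
  have e4 : (W b).addY x1 x1 y1 ((W b).slope x1 x1 y1 y1) = y3 := by
    rw [hs, addY_eq, ← e1, e2]
  congr 1

variable (h3 : (3 : K) ≠ 0) (hb0 : b ≠ 0) (hb1 : b ≠ 1)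

/-- translation by `T` is a rotation of `(m₀, m₁, m₂)` -/
theorem pt_add_T {m0 m1 m2 : K} (h : m0 * m1 * (3 - m0 - m1) = b) (hm : m2 = 3 - m0 - m1) :
    pt h3 hb0 hb1 h + T h3 hb0 hb1 =
      pt h3 hb0 hb1 (m0 := m2) (m1 := m0) (by rw [hm, ← h]; ring) := by
  have hm0 : m0 ≠ 0 := by
    rintro rfl
    exact hb0 (by rw [← h]; ring)
  have hm1 : m1 ≠ 0 := by
    rintro rfl
    exact hb0 (by rw [← h]; ring)
  refine add_ne (l := -m0) ?_ ?_ ?_ ?_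
  · rw [neg_ne_zero]
    exact mul_ne_zero hm0 hm1
  · ring
  · rw [hm]
    ring
  · rw [hm, ← h]
    ring

end add

end E8T3
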